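import Pool.Agent.Lib_helper80.IS.Base
import Pool.Agent.Lib_helper80.IS.Notions
import Mathlib.Topology.Homotopy.Lifting

/-! # IS, block E2 -/

set_option autoImplicit false

open Filter Topology Metric Set
open scoped Manifold ContDiff

namespace Pool.Agent.IS

open Pool.Agent.BR Pool.Agent.MBS Pool.Agent.SL

section etale

variable {E X X' : Type} [NormedAddCommGroup E] [NormedSpace ℂ E] [FiniteDimensional ℂ E]
  [TopologicalSpace X] [ChartedSpace E X] [IsManifold 𝓘(ℂ, E) ω X]
  [TopologicalSpace X'] [ChartedSpace E X'] [IsManifold 𝓘(ℂ, E) ω X']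

/-- `π` in the charts at `x` and at `y` -/
noncomputable def e2_phi (π : X' → X) (x : X') (y : X) (ξ : E) : E :=
  chartAt E y (π ((chartAt E x).symm ξ))

theorem e2_diff {π : X' → X} (hπ : MDifferentiable 𝓘(ℂ, E) 𝓘(ℂ, E) π) (x : X') (y : X) {ξ : E}
    (hξ : ξ ∈ (chartAt E x).target) (hy : π ((chartAt E x).symm ξ) ∈ (chartAt E y).source) :
    DifferentiableAt ℂ (e2_phi (E := E) π x y) ξ := by
  have h1 : MDifferentiableAt 𝓘(ℂ, E) 𝓘(ℂ, E) (chartAt E x).symm ξ :=
    mdifferentiableAt_atlas_symm (chart_mem_atlas _ _) hξ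
  have h2 : MDifferentiableAt 𝓘(ℂ, E) 𝓘(ℂ, E) π ((chartAt E x).symm ξ) := hπ _
  have h3 : MDifferentiableAt 𝓘(ℂ, E) 𝓘(ℂ, E) (chartAt E y) (π ((chartAt E x).symm ξ)) :=
    mdifferentiableAt_atlas (chart_mem_atlas _ _) hy
  have h4 : MDifferentiableAt 𝓘(ℂ, E) 𝓘(ℂ, E) (fun ξ => chartAt E y (π ((chartAt E x).symm ξ))) ξ :=
    (h3.comp ξ (h2.comp ξ h1))
  exact h4.differentiableAt

theorem e2_an {π : X' → X} (hπ : MDifferentiable 𝓘(ℂ, E) 𝓘(ℂ, E) π) (x : X') (y : X) {ξ : E}
    (hξ : ξ ∈ (chartAt E x).target) (hy : π ((chartAt E x).symm ξ) ∈ (chartAt E y).source) :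
    AnalyticAt ℂ (e2_phi (E := E) π x y) ξ := by
  have : CompleteSpace E := FiniteDimensional.complete ℂ E
  have hc : ContinuousOn (fun ξ => π ((chartAt E x).symm ξ)) (chartAt E x).target :=
    hπ.continuous.comp_continuousOn (chartAt E x).continuousOn_symm
  have hU : IsOpen ((chartAt E x).target ∩
      (fun ξ => π ((chartAt E x).symm ξ)) ⁻¹' (chartAt E y).source) :=
    hc.isOpen_inter_preimage (chartAt E x).open_target (chartAt E y).open_source
  refine SS.osgood hU (fun ζ hζ => ?_) (fun ζ hζ v => ?_) ξ ⟨hξ, hy⟩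
  · exact (e2_diff hπ x y hζ.1 hζ.2).continuousAt.continuousWithinAt
  · exact SS.in1_line (e2_diff hπ x y hζ.1 hζ.2) v

theorem e2_deriv {π : X' → X} (hπ : MDifferentiable 𝓘(ℂ, E) 𝓘(ℂ, E) π) (x : X') (v : E) :
    (SS.dirDeriv π x v : E) = fderiv ℂ (e2_phi (E := E) π x (π x)) (chartAt E x x) v := by
  unfold SS.dirDeriv
  rw [(hπ x).mfderiv]
  simp only [writtenInExtChartAt, extChartAt, mfld_simps]
  rw [fderivWithin_univ]
  rfl

theorem e2_local {π : X' → X} (hπ : MDifferentiable 𝓘(ℂ, E) 𝓘(ℂ, E) π)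
    (hi : ∀ (x' : X') (v : E), (SS.dirDeriv π x' v : E) = 0 → v = 0) : IsLocalHomeomorph π := by
  have : CompleteSpace E := FiniteDimensional.complete ℂ E
  refine IsLocalHomeomorph.mk π fun x => ?_
  set c' := chartAt E x with hc'
  set c := chartAt E (π x) with hc
  have hx : x ∈ c'.source := mem_chart_source E x
  have hπx : π x ∈ c.source := mem_chart_source E (π x)
  have han : AnalyticAt ℂ (e2_phi (E := E) π x (π x)) (c' x) := by
    refine e2_an hπ x (π x) (c'.map_source hx) ?_
    rw [← hc', c'.left_inv hx]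
    exact hπx
  have hst := han.hasStrictFDerivAt
  set D : E →L[ℂ] E := fderiv ℂ (e2_phi (E := E) π x (π x)) (c' x) with hD
  have hinj : Function.Injective (D : E →ₗ[ℂ] E) := by
    rw [injective_iff_map_eq_zero]
    intro v hv
    refine hi x v ?_
    rw [e2_deriv hπ]
    exact hv
  let L : E ≃L[ℂ] E := (LinearEquiv.ofInjectiveEndo (D : E →ₗ[ℂ] E) hinj).toContinuousLinearEquiv
  have hL : (L : E →L[ℂ] E) = D := by
    ext v
    rfl
  have hst' : HasStrictFDerivAt (e2_phi (E := E) π x (π x)) (L : E →L[ℂ] E) (c' x) := by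
    rw [hL]
    exact hst
  set e := hst'.toOpenPartialHomeomorph (e2_phi (E := E) π x (π x)) with he
  have he1 : c' x ∈ e.source := hst'.mem_toOpenPartialHomeomorph_source
  have he2 : ∀ ξ, e ξ = e2_phi (E := E) π x (π x) ξ := fun ξ => by
    rw [he, hst'.toOpenPartialHomeomorph_coe]
  have hU : IsOpen (π ⁻¹' c.source) := c.open_source.preimage hπ.continuous
  refine ⟨((c'.trans e).trans c.symm).restrOpen (π ⁻¹' c.source) hU, ?_, ?_⟩
  · rw [OpenPartialHomeomorph.restrOpen_source]
    refine ⟨?_, hπx⟩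
    rw [OpenPartialHomeomorph.trans_source, OpenPartialHomeomorph.trans_source]
    refine ⟨⟨hx, he1⟩, ?_⟩
    show e (c' x) ∈ c.target
    rw [he2]
    unfold e2_phi
    rw [← hc', ← hc, c'.left_inv hx]
    exact c.map_source hπx
  · intro y hy
    rw [OpenPartialHomeomorph.restrOpen_source, OpenPartialHomeomorph.trans_source,
      OpenPartialHomeomorph.trans_source] at hy
    have hy1 : y ∈ c'.source := hy.1.1.1
    have hy2 : π y ∈ c.source := hy.2
    show π y = c.symm (e (c' y))
    rw [he2]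
    unfold e2_phi
    rw [← hc', ← hc, c'.left_inv hy1, c.left_inv hy2]

/-- a continuous lift of a constant map is constant -/
theorem e2_const {V : Type} [TopologicalSpace V] [PreconnectedSpace V] {π : X' → X}
    (hl : IsLocalHomeomorph π) {f : V → X'} (hf : Continuous f)
    (hc : ∀ z z', π (f z) = π (f z')) (z z' : V) : f z = f z' := by
  have h1 : IsLocallyConstant f := by
    rw [IsLocallyConstant.iff_eventually_eq]
    intro z
    obtain ⟨e, he1, he2⟩ := hl (f z)
    have h2 : ∀ᶠ w in 𝓝 z, f w ∈ e.source :=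
      hf.continuousAt.preimage_mem_nhds (e.open_source.mem_nhds he1)
    filter_upwards [h2] with w hw
    refine e.injOn hw he1 ?_
    rw [← he2]
    exact hc w z
  exact h1.apply_eq_of_preconnectedSpace z z'

theorem etale_torus_pr {π : X' → X} (hπ : MDifferentiable 𝓘(ℂ, E) 𝓘(ℂ, E) π)
    (hi : ∀ (x' : X') (v : E), (SS.dirDeriv π x' v : E) = 0 → v = 0)
    (hX : SS.NoTorusMaps E X) : SS.NoTorusMaps E X' := by
  intro V _ _ _ Λ _ _ f hf hp
  have h1 : ∀ z z', π (f z) = π (f z') := by
    refine hX V Λ (fun z => π (f z)) (hπ.comp hf) ?_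
    intro l hl z
    show π (f (z + l)) = π (f z)
    rw [hp l hl z]
  intro z z'
  exact e2_const (e2_local hπ hi) hf.continuous h1 z z'

theorem etale_entire_pr [T2Space X] [ConnectedSpace X] [CompactSpace X'] [T2Space X'] [Nonempty X']
    {π : X' → X} (hπ : MDifferentiable 𝓘(ℂ, E) 𝓘(ℂ, E) π)
    (hi : ∀ (x' : X') (v : E), (SS.dirDeriv π x' v : E) = 0 → v = 0)
    (hX : SS.BrodyHyperbolic E X') : SS.BrodyHyperbolic E X := by
  have hl := e2_local hπ hi
  have hcov : IsCoveringMap π := isLocalHomeomorph_iff_isCoveringMap.1 hl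
  have hsurj : Function.Surjective π := by
    have h1 : IsClopen (range π) :=
      ⟨(isCompact_range hπ.continuous).isClosed, hl.isOpenMap.isOpen_range⟩
    have h2 : range π = univ := h1.eq_univ (range_nonempty π)
    exact range_eq_univ.1 h2
  intro f hf
  obtain ⟨e₀, he₀⟩ := hsurj (f 0)
  obtain ⟨F, ⟨hF0, hF⟩, -⟩ := hcov.existsUnique_continuousMap_lifts ⟨f, hf.continuous⟩ 0 e₀ he₀
  have hFf : ∀ z, π (F z) = f z := fun z => congrFun hF z
  -- the lift is holomorphic
  have hFd : MDifferentiable 𝓘(ℂ, ℂ) 𝓘(ℂ, E) (F : ℂ → X') := by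
    intro z
    have : CompleteSpace E := FiniteDimensional.complete ℂ E
    set x := F z with hx
    set c' := chartAt E x with hc'
    set c := chartAt E (π x) with hc
    have hxs : x ∈ c'.source := mem_chart_source E x
    have hπx : π x ∈ c.source := mem_chart_source E (π x)
    have han : AnalyticAt ℂ (e2_phi (E := E) π x (π x)) (c' x) := by
      refine e2_an hπ x (π x) (c'.map_source hxs) ?_
      rw [← hc', c'.left_inv hxs]
      exact hπx
    have hst := han.hasStrictFDerivAt
    set D : E →L[ℂ] E := fderiv ℂ (e2_phi (E := E) π x (π x)) (c' x) with hD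
    have hinj : Function.Injective (D : E →ₗ[ℂ] E) := by
      rw [injective_iff_map_eq_zero]
      intro v hv
      refine hi x v ?_
      rw [e2_deriv hπ]
      exact hv
    let L : E ≃L[ℂ] E :=
      (LinearEquiv.ofInjectiveEndo (D : E →ₗ[ℂ] E) hinj).toContinuousLinearEquiv
    have hL : (L : E →L[ℂ] E) = D := by
      ext v
      rfl
    have hst' : HasStrictFDerivAt (e2_phi (E := E) π x (π x)) (L : E →L[ℂ] E) (c' x) := by
      rw [hL]
      exact hst
    set g := hst'.localInverse (e2_phi (E := E) π x (π x)) L (c' x) with hg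
    have hg1 : DifferentiableAt ℂ g (e2_phi (E := E) π x (π x) (c' x)) :=
      hst'.to_localInverse.hasFDerivAt.differentiableAt
    have hg2 : ∀ᶠ ξ in 𝓝 (c' x), g (e2_phi (E := E) π x (π x) ξ) = ξ :=
      hst'.eventually_left_inverse
    have hphi : e2_phi (E := E) π x (π x) (c' x) = c (π x) := by
      unfold e2_phi
      rw [← hc', ← hc, c'.left_inv hxs]
    rw [hphi] at hg1
    -- near `z` one has `F w = c'.symm (g (c (f w)))`
    have hfz : f z = π x := by rw [hx, hFf]
    have h1 : MDifferentiableAt 𝓘(ℂ, E) 𝓘(ℂ, E) c (f z) := by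
      rw [hfz]
      exact mdifferentiableAt_atlas (chart_mem_atlas _ _) hπx
    have h2 : MDifferentiableAt 𝓘(ℂ, ℂ) 𝓘(ℂ, E) (fun w => c (f w)) z := h1.comp z (hf z)
    have h3 : MDifferentiableAt 𝓘(ℂ, E) 𝓘(ℂ, E) g (c (f z)) := by
      rw [hfz]
      exact hg1.mdifferentiableAt
    have h4 : MDifferentiableAt 𝓘(ℂ, ℂ) 𝓘(ℂ, E) (fun w => g (c (f w))) z :=
      h3.comp (f := fun w => c (f w)) z h2
    have hgx : g (c (f z)) = c' x := by
      have := hg2.self_of_nhds
      rw [hphi] at this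
      rw [hfz]
      exact this
    have h5 : MDifferentiableAt 𝓘(ℂ, E) 𝓘(ℂ, E) c'.symm (g (c (f z))) := by
      rw [hgx]
      exact mdifferentiableAt_atlas_symm (chart_mem_atlas _ _) (c'.map_source hxs)
    have h6 : MDifferentiableAt 𝓘(ℂ, ℂ) 𝓘(ℂ, E) (fun w => c'.symm (g (c (f w)))) z :=
      h5.comp (f := fun w => g (c (f w))) z h4
    refine h6.congr_of_eventuallyEq ?_
    have hFc : ContinuousAt F z := F.continuous.continuousAt
    have h7 : ∀ᶠ w in 𝓝 z, F w ∈ c'.source :=
      hFc.preimage_mem_nhds (c'.open_source.mem_nhds hxs)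
    have h8 : Tendsto (fun w => c' (F w)) (𝓝 z) (𝓝 (c' x)) :=
      (c'.continuousAt hxs).tendsto.comp hFc
    filter_upwards [h7, h8.eventually hg2] with w hw1 hw2
    unfold e2_phi at hw2
    rw [← hc', ← hc, c'.left_inv hw1, hFf] at hw2
    rw [hw2, c'.left_inv hw1]
  intro z z'
  rw [← hFf, ← hFf, hX F hFd z z']




end etale

end Pool.Agent.IS

namespace Pool.Agent.IS

alias etale_torus := etale_torus_pr
alias etale_entire := etale_entire_pr

end Pool.Agent.IS
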