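import Pool.Agent.Lib_helper80.IS.Base

set_option autoImplicit false
set_option linter.unusedSectionVars false

open Filter Topology Metric Set
open scoped Manifold ContDiff

namespace Pool.Agent.IS

open Pool.Agent.BR Pool.Agent.MBS Pool.Agent.SL

section lift

variable {E X : Type} [NormedAddCommGroup E] [NormedSpace ℂ E] [FiniteDimensional ℂ E]
  [MetricSpace X] {A : Cha E X} {n : ℕ} {ι : X → PP n}

theorem r3_chart (x : X) : ∃ i, x ∈ (A.ch i).source := by
  obtain ⟨i, hi⟩ := A.cover x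
  exact ⟨i, A.W_sub i (subset_closure hi)⟩

theorem holAt_ev_pr {g : ℂ → X} {z : ℂ} (hg : A.HolAt g z) : ∀ᶠ w in 𝓝 z, A.HolAt g w := by
  obtain ⟨i, hi⟩ := r3_chart (A := A) (g z)
  have han := hg.2 i hi
  have hsrc : ∀ᶠ w in 𝓝 z, g w ∈ (A.ch i).source :=
    hg.1.eventually ((A.ch i).open_source.mem_nhds hi)
  filter_upwards [han.eventually_analyticAt, hsrc.eventually_nhds, hsrc] with w h1 h2 h3
  -- the chart expression determines the curve
  have heq : (fun w' => (A.ch i).symm (A.loc i g w')) =ᶠ[𝓝 w] g := by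
    filter_upwards [h2] with w' h4
    exact (A.ch i).left_inv h4
  have htgt : A.loc i g w ∈ (A.ch i).target := (A.ch i).map_source h3
  refine ⟨?_, fun j hj => ?_⟩
  · have hc : ContinuousAt (fun w' => (A.ch i).symm (A.loc i g w')) w :=
      ContinuousAt.comp (g := (A.ch i).symm) ((A.ch i).continuousAt_symm htgt) h1.continuousAt
    exact hc.congr heq
  · have ht := A.trans i j (g w) h3 hj
    have hcomp : AnalyticAt ℂ (fun w' => A.ch j ((A.ch i).symm (A.loc i g w'))) w :=
      AnalyticAt.comp (g := fun ξ => A.ch j ((A.ch i).symm ξ)) ht h1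
    refine hcomp.congr ?_
    filter_upwards [heq] with w' h4
    show A.ch j ((A.ch i).symm (A.loc i g w')) = A.ch j (g w')
    rw [h4]

theorem holP_comp_pr (hι : Plift A n ι) {g : ℂ → X} {z : ℂ} (hg : A.HolAt g z) :
    HolPAt (fun w => ι (g w)) z := by
  obtain ⟨G, hG⟩ := hι.lift (g z)
  refine ⟨fun w => G (g w), ?_⟩
  filter_upwards [holAt_ev_pr hg, hg.1.eventually hG] with w h1 h2
  obtain ⟨⟨h3, h4⟩, h5⟩ := h2
  obtain ⟨i, hi⟩ := r3_chart (A := A) (g w)
  refine ⟨?_, h3, h4⟩
  have hcomp : AnalyticAt ℂ (fun w' => G ((A.ch i).symm (A.loc i g w'))) w :=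
    AnalyticAt.comp (g := fun ξ => G ((A.ch i).symm ξ)) (h5 i hi) (h1.2 i hi)
  refine hcomp.congr ?_
  have hsrc : ∀ᶠ w' in 𝓝 w, g w' ∈ (A.ch i).source :=
    h1.1.eventually ((A.ch i).open_source.mem_nhds hi)
  filter_upwards [hsrc] with w' h6
  show G ((A.ch i).symm (A.ch i (g w'))) = G (g w')
  rw [(A.ch i).left_inv h6]

end lift

end Pool.Agent.IS

namespace Pool.Agent.IS

alias holAt_ev := holAt_ev_pr
alias holP_comp := holP_comp_pr

end Pool.Agent.IS
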