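import Pool.Agent.Lib_helper80.IS.Base

set_option autoImplicit false
set_option linter.unusedVariables false
set_option linter.unusedSectionVars false

open Filter Topology Metric Set
open scoped Manifold ContDiff

namespace Pool.Agent.IS

open Pool.Agent.BR Pool.Agent.MBS Pool.Agent.SL

private theorem p1_minor {n : ℕ} {a b : Fin (n + 1) → ℂ} (ha : a ≠ 0) (hb : b ≠ 0) :
    Projectivization.mk ℂ a ha = Projectivization.mk ℂ b hb ↔
      ∀ i j, a i * b j - a j * b i = 0 := by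
  rw [Projectivization.mk_eq_mk_iff']
  constructor
  · rintro ⟨c, rfl⟩ i j
    simp only [Pi.smul_apply, smul_eq_mul]
    ring
  · intro h
    obtain ⟨j, hj⟩ : ∃ j, b j ≠ 0 := by
      by_contra hcon
      push Not at hcon
      exact hb (funext hcon)
    refine ⟨a j / b j, ?_⟩
    funext i
    have := h i j
    simp only [Pi.smul_apply, smul_eq_mul]
    rw [div_mul_eq_mul_div, div_eq_iff hj]
    linear_combination -this

theorem proj_ident_pr {n : ℕ} {H₁ H₂ : ℂ → PP n} {S : Set ℂ} (hS : IsOpen S)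
    (hc : IsPreconnected S)
    (h1 : ∀ z ∈ S, HolPAt H₁ z) (h2 : ∀ z ∈ S, HolPAt H₂ z) {z₀ : ℂ} (hz₀ : z₀ ∈ S)
    (he : ∀ᶠ z in 𝓝 z₀, H₁ z = H₂ z) : ∀ z ∈ S, H₁ z = H₂ z := by
  have hsub : S ⊆ {z | ∀ᶠ w in 𝓝 z, H₁ w = H₂ w} := by
    refine hc.subset_of_closure_inter_subset (isOpen_setOfPred_eventually_nhds) ⟨z₀, hz₀, he⟩ ?_
    rintro z ⟨hzc, hzS⟩
    by_contra hzU
    have hfr : ∃ᶠ w in 𝓝[≠] z, ∀ᶠ w' in 𝓝 w, H₁ w' = H₂ w' := by
      rw [mem_closure_iff_frequently] at hzc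
      rw [frequently_nhdsWithin_iff]
      refine hzc.mono fun w hw => ⟨hw, ?_⟩
      intro hwz
      rw [mem_singleton_iff] at hwz
      rw [hwz] at hw
      exact hzU hw
    obtain ⟨F₁, hF₁⟩ := h1 z hzS
    obtain ⟨F₂, hF₂⟩ := h2 z hzS
    have hmin : ∀ i j, ∀ᶠ w in 𝓝 z, F₁ w i * F₂ w j - F₁ w j * F₂ w i = 0 := by
      intro i j
      have ha1 : AnalyticAt ℂ F₁ z := hF₁.self_of_nhds.1
      have ha2 : AnalyticAt ℂ F₂ z := hF₂.self_of_nhds.1
      rw [analyticAt_pi_iff] at ha1 ha2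
      have hm : AnalyticAt ℂ (fun w => F₁ w i * F₂ w j - F₁ w j * F₂ w i) z :=
        ((ha1 i).mul (ha2 j)).sub ((ha1 j).mul (ha2 i))
      rw [← hm.frequently_zero_iff_eventually_zero]
      have hF : ∀ᶠ w in 𝓝[≠] z, (∃ h : F₁ w ≠ 0, H₁ w = Projectivization.mk ℂ (F₁ w) h) ∧
          (∃ h : F₂ w ≠ 0, H₂ w = Projectivization.mk ℂ (F₂ w) h) :=
        Filter.Eventually.mono (Filter.Eventually.filter_mono nhdsWithin_le_nhds (hF₁.and hF₂))
          fun w hw => ⟨hw.1.2, hw.2.2⟩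
      refine (hfr.and_eventually hF).mono ?_
      rintro w ⟨hw, ⟨g1, e1⟩, g2, e2⟩
      have := hw.self_of_nhds
      rw [e1, e2] at this
      exact (p1_minor g1 g2).1 this i j
    apply hzU
    have hall : ∀ᶠ w in 𝓝 z, ∀ i j, F₁ w i * F₂ w j - F₁ w j * F₂ w i = 0 := by
      rw [eventually_all]
      intro i
      rw [eventually_all]
      exact hmin i
    filter_upwards [hall, hF₁, hF₂] with w hw hw1 hw2
    obtain ⟨-, g1, e1⟩ := hw1
    obtain ⟨-, g2, e2⟩ := hw2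
    rw [e1, e2]
    exact (p1_minor g1 g2).2 hw
  intro z hz
  exact (hsub hz).self_of_nhds



end Pool.Agent.IS

namespace Pool.Agent.IS

alias proj_ident := proj_ident_pr

end Pool.Agent.IS
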