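import Pool.Agent.Lib_helper80.IS.Base
import Pool.Agent.Lib_helper80.IS.L.P1

set_option autoImplicit false

open Filter Topology Metric Set
open scoped Manifold ContDiff

namespace Pool.Agent.IS

open Pool.Agent.BR Pool.Agent.MBS Pool.Agent.SL

theorem p2_ne (c : ℂ) : (![c, 1] : Fin 2 → ℂ) ≠ 0 := by
  intro h
  have := congrFun h 1
  simp at this

theorem p2_coord {F : ℂ → Fin 2 → ℂ} {w : ℂ} (hF : AnalyticAt ℂ F w) (i : Fin 2) :
    AnalyticAt ℂ (fun z => F z i) w :=
  ((ContinuousLinearMap.proj (R := ℂ) (φ := fun _ : Fin 2 => ℂ) i).analyticAt (F w)).fun_comp hF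

theorem p2_mk {a : Fin 2 → ℂ} (ha : a ≠ 0) (h1 : a 1 ≠ 0) :
    Projectivization.mk ℂ a ha = Projectivization.mk ℂ ![a 0 / a 1, 1] (p2_ne _) := by
  rw [Projectivization.mk_eq_mk_iff']
  refine ⟨a 1, ?_⟩
  ext i
  fin_cases i
  · simp; field_simp
  · simp

theorem line_local_pr {u : ℂ → PP 1} (hu : HolP u) (hne : ∃ z z', u z ≠ u z') :
    ∃ (z₀ : ℂ) (v : ℂ → ℂ), AnalyticAt ℂ v z₀ ∧ deriv v z₀ ≠ 0 ∧
      ∀ᶠ z in 𝓝 z₀, ∃ h : ![v z, 1] ≠ 0, u z = Projectivization.mk ℂ ![v z, 1] h := by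
  obtain ⟨w, w', hww⟩ := hne
  by_cases hB : ∀ z, ∀ F : ℂ → Fin 2 → ℂ, (∀ᶠ t in 𝓝 z, AnalyticAt ℂ F t ∧
      ∃ h : F t ≠ 0, u t = Projectivization.mk ℂ (F t) h) → F z 1 = 0
  · exfalso
    have h10 : (![1, 0] : Fin 2 → ℂ) ≠ 0 := by
      intro h
      have := congrFun h 0
      simp at this
    have hconst : ∀ z, u z = Projectivization.mk ℂ ![1, 0] h10 := by
      intro z
      obtain ⟨F, hF⟩ := hu z
      have h1 := hB z F hF
      obtain ⟨_, h, hz⟩ := hF.self_of_nhds
      rw [hz, Projectivization.mk_eq_mk_iff']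
      refine ⟨F z 0, ?_⟩
      ext i
      fin_cases i
      · simp
      · simpa using h1.symm
    exact hww (by rw [hconst w, hconst w'])
  · push Not at hB
    obtain ⟨z, F, hF, h1⟩ := hB
    have hFz := hF.self_of_nhds.1
    have hne1 : ∀ᶠ t in 𝓝 z, F t 1 ≠ 0 := (p2_coord hFz 1).continuousAt.eventually_ne h1
    set v : ℂ → ℂ := fun t => F t 0 / F t 1 with hv
    have hgood : ∀ᶠ t in 𝓝 z, AnalyticAt ℂ v t ∧
        u t = Projectivization.mk ℂ ![v t, 1] (p2_ne _) := by
      filter_upwards [hF, hne1] with t ht ht1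
      obtain ⟨hta, h, htu⟩ := ht
      exact ⟨(p2_coord hta 0).div (p2_coord hta 1) ht1, by rw [htu, p2_mk h ht1]⟩
    by_cases hd : ∀ᶠ t in 𝓝 z, deriv v t = 0
    · exfalso
      have hboth := hgood.and hd
      obtain ⟨r, hr, hball⟩ := Metric.eventually_nhds_iff_ball.mp hboth
      have hcst : ∀ t ∈ ball z r, v t = v z := by
        intro t ht
        have hdiff : DifferentiableOn ℂ v (ball z r) := fun s hs =>
          ((hball s hs).1.1).differentiableAt.differentiableWithinAt
        have hder : EqOn (deriv v) 0 (ball z r) := fun s hs => (hball s hs).2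
        exact isOpen_ball.is_const_of_deriv_eq_zero (convex_ball z r).isPreconnected hdiff hder ht
          (mem_ball_self hr)
      have hloc : ∀ᶠ t in 𝓝 z, u t = (fun _ => Projectivization.mk ℂ ![v z, 1] (p2_ne _) : ℂ → PP 1) t := by
        filter_upwards [ball_mem_nhds z hr] with t ht
        rw [(hball t ht).1.2]
        have := hcst t ht
        simp only [this]
      have hall := proj_ident (n := 1) (H₁ := u)
        (H₂ := (fun _ => Projectivization.mk ℂ ![v z, 1] (p2_ne _) : ℂ → PP 1)) (S := univ) isOpen_univ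
        isPreconnected_univ (fun t _ => hu t)
        (fun t _ => ⟨fun _ => ![v z, 1], Eventually.of_forall fun s =>
          ⟨analyticAt_const, p2_ne _, rfl⟩⟩) (mem_univ z) hloc
      exact hww (by rw [hall w (mem_univ _), hall w' (mem_univ _)])
    · rw [not_eventually] at hd
      obtain ⟨t, htd, htg⟩ := (hd.and_eventually hgood.eventually_nhds).exists
      refine ⟨t, v, htg.self_of_nhds.1, htd, ?_⟩
      filter_upwards [htg] with s hs
      exact ⟨p2_ne _, hs.2⟩

end Pool.Agent.IS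

namespace Pool.Agent.IS

alias line_local := line_local_pr

end Pool.Agent.IS
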