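import Pool.Agent.Lib_helper80.IS.Base
import Pool.Agent.Lib_helper71.Lang.Torus

set_option autoImplicit false

open Filter Topology Metric Set

namespace Pool.Agent.IS

open LangFC.BlockH2

/-- a period pair with the given lattice -/
theorem p3_pair (Γ : Submodule ℤ ℂ) [DiscreteTopology Γ] [IsZLattice ℝ Γ] :
    ∃ L : PeriodPair, L.lattice = Γ := by
  have hf : Module.Free ℤ Γ := ZLattice.module_free ℝ Γ
  have hfin : Module.Finite ℤ Γ := ZLattice.module_finite ℝ Γ
  have hr : Module.finrank ℤ Γ = 2 := by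
    rw [ZLattice.rank ℝ Γ]
    exact Complex.finrank_real_complex
  let b : Module.Basis (Fin 2) ℤ Γ := Module.finBasisOfFinrankEq ℤ Γ hr
  let B := b.ofZLatticeBasis ℝ Γ
  have hB : ∀ i, B i = (b i : ℂ) := fun i => b.ofZLatticeBasis_apply ℝ Γ i
  have hv : (![B 0, B 1] : Fin 2 → ℂ) = B := by
    funext i
    fin_cases i <;> rfl
  have hli : LinearIndependent ℝ ![B 0, B 1] := by
    rw [hv]
    exact B.linearIndependent
  refine ⟨⟨B 0, B 1, hli⟩, ?_⟩
  have h1 : Submodule.span ℤ (Set.range B) = Γ := b.ofZLatticeBasis_span ℝ Γ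
  rw [← h1]
  unfold PeriodPair.lattice
  congr 1
  ext z
  simp only [Set.mem_insert_iff, Set.mem_singleton_iff, Set.mem_range, Fin.exists_fin_two]
  constructor
  · rintro (h | h)
    · exact Or.inl h.symm
    · exact Or.inr h.symm
  · rintro (h | h)
    · exact Or.inl h.symm
    · exact Or.inr h.symm

theorem p3_vec_ne (L : PeriodPair) (z : ℂ) : (![cs L z, ct L z] : Fin 2 → ℂ) ≠ 0 := by
  intro h
  rcases cs_ct L z with h1 | h1
  · exact h1 (congrFun h 0)
  · exact h1 (congrFun h 1)

/-- the function near a lattice point -/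
theorem p3_g (L : PeriodPair) {z0 : ℂ} (hz0 : z0 ∈ L.lattice) :
    ∃ g : ℂ → ℂ, AnalyticAt ℂ g z0 ∧ g z0 = 1 ∧
      ∀ᶠ z in 𝓝 z0, z ≠ z0 → z ∉ L.lattice ∧ (z - z0) ^ 2 * L.weierstrassP z = g z := by
  set g : ℂ → ℂ := fun z => (z - z0) ^ 2 * L.weierstrassPExcept z0 z + 1 -
    (z - z0) ^ 2 / z0 ^ 2 with hg
  have hg1 : ∀ z, (if z = z0 then 1 else (z - z0) ^ 2 * L.weierstrassP z) = g z :=
    fun z => L.ite_eq_one_sub_sq_mul_weierstrassP z0 hz0 z
  have hgan : AnalyticAt ℂ g z0 := by
    have h1 : AnalyticAt ℂ (L.weierstrassPExcept z0) z0 :=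
      L.analyticOnNhd_weierstrassPExcept z0 z0 (by simp)
    have h2 : AnalyticAt ℂ (fun z : ℂ => (z - z0)) z0 := analyticAt_id.sub analyticAt_const
    have h3 : AnalyticAt ℂ (fun z : ℂ => (z - z0) ^ 2 / z0 ^ 2) z0 := by
      simp only [div_eq_mul_inv]
      exact (h2.pow 2).mul analyticAt_const
    exact (((h2.pow 2).mul h1).add analyticAt_const).sub h3
  have hgz0 : g z0 = 1 := by rw [← hg1 z0, if_pos rfl]
  refine ⟨g, hgan, hgz0, ?_⟩
  filter_upwards [L.compl_lattice_sdiff_singleton_mem_nhds z0] with z hz hne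
  refine ⟨fun h => hz ⟨h, hne⟩, ?_⟩
  rw [← hg1 z, if_neg hne]

theorem p3_hol (L : PeriodPair) :
    HolP (n := 1) (fun z => Projectivization.mk ℂ ![cs L z, ct L z] (p3_vec_ne L z)) := by
  intro z0
  by_cases hz0 : z0 ∈ L.lattice
  · obtain ⟨g, hg, hg0, hgz⟩ := p3_g L hz0
    have hgne : ∀ᶠ z in 𝓝 z0, g z ≠ 0 := by
      apply hg.continuousAt.eventually_ne
      rw [hg0]; exact one_ne_zero
    refine ⟨fun z => ![g z, (z - z0) ^ 2], ?_⟩
    filter_upwards [hg.eventually_analyticAt, hgne, hgz] with z h1 h2 h3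
    have hne : (![g z, (z - z0) ^ 2] : Fin 2 → ℂ) ≠ 0 := fun h => h2 (congrFun h 0)
    refine ⟨?_, hne, ?_⟩
    · rw [analyticAt_pi_iff]
      intro i
      fin_cases i
      · exact h1
      · exact (analyticAt_id.sub analyticAt_const).pow 2
    · by_cases hzz : z = z0
      · subst hzz
        rw [Projectivization.mk_eq_mk_iff']
        refine ⟨1, ?_⟩
        rw [one_smul, cs_of_mem hz0, ct_of_mem hz0, hg0, sub_self, zero_pow two_ne_zero]
      · obtain ⟨hzL, he⟩ := h3 hzz
        have hz2 : (z - z0) ^ 2 ≠ 0 := pow_ne_zero _ (sub_ne_zero.2 hzz)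
        rw [Projectivization.mk_eq_mk_iff']
        refine ⟨((z - z0) ^ 2)⁻¹, ?_⟩
        rw [cs_of_notMem hzL, ct_of_notMem hzL, ← he]
        funext i
        fin_cases i
        · simp only [Pi.smul_apply, smul_eq_mul]
          show ((z - z0) ^ 2)⁻¹ * ((z - z0) ^ 2 * L.weierstrassP z) = L.weierstrassP z
          field_simp
        · show ((z - z0) ^ 2)⁻¹ * (z - z0) ^ 2 = 1
          exact inv_mul_cancel₀ hz2
  · have hopen : ∀ᶠ z in 𝓝 z0, z ∉ L.lattice :=
      L.isClosed_lattice.isOpen_compl.mem_nhds hz0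
    refine ⟨fun z => ![L.weierstrassP z, 1], ?_⟩
    filter_upwards [hopen] with z hz
    have hne : (![L.weierstrassP z, 1] : Fin 2 → ℂ) ≠ 0 :=
      fun h => one_ne_zero (α := ℂ) (congrFun h 1)
    refine ⟨?_, hne, ?_⟩
    · rw [analyticAt_pi_iff]
      intro i
      fin_cases i
      · exact L.analyticOnNhd_weierstrassP z hz
      · exact analyticAt_const
    · rw [Projectivization.mk_eq_mk_iff']
      exact ⟨1, by rw [one_smul, cs_of_notMem hz, ct_of_notMem hz]⟩

/-- the Weierstrass function takes every value -/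
theorem p3_surj (L : PeriodPair) (c : ℂ) : ∃ z, z ∉ L.lattice ∧ L.weierstrassP z = c := by
  classical
  by_contra hcon
  push Not at hcon
  let f : ℂ → ℂ := fun z => if z ∈ L.lattice then 0 else (L.weierstrassP z - c)⁻¹
  have hfd : Differentiable ℂ f := by
    intro z0
    by_cases hz0 : z0 ∈ L.lattice
    · obtain ⟨g, hg, hg0, hgz⟩ := p3_g L hz0
      have hq : AnalyticAt ℂ (fun z => g z - (z - z0) ^ 2 * c) z0 :=
        hg.sub (((analyticAt_id.sub analyticAt_const).pow 2).mul analyticAt_const)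
      have hq0 : (fun z => g z - (z - z0) ^ 2 * c) z0 ≠ 0 := by
        show g z0 - (z0 - z0) ^ 2 * c ≠ 0
        rw [hg0, sub_self, zero_pow two_ne_zero, zero_mul, sub_zero]
        exact one_ne_zero
      have han : AnalyticAt ℂ (fun z => (z - z0) ^ 2 * (g z - (z - z0) ^ 2 * c)⁻¹) z0 :=
        ((analyticAt_id.sub analyticAt_const).pow 2).mul (hq.inv hq0)
      refine han.differentiableAt.congr_of_eventuallyEq ?_
      filter_upwards [hgz] with z hz
      by_cases hzz : z = z0
      · subst hzz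
        show f z = (z - z) ^ 2 * _
        rw [sub_self, zero_pow two_ne_zero, zero_mul]
        exact if_pos hz0
      · obtain ⟨hzL, he⟩ := hz hzz
        have hz2 : (z - z0) ^ 2 ≠ 0 := pow_ne_zero _ (sub_ne_zero.2 hzz)
        show f z = (z - z0) ^ 2 * (g z - (z - z0) ^ 2 * c)⁻¹
        rw [← he, ← mul_sub, mul_inv, ← mul_assoc, mul_inv_cancel₀ hz2, one_mul]
        exact if_neg hzL
    · have hopen : ∀ᶠ z in 𝓝 z0, z ∉ L.lattice :=
        L.isClosed_lattice.isOpen_compl.mem_nhds hz0
      have hq : AnalyticAt ℂ (fun z => L.weierstrassP z - c) z0 :=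
        (L.analyticOnNhd_weierstrassP z0 hz0).sub analyticAt_const
      have han : AnalyticAt ℂ (fun z => (L.weierstrassP z - c)⁻¹) z0 :=
        hq.inv (sub_ne_zero.2 (hcon z0 hz0))
      refine han.differentiableAt.congr_of_eventuallyEq ?_
      filter_upwards [hopen] with z hz
      exact if_neg hz
  have hper : ∀ z w, w ∈ L.lattice → f (z + w) = f z := by
    intro z w hw
    by_cases hz : z ∈ L.lattice
    · have hz' : z + w ∈ L.lattice := add_mem hz hw
      show (if z + w ∈ L.lattice then (0 : ℂ) else _) = if z ∈ L.lattice then (0 : ℂ) else _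
      rw [if_pos hz, if_pos hz']
    · have hz' : z + w ∉ L.lattice := by
        intro h
        apply hz
        have := sub_mem h hw
        simpa using this
      show (if z + w ∈ L.lattice then (0 : ℂ) else (L.weierstrassP (z + w) - c)⁻¹) =
        if z ∈ L.lattice then (0 : ℂ) else (L.weierstrassP z - c)⁻¹
      rw [if_neg hz, if_neg hz', L.weierstrassP_add_coe z ⟨w, hw⟩]
  have hb : Bornology.IsBounded (Set.range f) :=
    (IsZLattice.isCompact_range_of_periodic L.lattice f hfd.continuous hper).isBounded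
  have h1 : f (L.ω₁ / 2) = f 0 := hfd.apply_eq_apply_of_bounded hb _ _
  have h2 : f 0 = 0 := if_pos (zero_mem _)
  have h3 : f (L.ω₁ / 2) = (L.weierstrassP (L.ω₁ / 2) - c)⁻¹ :=
    if_neg L.ω₁_div_two_notMem_lattice
  rw [h2, h3, inv_eq_zero] at h1
  exact hcon _ L.ω₁_div_two_notMem_lattice (sub_eq_zero.1 h1)

theorem exists_elliptic_pr (Γ : Submodule ℤ ℂ) [DiscreteTopology Γ] [IsZLattice ℝ Γ] :
    ∃ ψ : ℂ → PP 1, HolP ψ ∧ (∀ l ∈ Γ, ∀ z, ψ (z + l) = ψ z) ∧ Function.Surjective ψ := by
  obtain ⟨L, hL⟩ := p3_pair Γ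
  refine ⟨fun z => Projectivization.mk ℂ ![cs L z, ct L z] (p3_vec_ne L z), p3_hol L, ?_, ?_⟩
  · intro l hl z
    rw [← hL] at hl
    have h : (![cs L (z + l), ct L (z + l)] : Fin 2 → ℂ) = ![cs L z, ct L z] := by
      by_cases hz : z ∈ L.lattice
      · have hz' : z + l ∈ L.lattice := add_mem hz hl
        rw [cs_of_mem hz, cs_of_mem hz', ct_of_mem hz, ct_of_mem hz']
      · have hz' : z + l ∉ L.lattice := by
          intro h
          apply hz
          have := sub_mem h hl
          simpa using this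
        rw [cs_of_notMem hz, cs_of_notMem hz', ct_of_notMem hz, ct_of_notMem hz']
        rw [L.weierstrassP_add_coe z ⟨l, hl⟩]
    exact mk_congr h _ _
  · intro v
    induction v using Projectivization.ind with
    | h v hv =>
      by_cases h1 : v 1 = 0
      · have h0 : v 0 ≠ 0 := by
          intro h0
          apply hv
          funext i
          fin_cases i
          · exact h0
          · exact h1
        refine ⟨0, ?_⟩
        rw [Projectivization.mk_eq_mk_iff']
        refine ⟨(v 0)⁻¹, ?_⟩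
        have hz : (0 : ℂ) ∈ L.lattice := zero_mem _
        rw [cs_of_mem hz, ct_of_mem hz]
        funext i
        fin_cases i
        · exact inv_mul_cancel₀ h0
        · show (v 0)⁻¹ * v 1 = 0
          rw [h1, mul_zero]
      · obtain ⟨z, hz, he⟩ := p3_surj L (v 0 / v 1)
        refine ⟨z, ?_⟩
        rw [Projectivization.mk_eq_mk_iff']
        refine ⟨(v 1)⁻¹, ?_⟩
        rw [cs_of_notMem hz, ct_of_notMem hz, he]
        funext i
        fin_cases i
        · show (v 1)⁻¹ * v 0 = v 0 / v 1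
          rw [div_eq_mul_inv, mul_comm]
        · exact inv_mul_cancel₀ h1



end Pool.Agent.IS

namespace Pool.Agent.IS

alias exists_elliptic := exists_elliptic_pr

end Pool.Agent.IS
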