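import Pool.Agent.Lib_helper80.IS.Base

/-! IS, block R1 (helper36): analytic local left inverse of an immersion to the projective space -/

set_option autoImplicit false

open Filter Topology Metric Set

namespace Pool.Agent.IS

open Pool.Agent.BR Pool.Agent.MBS Pool.Agent.SL

/-- an analytic map with injective derivative has an analytic local left inverse, after a linear
projection -/
theorem r1_inv {E F : Type} [NormedAddCommGroup E] [NormedSpace ℂ E] [FiniteDimensional ℂ E]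
    [NormedAddCommGroup F] [NormedSpace ℂ F] [FiniteDimensional ℂ F] {g : E → F} {x₀ : E}
    (hg : AnalyticAt ℂ g x₀) (hinj : ∀ ξ, fderiv ℂ g x₀ ξ = 0 → ξ = 0) :
    ∃ (π : F →L[ℂ] E) (θ : E → E), AnalyticAt ℂ θ (π (g x₀)) ∧ θ (π (g x₀)) = x₀ ∧
      ∀ᶠ ξ in 𝓝 x₀, θ (π (g ξ)) = ξ := by
  have : CompleteSpace E := FiniteDimensional.complete ℂ E
  obtain ⟨π₀, hπ₀⟩ := LinearMap.exists_leftInverse_of_injective
    (fderiv ℂ g x₀ : E →ₗ[ℂ] F) (by
      rw [LinearMap.ker_eq_bot']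
      exact hinj)
  set π : F →L[ℂ] E := LinearMap.toContinuousLinearMap π₀ with hπ
  have hcomp : ∀ ξ, π (fderiv ℂ g x₀ ξ) = ξ := fun ξ => by
    have h1 := congrArg (fun l : E →ₗ[ℂ] E => l ξ) hπ₀
    exact h1
  have hf : AnalyticAt ℂ (fun ξ => π (g ξ)) x₀ :=
    (π.analyticAt _).fun_comp hg
  have hd : fderiv ℂ (fun ξ => π (g ξ)) x₀ = (ContinuousLinearEquiv.refl ℂ E : E →L[ℂ] E) := by
    have h1 : HasFDerivAt (fun ξ => π (g ξ)) (π.comp (fderiv ℂ g x₀)) x₀ :=
      π.hasFDerivAt.comp x₀ hg.differentiableAt.hasFDerivAt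
    rw [h1.fderiv]
    ext ξ
    exact hcomp ξ
  have hs : HasStrictFDerivAt (fun ξ => π (g ξ))
      ((ContinuousLinearEquiv.refl ℂ E : E ≃L[ℂ] E) : E →L[ℂ] E) x₀ := by
    rw [← hd]
    exact hf.hasStrictFDerivAt
  set Φ := hs.toOpenPartialHomeomorph (fun ξ => π (g ξ)) with hΦ
  have hsrc : x₀ ∈ Φ.source := hs.mem_toOpenPartialHomeomorph_source
  refine ⟨π, Φ.symm, ?_, ?_, ?_⟩
  · exact Φ.analyticAt_symm' hsrc hf hd
  · exact Φ.left_inv hsrc
  · filter_upwards [Φ.open_source.mem_nhds hsrc] with ξ hξ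
    exact Φ.left_inv hξ

section lift

variable {E X : Type} [NormedAddCommGroup E] [NormedSpace ℂ E] [FiniteDimensional ℂ E]
  [MetricSpace X] {A : Cha E X} {n : ℕ} {ι : X → PP n}

/-- BLOCK R1. Chart `i` with `y` in its source, lift `G` near `y`, `p` with `G y p ≠ 0`; `g ξ = G (symm ξ) / G (symm ξ) p`. The derivative
of `g` at `ch y` is injective by `hι` (with `m = dG_p(ξ') / G_p`), so it has a linear left inverse `π`, and `π ∘ g : E → E` has an
analytic local inverse `θ` near `π (g (ch y))` (see the use of `localInverse`/`toOpenPartialHomeomorph` e.g. in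
Lib_helper80/SL/L/X3 for one variable; here `HasStrictFDerivAt.toOpenPartialHomeomorph`, `AnalyticAt` of the inverse).
`ρ v = (ch i).symm (θ (π (v / v p)))` on `O = {v | v p ≠ 0, π (v / v p) ∈ small ball where θ is analytic with values in the target}`,
`V = {x near y | ch x ∈ small ball where θ (π (g ξ)) = ξ}`; there `(ι x).rep` is a multiple of `g (ch x)`. -/
theorem exists_ret_pr (hι : PImm A n ι) (y : X) :
    ∃ (O : Set (Fin (n + 1) → ℂ)) (ρ : (Fin (n + 1) → ℂ) → X) (V : Set X), Ret A ι y O ρ V := by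
  obtain ⟨i, hi⟩ := A.cover y
  have hys : y ∈ (A.ch i).source := A.W_sub i (subset_closure hi)
  set e := A.ch i with he
  obtain ⟨G, hG1, hG2⟩ := hι.lift y
  have hGy := hG1.self_of_nhds
  obtain ⟨hGy0, -⟩ := hGy.1
  have hGan : AnalyticAt ℂ (fun ξ => G (e.symm ξ)) (e y) := hGy.2 i hys
  have heq : e.symm (e y) = y := e.left_inv hys
  obtain ⟨p, hp⟩ : ∃ p, G y p ≠ 0 := by
    by_contra h
    push Not at h
    exact hGy0 (funext h)
  -- the normalised lift
  have hqan : AnalyticAt ℂ (fun ξ => G (e.symm ξ) p) (e y) :=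
    ((ContinuousLinearMap.proj (R := ℂ) (φ := fun _ : Fin (n + 1) => ℂ) p).analyticAt _).fun_comp hGan
  have hq0 : (fun ξ => G (e.symm ξ) p) (e y) ≠ 0 := by
    show G (e.symm (e y)) p ≠ 0
    rw [heq]
    exact hp
  set g : E → Fin (n + 1) → ℂ := fun ξ => (G (e.symm ξ) p)⁻¹ • G (e.symm ξ) with hg
  have hgan : AnalyticAt ℂ g (e y) := (hqan.inv hq0).smul hGan
  have hinj : ∀ ξ, fderiv ℂ g (e y) ξ = 0 → ξ = 0 := by
    intro ξ hξ
    -- `G = q • g`
    have h1 : (fun ξ => G (e.symm ξ)) =ᶠ[𝓝 (e y)] fun ξ => G (e.symm ξ) p • g ξ := by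
      filter_upwards [hqan.continuousAt.eventually_ne hq0] with ζ hζ
      show G (e.symm ζ) = G (e.symm ζ) p • (G (e.symm ζ) p)⁻¹ • G (e.symm ζ)
      rw [smul_smul, mul_inv_cancel₀ hζ, one_smul]
    have h2 : HasFDerivAt (fun ξ => G (e.symm ξ) p • g ξ)
        ((fun ξ => G (e.symm ξ) p) (e y) • fderiv ℂ g (e y) +
          (fderiv ℂ (fun ξ => G (e.symm ξ) p) (e y)).smulRight (g (e y))) (e y) :=
      hqan.differentiableAt.hasFDerivAt.smul hgan.differentiableAt.hasFDerivAt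
    have h3 : fderiv ℂ (fun ξ => G (e.symm ξ)) (e y) ξ =
        (fderiv ℂ (fun ξ => G (e.symm ξ) p) (e y) ξ * (G y p)⁻¹) • G y := by
      rw [h1.fderiv_eq, h2.fderiv]
      show (fun ξ => G (e.symm ξ) p) (e y) • fderiv ℂ g (e y) ξ +
        fderiv ℂ (fun ξ => G (e.symm ξ) p) (e y) ξ • g (e y) = _
      rw [hξ, smul_zero, zero_add]
      show fderiv ℂ (fun ξ => G (e.symm ξ) p) (e y) ξ • (G (e.symm (e y)) p)⁻¹ •
        G (e.symm (e y)) = _
      rw [heq, smul_smul]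
    exact hG2 i hys ξ _ h3
  obtain ⟨π, θ, hθ, hθ0, hθe⟩ := r1_inv hgan hinj
  -- the open set of good values
  set Ω : Set E := {w | AnalyticAt ℂ θ w ∧ θ w ∈ e.target} with hΩ
  have hΩo : IsOpen Ω := by
    have h1 : IsOpen {w | AnalyticAt ℂ θ w} := isOpen_analyticAt ℂ θ
    have h2 : ContinuousOn θ {w | AnalyticAt ℂ θ w} := fun w hw => hw.continuousAt.continuousWithinAt
    exact h2.isOpen_inter_preimage h1 e.open_target
  have hΩ0 : π (g (e y)) ∈ Ω := by
    refine ⟨hθ, ?_⟩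
    rw [hθ0]
    exact e.map_source hys
  set nm : (Fin (n + 1) → ℂ) → E := fun v => π ((v p)⁻¹ • v) with hnm
  have hnman : ∀ v : Fin (n + 1) → ℂ, v p ≠ 0 → AnalyticAt ℂ nm v := by
    intro v hv
    have h1 : AnalyticAt ℂ (fun v : Fin (n + 1) → ℂ => v p) v :=
      (ContinuousLinearMap.proj (R := ℂ) (φ := fun _ : Fin (n + 1) => ℂ) p).analyticAt v
    exact (π.analyticAt _).fun_comp ((h1.inv hv).smul analyticAt_id)
  have hnmc : ∀ (v : Fin (n + 1) → ℂ) (c : ℂ), c ≠ 0 → nm (c • v) = nm v := by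
    intro v c hc
    show π (((c • v) p)⁻¹ • c • v) = π ((v p)⁻¹ • v)
    rw [smul_smul]
    congr 2
    show (c * v p)⁻¹ * c = (v p)⁻¹
    rw [mul_inv, mul_comm c⁻¹, mul_assoc, inv_mul_cancel₀ hc, mul_one]
  set O : Set (Fin (n + 1) → ℂ) := {v | v p ≠ 0 ∧ nm v ∈ Ω} with hO
  have hOo : IsOpen O := by
    have h1 : IsOpen {v : Fin (n + 1) → ℂ | v p ≠ 0} :=
      isOpen_ne_fun (continuous_apply p) continuous_const
    have h2 : ContinuousOn nm {v : Fin (n + 1) → ℂ | v p ≠ 0} := fun v hv =>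
      (hnman v hv).continuousAt.continuousWithinAt
    exact h2.isOpen_inter_preimage h1 hΩo
  set ρ : (Fin (n + 1) → ℂ) → X := fun v => e.symm (θ (nm v)) with hρ
  -- the eventual identity
  have hev : ∀ᶠ x in 𝓝 y, (ι x).rep ∈ O ∧ ρ (ι x).rep = x := by
    have hec : ContinuousAt e y := e.continuousAt hys
    have e1 : ∀ᶠ x in 𝓝 y, x ∈ e.source := e.open_source.mem_nhds hys
    have e2 : ∀ᶠ x in 𝓝 y, θ (π (g (e x))) = e x := hec.eventually hθe
    have e3 : ∀ᶠ x in 𝓝 y, π (g (e x)) ∈ Ω := by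
      have h1 : ContinuousAt (fun x => π (g (e x))) y :=
        ContinuousAt.comp (g := fun ξ => π (g ξ)) (f := e)
          (π.continuous.continuousAt.comp hgan.continuousAt) hec
      exact h1.eventually (hΩo.mem_nhds hΩ0)
    have e4 : ∀ᶠ x in 𝓝 y, G (e.symm (e x)) p ≠ 0 :=
      hec.eventually (hqan.continuousAt.eventually_ne hq0)
    filter_upwards [hG1, e1, e2, e3, e4] with x hx h1 h2 h3 h4
    obtain ⟨⟨hGx, hιx⟩, -⟩ := hx
    have h5 : e.symm (e x) = x := e.left_inv h1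
    rw [h5] at h4
    -- the representative is a multiple
    have h6 : Projectivization.mk ℂ (ι x).rep (ι x).rep_nonzero = Projectivization.mk ℂ (G x) hGx := by
      rw [Projectivization.mk_rep, hιx]
    rw [Projectivization.mk_eq_mk_iff] at h6
    obtain ⟨c, hc⟩ := h6
    have hc' : (c : ℂ) • G x = (ι x).rep := hc
    have h7 : nm (ι x).rep = π (g (e x)) := by
      rw [← hc', hnmc _ _ c.ne_zero]
      show π ((G x p)⁻¹ • G x) = π ((G (e.symm (e x)) p)⁻¹ • G (e.symm (e x)))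
      rw [h5]
    have h8 : (ι x).rep p ≠ 0 := by
      rw [← hc']
      exact mul_ne_zero c.ne_zero h4
    refine ⟨⟨h8, ?_⟩, ?_⟩
    · rw [h7]
      exact h3
    · show e.symm (θ (nm (ι x).rep)) = x
      rw [h7, h2, h5]
  obtain ⟨V, hVsub, hVo, hyV⟩ := _root_.mem_nhds_iff.1 hev
  refine ⟨O, ρ, V, hOo, fun v hv => ⟨?_, fun c hc => ⟨⟨?_, ?_⟩, ?_⟩⟩, fun v hv => ?_, hVo, hyV,
    fun x hx => hVsub hx⟩
  · rintro rfl
    exact hv.1 rfl
  · exact mul_ne_zero hc hv.1
  · rw [hnmc v c hc]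
    exact hv.2
  · show e.symm (θ (nm (c • v))) = e.symm (θ (nm v))
    rw [hnmc v c hc]
  · obtain ⟨hv1, hv2, hv3⟩ := hv
    have hθn : AnalyticAt ℂ (fun v => θ (nm v)) v := hv2.fun_comp (hnman v hv1)
    have hct : ContinuousAt ρ v :=
      ContinuousAt.comp (g := e.symm) (f := fun v => θ (nm v)) (e.continuousAt_symm hv3)
        hθn.continuousAt
    refine ⟨hct, fun j hj => ?_⟩
    have h1 : ρ v ∈ e.source := e.map_target hv3
    have h2 := A.trans i j (ρ v) h1 hj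
    have h3 : A.ch i (ρ v) = θ (nm v) := e.right_inv hv3
    rw [h3] at h2
    exact AnalyticAt.fun_comp (g := fun ξ => A.ch j ((A.ch i).symm ξ)) (f := fun v => θ (nm v)) h2 hθn

end lift

end Pool.Agent.IS

namespace Pool.Agent.IS

alias exists_ret := exists_ret_pr

end Pool.Agent.IS
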