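import Pool.Agent.Lib_helper80.IS.Base
import Pool.Agent.Lib_helper80.IS.L.R1

/-! # Project IS, block R2: uniqueness of lifts, finite fibres -/

set_option autoImplicit false

open Filter Topology Metric Set
open scoped Manifold ContDiff

namespace Pool.Agent.IS

open Pool.Agent.BR Pool.Agent.MBS Pool.Agent.SL

variable {E X : Type} [NormedAddCommGroup E] [NormedSpace ℂ E] [FiniteDimensional ℂ E]
  [MetricSpace X] {A : Cha E X} {n : ℕ} {ι : X → PP n}

theorem lift_uniq_pr (hι : PImm A n ι) {S : Set ℂ} (hS : IsPreconnected S) {g₁ g₂ : ℂ → X}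
    (h1 : ContinuousOn g₁ S) (h2 : ContinuousOn g₂ S) (he : ∀ z ∈ S, ι (g₁ z) = ι (g₂ z)) {z₀ : ℂ}
    (hz₀ : z₀ ∈ S) (h0 : g₁ z₀ = g₂ z₀) : ∀ z ∈ S, g₁ z = g₂ z := by
  have hpre : PreconnectedSpace S := Subtype.preconnectedSpace hS
  have c1 : Continuous (fun z : S => g₁ z) := continuousOn_iff_continuous_domRestrict.1 h1
  have c2 : Continuous (fun z : S => g₂ z) := continuousOn_iff_continuous_domRestrict.1 h2
  have hcl : IsClosed {z : S | g₁ z = g₂ z} := isClosed_eq c1 c2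
  have hop : IsOpen {z : S | g₁ z = g₂ z} := by
    rw [isOpen_iff_mem_nhds]
    intro z hz
    obtain ⟨O, ρ, V, hr⟩ := exists_ret hι (g₁ z)
    have hz2 : g₂ z ∈ V := by
      have : g₁ z = g₂ z := hz
      rw [← this]; exact hr.mem
    have n1 : ∀ᶠ w : S in 𝓝 z, g₁ w ∈ V := c1.continuousAt.eventually (hr.V_open.mem_nhds hr.mem)
    have n2 : ∀ᶠ w : S in 𝓝 z, g₂ w ∈ V := c2.continuousAt.eventually (hr.V_open.mem_nhds hz2)
    filter_upwards [n1, n2] with w w1 w2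
    have e1 := (hr.inv _ w1).2
    have e2 := (hr.inv _ w2).2
    change g₁ w = g₂ w
    rw [← e1, he w w.2, e2]
  have huniv := IsClopen.eq_univ ⟨hcl, hop⟩ ⟨⟨z₀, hz₀⟩, h0⟩
  intro z hz
  have : (⟨z, hz⟩ : S) ∈ {z : S | g₁ z = g₂ z} := by rw [huniv]; trivial
  exact this

theorem fibre_finite_pr [CompactSpace X] (hι : PImm A n ι) (v : PP n) : {x | ι x = v}.Finite := by
  have hV : ∀ x : X, ∃ V : Set X, IsOpen V ∧ x ∈ V ∧ (V ∩ {x | ι x = v}).Subsingleton := by
    intro x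
    obtain ⟨O, ρ, V, hr⟩ := exists_ret hι x
    refine ⟨V, hr.V_open, hr.mem, ?_⟩
    rintro y ⟨hy, hy'⟩ y' ⟨hz, hz'⟩
    have e1 := (hr.inv _ hy).2
    have e2 := (hr.inv _ hz).2
    have h3 : ι y = v := hy'
    have h4 : ι y' = v := hz'
    rw [h3] at e1
    rw [h4] at e2
    rw [← e1, ← e2]
  choose V hV1 hV2 hV3 using hV
  obtain ⟨t, ht⟩ := (isCompact_univ (X := X)).elim_nhds_subcover V
    (fun x _ => (hV1 x).mem_nhds (hV2 x))
  have hsub : {x | ι x = v} ⊆ ⋃ x ∈ t, (V x ∩ {x | ι x = v}) := by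
    intro y hy
    have h5 := ht.2 (mem_univ y)
    simp only [mem_iUnion] at h5 ⊢
    obtain ⟨x, hx, hyx⟩ := h5
    exact ⟨x, hx, hyx, hy⟩
  refine Set.Finite.subset ?_ hsub
  exact t.finite_toSet.biUnion (fun x _ => (hV3 x).finite)




end Pool.Agent.IS

namespace Pool.Agent.IS

alias lift_uniq := lift_uniq_pr
alias fibre_finite := fibre_finite_pr

end Pool.Agent.IS
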