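import Pool.Agent.Lib_helper80.IS.Base
import Pool.Agent.Lib_helper80.IS.L.P1
import Pool.Agent.Lib_helper80.IS.L.R1
import Pool.Agent.Lib_helper80.IS.L.R2
import Pool.Agent.Lib_helper80.IS.L.R3

set_option autoImplicit false
set_option linter.unusedSectionVars false

open Filter Topology Metric Set
open scoped Manifold ContDiff

namespace Pool.Agent.IS

open Pool.Agent.BR Pool.Agent.MBS Pool.Agent.SL

/-- equality in the projective space by minors -/
private theorem r4_minor {n : ℕ} {v w : Fin (n + 1) → ℂ} (hv : v ≠ 0) (hw : w ≠ 0) :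
    Projectivization.mk ℂ v hv = Projectivization.mk ℂ w hw ↔ ∀ j k, v j * w k = v k * w j := by
  rw [Projectivization.mk_eq_mk_iff']
  constructor
  · rintro ⟨a, rfl⟩ j k
    simp only [Pi.smul_apply, smul_eq_mul]
    ring
  · intro h
    obtain ⟨k, hk⟩ : ∃ k, w k ≠ 0 := by
      by_contra h0
      push Not at h0
      exact hw (funext h0)
    refine ⟨v k / w k, ?_⟩
    funext j
    simp only [Pi.smul_apply, smul_eq_mul]
    rw [div_mul_eq_mul_div, div_eq_iff hk]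
    rw [h k j]

section lift

variable {E X : Type} [NormedAddCommGroup E] [NormedSpace ℂ E] [FiniteDimensional ℂ E]
  [MetricSpace X] {A : Cha E X} {n : ℕ} {ι : X → PP n}

private theorem r4_plift (hι : PImm A n ι) : Plift A n ι := by
  refine ⟨fun x => ?_⟩
  obtain ⟨G, hG, -⟩ := hι.lift x
  exact ⟨G, hG⟩

/-- a vector-valued lift is continuous -/
private theorem r4_cont {x : X} {G : X → Fin (n + 1) → ℂ}
    (hG : ∀ i, x ∈ (A.ch i).source → AnalyticAt ℂ (fun ξ => G ((A.ch i).symm ξ)) (A.ch i x)) :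
    ContinuousAt G x := by
  obtain ⟨i, hi⟩ := A.cover x
  have hs : x ∈ (A.ch i).source := A.W_sub i (subset_closure hi)
  have h1 := (hG i hs).continuousAt
  have h2 := (A.ch i).continuousAt hs
  have h3 : ContinuousAt ((fun ξ => G ((A.ch i).symm ξ)) ∘ (A.ch i)) x := h1.comp h2
  refine h3.congr ?_
  filter_upwards [(A.ch i).open_source.mem_nhds hs] with y hy
  simp [(A.ch i).left_inv hy]

/-- a vector in the cone -/
private theorem r4_cone {y x : X} {O : Set (Fin (n + 1) → ℂ)} {ρ : (Fin (n + 1) → ℂ) → X} {V : Set X}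
    (hR : Ret A ι y O ρ V) (hx : x ∈ V) {v : Fin (n + 1) → ℂ} (hv : v ≠ 0)
    (h : ι x = Projectivization.mk ℂ v hv) : v ∈ O ∧ ρ v = x := by
  obtain ⟨h1, h2⟩ := hR.inv x hx
  obtain ⟨a, ha⟩ := Projectivization.exists_smul_eq_mk_rep ℂ v hv
  rw [h] at h1 h2
  rw [← ha] at h1 h2
  have h3 : v = ((a⁻¹ : ℂˣ) : ℂ) • (a • v) := by
    rw [Units.smul_def, smul_smul, ← Units.val_mul, inv_mul_cancel, Units.val_one, one_smul]
  obtain ⟨-, h4⟩ := hR.O_cone _ h1
  obtain ⟨h5, h6⟩ := h4 ((a⁻¹ : ℂˣ) : ℂ) (Units.ne_zero _)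
  rw [← h3] at h5 h6
  exact ⟨h5, h6.trans h2⟩

theorem lext_pr [CompactSpace X] (hι : PImm A n ι) {G : ℂ → PP n} {z₁ : ℂ} (hG : HolPAt G z₁) :
    ∃ r > 0, ∀ S : Set ℂ, IsOpen S → IsPreconnected S → S.Nonempty → S ⊆ ball z₁ r →
      ∀ g : ℂ → X, ContinuousOn g S → (∀ z ∈ S, ι (g z) = G z) →
        ∃ g' : ℂ → X, (∀ z ∈ ball z₁ r, A.HolAt g' z ∧ ι (g' z) = G z) ∧ ∀ z ∈ S, g' z = g z := by
  obtain ⟨F, hF⟩ := hG
  have hF1 : AnalyticAt ℂ F z₁ := hF.self_of_nhds.1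
  obtain ⟨-, hF2, hF3⟩ := hF.self_of_nhds
  have hfin : {x | ι x = G z₁}.Finite := fibre_finite hι (G z₁)
  choose O ρ V hR using fun y : X => exists_ret hι y
  obtain ⟨U, hU, hUd⟩ := hfin.t2_separation
  -- (a)
  have ha : ∀ᶠ z in 𝓝 z₁, ∀ y ∈ {x | ι x = G z₁}, F z ∈ O y := by
    rw [Filter.eventually_all_finite hfin]
    intro y hy
    have h1 : F z₁ ∈ O y := (r4_cone (hR y) (hR y).mem hF2 (hy.trans hF3)).1
    exact hF1.continuousAt ((hR y).O_open.mem_nhds h1)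
  -- (b)
  have hb : ∀ᶠ z in 𝓝 z₁, ∀ x ∈ (⋃ y ∈ {x | ι x = G z₁}, V y ∩ U y)ᶜ, ¬ (ι x = G z) := by
    have hK : IsCompact ((⋃ y ∈ {x | ι x = G z₁}, V y ∩ U y)ᶜ : Set X) := by
      apply IsClosed.isCompact
      rw [isClosed_compl_iff]
      exact isOpen_biUnion fun y _ => (hR y).V_open.inter (hU y).2
    refine hK.eventually_forall_of_forall_eventually (P := fun z x => ¬ (ι x = G z)) ?_
    intro x₀ hx₀
    have hne : ¬ (ι x₀ = G z₁) := by
      intro h
      apply hx₀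
      exact mem_biUnion (show x₀ ∈ {x | ι x = G z₁} from h) ⟨(hR x₀).mem, (hU x₀).1⟩
    obtain ⟨G', hG', -⟩ := hι.lift x₀
    obtain ⟨⟨g1, g2⟩, g3⟩ := hG'.self_of_nhds
    have hc : ContinuousAt G' x₀ := r4_cont g3
    rw [g2, hF3, r4_minor] at hne
    push Not at hne
    obtain ⟨j, k, hjk⟩ := hne
    have e1 : ContinuousAt (fun p : ℂ × X => G' p.2 j * F p.1 k) (z₁, x₀) := by
      have c1 : ContinuousAt (fun p : ℂ × X => G' p.2) (z₁, x₀) :=
        ContinuousAt.comp (g := G') (f := fun p : ℂ × X => p.2) hc continuousAt_snd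
      have c2 : ContinuousAt (fun p : ℂ × X => F p.1) (z₁, x₀) :=
        ContinuousAt.comp (g := F) (f := fun p : ℂ × X => p.1) hF1.continuousAt continuousAt_fst
      exact ((continuous_apply j).continuousAt.comp c1).mul
        ((continuous_apply k).continuousAt.comp c2)
    have e2 : ContinuousAt (fun p : ℂ × X => G' p.2 k * F p.1 j) (z₁, x₀) := by
      have c1 : ContinuousAt (fun p : ℂ × X => G' p.2) (z₁, x₀) :=
        ContinuousAt.comp (g := G') (f := fun p : ℂ × X => p.2) hc continuousAt_snd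
      have c2 : ContinuousAt (fun p : ℂ × X => F p.1) (z₁, x₀) :=
        ContinuousAt.comp (g := F) (f := fun p : ℂ × X => p.1) hF1.continuousAt continuousAt_fst
      exact ((continuous_apply k).continuousAt.comp c1).mul
        ((continuous_apply j).continuousAt.comp c2)
    have e3 : ∀ᶠ p : ℂ × X in 𝓝 (z₁, x₀), G' p.2 j * F p.1 k - G' p.2 k * F p.1 j ≠ 0 :=
      (e1.sub e2).eventually_ne (sub_ne_zero.2 hjk)
    have e4 : ∀ᶠ p : ℂ × X in 𝓝 (z₁, x₀), ∃ h : F p.1 ≠ 0, G p.1 = Projectivization.mk ℂ (F p.1) h :=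
      (continuousAt_fst (p := (z₁, x₀))).eventually (hF.mono fun z hz => hz.2)
    have e5 : ∀ᶠ p : ℂ × X in 𝓝 (z₁, x₀), ∃ h : G' p.2 ≠ 0, ι p.2 = Projectivization.mk ℂ (G' p.2) h :=
      (continuousAt_snd (p := (z₁, x₀))).eventually (hG'.mono fun z hz => hz.1)
    filter_upwards [e3, e4, e5] with p h3 h4 h5 h6
    obtain ⟨h4, h4'⟩ := h4
    obtain ⟨h5, h5'⟩ := h5
    rw [h4', h5', r4_minor] at h6
    exact sub_ne_zero.1 h3 (h6 j k)
  obtain ⟨r, hr, hball⟩ := Metric.eventually_nhds_iff_ball.1 (hF.and (ha.and hb))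
  refine ⟨r, hr, ?_⟩
  intro S hSo hSc hSn hSr g hg hgG
  obtain ⟨z₀, hz₀⟩ := hSn
  have hmem : ∀ z ∈ S, ∃ y ∈ {x | ι x = G z₁}, g z ∈ V y ∩ U y := by
    intro z hz
    by_contra hcon
    apply (hball z (hSr hz)).2.2 (g z) _ (hgG z hz)
    intro h
    apply hcon
    simpa only [mem_iUnion, exists_prop] using h
  obtain ⟨y₀, hy₀, hgy₀⟩ := hmem z₀ hz₀
  -- g maps S to V y₀
  have hsub : g '' S ⊆ V y₀ ∩ U y₀ := by
    refine IsPreconnected.subset_left_of_subset_union ((hR y₀).V_open.inter (hU y₀).2)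
      (v := ⋃ y ∈ {x | ι x = G z₁} \ {y₀}, V y ∩ U y)
      (isOpen_biUnion fun y _ => (hR y).V_open.inter (hU y).2) ?_ ?_
      ⟨g z₀, mem_image_of_mem g hz₀, hgy₀⟩ (hSc.image g hg)
    · rw [Set.disjoint_iUnion₂_right]
      rintro y ⟨hy1, hy2⟩
      have h1 := hUd hy₀ hy1 (fun h => hy2 h.symm)
      exact (h1.mono inter_subset_right inter_subset_right)
    · rintro _ ⟨z, hz, rfl⟩
      obtain ⟨y, hy, hgy⟩ := hmem z hz
      by_cases h : y = y₀
      · subst h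
        exact Or.inl hgy
      · exact Or.inr (mem_biUnion (show y ∈ {x | ι x = G z₁} \ {y₀} from ⟨hy, h⟩) hgy)
  have hkey : ∀ z ∈ S, ρ y₀ (F z) = g z := by
    intro z hz
    obtain ⟨⟨-, h1, h2⟩, -⟩ := hball z (hSr hz)
    exact (r4_cone (hR y₀) (hsub (mem_image_of_mem g hz)).1 h1 ((hgG z hz).trans h2)).2
  have hhol : ∀ z ∈ ball z₁ r, A.HolAt (fun z => ρ y₀ (F z)) z := by
    intro z hz
    obtain ⟨⟨h1, h2, h3⟩, h4, -⟩ := hball z hz
    obtain ⟨h5, h6⟩ := (hR y₀).an (F z) (h4 y₀ hy₀)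
    refine ⟨ContinuousAt.comp (g := ρ y₀) (f := F) h5 h1.continuousAt, fun i hi => ?_⟩
    exact AnalyticAt.comp (g := fun v => A.ch i (ρ y₀ v)) (f := F) (h6 i hi) h1
  refine ⟨fun z => ρ y₀ (F z), fun z hz => ⟨hhol z hz, ?_⟩, hkey⟩
  have hco : IsPreconnected (ball z₁ r) := (convex_ball z₁ r).isPreconnected
  refine proj_ident (H₁ := fun z => ι (ρ y₀ (F z))) (H₂ := G) isOpen_ball hco ?_ ?_
    (hSr hz₀) ?_ z hz
  · intro w hw
    exact holP_comp (r4_plift hι) (hhol w hw)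
  · intro w hw
    refine ⟨F, ?_⟩
    filter_upwards [isOpen_ball.mem_nhds hw] with w' hw'
    exact (hball w' hw').1
  · filter_upwards [hSo.mem_nhds hz₀] with w hw
    rw [hkey w hw, hgG w hw]

end lift

end Pool.Agent.IS

namespace Pool.Agent.IS

alias lext := lext_pr

end Pool.Agent.IS
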