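import Pool.Agent.Lib_helper80.IS.Base
import Pool.Agent.Lib_helper80.IS.L.R2
import Pool.Agent.Lib_helper80.IS.L.R4

/-! # Project IS, block R5: lifting on the plane -/

set_option autoImplicit false

open Filter Topology Metric Set
open scoped Manifold ContDiff

namespace Pool.Agent.IS

open Pool.Agent.BR Pool.Agent.MBS Pool.Agent.SL

section

variable {E X : Type} [NormedAddCommGroup E] [NormedSpace ℂ E]
  [MetricSpace X] {A : Cha E X}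

theorem r5_congr {g g' : ℂ → X} {z : ℂ} (h : A.HolAt g z) (e : g =ᶠ[𝓝 z] g') :
    A.HolAt g' z := by
  have h1 : g z = g' z := e.self_of_nhds
  refine ⟨h.1.congr e, fun i hi => ?_⟩
  have h2 := h.2 i (by rw [h1]; exact hi)
  refine h2.congr ?_
  filter_upwards [e] with w hw
  show A.ch i (g w) = A.ch i (g' w)
  rw [hw]

end

section lift

variable {E X : Type} [NormedAddCommGroup E] [NormedSpace ℂ E] [FiniteDimensional ℂ E]
  [MetricSpace X] {A : Cha E X} {n : ℕ} {ι : X → PP n}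

/-- the step: from a ball to a larger ball -/
theorem r5_step (hι : PImm A n ι) {G : ℂ → PP n} {w₀ : ℂ} {R δ : ℝ} (hR : 0 < R) (hδ : 0 < δ)
    (hl : ∀ z₁ ∈ closedBall w₀ R, ∀ S : Set ℂ, IsOpen S → IsPreconnected S → S.Nonempty →
      S ⊆ ball z₁ δ → ∀ g : ℂ → X, ContinuousOn g S → (∀ z ∈ S, ι (g z) = G z) →
        ∃ g' : ℂ → X, (∀ z ∈ ball z₁ δ, A.HolAt g' z ∧ ι (g' z) = G z) ∧ ∀ z ∈ S, g' z = g z)
    {g : ℂ → X} (hg : ∀ z ∈ ball w₀ R, A.HolAt g z ∧ ι (g z) = G z) :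
    ∃ g' : ℂ → X, (∀ z ∈ ball w₀ (R + δ / 2), A.HolAt g' z ∧ ι (g' z) = G z) ∧
      ∀ z ∈ ball w₀ R, g' z = g z := by
  have hcl : ∀ z₁ ∈ closedBall w₀ R, ∀ T : Set ℂ, IsOpen T → z₁ ∈ T →
      (ball w₀ R ∩ T).Nonempty := by
    intro z₁ hz₁ T hT hzT
    rw [← closure_ball w₀ hR.ne'] at hz₁
    obtain ⟨u, hu1, hu2⟩ := mem_closure_iff.1 hz₁ T hT hzT
    exact ⟨u, hu2, hu1⟩
  have key : ∀ z₁ ∈ closedBall w₀ R, ∃ g' : ℂ → X,
      (∀ z ∈ ball z₁ δ, A.HolAt g' z ∧ ι (g' z) = G z) ∧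
        ∀ z ∈ ball w₀ R ∩ ball z₁ δ, g' z = g z := by
    intro z₁ hz₁
    exact hl z₁ hz₁ (ball w₀ R ∩ ball z₁ δ) (isOpen_ball.inter isOpen_ball)
      ((convex_ball w₀ R).inter (convex_ball z₁ δ)).isPreconnected
      (hcl z₁ hz₁ _ isOpen_ball (mem_ball_self hδ)) inter_subset_right g
      (fun z hz => (hg z hz.1).1.1.continuousWithinAt) (fun z hz => (hg z hz.1).2)
  haveI : Nonempty (ℂ → X) := ⟨g⟩
  choose! e he1 he2 using key
  have hcomp : ∀ z₁ ∈ closedBall w₀ R, ∀ z₂ ∈ closedBall w₀ R, ∀ z, dist z z₁ < δ / 2 →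
      dist z z₂ < δ / 2 → e z₁ z = e z₂ z := by
    intro z₁ hz₁ z₂ hz₂ z h1 h2
    have h12 : dist z₁ z₂ < δ := by
      have h3 := dist_triangle_left z₁ z₂ z
      linarith
    obtain ⟨u, hu1, hu2, hu3⟩ := hcl z₁ hz₁ (ball z₁ δ ∩ ball z₂ δ)
      (isOpen_ball.inter isOpen_ball) ⟨mem_ball_self hδ, mem_ball.2 h12⟩
    refine lift_uniq hι (S := ball z₁ δ ∩ ball z₂ δ)
      ((convex_ball z₁ δ).inter (convex_ball z₂ δ)).isPreconnected
      (fun z hz => ((he1 z₁ hz₁ z hz.1).1.1).continuousWithinAt)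
      (fun z hz => ((he1 z₂ hz₂ z hz.2).1.1).continuousWithinAt)
      (fun z hz => (he1 z₁ hz₁ z hz.1).2.trans (he1 z₂ hz₂ z hz.2).2.symm)
      (z₀ := u) ⟨hu2, hu3⟩ ?_ z ⟨mem_ball.2 (by linarith), mem_ball.2 (by linarith)⟩
    rw [he2 z₁ hz₁ u ⟨hu1, hu2⟩, he2 z₂ hz₂ u ⟨hu1, hu3⟩]
  have hcov : ∀ z ∈ ball w₀ (R + δ / 2), ∃ z₁ ∈ closedBall w₀ R, dist z z₁ < δ / 2 := by
    intro z hz
    rw [add_comm, ← thickening_closedBall (half_pos hδ) hR.le w₀, mem_thickening_iff] at hz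
    exact hz
  choose! c hc1 hc2 using hcov
  have hd : δ / 2 < δ := by linarith
  refine ⟨fun z => e (c z) z, fun z hz => ⟨?_, ?_⟩, fun z hz => ?_⟩
  · have h1 := (he1 (c z) (hc1 z hz) z (mem_ball.2 ((hc2 z hz).trans hd))).1
    refine r5_congr h1 ?_
    filter_upwards [isOpen_ball.mem_nhds hz,
      isOpen_ball.mem_nhds (mem_ball.2 (hc2 z hz) : z ∈ ball (c z) (δ / 2))] with w hw1 hw2
    exact hcomp (c z) (hc1 z hz) (c w) (hc1 w hw1) w (mem_ball.1 hw2) (hc2 w hw1)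
  · exact (he1 (c z) (hc1 z hz) z (mem_ball.2 ((hc2 z hz).trans hd))).2
  · have hz' : z ∈ ball w₀ (R + δ / 2) := ball_subset_ball (by linarith) hz
    exact he2 (c z) (hc1 z hz') z ⟨hz, mem_ball.2 ((hc2 z hz').trans hd)⟩

/-- lifts on all balls -/
theorem r5_ball [CompactSpace X] (hι : PImm A n ι) {G : ℂ → PP n} (hG : HolP G) {w₀ : ℂ}
    {g₀ : ℂ → X} {r₀ : ℝ} (hr₀ : 0 < r₀)
    (h0 : ∀ w ∈ ball w₀ r₀, A.HolAt g₀ w ∧ ι (g₀ w) = G w) (R₁ : ℝ) :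
    ∃ g : ℂ → X, (∀ z ∈ ball w₀ R₁, A.HolAt g z ∧ ι (g z) = G z) ∧
      ∀ z ∈ ball w₀ r₀, g z = g₀ z := by
  have hlext := fun z₁ : ℂ => lext (A := A) hι (G := G) (z₁ := z₁) (hG z₁)
  choose r hr hl using hlext
  obtain ⟨δ, hδ, hδl⟩ := lebesgue_number_lemma_of_metric
    (isCompact_closedBall w₀ (max R₁ r₀)) (c := fun z₁ : ℂ => ball z₁ (r z₁))
    (fun z₁ => isOpen_ball) (fun z _ => mem_iUnion.2 ⟨z, mem_ball_self (hr z)⟩)
  have hind : ∀ k : ℕ, ∃ g : ℂ → X,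
      (∀ z ∈ ball w₀ (min (r₀ + k * (δ / 2)) (max R₁ r₀)), A.HolAt g z ∧ ι (g z) = G z) ∧
        ∀ z ∈ ball w₀ r₀, g z = g₀ z := by
    intro k
    induction k with
    | zero =>
      refine ⟨g₀, fun z hz => h0 z (ball_subset_ball ?_ hz), fun z _ => rfl⟩
      refine (min_le_left _ _).trans ?_
      simp
    | succ k ih =>
      obtain ⟨g, hg1, hg2⟩ := ih
      have hk : (0 : ℝ) ≤ k * (δ / 2) := by positivity
      have hpos : r₀ ≤ min (r₀ + k * (δ / 2)) (max R₁ r₀) :=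
        le_min (by linarith) (le_max_right _ _)
      obtain ⟨g', h1, h2⟩ := r5_step hι (G := G) (w₀ := w₀)
        (R := min (r₀ + k * (δ / 2)) (max R₁ r₀)) (δ := δ) (hr₀.trans_le hpos) hδ (by
          intro z₁ hz₁ S hSo hSc hSn hSs f hf1 hf2
          obtain ⟨z₂, hz₂⟩ := hδl z₁ (closedBall_subset_closedBall (min_le_right _ _) hz₁)
          obtain ⟨g', h1, h2⟩ := hl z₂ S hSo hSc hSn (hSs.trans hz₂) f hf1 hf2
          exact ⟨g', fun z hz => h1 z (hz₂ hz), h2⟩) hg1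
      refine ⟨g', fun z hz => h1 z (ball_subset_ball ?_ hz), fun z hz => ?_⟩
      · push_cast
        rcases le_total (r₀ + k * (δ / 2)) (max R₁ r₀) with h3 | h3
        · rw [min_eq_left h3]
          exact (min_le_left _ _).trans (by linarith)
        · rw [min_eq_right h3]
          exact (min_le_right _ _).trans (by linarith)
      · rw [h2 z (ball_subset_ball hpos hz), hg2 z hz]
  obtain ⟨k, hk⟩ := exists_nat_gt ((max R₁ r₀) / (δ / 2))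
  obtain ⟨g, hg1, hg2⟩ := hind k
  refine ⟨g, fun z hz => hg1 z (ball_subset_ball ?_ hz), hg2⟩
  have h3 : max R₁ r₀ < k * (δ / 2) := (div_lt_iff₀ (half_pos hδ)).1 hk
  have h4 : R₁ ≤ max R₁ r₀ := le_max_left _ _
  exact le_min (by linarith) h4

theorem lift_plane_pr [CompactSpace X] (hι : PImm A n ι) {G : ℂ → PP n} (hG : HolP G) {w₀ : ℂ}
    {g₀ : ℂ → X} (h0 : ∀ᶠ w in 𝓝 w₀, A.HolAt g₀ w ∧ ι (g₀ w) = G w) :
    ∃ g : ℂ → X, (∀ w, A.HolAt g w) ∧ (∀ w, ι (g w) = G w) ∧ ∀ᶠ w in 𝓝 w₀, g w = g₀ w := by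
  obtain ⟨r₀, hr₀, h0'⟩ := eventually_nhds_iff_ball.1 h0
  have hb := fun k : ℕ => r5_ball (A := A) hι hG hr₀ h0' (k : ℝ)
  choose f hf1 hf2 using hb
  have huniq : ∀ k m : ℕ, ∀ z, z ∈ ball w₀ (k : ℝ) → z ∈ ball w₀ (m : ℝ) → f k z = f m z := by
    intro k m z hk hm
    have hpk : (0 : ℝ) < k := dist_nonneg.trans_lt (mem_ball.1 hk)
    have hpm : (0 : ℝ) < m := dist_nonneg.trans_lt (mem_ball.1 hm)
    refine lift_uniq hι (S := ball w₀ (k : ℝ) ∩ ball w₀ (m : ℝ))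
      ((convex_ball w₀ _).inter (convex_ball w₀ _)).isPreconnected
      (fun z hz => ((hf1 k z hz.1).1.1).continuousWithinAt)
      (fun z hz => ((hf1 m z hz.2).1.1).continuousWithinAt)
      (fun z hz => (hf1 k z hz.1).2.trans (hf1 m z hz.2).2.symm)
      (z₀ := w₀) ⟨mem_ball_self hpk, mem_ball_self hpm⟩ ?_ z ⟨hk, hm⟩
    rw [hf2 k w₀ (mem_ball_self hr₀), hf2 m w₀ (mem_ball_self hr₀)]
  have hN : ∀ z : ℂ, z ∈ ball w₀ ((⌊dist z w₀⌋₊ + 1 : ℕ) : ℝ) := by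
    intro z
    rw [mem_ball]
    push_cast
    exact Nat.lt_floor_add_one _
  have hloc : ∀ (k : ℕ), ∀ z ∈ ball w₀ (k : ℝ), f (⌊dist z w₀⌋₊ + 1) z = f k z :=
    fun k z hz => huniq _ _ z (hN z) hz
  refine ⟨fun z => f (⌊dist z w₀⌋₊ + 1) z, fun z => ?_, fun z => (hf1 _ z (hN z)).2, ?_⟩
  · refine r5_congr (hf1 _ z (hN z)).1 ?_
    filter_upwards [isOpen_ball.mem_nhds (hN z)] with w hw
    exact (hloc _ w hw).symm
  · have h1 : w₀ ∈ ball w₀ ((1 : ℕ) : ℝ) := mem_ball_self (by norm_num)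
    filter_upwards [isOpen_ball.mem_nhds h1, ball_mem_nhds w₀ hr₀] with w hw1 hw2
    rw [hloc 1 w hw1, hf2 1 w hw2]

end lift

end Pool.Agent.IS

namespace Pool.Agent.IS

alias lift_plane := lift_plane_pr

end Pool.Agent.IS
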