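import Pool.Agent.Lib_helper80.IS.Base
import Pool.Agent.Lib_helper80.IS.L.R2

set_option autoImplicit false

open Filter Topology Metric Set
open scoped Manifold ContDiff

namespace Pool.Agent.IS

open Pool.Agent.BR Pool.Agent.MBS Pool.Agent.SL

section lift

variable {E X : Type} [NormedAddCommGroup E] [NormedSpace ℂ E] [FiniteDimensional ℂ E]
  [MetricSpace X] {A : Cha E X} {n : ℕ} {ι : X → PP n}

theorem periodic_of_pr [CompactSpace X] (hι : PImm A n ι) {h : ℂ → X} (hh : ∀ z, A.HolAt h z)
    (hp : BrodyRigid.DoublyPeriodic (fun z => ι (h z))) : BrodyRigid.DoublyPeriodic h := by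
  classical
  obtain ⟨Λ, hd, hz, hper0⟩ := hp
  have hper : ∀ l ∈ Λ, ∀ z, ι (h (z + l)) = ι (h z) := hper0
  have hfin := fibre_finite hι (ι (h 0))
  set N := hfin.toFinset.card with hN
  -- two translates which agree at a point agree
  have key : ∀ a b : ℂ, a ∈ Λ → b ∈ Λ → h a = h b → ∀ z, h (z + (b - a)) = h z := by
    intro a b ha hb hab z
    have hcont : Continuous h := continuous_iff_continuousAt.2 fun z => (hh z).1
    have := lift_uniq hι (S := univ) isPreconnected_univ (g₁ := fun z => h (z + a))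
      (g₂ := fun z => h (z + b)) (hcont.comp (continuous_id.add continuous_const)).continuousOn
      (hcont.comp (continuous_id.add continuous_const)).continuousOn
      (fun z _ => by
        show ι (h (z + a)) = ι (h (z + b))
        rw [hper a ha z, hper b hb z]) (z₀ := 0) (mem_univ _)
      (by simpa using hab) (z - a) (mem_univ _)
    simp only [sub_add_cancel] at this
    rw [this]
    congr 1
    ring
  -- a multiple of `l` is a period
  have hmul : ∀ l ∈ Λ, ∃ m : ℕ, 0 < m ∧ m ≤ N ∧ ∀ z, h (z + m * l) = h z := by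
    intro l hl
    have hmem : ∀ j : ℕ, (j : ℂ) * l ∈ Λ := by
      intro j
      have := Λ.smul_mem (j : ℤ) hl
      simpa [zsmul_eq_mul] using this
    have hmaps : ∀ j ∈ Finset.range (N + 1), h ((j : ℂ) * l) ∈ hfin.toFinset := by
      intro j _
      rw [Set.Finite.mem_toFinset]
      show ι (h ((j : ℂ) * l)) = ι (h 0)
      have := hper _ (hmem j) 0
      simpa using this
    obtain ⟨a, ha, b, hb, hab, heq⟩ := Finset.exists_ne_map_eq_of_card_lt_of_maps_to
      (by simp [hN]) hmaps
    rw [Finset.mem_range] at ha hb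
    rcases lt_or_gt_of_ne hab with hlt | hlt
    · refine ⟨b - a, by omega, by omega, fun z => ?_⟩
      have := key _ _ (hmem a) (hmem b) heq z
      rw [← this]
      congr 1
      rw [Nat.cast_sub hlt.le]
      ring
    · refine ⟨a - b, by omega, by omega, fun z => ?_⟩
      have := key _ _ (hmem b) (hmem a) heq.symm z
      rw [← this]
      congr 1
      rw [Nat.cast_sub hlt.le]
      ring
  -- multiples of periods are periods
  have hmulmul : ∀ (p : ℂ), (∀ z, h (z + p) = h z) → ∀ k : ℕ, ∀ z, h (z + k * p) = h z := by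
    intro p hp k
    induction k with
    | zero => intro z; simp
    | succ k ih =>
      intro z
      have : z + ((k + 1 : ℕ) : ℂ) * p = (z + k * p) + p := by push_cast; ring
      rw [this, hp, ih]
  have hfac : ∀ l ∈ Λ, ∀ z, h (z + (N.factorial : ℂ) * l) = h z := by
    intro l hl z
    obtain ⟨m, hm, hmN, hmp⟩ := hmul l hl
    obtain ⟨k, hk⟩ := Nat.dvd_factorial hm hmN
    have := hmulmul _ hmp k z
    rw [← this, hk]
    congr 1
    push_cast
    ring
  -- the new lattice
  let c : ℤ := N.factorial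
  have hc : (c : ℝ) ≠ 0 := by
    have := N.factorial_ne_zero
    simpa [c] using this
  let Λ' : Submodule ℤ ℂ := Λ.map (c • (LinearMap.id : ℂ →ₗ[ℤ] ℂ))
  have hle : Λ' ≤ Λ := by
    rintro _ ⟨l, hl, rfl⟩
    exact Λ.smul_mem c hl
  have hd' : DiscreteTopology Λ' := DiscreteTopology.of_subset (s := (Λ : Set ℂ)) hd hle
  have hz' : IsZLattice ℝ Λ' := by
    refine ⟨?_⟩
    rw [eq_top_iff, ← hz.span_top, Submodule.span_le]
    intro l hl
    have h1 : (c : ℝ) • l ∈ Submodule.span ℝ (Λ' : Set ℂ) := by
      refine Submodule.subset_span ⟨l, hl, ?_⟩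
      simp [c]
    have h2 := Submodule.smul_mem _ (c : ℝ)⁻¹ h1
    rwa [smul_smul, inv_mul_cancel₀ hc, one_smul] at h2
  refine ⟨Λ', hd', hz', ?_⟩
  rintro _ ⟨l, hl, rfl⟩ z
  have := hfac l hl z
  rw [← this]
  congr 2
  simp [c, zsmul_eq_mul]

end lift

end Pool.Agent.IS

namespace Pool.Agent.IS

alias periodic_of := periodic_of_pr

end Pool.Agent.IS
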