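import Pool.Agent.Lib_helper80.IS.Base
import Pool.Agent.Lib_helper80.IS.L.R2
import Pool.Agent.Lib_helper80.IS.L.R4
import Pool.Agent.Lib_helper80.IS.L.R5

/-! # Brody curves in algebraic curves, block R7: lifting on the projective line -/

set_option autoImplicit false
set_option linter.unusedVariables false
set_option linter.unusedSectionVars false

open Filter Topology Metric Set
open scoped Manifold ContDiff

namespace Pool.Agent.IS

open Pool.Agent.BR Pool.Agent.MBS Pool.Agent.SL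

/-- the values of the polynomials -/
noncomputable def r7Q {n : ℕ} (P : Fin (n + 1) → MvPolynomial (Fin 2) ℂ) (v : Fin 2 → ℂ) :
    Fin (n + 1) → ℂ := fun i => MvPolynomial.eval v (P i)

theorem r7_eval_smul {d : ℕ} {R : MvPolynomial (Fin 2) ℂ} (hR : R.IsHomogeneous d)
    (a : ℂ) (v : Fin 2 → ℂ) :
    MvPolynomial.eval (a • v) R = a ^ d * MvPolynomial.eval v R := by
  rw [MvPolynomial.eval_eq, MvPolynomial.eval_eq, Finset.mul_sum]
  refine Finset.sum_congr rfl fun e he => ?_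
  have h1 : (∏ i ∈ e.support, (a • v) i ^ e i) = a ^ d * ∏ i ∈ e.support, v i ^ e i := by
    have h2 : ∀ i ∈ e.support, (a • v) i ^ e i = a ^ e i * v i ^ e i := by
      intro i _
      simp [mul_pow]
    rw [Finset.prod_congr rfl h2, Finset.prod_mul_distrib, Finset.prod_pow_eq_pow_sum]
    have h3 : ∑ i ∈ e.support, e i = d := (hR.degree_eq_sum_deg_support he).symm
    rw [h3]
  rw [h1]
  ring

theorem r7_Q_smul {n d : ℕ} {P : Fin (n + 1) → MvPolynomial (Fin 2) ℂ}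
    (hP : ∀ i, (P i).IsHomogeneous d) (a : ℂ) (v : Fin 2 → ℂ) :
    r7Q P (a • v) = a ^ d • r7Q P v := by
  funext i
  exact r7_eval_smul (hP i) a v

theorem r7_mk {n d : ℕ} {P : Fin (n + 1) → MvPolynomial (Fin 2) ℂ}
    (hP : ∀ i, (P i).IsHomogeneous d) {a : ℂ} {v w : Fin 2 → ℂ} (hw : w = a • v)
    (h1 : r7Q P w ≠ 0) (h2 : r7Q P v ≠ 0) :
    Projectivization.mk ℂ (r7Q P w) h1 = Projectivization.mk ℂ (r7Q P v) h2 := by
  rw [Projectivization.mk_eq_mk_iff']
  exact ⟨a ^ d, by rw [hw, r7_Q_smul hP]⟩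

theorem r7_Q_an {n : ℕ} (P : Fin (n + 1) → MvPolynomial (Fin 2) ℂ) {u : ℂ → Fin 2 → ℂ} {z : ℂ}
    (hu : ∀ i, AnalyticAt ℂ (fun z => u z i) z) : AnalyticAt ℂ (fun z => r7Q P (u z)) z := by
  refine AnalyticAt.pi fun i => ?_
  have h := AnalyticAt.aeval_mvPolynomial (A := ℂ) (f := u) hu (P i)
  exact h

theorem r7_fin2 (v : Fin 2 → ℂ) : v = ![v 0, v 1] := by
  funext i
  fin_cases i <;> rfl

theorem r7_vec_ne0 (v : ℂ) : (![v, 1] : Fin 2 → ℂ) ≠ 0 := fun h => by
  have := congrFun h 1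
  simp at this

theorem r7_vec_ne1 (v : ℂ) : (![1, v] : Fin 2 → ℂ) ≠ 0 := fun h => by
  have := congrFun h 0
  simp at this

section lift

variable {E X : Type} [NormedAddCommGroup E] [NormedSpace ℂ E] [FiniteDimensional ℂ E]
  [MetricSpace X] {A : Cha E X} {n : ℕ} {ι : X → PP n}

omit [FiniteDimensional ℂ E] in
theorem r7_comp {g : ℂ → X} {u : ℂ → ℂ} {z : ℂ} (hg : A.HolAt g (u z)) (hu : AnalyticAt ℂ u z) :
    A.HolAt (fun w => g (u w)) z := by
  refine ⟨ContinuousAt.comp (f := u) (g := g) hg.1 hu.continuousAt, fun i hi => ?_⟩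
  exact AnalyticAt.comp (f := u) (g := A.loc i g) (hg.2 i hi) hu

omit [FiniteDimensional ℂ E] in
theorem r7_congr {g g' : ℂ → X} {z : ℂ} (hg : A.HolAt g z) (he : ∀ᶠ w in 𝓝 z, g' w = g w) :
    A.HolAt g' z := by
  have he' : g' =ᶠ[𝓝 z] g := he
  have hz : g' z = g z := he'.self_of_nhds
  refine ⟨hg.1.congr he'.symm, fun i hi => ?_⟩
  rw [hz] at hi
  refine (hg.2 i hi).congr ?_
  filter_upwards [he'] with w hw
  show A.ch i (g w) = A.ch i (g' w)
  rw [hw]

theorem lift_line_pr [CompactSpace X] (hι : PImm A n ι) {d : ℕ} {P : Fin (n + 1) → MvPolynomial (Fin 2) ℂ}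
    (hP : ∀ i, (P i).IsHomogeneous d)
    (hP0 : ∀ v : Fin 2 → ℂ, v ≠ 0 → (fun i => MvPolynomial.eval v (P i)) ≠ 0) {v₀ : ℂ} {g₀ : ℂ → X}
    (h0 : ∀ᶠ v in 𝓝 v₀, A.HolAt g₀ v ∧ ∃ h : (fun i => MvPolynomial.eval ![v, 1] (P i)) ≠ 0,
      ι (g₀ v) = Projectivization.mk ℂ (fun i => MvPolynomial.eval ![v, 1] (P i)) h) :
    ∃ lam : PP 1 → X,
      (∀ v : PP 1, ∃ h : (fun i => MvPolynomial.eval v.rep (P i)) ≠ 0,
        ι (lam v) = Projectivization.mk ℂ (fun i => MvPolynomial.eval v.rep (P i)) h) ∧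
      (∀ ψ : ℂ → PP 1, HolP ψ → ∀ z, A.HolAt (fun z => lam (ψ z)) z) ∧
      ∀ᶠ v in 𝓝 v₀, ∃ h : ![v, 1] ≠ 0, lam (Projectivization.mk ℂ ![v, 1] h) = g₀ v := by
  classical
  have hQ0 : ∀ v : Fin 2 → ℂ, v ≠ 0 → r7Q P v ≠ 0 := hP0
  -- the affine part
  set G : ℂ → PP n := fun v => Projectivization.mk ℂ (r7Q P ![v, 1]) (hQ0 _ (r7_vec_ne0 v)) with hG
  have hGan : ∀ z : ℂ, AnalyticAt ℂ (fun v : ℂ => r7Q P ![v, 1]) z := fun z =>
    r7_Q_an P fun i => by
      fin_cases i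
      · exact analyticAt_id
      · exact analyticAt_const
  have hGP : HolP G := fun z₀ => ⟨fun v => r7Q P ![v, 1], Eventually.of_forall fun z =>
    ⟨hGan z, hQ0 _ (r7_vec_ne0 z), rfl⟩⟩
  obtain ⟨lam₀, hl1, hl2, hl3⟩ := lift_plane (A := A) hι hGP (w₀ := v₀) (g₀ := g₀) (by
    filter_upwards [h0] with w hw
    obtain ⟨h1, h2, h3⟩ := hw
    exact ⟨h1, h3⟩)
  -- the part at infinity
  set G' : ℂ → PP n := fun s => Projectivization.mk ℂ (r7Q P ![1, s]) (hQ0 _ (r7_vec_ne1 s)) with hG'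
  have hG'an : ∀ z : ℂ, AnalyticAt ℂ (fun v : ℂ => r7Q P ![1, v]) z := fun z =>
    r7_Q_an P fun i => by
      fin_cases i
      · exact analyticAt_const
      · exact analyticAt_id
  have hG'P : HolP G' := fun z₀ => ⟨fun v => r7Q P ![1, v], Eventually.of_forall fun z =>
    ⟨hG'an z, hQ0 _ (r7_vec_ne1 z), rfl⟩⟩
  have hGG' : ∀ s : ℂ, s ≠ 0 → G s⁻¹ = G' s := by
    intro s hs
    refine r7_mk hP (a := s⁻¹) ?_ _ _
    funext i
    fin_cases i
    · simp
    · simp [hs]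
  have hlc : Continuous lam₀ := continuous_iff_continuousAt.2 fun z => (hl1 z).1
  obtain ⟨r, hr, hext⟩ := lext (A := A) hι (z₁ := (0 : ℂ)) (hG'P 0)
  have hinvc : ∀ S : Set ℂ, (∀ s ∈ S, s ≠ 0) → ContinuousOn (fun s : ℂ => lam₀ s⁻¹) S := by
    intro S hS
    exact hlc.comp_continuousOn (continuousOn_inv₀.mono fun s hs => hS s hs)
  obtain ⟨g', hg'1, hg'2⟩ := hext ({s : ℂ | 0 < s.re} ∩ ball 0 r)
    ((isOpen_lt continuous_const Complex.continuous_re).inter isOpen_ball)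
    (((convex_halfSpace_re_gt 0).inter (convex_ball 0 r)).isPreconnected)
    ⟨((r / 2 : ℝ) : ℂ), by simp [hr], by
      rw [mem_ball, dist_zero_right, Complex.norm_real, Real.norm_eq_abs, abs_of_pos (by positivity)]
      linarith⟩
    inter_subset_right (fun s => lam₀ s⁻¹)
    (hinvc _ fun s hs h => by
      have h1 : 0 < s.re := hs.1
      rw [h] at h1
      simp at h1)
    (fun s hs => by
      have h1 : 0 < s.re := hs.1
      have hs0 : s ≠ 0 := fun h => by rw [h] at h1; simp at h1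
      show ι (lam₀ s⁻¹) = G' s
      rw [hl2, hGG' s hs0])
  -- on the punctured ball
  set S' : Set ℂ := Complex.exp '' {w | w.re < Real.log r} with hS'
  have hS'c : IsPreconnected S' :=
    ((convex_halfSpace_re_lt (Real.log r)).isPreconnected).image _
      Complex.continuous_exp.continuousOn
  have hS'1 : ∀ s ∈ S', s ≠ 0 ∧ s ∈ ball (0 : ℂ) r := by
    rintro _ ⟨w, hw, rfl⟩
    refine ⟨Complex.exp_ne_zero w, ?_⟩
    rw [mem_ball, dist_zero_right, Complex.norm_exp]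
    calc Real.exp w.re < Real.exp (Real.log r) := Real.exp_lt_exp.2 hw
      _ = r := Real.exp_log hr
  have hS'2 : ∀ s : ℂ, s ≠ 0 → s ∈ ball (0 : ℂ) r → s ∈ S' := by
    intro s hs hsr
    refine ⟨Complex.log s, ?_, Complex.exp_log hs⟩
    show (Complex.log s).re < Real.log r
    rw [Complex.log_re]
    rw [mem_ball, dist_zero_right] at hsr
    exact Real.log_lt_log (norm_pos_iff.2 hs) hsr
  have hpt0 : ((r / 2 : ℝ) : ℂ) ≠ 0 := by
    rw [Ne, Complex.ofReal_eq_zero]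
    linarith
  have hptb : ((r / 2 : ℝ) : ℂ) ∈ ball (0 : ℂ) r := by
    rw [mem_ball, dist_zero_right, Complex.norm_real, Real.norm_eq_abs, abs_of_pos (by positivity)]
    linarith
  have hpun : ∀ s ∈ S', g' s = lam₀ s⁻¹ :=
    lift_uniq hι hS'c (g₁ := g') (g₂ := fun s => lam₀ s⁻¹)
      (fun s hs => (hg'1 s (hS'1 s hs).2).1.1.continuousWithinAt)
      (hinvc _ fun s hs => (hS'1 s hs).1)
      (fun s hs => by
        rw [(hg'1 s (hS'1 s hs).2).2, hl2, hGG' s (hS'1 s hs).1])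
      (hS'2 _ hpt0 hptb)
      (hg'2 _ ⟨by simp [hr], hptb⟩)
  -- the map
  set lam : PP 1 → X := fun v => if v.rep 1 = 0 then g' 0 else lam₀ (v.rep 0 / v.rep 1) with hlam
  have hlam1 : ∀ (v : Fin 2 → ℂ) (hv : v ≠ 0), v 1 ≠ 0 →
      lam (Projectivization.mk ℂ v hv) = lam₀ (v 0 / v 1) := by
    intro v hv h1
    obtain ⟨a, ha⟩ := Projectivization.exists_smul_eq_mk_rep ℂ v hv
    have ha0 : (a : ℂ) ≠ 0 := a.ne_zero
    have e0 : (Projectivization.mk ℂ v hv).rep 0 = a * v 0 := by rw [← ha]; rfl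
    have e1 : (Projectivization.mk ℂ v hv).rep 1 = a * v 1 := by rw [← ha]; rfl
    show (if (Projectivization.mk ℂ v hv).rep 1 = 0 then g' 0 else
      lam₀ ((Projectivization.mk ℂ v hv).rep 0 / (Projectivization.mk ℂ v hv).rep 1)) = _
    rw [e0, e1, if_neg (mul_ne_zero ha0 h1), mul_div_mul_left _ _ ha0]
  have hlam2 : ∀ (v : Fin 2 → ℂ) (hv : v ≠ 0), v 1 = 0 →
      lam (Projectivization.mk ℂ v hv) = g' 0 := by
    intro v hv h1
    obtain ⟨a, ha⟩ := Projectivization.exists_smul_eq_mk_rep ℂ v hv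
    have e1 : (Projectivization.mk ℂ v hv).rep 1 = a * v 1 := by rw [← ha]; rfl
    show (if (Projectivization.mk ℂ v hv).rep 1 = 0 then g' 0 else
      lam₀ ((Projectivization.mk ℂ v hv).rep 0 / (Projectivization.mk ℂ v hv).rep 1)) = _
    rw [e1, h1, mul_zero, if_pos rfl]
  refine ⟨lam, ?_, ?_, ?_⟩
  · intro v
    refine ⟨hP0 _ v.rep_nonzero, ?_⟩
    show ι (lam v) = Projectivization.mk ℂ (r7Q P v.rep) _
    by_cases h1 : v.rep 1 = 0
    · have e : lam v = g' 0 := if_pos h1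
      rw [e, (hg'1 0 (mem_ball_self hr)).2]
      symm
      refine r7_mk hP (a := v.rep 0) ?_ _ _
      funext i
      fin_cases i
      · simp
      · simpa using h1
    · have e : lam v = lam₀ (v.rep 0 / v.rep 1) := if_neg h1
      rw [e, hl2]
      symm
      refine r7_mk hP (a := v.rep 1) ?_ _ _
      funext i
      fin_cases i
      · simp [mul_div_cancel₀ _ h1]
      · simp
  · intro ψ hψ z
    obtain ⟨F, hF⟩ := hψ z
    obtain ⟨hFan, hFz, hψz⟩ := hF.self_of_nhds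
    have hFi : ∀ i, AnalyticAt ℂ (fun w => F w i) z := fun i =>
      (ContinuousLinearMap.proj (R := ℂ) (φ := fun _ : Fin (1 + 1) => ℂ) i).analyticAt _ |>.comp hFan
    by_cases h1 : F z 1 = 0
    · have h0' : F z 0 ≠ 0 := by
        intro h0'
        apply hFz
        funext i
        fin_cases i
        · exact h0'
        · exact h1
      have hs : AnalyticAt ℂ (fun w => F w 1 / F w 0) z := (hFi 1).div (hFi 0) h0'
      have hsz : F z 1 / F z 0 = 0 := by rw [h1, zero_div]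
      have hcomp : A.HolAt (fun w => g' (F w 1 / F w 0)) z := by
        refine r7_comp (g := g') (u := fun w => F w 1 / F w 0) ?_ hs
        rw [hsz]
        exact (hg'1 0 (mem_ball_self hr)).1
      refine r7_congr hcomp ?_
      have hev1 : ∀ᶠ w in 𝓝 z, F w 0 ≠ 0 := (hFi 0).continuousAt.eventually_ne h0'
      have hev2 : ∀ᶠ w in 𝓝 z, F w 1 / F w 0 ∈ ball (0 : ℂ) r := by
        refine hs.continuousAt.eventually (p := fun y => y ∈ ball (0 : ℂ) r) ?_
        show ∀ᶠ y in 𝓝 (F z 1 / F z 0), y ∈ ball (0 : ℂ) r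
        rw [hsz]
        exact isOpen_ball.mem_nhds (mem_ball_self hr)
      filter_upwards [hF, hev1, hev2] with w hw hw0 hwb
      obtain ⟨-, hw1, hw2⟩ := hw
      rw [hw2]
      by_cases hw3 : F w 1 = 0
      · rw [hlam2 (F w) hw1 hw3, hw3, zero_div]
      · rw [hlam1 (F w) hw1 hw3, hpun _ (hS'2 _ (div_ne_zero hw3 hw0) hwb), inv_div]
    · have hcomp : A.HolAt (fun w => lam₀ (F w 0 / F w 1)) z :=
        r7_comp (g := lam₀) (u := fun w => F w 0 / F w 1) (hl1 _) ((hFi 0).div (hFi 1) h1)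
      refine r7_congr hcomp ?_
      have hev1 : ∀ᶠ w in 𝓝 z, F w 1 ≠ 0 := (hFi 1).continuousAt.eventually_ne h1
      filter_upwards [hF, hev1] with w hw hw0
      obtain ⟨-, hw1, hw2⟩ := hw
      rw [hw2, hlam1 (F w) hw1 hw0]
  · filter_upwards [hl3] with v hv
    refine ⟨r7_vec_ne0 v, ?_⟩
    rw [hlam1 ![v, 1] (r7_vec_ne0 v) (by simp)]
    simp [hv]

end lift



end Pool.Agent.IS

namespace Pool.Agent.IS

alias lift_line := lift_line_pr

end Pool.Agent.IS
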