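import Pool.Agent.Lib_helper80.IS.Base
import Pool.Agent.Lib_helper80.IS.L.P2
import Pool.Agent.Lib_helper80.IS.L.P3
import Pool.Agent.Lib_helper80.IS.L.R2
import Pool.Agent.Lib_helper80.IS.L.R7

/-! # Block R8: the rational case (a torus map through the given curve) -/

set_option autoImplicit false

open Filter Topology Metric Set
open scoped Manifold ContDiff

namespace Pool.Agent.IS

open Pool.Agent.BR Pool.Agent.MBS Pool.Agent.SL

section lift

variable {E X : Type} [NormedAddCommGroup E] [NormedSpace ℂ E] [FiniteDimensional ℂ E]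
  [MetricSpace X] {A : Cha E X} {n : ℕ} {ι : X → PP n}

private theorem eval_hom {d : ℕ} {Q : MvPolynomial (Fin 2) ℂ} (hQ : Q.IsHomogeneous d) (a : ℂ)
    (v : Fin 2 → ℂ) : MvPolynomial.eval (a • v) Q = a ^ d * MvPolynomial.eval v Q := by
  rw [MvPolynomial.eval_eq', MvPolynomial.eval_eq', Finset.mul_sum]
  refine Finset.sum_congr rfl fun α hα => ?_
  have h1 : α.degree = d := by
    by_contra hc
    exact MvPolynomial.mem_support_iff.mp hα (hQ.coeff_eq_zero hc)
  have h2 : ∏ i, (a • v) i ^ α i = a ^ d * ∏ i, v i ^ α i := by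
    rw [← h1, Finsupp.degree_eq_sum, ← Finset.prod_pow_eq_pow_sum, ← Finset.prod_mul_distrib]
    refine Finset.prod_congr rfl fun i _ => ?_
    rw [Pi.smul_apply, smul_eq_mul, mul_pow]
  rw [h2]
  ring

/-- the value of the rational map does not depend on the representative -/
private theorem mk_eval {d : ℕ} {P : Fin (n + 1) → MvPolynomial (Fin 2) ℂ}
    (hP : ∀ i, (P i).IsHomogeneous d) {v : Fin 2 → ℂ} (hv : v ≠ 0)
    (h1 : (fun i => MvPolynomial.eval (Projectivization.mk ℂ v hv).rep (P i)) ≠ 0)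
    (h2 : (fun i => MvPolynomial.eval v (P i)) ≠ 0) :
    Projectivization.mk ℂ (fun i => MvPolynomial.eval (Projectivization.mk ℂ v hv).rep (P i)) h1 =
      Projectivization.mk ℂ (fun i => MvPolynomial.eval v (P i)) h2 := by
  obtain ⟨a, ha⟩ := Projectivization.exists_smul_eq_mk_rep ℂ v hv
  rw [Projectivization.mk_eq_mk_iff']
  refine ⟨(a : ℂ) ^ d, ?_⟩
  funext i
  have h3 : (Projectivization.mk ℂ v hv).rep = (a : ℂ) • v := ha.symm
  rw [Pi.smul_apply, smul_eq_mul, h3, eval_hom (hP i)]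

theorem rat_lift_pr [CompactSpace X] (hι : PImm A n ι) {h : ℂ → X} (hh : ∀ z, A.HolAt h z)
    (hne : ∃ z z', h z ≠ h z') (hR : RatFactor (fun z => ι (h z))) :
    ∃ g : ℂ → X, (∀ z, A.HolAt g z) ∧ BrodyRigid.DoublyPeriodic g ∧ (∃ z z', g z ≠ g z') ∧
      range h ⊆ range g := by
  obtain ⟨d, P, hP, hP0, u, hu, hz⟩ := hR
  have hhc : Continuous h := continuous_iff_continuousAt.mpr fun z => (hh z).1
  -- `u` is not constant
  have hune : ∃ z z', u z ≠ u z' := by
    by_contra hcon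
    push Not at hcon
    obtain ⟨z, z', hzz⟩ := hne
    apply hzz
    refine lift_uniq hι (S := univ) isPreconnected_univ (g₁ := h) (g₂ := fun _ => h z')
      hhc.continuousOn continuousOn_const ?_ (z₀ := z') (mem_univ _) rfl z (mem_univ _)
    intro w _
    obtain ⟨h1, h2⟩ := hz w
    obtain ⟨h3, h4⟩ := hz z'
    show ι (h w) = ι (h z')
    have h5 := hcon w z'
    simp only at h2 h4
    rw [h2, h4]
    congr 1
    funext i
    rw [h5]
  obtain ⟨z₀, v, hv, hv', hev⟩ := line_local hu hune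
  set τ := hv.hasStrictDerivAt.localInverse _ _ _ hv' with hτdef
  have hτ : AnalyticAt ℂ τ (v z₀) := hv.analyticAt_localInverse hv'
  have hleft : ∀ᶠ z in 𝓝 z₀, τ (v z) = z := hv.hasStrictDerivAt.eventually_left_inverse hv'
  have hright : ∀ᶠ w in 𝓝 (v z₀), v (τ w) = w :=
    hv.hasStrictDerivAt.eventually_right_inverse hv'
  have hτ0 : τ (v z₀) = z₀ := hleft.self_of_nhds
  have hτt : Tendsto τ (𝓝 (v z₀)) (𝓝 z₀) := by
    have h1 := hτ.continuousAt.tendsto
    rwa [hτ0] at h1
  have h0 : ∀ᶠ w in 𝓝 (v z₀), A.HolAt (fun w => h (τ w)) w ∧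
      ∃ hx : (fun i => MvPolynomial.eval ![w, 1] (P i)) ≠ 0,
        ι (h (τ w)) = Projectivization.mk ℂ (fun i => MvPolynomial.eval ![w, 1] (P i)) hx := by
    filter_upwards [hτt.eventually hev, hright, hτ.eventually_analyticAt] with w h1 h2 h3
    refine ⟨⟨(hh (τ w)).1.comp_of_eq h3.continuousAt rfl, fun i hi => ?_⟩, ?_⟩
    · exact AnalyticAt.comp_of_eq (g := A.loc i h) (f := τ) ((hh (τ w)).2 i hi) h3 rfl
    · obtain ⟨h4, h5⟩ := h1
      have hw : (![w, 1] : Fin 2 → ℂ) ≠ 0 := by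
        intro hc
        have := congrFun hc 1
        simp at this
      have h6 : u (τ w) = Projectivization.mk ℂ ![w, 1] hw := by
        rw [h5]
        congr 1
        rw [h2]
      refine ⟨hP0 _ hw, ?_⟩
      obtain ⟨h7, h8⟩ := hz (τ w)
      simp only at h8
      rw [h8]
      have h9 : ∀ (U : PP 1) (hU : (fun i => MvPolynomial.eval U.rep (P i)) ≠ 0),
          U = Projectivization.mk ℂ ![w, 1] hw →
          Projectivization.mk ℂ (fun i => MvPolynomial.eval U.rep (P i)) hU =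
            Projectivization.mk ℂ (fun i => MvPolynomial.eval ![w, 1] (P i)) (hP0 _ hw) := by
        rintro _ hU rfl
        exact mk_eval hP hw hU _
      exact h9 _ h7 h6
  obtain ⟨lam, hl1, hl2, hl3⟩ := lift_line hι hP hP0 h0
  -- `lam ∘ u = h`
  have hlu : ∀ z, lam (u z) = h z := by
    intro z
    have hc1 : Continuous fun z => lam (u z) :=
      continuous_iff_continuousAt.mpr fun z => (hl2 u hu z).1
    refine lift_uniq hι (S := univ) isPreconnected_univ (g₁ := fun z => lam (u z)) (g₂ := h)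
      hc1.continuousOn hhc.continuousOn ?_ (z₀ := z₀) (mem_univ _) ?_ z (mem_univ _)
    · intro w _
      obtain ⟨h1, h2⟩ := hl1 (u w)
      obtain ⟨h3, h4⟩ := hz w
      simp only at h2 h4 ⊢
      rw [h2, h4]
    · have h1 : ∀ᶠ z in 𝓝 z₀, lam (u z) = h z := by
        filter_upwards [hev, hleft, hv.continuousAt.tendsto.eventually hl3] with w h2 h3 h4
        obtain ⟨h5, h6⟩ := h2
        obtain ⟨h7, h8⟩ := h4
        rw [h6, h8, h3]
      exact h1.self_of_nhds
  -- the lattice
  obtain ⟨ψ, hψ1, hψ2, hψ3⟩ := exists_elliptic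
    (Submodule.span ℤ (Set.range Complex.basisOneI))
  have hrange : range h ⊆ range (fun z => lam (ψ z)) := by
    rintro _ ⟨z, rfl⟩
    obtain ⟨w, hw⟩ := hψ3 (u z)
    exact ⟨w, by rw [← hlu z, ← hw]⟩
  have hper : BrodyRigid.DoublyPeriodic fun z => lam (ψ z) :=
    ⟨Submodule.span ℤ (Set.range Complex.basisOneI), inferInstance, inferInstance,
      fun l hl z => by simp only [hψ2 l hl z]⟩
  refine ⟨fun z => lam (ψ z), hl2 ψ hψ1, hper, ?_, hrange⟩
  obtain ⟨z, z', hzz⟩ := hne
  obtain ⟨w, hw⟩ := hrange ⟨z, rfl⟩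
  obtain ⟨w', hw'⟩ := hrange ⟨z', rfl⟩
  exact ⟨w, w', by rw [hw, hw']; exact hzz⟩



end lift

end Pool.Agent.IS

namespace Pool.Agent.IS

alias rat_lift := rat_lift_pr

end Pool.Agent.IS
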