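import Pool.Agent.Lib_helper80.IS.Base

/-! Block S1 of project IS (helper80): the Schwarz lemma on a ball in dimension two. -/

namespace Pool.Agent.IS

open Set Metric Filter Topology Pool.Agent.BR Pool.Agent.MBS Pool.Agent.SL

/-- A function on a line through `ξ₀` has the power series of `Q` along the line. -/
private theorem s1_series {E : Type} [NormedAddCommGroup E] [NormedSpace ℂ E] {Q : E → ℂ} {ξ₀ : E}
    {p : FormalMultilinearSeries ℂ E ℂ} (hp : HasFPowerSeriesAt Q p ξ₀) (v : E) (j : ℕ) :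
    iteratedDeriv j (fun t : ℂ => Q (ξ₀ + t • v)) 0 = (j.factorial : ℂ) * p j (fun _ => v) := by
  let u : ℂ →L[ℂ] E := (ContinuousLinearMap.id ℂ ℂ).smulRight v
  have hu : ∀ t, u t = t • v := fun t => by simp [u]
  have h0 : HasFPowerSeriesAt (fun y => Q (ξ₀ + y)) p (u 0) := by
    rw [map_zero]
    obtain ⟨r, hr⟩ := hp
    refine ⟨r, ⟨hr.r_le, hr.r_pos, fun {y} hy => ?_⟩⟩
    have := hr.hasSum hy
    simpa using this
  have h1 : HasFPowerSeriesAt ((fun y => Q (ξ₀ + y)) ∘ u) (p.compContinuousLinearMap u) 0 :=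
    h0.compContinuousLinearMap
  obtain ⟨r, hr⟩ := h1
  have h2 := hr.factorial_smul (1 : ℂ) j
  have h3 : ((fun y => Q (ξ₀ + y)) ∘ u) = fun t : ℂ => Q (ξ₀ + t • v) := by
    funext t
    simp [Function.comp, hu]
  rw [h3] at h2
  rw [iteratedDeriv_eq_iteratedFDeriv]
  have h4 : (p.compContinuousLinearMap u) j (fun _ => (1 : ℂ)) = p j (fun _ => v) := by
    rw [FormalMultilinearSeries.compContinuousLinearMap_apply]
    congr 1
    funext i
    simp [hu]
  rw [h4] at h2
  rw [← h2, nsmul_eq_mul]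

/-- If the form of degree `j` vanishes at the vectors `e 0 + k • e 1`, it vanishes identically. -/
private theorem s1_form {E : Type} [NormedAddCommGroup E] [NormedSpace ℂ E]
    (e : Module.Basis (Fin 2) ℂ E) {j : ℕ} (q : ContinuousMultilinearMap ℂ (fun _ : Fin j => E) ℂ)
    (hq : ∀ k ≤ j, q (fun _ => e 0 + (k : ℂ) • e 1) = 0) (v : E) : q (fun _ => v) = 0 := by
  classical
  have hexp : ∀ b : ℂ, q (fun _ => e 0 + b • e 1) =
      ∑ s : Finset (Fin j), b ^ (j - s.card) * q (s.piecewise (fun _ => e 0) (fun _ => e 1)) := by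
    intro b
    have h1 : (fun _ : Fin j => e 0 + b • e 1) = (fun _ => e 0) + (fun _ => b • e 1) := rfl
    rw [h1, ContinuousMultilinearMap.map_add_univ]
    refine Finset.sum_congr rfl fun s _ => ?_
    have h2 : s.piecewise (fun _ => e 0) (fun _ : Fin j => b • e 1) =
        fun i => (if i ∈ s then (1 : ℂ) else b) • s.piecewise (fun _ => e 0) (fun _ => e 1) i := by
      funext i
      by_cases hi : i ∈ s
      · simp [hi]
      · simp [hi]
    rw [h2, ContinuousMultilinearMap.map_smul_univ, smul_eq_mul]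
    congr 1
    rw [Finset.prod_ite]
    simp only [Finset.prod_const_one, one_mul, Finset.prod_const]
    congr 1
    have h3 : (Finset.univ.filter fun i => i ∉ s) = sᶜ := by
      ext i
      simp
    rw [h3, Finset.card_compl, Fintype.card_fin]
  let P : Polynomial ℂ := ∑ s : Finset (Fin j),
    Polynomial.C (q (s.piecewise (fun _ => e 0) (fun _ => e 1))) * Polynomial.X ^ (j - s.card)
  have hP : ∀ b : ℂ, P.eval b = q (fun _ => e 0 + b • e 1) := by
    intro b
    rw [hexp b, Polynomial.eval_finsetSum]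
    refine Finset.sum_congr rfl fun s _ => ?_
    rw [Polynomial.eval_mul, Polynomial.eval_C, Polynomial.eval_pow, Polynomial.eval_X]
    ring
  have hdeg : P.natDegree ≤ j := by
    refine Polynomial.natDegree_sum_le_of_forall_le _ _ fun s _ => ?_
    exact (Polynomial.natDegree_C_mul_X_pow_le _ _).trans (Nat.sub_le _ _)
  have hP0 : P = 0 := by
    refine Polynomial.eq_zero_of_natDegree_lt_card_of_eval_eq_zero (f := fun k : Fin (j + 1) => ((k : ℕ) : ℂ))
      P ?_ ?_ ?_
    · intro a b hab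
      exact Fin.ext (by simpa using hab)
    · intro k
      rw [hP]
      exact hq k (Nat.lt_succ_iff.1 k.2)
    · simpa using Nat.lt_succ_of_le hdeg
  have h1 : ∀ b : ℂ, q (fun _ => e 0 + b • e 1) = 0 := fun b => by
    rw [← hP, hP0, Polynomial.eval_zero]
  have h2 : ∀ a b : ℂ, a ≠ 0 → q (fun _ => a • e 0 + b • e 1) = 0 := by
    intro a b ha
    have h3 : (fun _ : Fin j => a • e 0 + b • e 1) =
        fun i => (fun _ : Fin j => a) i • (fun _ : Fin j => e 0 + (b / a) • e 1) i := by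
      funext i
      simp only [smul_add, smul_smul]
      rw [mul_div_cancel₀ _ ha]
    rw [h3, ContinuousMultilinearMap.map_smul_univ, h1, smul_zero]
  have h4 : ∀ a b : ℂ, q (fun _ => a • e 0 + b • e 1) = 0 := by
    intro a b
    have hc : Continuous fun a : ℂ => q (fun _ => a • e 0 + b • e 1) :=
      q.cont.comp (continuous_pi fun _ => (continuous_id.smul continuous_const).add continuous_const)
    have hd : Dense ({0}ᶜ : Set ℂ) := dense_compl_singleton 0
    have := Continuous.ext_on hd hc (continuous_const (y := (0 : ℂ)))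
      (fun a ha => h2 a b ha)
    exact congrFun this a
  have h5 := e.sum_repr v
  rw [Fin.sum_univ_two] at h5
  rw [← h5]
  exact h4 _ _

/-- Schwarz lemma on a disc of radius four. -/
private theorem s1_disc {g : ℂ → ℂ} {B : ℝ} {M : ℕ} (hg : ∀ t ∈ closedBall (0 : ℂ) 4, AnalyticAt ℂ g t)
    (hB : ∀ t ∈ closedBall (0 : ℂ) 4, ‖g t‖ ≤ B) (hz : ∀ j < M, iteratedDeriv j g 0 = 0) :
    ‖g 1‖ * 4 ^ M ≤ B := by
  have h0 : AnalyticAt ℂ g 0 := hg 0 (by simp)
  obtain ⟨g₁, hg₁, hev⟩ := (natCast_le_analyticOrderAt h0).1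
    ((natCast_le_analyticOrderAt_iff_iteratedDeriv_eq_zero h0).2 hz)
  let h : ℂ → ℂ := fun t => if t = 0 then g₁ 0 else g t / t ^ M
  have hh0 : AnalyticAt ℂ h 0 := by
    refine hg₁.congr ?_
    filter_upwards [hev] with t ht
    by_cases h1 : t = 0
    · simp [h, h1]
    · simp only [h, h1, if_false]
      rw [ht, sub_zero, smul_eq_mul, mul_comm, mul_div_assoc, div_self (pow_ne_zero _ h1), mul_one]
  have hh : ∀ t ∈ closedBall (0 : ℂ) 4, AnalyticAt ℂ h t := by
    intro t ht
    by_cases h1 : t = 0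
    · rw [h1]
      exact hh0
    · have h2 : AnalyticAt ℂ (fun t => g t / t ^ M) t :=
        (hg t ht).div (analyticAt_id.pow M) (pow_ne_zero _ h1)
      refine h2.congr ?_
      filter_upwards [isOpen_ne.mem_nhds h1] with s hs
      simp only [h, if_neg hs]
  have hd : DiffContOnCl ℂ h (ball 0 4) := by
    refine DifferentiableOn.diffContOnCl ?_
    rw [closure_ball (0 : ℂ) (by norm_num)]
    exact fun t ht => (hh t ht).differentiableAt.differentiableWithinAt
  have hfr : ∀ z ∈ frontier (ball (0 : ℂ) 4), ‖h z‖ ≤ B / 4 ^ M := by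
    intro z hz
    rw [frontier_ball (0 : ℂ) (by norm_num), mem_sphere_zero_iff_norm] at hz
    have h1 : z ≠ 0 := by
      intro h2
      rw [h2, norm_zero] at hz
      norm_num at hz
    simp only [h, if_neg h1]
    rw [norm_div, norm_pow, hz]
    gcongr
    exact hB z (by rw [mem_closedBall_zero_iff]; exact hz.le)
  have h1 := Complex.norm_le_of_forall_mem_frontier_norm_le isBounded_ball hd hfr
    (z := 1) (by rw [closure_ball (0 : ℂ) (by norm_num)]; simp)
  simp only [h, one_ne_zero, if_false, one_pow, div_one] at h1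
  rwa [le_div_iff₀ (by positivity)] at h1

variable {E : Type} [NormedAddCommGroup E] [NormedSpace ℂ E] [FiniteDimensional ℂ E]

theorem schwarz_ball_pr (e : Module.Basis (Fin 2) ℂ E) {Q : E → ℂ} {ξ₀ : E} {r B : ℝ} {M : ℕ}
    (hr : 0 < r) (hQ : ∀ ξ ∈ closedBall ξ₀ r, AnalyticAt ℂ Q ξ)
    (hB : ∀ ξ ∈ closedBall ξ₀ r, ‖Q ξ‖ ≤ B)
    (hv : ∀ j < M, ∀ k ≤ j,
      iteratedDeriv j (fun t : ℂ => Q (ξ₀ + t • (e 0 + (k : ℂ) • e 1))) 0 = 0) :
    ∀ ξ ∈ closedBall ξ₀ (r / 4), ‖Q ξ‖ * 4 ^ M ≤ B := by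
  intro ξ hξ
  obtain ⟨p, hp⟩ := hQ ξ₀ (mem_closedBall_self hr.le)
  have hp0 : ∀ j < M, ∀ v : E, p j (fun _ => v) = 0 := by
    intro j hj v
    refine s1_form e (p j) (fun k hk => ?_) v
    have h1 := hv j hj k hk
    rw [s1_series hp] at h1
    exact (mul_eq_zero.1 h1).resolve_left (Nat.cast_ne_zero.2 (Nat.factorial_ne_zero j))
  rw [mem_closedBall, dist_eq_norm] at hξ
  have hmem : ∀ t ∈ closedBall (0 : ℂ) 4, ξ₀ + t • (ξ - ξ₀) ∈ closedBall ξ₀ r := by
    intro t ht
    rw [mem_closedBall_zero_iff] at ht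
    rw [mem_closedBall, dist_eq_norm, add_sub_cancel_left, norm_smul]
    calc ‖t‖ * ‖ξ - ξ₀‖ ≤ 4 * (r / 4) := mul_le_mul ht hξ (norm_nonneg _) (by norm_num)
      _ = r := by ring
  have h1 := s1_disc (g := fun t : ℂ => Q (ξ₀ + t • (ξ - ξ₀))) (B := B) (M := M) ?_ ?_ ?_
  · simpa using h1
  · intro t ht
    have h2 : AnalyticAt ℂ (fun t : ℂ => ξ₀ + t • (ξ - ξ₀)) t :=
      analyticAt_const.add (analyticAt_id.smul analyticAt_const)
    exact AnalyticAt.comp (g := Q) (f := fun t : ℂ => ξ₀ + t • (ξ - ξ₀)) (hQ _ (hmem t ht)) h2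
  · intro t ht
    exact hB _ (hmem t ht)
  · intro j hj
    rw [s1_series hp, hp0 j hj, mul_zero]



end Pool.Agent.IS

namespace Pool.Agent.IS

alias schwarz_ball := schwarz_ball_pr

end Pool.Agent.IS
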