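import Pool.Agent.Lib_helper80.IS.Base

/-! # MP_45e720_ag: block S2 of project IS (linear algebra: vanishing at `J` centres) -/

set_option autoImplicit false
set_option linter.unusedSectionVars false

open Filter Topology Metric Set

namespace Pool.Agent.IS

open Pool.Agent.BR Pool.Agent.MBS Pool.Agent.SL

variable {E : Type} [NormedAddCommGroup E] [NormedSpace ℂ E] [FiniteDimensional ℂ E]

/-- linear algebra: fewer conditions than unknowns -/
private theorem s2_kernel {ι κ : Type} [Fintype ι] [Fintype κ] (M : κ → ι → ℂ)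
    (h : Fintype.card κ < Fintype.card ι) :
    ∃ c : ι → ℂ, c ≠ 0 ∧ ∀ k, ∑ a, c a * M k a = 0 := by
  classical
  set L : (ι → ℂ) →ₗ[ℂ] (κ → ℂ) := Matrix.mulVecLin (Matrix.of M) with hL
  have hk : LinearMap.ker L ≠ ⊥ := by
    refine LinearMap.ker_ne_bot_of_finrank_lt ?_
    rw [Module.finrank_fintype_fun_eq_card, Module.finrank_fintype_fun_eq_card]
    exact h
  obtain ⟨c, hc, hc0⟩ := Submodule.exists_mem_ne_zero_of_ne_bot hk
  refine ⟨c, hc0, fun k => ?_⟩
  have h1 : L c k = 0 := by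
    rw [LinearMap.mem_ker.mp hc]
    rfl
  rw [hL, Matrix.mulVecLin_apply] at h1
  rw [← h1]
  simp only [Matrix.mulVec, dotProduct, Matrix.of_apply]
  exact Finset.sum_congr rfl fun a _ => mul_comm _ _

/-- the coordinates of an analytic vector along a line through the centre -/
private theorem s2_coord {N : ℕ} {F : E → Fin N → ℂ} {x : E} (hF : AnalyticAt ℂ F x) (v : E)
    (p : Fin N) : AnalyticAt ℂ (fun τ : ℂ => F (x + τ • v) p) 0 := by
  have h1 : AnalyticAt ℂ (fun τ : ℂ => x + τ • v) 0 :=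
    analyticAt_const.add (analyticAt_id.smul analyticAt_const)
  have h2 : AnalyticAt ℂ F ((fun τ : ℂ => x + τ • v) 0) := by
    simpa using hF
  have h3 : AnalyticAt ℂ (fun τ : ℂ => F (x + τ • v)) 0 := AnalyticAt.fun_comp h2 h1
  exact analyticAt_pi_iff.mp h3 p

theorem exists_coef_pr (e : Module.Basis (Fin 2) ℂ E) {n m J : ℕ} {ctr : Fin J → E}
    {G : Fin J → E → Fin (n + 1) → ℂ} {K : Fin J → E → Fin (m + 1) → ℂ}
    (hG : ∀ j, AnalyticAt ℂ (G j) (ctr j)) (hK : ∀ j, AnalyticAt ℂ (K j) (ctr j))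
    (p q r : Fin (n + 1)) (s t : Fin (m + 1)) (κ : ℕ) :
    ∃ D > 0, ∃ c : Fin (D + 1) × Fin (D + 1) × Fin (D + 1) → ℂ, c ≠ 0 ∧
      ∀ j, ∀ μ < κ * D + 1, ∀ k ≤ μ, iteratedDeriv μ (fun τ : ℂ =>
        bip D p q r s t c (G j (ctr j + τ • (e 0 + (k : ℂ) • e 1)))
          (K j (ctr j + τ • (e 0 + (k : ℂ) • e 1)))) 0 = 0 := by
  classical
  set D : ℕ := J * (κ + 1) ^ 2 + 1 with hD
  -- the monomials along the lines
  set mono : Fin J → ℕ → (Fin (D + 1) × Fin (D + 1) × Fin (D + 1)) → ℂ → ℂ :=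
    fun j k a τ =>
      ((G j (ctr j + τ • (e 0 + (k : ℂ) • e 1))) p ^ (2 * D - a.1 - a.2.1) *
        (G j (ctr j + τ • (e 0 + (k : ℂ) • e 1))) q ^ (a.1 : ℕ) *
        (G j (ctr j + τ • (e 0 + (k : ℂ) • e 1))) r ^ (a.2.1 : ℕ)) *
      ((K j (ctr j + τ • (e 0 + (k : ℂ) • e 1))) s ^ (D - a.2.2) *
        (K j (ctr j + τ • (e 0 + (k : ℂ) • e 1))) t ^ (a.2.2 : ℕ)) with hmono
  have han : ∀ j k a, AnalyticAt ℂ (mono j k a) 0 := by
    intro j k a
    have hg := fun p => s2_coord (hG j) (e 0 + (k : ℂ) • e 1) p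
    have hk := fun p => s2_coord (hK j) (e 0 + (k : ℂ) • e 1) p
    exact ((((hg p).pow _).mul ((hg q).pow _)).mul ((hg r).pow _)).mul
      (((hk s).pow _).mul ((hk t).pow _))
  have hcard : Fintype.card (Fin J × Fin (κ * D + 1) × Fin (κ * D + 1)) <
      Fintype.card (Fin (D + 1) × Fin (D + 1) × Fin (D + 1)) := by
    simp only [Fintype.card_prod, Fintype.card_fin]
    have h1 : κ * D + 1 ≤ (κ + 1) * (D + 1) := by nlinarith
    have h2 : J * ((κ * D + 1) * (κ * D + 1)) ≤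
        J * (((κ + 1) * (D + 1)) * ((κ + 1) * (D + 1))) :=
      Nat.mul_le_mul_left _ (Nat.mul_le_mul h1 h1)
    have h3 : J * (((κ + 1) * (D + 1)) * ((κ + 1) * (D + 1))) =
        (J * (κ + 1) ^ 2) * ((D + 1) * (D + 1)) := by ring
    have h4 : (J * (κ + 1) ^ 2) * ((D + 1) * (D + 1)) <
        (D + 1) * ((D + 1) * (D + 1)) := by
      refine Nat.mul_lt_mul_of_pos_right ?_ (by positivity)
      omega
    omega
  obtain ⟨c, hc0, hc⟩ := s2_kernel
    (fun (x : Fin J × Fin (κ * D + 1) × Fin (κ * D + 1)) a =>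
      iteratedDeriv (x.2.1 : ℕ) (mono x.1 (x.2.2 : ℕ) a) 0) hcard
  refine ⟨D, by omega, c, hc0, fun j μ hμ k hk => ?_⟩
  have hkey := hc (j, ⟨μ, hμ⟩, ⟨k, by omega⟩)
  simp only at hkey
  have hfun : (fun τ : ℂ =>
        bip D p q r s t c (G j (ctr j + τ • (e 0 + (k : ℂ) • e 1)))
          (K j (ctr j + τ • (e 0 + (k : ℂ) • e 1)))) =
      fun τ => ∑ a, c a * mono j k a τ := by
    funext τ
    simp only [bip, hmono, mul_assoc]
  rw [hfun, iteratedDeriv_fun_sum]
  · refine (Finset.sum_congr rfl fun a _ => ?_).trans hkey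
    rw [iteratedDeriv_const_mul_field]
  · intro a _
    exact (analyticAt_const.mul (han j k a)).contDiffAt

end Pool.Agent.IS

namespace Pool.Agent.IS

alias exists_coef := exists_coef_pr

end Pool.Agent.IS
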