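import Pool.Agent.Lib_helper80.IS.Base

set_option autoImplicit false

open Filter Topology Metric Set
open scoped Manifold ContDiff

namespace Pool.Agent.IS

open Pool.Agent.BR Pool.Agent.MBS Pool.Agent.SL

theorem s3_bd {E F : Type} [NormedAddCommGroup E] [NormedAddCommGroup F] {f : E → F} {s : Set E}
    (hs : IsCompact s) (hf : ContinuousOn f s) (h0 : ∀ ξ ∈ s, f ξ ≠ 0) :
    ∃ C : ℝ, 0 ≤ C ∧ ∀ ξ ∈ s, 1 ≤ C * ‖f ξ‖ ∧ ‖f ξ‖ ≤ C := by
  obtain ⟨B1, hB1⟩ := hs.exists_bound_of_continuousOn hf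
  have hinv : ContinuousOn (fun ξ => ‖f ξ‖⁻¹) s :=
    hf.norm.inv₀ fun ξ hξ => norm_ne_zero_iff.mpr (h0 ξ hξ)
  obtain ⟨B2, hB2⟩ := hs.exists_bound_of_continuousOn hinv
  refine ⟨|B1| + |B2|, by positivity, fun ξ hξ => ⟨?_, ?_⟩⟩
  · have hpos : 0 < ‖f ξ‖ := norm_pos_iff.mpr (h0 ξ hξ)
    have h1 : ‖f ξ‖⁻¹ ≤ |B1| + |B2| := by
      have h2 := hB2 ξ hξ
      rw [Real.norm_of_nonneg (by positivity)] at h2
      have := le_abs_self B2
      have := abs_nonneg B1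
      linarith
    calc (1 : ℝ) = ‖f ξ‖⁻¹ * ‖f ξ‖ := (inv_mul_cancel₀ hpos.ne').symm
      _ ≤ (|B1| + |B2|) * ‖f ξ‖ := mul_le_mul_of_nonneg_right h1 hpos.le
  · have := hB1 ξ hξ
    have := le_abs_self B1
    have := abs_nonneg B2
    linarith

section siegel

variable {E X : Type} [NormedAddCommGroup E] [NormedSpace ℂ E] [FiniteDimensional ℂ E]
  [MetricSpace X] {A : Cha E X} {n m : ℕ} {ι : X → PP n} {β : X → PP m}

theorem s3_loc (hι : Plift A n ι) (hβ : Plift A m β) (x : X) :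
    ∃ (i : A.ι) (c : E) (r : ℝ) (G : E → Fin (n + 1) → ℂ) (K : E → Fin (m + 1) → ℂ) (C : ℝ),
      0 < r ∧ 0 ≤ C ∧ closedBall c r ⊆ (A.ch i).target ∧
      (∀ ξ ∈ closedBall c r, AnalyticAt ℂ G ξ) ∧ (∀ ξ ∈ closedBall c r, AnalyticAt ℂ K ξ) ∧
      (∀ ξ ∈ closedBall c r, ∃ h : G ξ ≠ 0, ι ((A.ch i).symm ξ) = Projectivization.mk ℂ (G ξ) h) ∧
      (∀ ξ ∈ closedBall c r, ∃ h : K ξ ≠ 0, β ((A.ch i).symm ξ) = Projectivization.mk ℂ (K ξ) h) ∧
      (∀ ξ ∈ closedBall c r, 1 ≤ C * ‖G ξ‖ ∧ ‖G ξ‖ ≤ C) ∧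
      (∀ ξ ∈ closedBall c r, 1 ≤ C * ‖K ξ‖ ∧ ‖K ξ‖ ≤ C) ∧
      x ∈ (A.ch i).source ∧ A.ch i x = c := by
  have : ProperSpace E := FiniteDimensional.proper ℂ E
  obtain ⟨i, hi⟩ := A.cover x
  have hxs : x ∈ (A.ch i).source := A.W_sub i (subset_closure hi)
  obtain ⟨G, hG⟩ := hι.lift x
  obtain ⟨K, hK⟩ := hβ.lift x
  have hct : (A.ch i) x ∈ (A.ch i).target := (A.ch i).map_source hxs
  have hsy : Tendsto (A.ch i).symm (𝓝 ((A.ch i) x)) (𝓝 x) := by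
    have := (A.ch i).continuousAt_symm hct
    rw [ContinuousAt, (A.ch i).left_inv hxs] at this
    exact this
  have hev : ∀ᶠ ξ in 𝓝 ((A.ch i) x), ξ ∈ (A.ch i).target ∧
      ((∃ h : G ((A.ch i).symm ξ) ≠ 0, ι ((A.ch i).symm ξ) = Projectivization.mk ℂ (G ((A.ch i).symm ξ)) h) ∧
        AnalyticAt ℂ (fun ξ => G ((A.ch i).symm ξ)) ξ) ∧
      ((∃ h : K ((A.ch i).symm ξ) ≠ 0, β ((A.ch i).symm ξ) = Projectivization.mk ℂ (K ((A.ch i).symm ξ)) h) ∧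
        AnalyticAt ℂ (fun ξ => K ((A.ch i).symm ξ)) ξ) := by
    filter_upwards [(A.ch i).open_target.mem_nhds hct, hsy.eventually hG, hsy.eventually hK]
      with ξ h1 h2 h3
    have hs : (A.ch i).symm ξ ∈ (A.ch i).source := (A.ch i).map_target h1
    refine ⟨h1, ⟨h2.1, ?_⟩, ⟨h3.1, ?_⟩⟩
    · have := h2.2 i hs
      rwa [(A.ch i).right_inv h1] at this
    · have := h3.2 i hs
      rwa [(A.ch i).right_inv h1] at this
  obtain ⟨r, hr, hball⟩ := Metric.nhds_basis_closedBall.eventually_iff.mp hev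
  have hcpt : IsCompact (closedBall ((A.ch i) x) r) := isCompact_closedBall _ _
  obtain ⟨C1, hC1, hb1⟩ := s3_bd hcpt (f := fun ξ => G ((A.ch i).symm ξ))
    (fun ξ hξ => (hball hξ).2.1.2.continuousAt.continuousWithinAt) (fun ξ hξ => (hball hξ).2.1.1.1)
  obtain ⟨C2, hC2, hb2⟩ := s3_bd hcpt (f := fun ξ => K ((A.ch i).symm ξ))
    (fun ξ hξ => (hball hξ).2.2.2.continuousAt.continuousWithinAt) (fun ξ hξ => (hball hξ).2.2.1.1)
  refine ⟨i, (A.ch i) x, r, fun ξ => G ((A.ch i).symm ξ), fun ξ => K ((A.ch i).symm ξ), C1 + C2, hr,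
    by positivity, fun ξ hξ => (hball hξ).1, fun ξ hξ => (hball hξ).2.1.2,
    fun ξ hξ => (hball hξ).2.2.2, fun ξ hξ => (hball hξ).2.1.1, fun ξ hξ => (hball hξ).2.2.1,
    fun ξ hξ => ?_, fun ξ hξ => ?_, hxs, rfl⟩
  · obtain ⟨h1, h2⟩ := hb1 ξ hξ
    refine ⟨h1.trans (mul_le_mul_of_nonneg_right (by linarith) (norm_nonneg _)), by linarith⟩
  · obtain ⟨h1, h2⟩ := hb2 ξ hξ
    refine ⟨h1.trans (mul_le_mul_of_nonneg_right (by linarith) (norm_nonneg _)), by linarith⟩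

theorem exists_sc_pr [CompactSpace X] (hι : Plift A n ι) (hβ : Plift A m β) :
    ∃ (J : ℕ) (ix : Fin J → A.ι) (ctr : Fin J → E) (r : Fin J → ℝ)
      (G : Fin J → E → Fin (n + 1) → ℂ) (K : Fin J → E → Fin (m + 1) → ℂ) (C : ℝ),
      SC A ι β J ix ctr r G K C := by
  classical
  choose i c r G K C h using fun x => s3_loc (A := A) hι hβ x
  have hU : ∀ x ∈ (univ : Set X), (A.ch (i x)).source ∩ A.ch (i x) ⁻¹' ball (c x) (r x / 4) ∈ 𝓝 x := by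
    intro x _
    obtain ⟨hr, _, _, _, _, _, _, _, _, hxs, hxc⟩ := h x
    refine ((A.ch (i x)).isOpen_inter_preimage isOpen_ball).mem_nhds ⟨hxs, ?_⟩
    rw [mem_preimage, hxc]
    exact mem_ball_self (by positivity)
  obtain ⟨t, _, ht⟩ := isCompact_univ.elim_nhds_subcover' (fun x _ => (A.ch (i x)).source ∩
    A.ch (i x) ⁻¹' ball (c x) (r x / 4)) hU |>.imp fun t ht => (⟨trivial, ht⟩ : True ∧ _)
  let e := t.equivFin
  have hC0 : ∀ x, 0 ≤ C x := fun x => (h x).2.1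
  have hCle : ∀ j : Fin t.card, C ((e.symm j : t) : (univ : Set X)) ≤
      ∑ x ∈ t, C (x : (univ : Set X)) := fun j =>
    Finset.single_le_sum (f := fun x : (univ : Set X) => C (x : X)) (fun x _ => hC0 x) (e.symm j).2
  refine ⟨t.card, fun j => i ((e.symm j : t) : (univ : Set X)), fun j => c ((e.symm j : t) : (univ : Set X)),
    fun j => r ((e.symm j : t) : (univ : Set X)), fun j => G ((e.symm j : t) : (univ : Set X)),
    fun j => K ((e.symm j : t) : (univ : Set X)), ∑ x ∈ t, C (x : (univ : Set X)), ?_⟩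
  constructor
  · intro j
    exact (h _).1
  · intro j
    exact (h _).2.2.1
  · intro j
    exact (h _).2.2.2.1
  · intro j
    exact (h _).2.2.2.2.1
  · intro j
    exact (h _).2.2.2.2.2.1
  · intro j
    exact (h _).2.2.2.2.2.2.1
  · intro j ξ hξ
    obtain ⟨h1, h2⟩ := (h _).2.2.2.2.2.2.2.1 ξ hξ
    exact ⟨h1.trans (mul_le_mul_of_nonneg_right (hCle j) (norm_nonneg _)), h2.trans (hCle j)⟩
  · intro j ξ hξ
    obtain ⟨h1, h2⟩ := (h _).2.2.2.2.2.2.2.2.1 ξ hξ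
    exact ⟨h1.trans (mul_le_mul_of_nonneg_right (hCle j) (norm_nonneg _)), h2.trans (hCle j)⟩
  · intro x
    have hx := ht (mem_univ x)
    obtain ⟨y, hy, hxy⟩ := mem_iUnion₂.mp hx
    refine ⟨e ⟨y, hy⟩, ?_⟩
    simp only [Equiv.symm_apply_apply]
    exact ⟨hxy.1, ball_subset_closedBall hxy.2⟩

end siegel

end Pool.Agent.IS

namespace Pool.Agent.IS

alias exists_sc := exists_sc_pr

end Pool.Agent.IS
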