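import Pool.Agent.Lib_helper80.IS.Base
import Pool.Agent.Lib_helper80.IS.L.S1
import Pool.Agent.Lib_helper80.IS.L.S2
import Pool.Agent.Lib_helper80.IS.L.S3

set_option autoImplicit false

open Filter Topology Metric Set

namespace Pool.Agent.IS

open Pool.Agent.BR Pool.Agent.MBS Pool.Agent.SL

private theorem s4_smul {n m : ℕ} (D : ℕ) (p q r : Fin (n + 1)) (s t : Fin (m + 1))
    (c : Fin (D + 1) × Fin (D + 1) × Fin (D + 1) → ℂ) (v : Fin (n + 1) → ℂ) (w : Fin (m + 1) → ℂ)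
    (g g' : ℂ) :
    bip D p q r s t c (g • v) (g' • w) = g ^ (2 * D) * g' ^ D * bip D p q r s t c v w := by
  unfold bip
  rw [Finset.mul_sum]
  refine Finset.sum_congr rfl fun a _ => ?_
  have h1 : (a.1 : ℕ) ≤ D := Nat.lt_succ_iff.1 a.1.2
  have h2 : (a.2.1 : ℕ) ≤ D := Nat.lt_succ_iff.1 a.2.1.2
  have h3 : (a.2.2 : ℕ) ≤ D := Nat.lt_succ_iff.1 a.2.2.2
  simp only [Pi.smul_apply, smul_eq_mul, mul_pow]
  have e1 : g ^ (2 * D) = g ^ (2 * D - a.1 - a.2.1) * g ^ (a.1 : ℕ) * g ^ (a.2.1 : ℕ) := by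
    rw [← pow_add, ← pow_add]
    congr 1
    omega
  have e2 : g' ^ D = g' ^ (D - a.2.2) * g' ^ (a.2.2 : ℕ) := by
    rw [← pow_add]
    congr 1
    omega
  rw [e1, e2]
  ring

private theorem s4_prop {k : ℕ} {P : PP k} {u v : Fin (k + 1) → ℂ} {C : ℝ}
    (h1 : ∃ h : u ≠ 0, P = Projectivization.mk ℂ u h)
    (h2 : ∃ h : v ≠ 0, P = Projectivization.mk ℂ v h) (hu : ‖u‖ ≤ C) (hv : 1 ≤ C * ‖v‖) :
    ∃ g : ℂ, u = g • v ∧ ‖g‖ ≤ C ^ 2 := by
  obtain ⟨hu0, e1⟩ := h1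
  obtain ⟨hv0, e2⟩ := h2
  rw [e1] at e2
  obtain ⟨g, hg⟩ := (Projectivization.mk_eq_mk_iff' ℂ u v hu0 hv0).1 e2
  refine ⟨g, hg.symm, ?_⟩
  have h3 : ‖u‖ = ‖g‖ * ‖v‖ := by rw [← hg, norm_smul]
  have hC : 0 ≤ C := (norm_nonneg u).trans hu
  calc ‖g‖ = ‖g‖ * 1 := (mul_one _).symm
    _ ≤ ‖g‖ * (C * ‖v‖) := mul_le_mul_of_nonneg_left hv (norm_nonneg g)
    _ = C * ‖u‖ := by rw [h3]; ring
    _ ≤ C * C := mul_le_mul_of_nonneg_left hu hC
    _ = C ^ 2 := (sq C).symm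

private theorem s4_an {E : Type} [NormedAddCommGroup E] [NormedSpace ℂ E] {n m : ℕ} (D : ℕ)
    (p q r : Fin (n + 1)) (s t : Fin (m + 1))
    (c : Fin (D + 1) × Fin (D + 1) × Fin (D + 1) → ℂ) {G : E → Fin (n + 1) → ℂ}
    {K : E → Fin (m + 1) → ℂ} {ξ : E} (hG : AnalyticAt ℂ G ξ) (hK : AnalyticAt ℂ K ξ) :
    AnalyticAt ℂ (fun ξ => bip D p q r s t c (G ξ) (K ξ)) ξ := by
  unfold bip
  have hG' := fun i => (analyticAt_pi_iff.1 hG) i
  have hK' := fun i => (analyticAt_pi_iff.1 hK) i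
  refine Finset.analyticAt_fun_sum _ fun a _ => ?_
  exact (analyticAt_const.fun_mul ((((hG' p).fun_pow _).fun_mul ((hG' q).fun_pow _)).fun_mul
    ((hG' r).fun_pow _))).fun_mul (((hK' s).fun_pow _).fun_mul ((hK' t).fun_pow _))

private theorem s4_max {J : ℕ} (f : Fin J → ℝ) (hf : ∀ j, 0 ≤ f j) :
    ∃ S : ℝ, 0 ≤ S ∧ (∀ j, f j ≤ S) ∧ (S = 0 ∨ ∃ j, f j = S) := by
  rcases Nat.eq_zero_or_pos J with rfl | hJ
  · exact ⟨0, le_rfl, fun j => j.elim0, Or.inl rfl⟩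
  · obtain ⟨j, -, hj⟩ := Finset.exists_max_image (Finset.univ : Finset (Fin J)) f
      ⟨⟨0, hJ⟩, Finset.mem_univ _⟩
    exact ⟨f j, hf j, fun k => hj k (Finset.mem_univ k), Or.inr ⟨j, rfl⟩⟩

/-- the exponent -/
private noncomputable def s4_mon (D a b : ℕ) : Fin 3 →₀ ℕ :=
  Finsupp.equivFunOnFinite.symm ![2 * D - a - b, a, b]

private theorem s4_mon_inj {D a b a' b' : ℕ} (h : s4_mon D a b = s4_mon D a' b') :
    a = a' ∧ b = b' := by
  have h1 := DFunLike.congr_fun h 1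
  have h2 := DFunLike.congr_fun h 2
  simp only [s4_mon, Finsupp.equivFunOnFinite_symm_apply_apply] at h1 h2
  exact ⟨h1, h2⟩

private noncomputable def s4_R (D : ℕ) (c : Fin (D + 1) × Fin (D + 1) × Fin (D + 1) → ℂ)
    (l : ℕ) : MvPolynomial (Fin 3) ℂ :=
  ∑ a : Fin (D + 1), ∑ b : Fin (D + 1), MvPolynomial.monomial (s4_mon D a b)
    (if h : l < D + 1 then c (a, b, ⟨l, h⟩) else 0)

private theorem s4_hom (D : ℕ) (c : Fin (D + 1) × Fin (D + 1) × Fin (D + 1) → ℂ) (l : ℕ) :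
    (s4_R D c l).IsHomogeneous (2 * D) := by
  unfold s4_R
  refine MvPolynomial.IsHomogeneous.sum _ _ _ fun a _ => ?_
  refine MvPolynomial.IsHomogeneous.sum _ _ _ fun b _ => ?_
  apply MvPolynomial.isHomogeneous_monomial
  rw [Finsupp.degree_eq_sum, Fin.sum_univ_three]
  have h1 : (a : ℕ) ≤ D := Nat.lt_succ_iff.1 a.2
  have h2 : (b : ℕ) ≤ D := Nat.lt_succ_iff.1 b.2
  show (2 * D - a - b) + a + b = 2 * D
  omega

private theorem s4_coeff (D : ℕ) (c : Fin (D + 1) × Fin (D + 1) × Fin (D + 1) → ℂ)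
    (a b l : Fin (D + 1)) : (s4_R D c l).coeff (s4_mon D a b) = c (a, b, l) := by
  unfold s4_R
  simp only [MvPolynomial.coeff_sum, MvPolynomial.coeff_monomial, dif_pos l.2]
  rw [Finset.sum_eq_single a, Finset.sum_eq_single b]
  · rw [if_pos rfl]
  · intro b' _ hb
    rw [if_neg]
    intro h
    exact hb (Fin.ext (s4_mon_inj h).2)
  · intro h; exact absurd (Finset.mem_univ b) h
  · intro a' _ ha
    refine Finset.sum_eq_zero fun b' _ => ?_
    rw [if_neg]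
    intro h
    exact ha (Fin.ext (s4_mon_inj h).1)
  · intro h; exact absurd (Finset.mem_univ a) h

private theorem s4_eval {n m : ℕ} (D : ℕ) (p q r : Fin (n + 1)) (s t : Fin (m + 1))
    (c : Fin (D + 1) × Fin (D + 1) × Fin (D + 1) → ℂ) (v : Fin (n + 1) → ℂ)
    (w : Fin (m + 1) → ℂ) :
    ∑ j ∈ Finset.range (D + 1), MvPolynomial.eval ![v p, v q, v r] (s4_R D c j) *
      (w s ^ (D - j) * w t ^ j) = bip D p q r s t c v w := by
  have h1 : ∀ l : Fin (D + 1), MvPolynomial.eval ![v p, v q, v r] (s4_R D c l) =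
      ∑ a : Fin (D + 1), ∑ b : Fin (D + 1), c (a, b, l) *
        (v p ^ (2 * D - a - b) * v q ^ (a : ℕ) * v r ^ (b : ℕ)) := by
    intro l
    unfold s4_R
    rw [map_sum]
    refine Finset.sum_congr rfl fun a _ => ?_
    rw [map_sum]
    refine Finset.sum_congr rfl fun b _ => ?_
    rw [dif_pos l.2, MvPolynomial.eval_monomial, Finsupp.prod_fintype _ _ (fun i => pow_zero _),
      Fin.prod_univ_three]
    rfl
  unfold bip
  rw [Finset.sum_range, Fintype.sum_prod_type]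
  simp only [Fintype.sum_prod_type, h1, Finset.sum_mul]
  rw [Finset.sum_comm]
  refine Finset.sum_congr rfl fun a _ => ?_
  rw [Finset.sum_comm]

theorem siegel_pr {E X : Type} [NormedAddCommGroup E] [NormedSpace ℂ E] [FiniteDimensional ℂ E]
    [MetricSpace X] {A : Cha E X} {n m : ℕ} {ι : X → PP n} {β : X → PP m}
    [CompactSpace X] (e : Module.Basis (Fin 2) ℂ E) (hι : Plift A n ι)
    (hβ : Plift A m β) (p q r : Fin (n + 1)) (s t : Fin (m + 1)) :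
    ∃ (D d : ℕ) (R : ℕ → MvPolynomial (Fin 3) ℂ), (∀ j, (R j).IsHomogeneous d) ∧
      (∃ j ≤ D, R j ≠ 0) ∧ ∀ x : X, ∑ j ∈ Finset.range (D + 1),
        MvPolynomial.eval ![(ι x).rep p, (ι x).rep q, (ι x).rep r] (R j) *
          ((β x).rep s ^ (D - j) * (β x).rep t ^ j) = 0 := by
  obtain ⟨J, ix, ctr, rad, G, K, C, hS⟩ := exists_sc hι hβ
  obtain ⟨κ, hκ⟩ := pow_unbounded_of_one_lt (C ^ 6) (by norm_num : (1 : ℝ) < 4)
  have hc : ∀ j, ctr j ∈ closedBall (ctr j) (rad j) :=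
    fun j => mem_closedBall_self (hS.r_pos j).le
  obtain ⟨D, hD, c, hc0, hv⟩ := exists_coef e (G := G) (K := K) (fun j => hS.G_an j _ (hc j))
    (fun j => hS.K_an j _ (hc j)) p q r s t κ
  have hsub : ∀ j, closedBall (ctr j) (rad j / 4) ⊆ closedBall (ctr j) (rad j) := by
    intro j
    apply closedBall_subset_closedBall
    have := hS.r_pos j
    linarith
  set Q : Fin J → E → ℂ := fun j ξ => bip D p q r s t c (G j ξ) (K j ξ) with hQdef
  have hQ : ∀ j, ∀ ξ ∈ closedBall (ctr j) (rad j), AnalyticAt ℂ (Q j) ξ :=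
    fun j ξ hξ => s4_an D p q r s t c (hS.G_an j ξ hξ) (hS.K_an j ξ hξ)
  have hmax : ∀ j, ∃ ξ ∈ closedBall (ctr j) (rad j / 4),
      ∀ ξ' ∈ closedBall (ctr j) (rad j / 4), ‖Q j ξ'‖ ≤ ‖Q j ξ‖ := by
    intro j
    have : ProperSpace E := FiniteDimensional.proper ℂ E
    have hcont : ContinuousOn (fun ξ => ‖Q j ξ‖) (closedBall (ctr j) (rad j / 4)) :=
      fun ξ hξ => ((hQ j ξ (hsub j hξ)).continuousAt.norm).continuousWithinAt
    obtain ⟨ξ, hξ, hm⟩ := (isCompact_closedBall (ctr j) (rad j / 4)).exists_isMaxOn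
      ⟨ctr j, mem_closedBall_self (by have := hS.r_pos j; linarith)⟩ hcont
    exact ⟨ξ, hξ, fun ξ' hξ' => hm hξ'⟩
  choose ξm hξm hm using hmax
  obtain ⟨S, hS0, hSle, hSeq⟩ := s4_max (fun j => ‖Q j (ξm j)‖) (fun j => norm_nonneg _)
  have hbd : ∀ j, ∀ ξ ∈ closedBall (ctr j) (rad j), ‖Q j ξ‖ ≤ (C ^ 6) ^ D * S := by
    intro j ξ hξ
    obtain ⟨k, hk1, hk2⟩ := hS.cov ((A.ch (ix j)).symm ξ)
    set x := (A.ch (ix j)).symm ξ with hx
    set ξ' := A.ch (ix k) x with hξ'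
    have hx' : (A.ch (ix k)).symm ξ' = x := (A.ch (ix k)).left_inv hk1
    have hk3 := hsub k hk2
    have hG1 := hS.G_lift j ξ hξ
    have hG2 := hS.G_lift k ξ' hk3
    have hK1 := hS.K_lift j ξ hξ
    have hK2 := hS.K_lift k ξ' hk3
    rw [hx'] at hG2 hK2
    obtain ⟨g, hg, hgC⟩ := s4_prop hG1 hG2 (hS.G_bd j ξ hξ).2 (hS.G_bd k ξ' hk3).1
    obtain ⟨g', hg', hgC'⟩ := s4_prop hK1 hK2 (hS.K_bd j ξ hξ).2 (hS.K_bd k ξ' hk3).1
    have h1 : Q j ξ = g ^ (2 * D) * g' ^ D * Q k ξ' := by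
      show bip D p q r s t c (G j ξ) (K j ξ) = _
      rw [hg, hg', s4_smul]
    have h2 : ‖Q k ξ'‖ ≤ S := (hm k ξ' hk2).trans (hSle k)
    have h3 : ‖g‖ ^ (2 * D) ≤ (C ^ 2) ^ (2 * D) := pow_le_pow_left₀ (norm_nonneg g) hgC _
    have h4 : ‖g'‖ ^ D ≤ (C ^ 2) ^ D := pow_le_pow_left₀ (norm_nonneg g') hgC' _
    rw [h1, norm_mul, norm_mul, norm_pow, norm_pow]
    calc ‖g‖ ^ (2 * D) * ‖g'‖ ^ D * ‖Q k ξ'‖
        ≤ (C ^ 2) ^ (2 * D) * (C ^ 2) ^ D * S := by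
          apply mul_le_mul (mul_le_mul h3 h4 (by positivity) (by positivity)) h2
            (norm_nonneg _) (by positivity)
      _ = (C ^ 6) ^ D * S := by
          rw [← pow_mul, ← pow_mul, ← pow_mul, ← pow_add]
          congr 2
          ring
  have hsch : ∀ j, ∀ ξ ∈ closedBall (ctr j) (rad j / 4),
      ‖Q j ξ‖ * 4 ^ (κ * D + 1) ≤ (C ^ 6) ^ D * S :=
    fun j => schwarz_ball e (hS.r_pos j) (hQ j) (hbd j) (fun μ hμ k hk => hv j μ hμ k hk)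
  have hS1 : S = 0 := by
    rcases hSeq with h | ⟨j, hj⟩
    · exact h
    · have h1 := hsch j (ξm j) (hξm j)
      rw [hj] at h1
      have h2 : (C ^ 6) ^ D ≤ (4 ^ κ) ^ D := pow_le_pow_left₀ (by positivity) hκ.le D
      rw [← pow_mul (4 : ℝ)] at h2
      have h3 : S * 4 ^ (κ * D + 1) ≤ 4 ^ (κ * D) * S :=
        h1.trans (mul_le_mul_of_nonneg_right h2 hS0)
      have h4 : (0 : ℝ) < 4 ^ (κ * D) := by positivity
      rw [pow_succ] at h3
      by_contra hne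
      have h5 : 0 < S := lt_of_le_of_ne hS0 (Ne.symm hne)
      nlinarith [mul_pos h4 h5]
  refine ⟨D, 2 * D, s4_R D c, s4_hom D c, ?_, ?_⟩
  · obtain ⟨⟨a, b, l⟩, hl⟩ := Function.ne_iff.1 hc0
    refine ⟨l, Nat.lt_succ_iff.1 l.2, ?_⟩
    intro h0
    apply hl
    rw [← s4_coeff D c a b l, h0]
    rfl
  · intro x
    rw [s4_eval]
    obtain ⟨j, hj1, hj2⟩ := hS.cov x
    have hj3 := hsub j hj2
    obtain ⟨hG0, hG⟩ := hS.G_lift j _ hj3
    obtain ⟨hK0, hK⟩ := hS.K_lift j _ hj3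
    rw [(A.ch (ix j)).left_inv hj1] at hG hK
    rw [← Projectivization.mk_rep (ι x)] at hG
    rw [← Projectivization.mk_rep (β x)] at hK
    obtain ⟨g, hg⟩ := (Projectivization.mk_eq_mk_iff' ℂ _ _ _ _).1 hG
    obtain ⟨g', hg'⟩ := (Projectivization.mk_eq_mk_iff' ℂ _ _ _ _).1 hK
    rw [← hg, ← hg', s4_smul]
    have h1 : Q j (A.ch (ix j) x) = 0 := by
      have h2 := (hm j _ hj2).trans (hSle j)
      rw [hS1] at h2
      exact norm_le_zero_iff.1 h2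
    have h3 : bip D p q r s t c (G j (A.ch (ix j) x)) (K j (A.ch (ix j) x)) = 0 := h1
    rw [h3, mul_zero]

end Pool.Agent.IS

namespace Pool.Agent.IS

alias siegel := siegel_pr

end Pool.Agent.IS
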