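import Pool.Agent.Lib_helper80.IS.Base

/-! Block S5 of project IS (helper69): division and restriction of the relation. -/

set_option autoImplicit false
set_option linter.unusedVariables false
set_option linter.unusedSectionVars false

open Filter Topology Metric Set
open scoped Manifold ContDiff

namespace Pool.Agent.IS

open Pool.Agent.BR Pool.Agent.MBS Pool.Agent.SL

section s5

variable {E X : Type} [NormedAddCommGroup E] [NormedSpace ℂ E] [FiniteDimensional ℂ E]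
  [MetricSpace X] {A : Cha E X} {n m : ℕ} {ι : X → PP n} {β : X → PP m}

theorem s5_conn {Y : Type*} [TopologicalSpace Y] [PreconnectedSpace Y] {P : Y → Prop}
    (hloc : ∀ y, (∃ᶠ y' in 𝓝 y, ∀ᶠ y'' in 𝓝 y', P y'') → ∀ᶠ y' in 𝓝 y, P y')
    (h0 : ∃ y, ∀ᶠ y' in 𝓝 y, P y') : ∀ y, P y := by
  have hopen : IsOpen {y | ∀ᶠ y' in 𝓝 y, P y'} := by
    rw [isOpen_iff_eventually]
    intro y hy
    exact eventually_eventually_nhds.mpr hy
  have hclosed : IsClosed {y | ∀ᶠ y' in 𝓝 y, P y'} := by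
    rw [← closure_subset_iff_isClosed]
    intro y hy
    rw [mem_closure_iff_frequently] at hy
    exact hloc y hy
  have huniv : {y | ∀ᶠ y' in 𝓝 y, P y'} = univ := IsClopen.eq_univ ⟨hclosed, hopen⟩ h0
  intro y
  have hy : y ∈ {y | ∀ᶠ y' in 𝓝 y, P y'} := huniv ▸ mem_univ y
  exact hy.self_of_nhds

theorem s5_loc {V : Type*} [NormedAddCommGroup V] [NormedSpace ℂ V] {F : V → ℂ} {e₀ : V}
    (hF : ∀ᶠ e in 𝓝 e₀, AnalyticAt ℂ F e)
    (hz : ∃ᶠ e in 𝓝 e₀, ∀ᶠ e' in 𝓝 e, F e' = 0) : ∀ᶠ e in 𝓝 e₀, F e = 0 := by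
  obtain ⟨r, hr, hb⟩ := Metric.eventually_nhds_iff_ball.mp hF
  obtain ⟨e, he, heb⟩ := (hz.and_eventually (ball_mem_nhds e₀ hr)).exists
  have hpre : IsPreconnected (ball e₀ r) := by
    let _ : NormedSpace ℝ V := NormedSpace.restrictScalars ℝ ℂ V
    exact (convex_ball e₀ r).isPreconnected
  have h := AnalyticOnNhd.eqOn_zero_of_preconnected_of_eventuallyEq_zero (𝕜 := ℂ) (f := F)
    (U := ball e₀ r) (fun x hx => hb x hx) hpre heb he
  filter_upwards [ball_mem_nhds e₀ hr] with x hx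
  exact h hx

theorem s5_rep {k : ℕ} {y : PP k} {v : Fin (k + 1) → ℂ} {hv : v ≠ 0}
    (h : y = Projectivization.mk ℂ v hv) : ∃ a : ℂ, a ≠ 0 ∧ y.rep = a • v := by
  obtain ⟨a, ha⟩ := Projectivization.exists_smul_eq_mk_rep ℂ v hv
  refine ⟨a, a.ne_zero, ?_⟩
  rw [h, ← ha]
  rfl

theorem s5_rep_zero {k : ℕ} {y : PP k} {v : Fin (k + 1) → ℂ} {hv : v ≠ 0}
    (h : y = Projectivization.mk ℂ v hv) (t : Fin (k + 1)) : y.rep t = 0 ↔ v t = 0 := by
  obtain ⟨a, ha, he⟩ := s5_rep h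
  rw [he, Pi.smul_apply, smul_eq_mul, mul_eq_zero]
  simp [ha]

theorem s5_eval {d : ℕ} {R : MvPolynomial (Fin 3) ℂ} (hR : R.IsHomogeneous d)
    (a : ℂ) (v : Fin 3 → ℂ) :
    MvPolynomial.eval (a • v) R = a ^ d * MvPolynomial.eval v R := by
  rw [MvPolynomial.eval_eq, MvPolynomial.eval_eq, Finset.mul_sum]
  refine Finset.sum_congr rfl fun e he => ?_
  have h1 : (∏ i ∈ e.support, (a • v) i ^ e i) = a ^ d * ∏ i ∈ e.support, v i ^ e i := by
    have h2 : ∀ i ∈ e.support, (a • v) i ^ e i = a ^ e i * v i ^ e i := by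
      intro i _
      simp [mul_pow]
    rw [Finset.prod_congr rfl h2, Finset.prod_mul_distrib, Finset.prod_pow_eq_pow_sum]
    have h3 : ∑ i ∈ e.support, e i = d := (hR.degree_eq_sum_deg_support he).symm
    rw [h3]
  rw [h1]
  ring

/-- a good open neighbourhood for a lift -/
theorem s5_nhd {k : ℕ} {γ : X → PP k} (hγ : Plift A k γ) (x : X) :
    ∃ (i : A.ι) (K : X → Fin (k + 1) → ℂ) (U : Set X), IsOpen U ∧ x ∈ U ∧ U ⊆ (A.ch i).source ∧
      (∀ y ∈ U, ∃ h : K y ≠ 0, γ y = Projectivization.mk ℂ (K y) h) ∧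
      ∀ y ∈ U, AnalyticAt ℂ (fun ξ => K ((A.ch i).symm ξ)) (A.ch i y) := by
  obtain ⟨K, hK⟩ := hγ.lift x
  obtain ⟨i, hi⟩ := A.cover x
  have hxs : x ∈ (A.ch i).source := A.W_sub i (subset_closure hi)
  have hS : ∀ᶠ y in 𝓝 x, y ∈ (A.ch i).source := (A.ch i).open_source.mem_nhds hxs
  obtain ⟨U, hU, hUo, hxU⟩ := _root_.eventually_nhds_iff.mp (hK.and hS)
  exact ⟨i, K, U, hUo, hxU, fun y hy => (hU y hy).2, fun y hy => (hU y hy).1.1,
    fun y hy => (hU y hy).1.2 i (hU y hy).2⟩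

theorem s5_an {k : ℕ} {K : X → Fin (k + 1) → ℂ} {i : A.ι} {U : Set X} {x : X} (hUo : IsOpen U)
    (hx : x ∈ U) (hUs : U ⊆ (A.ch i).source)
    (han : ∀ y ∈ U, AnalyticAt ℂ (fun ξ => K ((A.ch i).symm ξ)) (A.ch i y)) (t : Fin (k + 1)) :
    ∀ᶠ ξ in 𝓝 (A.ch i x), AnalyticAt ℂ (fun ξ => K ((A.ch i).symm ξ) t) ξ := by
  have hc : ContinuousAt (A.ch i).symm (A.ch i x) :=
    (A.ch i).continuousAt_symm ((A.ch i).map_source (hUs hx))
  have h1 : ∀ᶠ ξ in 𝓝 (A.ch i x), (A.ch i).symm ξ ∈ U := by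
    apply hc.eventually
    rw [(A.ch i).left_inv (hUs hx)]
    exact hUo.mem_nhds hx
  have h2 : ∀ᶠ ξ in 𝓝 (A.ch i x), ξ ∈ (A.ch i).target :=
    (A.ch i).open_target.mem_nhds ((A.ch i).map_source (hUs hx))
  filter_upwards [h1, h2] with ξ h3 h4
  have h5 := han _ h3
  rw [(A.ch i).right_inv h4] at h5
  exact analyticAt_pi_iff.mp h5 t

/-- identity theorem for the coordinates, on `X` -/
theorem s5_ident [ConnectedSpace X] (hβ : Plift A m β) (t : Fin (m + 1))
    (h0 : ∃ x, ∀ᶠ x' in 𝓝 x, (β x').rep t = 0) : ∀ x, (β x).rep t = 0 := by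
  refine s5_conn ?_ h0
  intro x hx
  obtain ⟨i, K, U, hUo, hxU, hUs, hmk, han⟩ := s5_nhd hβ x
  have hF := s5_an hUo hxU hUs han t
  have hfr : ∃ᶠ ξ in 𝓝 (A.ch i x), ∀ᶠ ξ' in 𝓝 ξ, K ((A.ch i).symm ξ') t = 0 := by
    refine Filter.Tendsto.frequently (f := A.ch i) ((A.ch i).continuousAt (hUs hxU)) ?_
    refine (hx.and_eventually (hUo.mem_nhds hxU)).mono ?_
    rintro y ⟨hy, hyU⟩
    have hc : ContinuousAt (A.ch i).symm (A.ch i y) :=
      (A.ch i).continuousAt_symm ((A.ch i).map_source (hUs hyU))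
    have h1 : ∀ᶠ ξ in 𝓝 (A.ch i y), (A.ch i).symm ξ ∈ U ∧ (β ((A.ch i).symm ξ)).rep t = 0 := by
      refine hc.eventually (p := fun x' => x' ∈ U ∧ (β x').rep t = 0) ?_
      rw [(A.ch i).left_inv (hUs hyU)]
      have hm : ∀ᶠ x' in 𝓝 y, x' ∈ U := hUo.mem_nhds hyU
      exact hm.and hy
    filter_upwards [h1] with ξ hξ
    obtain ⟨hne, he⟩ := hmk _ hξ.1
    exact (s5_rep_zero he t).mp hξ.2
  have hz := s5_loc hF hfr
  have hc : ContinuousAt (A.ch i) x := (A.ch i).continuousAt (hUs hxU)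
  filter_upwards [hc.eventually hz, hUo.mem_nhds hxU] with y hy hyU
  obtain ⟨hne, he⟩ := hmk _ hyU
  rw [(A.ch i).left_inv (hUs hyU)] at hy
  exact (s5_rep_zero he t).mpr hy

/-- identity theorem for the coordinates, along `h` -/
theorem s5_ident_curve (hβ : Plift A m β) {h : ℂ → X} (hh : ∀ z, A.HolAt h z) (s : Fin (m + 1))
    (h0 : ∃ z, ∀ᶠ z' in 𝓝 z, (β (h z')).rep s = 0) : ∀ z, (β (h z)).rep s = 0 := by
  refine s5_conn ?_ h0
  intro z hz
  obtain ⟨i, K, U, hUo, hxU, hUs, hmk, han⟩ := s5_nhd hβ (h z)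
  have hcont : Continuous h := continuous_iff_continuousAt.mpr fun z => (hh z).1
  have hV : IsOpen (h ⁻¹' U) := hUo.preimage hcont
  have hanK : ∀ w ∈ h ⁻¹' U, AnalyticAt ℂ (fun w => K (h w) s) w := by
    intro w hw
    have h1 : AnalyticAt ℂ (fun ξ => K ((A.ch i).symm ξ) s) (A.loc i h w) :=
      analyticAt_pi_iff.mp (han _ hw) s
    have h2 : AnalyticAt ℂ (A.loc i h) w := (hh w).2 i (hUs hw)
    have h3 : AnalyticAt ℂ (fun w => K ((A.ch i).symm (A.loc i h w)) s) w :=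
      AnalyticAt.comp (g := fun ξ => K ((A.ch i).symm ξ) s) h1 h2
    refine h3.congr ?_
    filter_upwards [hV.mem_nhds hw] with w' hw'
    have : (A.ch i).symm (A.loc i h w') = h w' := (A.ch i).left_inv (hUs hw')
    rw [this]
  have hF : ∀ᶠ w in 𝓝 z, AnalyticAt ℂ (fun w => K (h w) s) w := by
    filter_upwards [hV.mem_nhds hxU] with w hw using hanK w hw
  have hfr : ∃ᶠ w in 𝓝 z, ∀ᶠ w' in 𝓝 w, K (h w') s = 0 := by
    refine (hz.and_eventually (hV.mem_nhds hxU)).mono ?_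
    rintro w ⟨hw, hwV⟩
    filter_upwards [hw, hV.mem_nhds hwV] with w' hw' hwV'
    obtain ⟨hne, he⟩ := hmk _ hwV'
    exact (s5_rep_zero he s).mp hw'
  filter_upwards [s5_loc hF hfr, hV.mem_nhds hxU] with w hw hwV
  obtain ⟨hne, he⟩ := hmk _ hwV
  exact (s5_rep_zero he s).mpr hw

theorem s5_cont {k : ℕ} {K : X → Fin (k + 1) → ℂ} {i : A.ι} {U : Set X} {x : X} (hUo : IsOpen U)
    (hx : x ∈ U) (hUs : U ⊆ (A.ch i).source)
    (han : ∀ y ∈ U, AnalyticAt ℂ (fun ξ => K ((A.ch i).symm ξ)) (A.ch i y)) :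
    ContinuousAt K x := by
  have h1 : ContinuousAt (fun ξ => K ((A.ch i).symm ξ)) (A.ch i x) := (han x hx).continuousAt
  have h2 : ContinuousAt (A.ch i) x := (A.ch i).continuousAt (hUs hx)
  have h3 : ContinuousAt (fun y => K ((A.ch i).symm (A.ch i y))) x :=
    ContinuousAt.comp (g := fun ξ => K ((A.ch i).symm ξ)) h1 h2
  refine h3.congr ?_
  filter_upwards [hUo.mem_nhds hx] with y hy
  rw [(A.ch i).left_inv (hUs hy)]

/-- the divided relation, at every point -/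
theorem s5_div [ConnectedSpace X] (hι : Plift A n ι) (hβ : Plift A m β)
    {p q r : Fin (n + 1)} {s t : Fin (m + 1)} {D d j₀ : ℕ}
    {R : ℕ → MvPolynomial (Fin 3) ℂ} (hR : ∀ j, (R j).IsHomogeneous d)
    (hj₀ : ∀ j < j₀, R j = 0)
    (hrel : ∀ x : X, ∑ j ∈ Finset.range (D + 1),
        MvPolynomial.eval ![(ι x).rep p, (ι x).rep q, (ι x).rep r] (R j) *
          ((β x).rep s ^ (D - j) * (β x).rep t ^ j) = 0)
    (ht : ∃ x, (β x).rep t ≠ 0) (x : X) :
    ∑ j ∈ Finset.range (D + 1),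
        MvPolynomial.eval ![(ι x).rep p, (ι x).rep q, (ι x).rep r] (R j) *
          ((β x).rep s ^ (D - j) * (β x).rep t ^ (j - j₀)) = 0 := by
  obtain ⟨i, G, U, hUo, hxU, hUs, hmkG, hanG⟩ := s5_nhd hι x
  obtain ⟨i', K, U', hUo', hxU', hUs', hmkK, hanK⟩ := s5_nhd hβ x
  set g : X → ℂ := fun y => ∑ j ∈ Finset.range (D + 1),
        MvPolynomial.eval ![G y p, G y q, G y r] (R j) *
          (K y s ^ (D - j) * K y t ^ (j - j₀)) with hg
  -- comparison of representatives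
  have hGv : ∀ y ∈ U, ∃ a : ℂ, a ≠ 0 ∧ ∀ j,
      MvPolynomial.eval ![(ι y).rep p, (ι y).rep q, (ι y).rep r] (R j) =
        a * MvPolynomial.eval ![G y p, G y q, G y r] (R j) := by
    intro y hy
    obtain ⟨hne, he⟩ := hmkG y hy
    obtain ⟨a, ha, hr⟩ := s5_rep he
    refine ⟨a ^ d, pow_ne_zero _ ha, fun j => ?_⟩
    rw [← s5_eval (hR j), hr]
    congr 1
    simp
  by_contra hcon
  -- the function g does not vanish at x
  have hgx : g x ≠ 0 := by
    intro h0
    apply hcon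
    obtain ⟨a, ha, hev⟩ := hGv x hxU
    obtain ⟨hne, he⟩ := hmkK x hxU'
    obtain ⟨b, hb, hr⟩ := s5_rep he
    have h1 : ∀ j ∈ Finset.range (D + 1),
        MvPolynomial.eval ![(ι x).rep p, (ι x).rep q, (ι x).rep r] (R j) *
          ((β x).rep s ^ (D - j) * (β x).rep t ^ (j - j₀)) =
        (a * b ^ (D - j₀)) * (MvPolynomial.eval ![G x p, G x q, G x r] (R j) *
          (K x s ^ (D - j) * K x t ^ (j - j₀))) := by
      intro j hj
      rcases lt_or_ge j j₀ with hlt | hge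
      · rw [hj₀ j hlt]
        simp
      · have hjD : j ≤ D := Nat.lt_succ_iff.mp (Finset.mem_range.mp hj)
        have he1 : D - j₀ = (D - j) + (j - j₀) := by omega
        rw [hev j, hr]
        simp only [Pi.smul_apply, smul_eq_mul, mul_pow]
        rw [he1, pow_add]
        ring
    rw [Finset.sum_congr rfl h1, ← Finset.mul_sum]
    have : (∑ j ∈ Finset.range (D + 1), MvPolynomial.eval ![G x p, G x q, G x r] (R j) *
          (K x s ^ (D - j) * K x t ^ (j - j₀))) = 0 := h0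
    rw [this, mul_zero]
  have hGc := s5_cont hUo hxU hUs hanG
  have hKc := s5_cont hUo' hxU' hUs' hanK
  have hgc : ContinuousAt g x := by
    apply tendsto_finsetSum
    intro j _
    have h1 : ContinuousAt (fun y => MvPolynomial.eval ![G y p, G y q, G y r] (R j)) x := by
      have h2 : Continuous fun v : Fin 3 → ℂ => MvPolynomial.eval v (R j) :=
        MvPolynomial.continuous_eval (R j)
      have h3 : ContinuousAt (fun y => ![G y p, G y q, G y r]) x := by
        refine continuousAt_pi.mpr ?_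
        intro l
        fin_cases l
        · exact (continuousAt_pi.mp hGc p)
        · exact (continuousAt_pi.mp hGc q)
        · exact (continuousAt_pi.mp hGc r)
      exact ContinuousAt.comp (g := fun v : Fin 3 → ℂ => MvPolynomial.eval v (R j))
        h2.continuousAt h3
    exact h1.mul (((continuousAt_pi.mp hKc s).pow _).mul ((continuousAt_pi.mp hKc t).pow _))
  have hev0 : ∀ᶠ y in 𝓝 x, (β y).rep t = 0 := by
    filter_upwards [hgc.eventually_ne hgx, hUo.mem_nhds hxU, hUo'.mem_nhds hxU'] with y hy hyU hyU'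
    by_contra hty
    obtain ⟨hne, he⟩ := hmkK y hyU'
    have hKt : K y t ≠ 0 := fun h0 => hty ((s5_rep_zero he t).mpr h0)
    obtain ⟨a, ha, hev⟩ := hGv y hyU
    obtain ⟨b, hb, hr⟩ := s5_rep he
    have h1 : ∀ j ∈ Finset.range (D + 1),
        MvPolynomial.eval ![(ι y).rep p, (ι y).rep q, (ι y).rep r] (R j) *
          ((β y).rep s ^ (D - j) * (β y).rep t ^ j) =
        (a * b ^ D * K y t ^ j₀) * (MvPolynomial.eval ![G y p, G y q, G y r] (R j) *
          (K y s ^ (D - j) * K y t ^ (j - j₀))) := by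
      intro j hj
      rcases lt_or_ge j j₀ with hlt | hge
      · rw [hj₀ j hlt]
        simp
      · have hjD : j ≤ D := Nat.lt_succ_iff.mp (Finset.mem_range.mp hj)
        have he1 : b ^ D = b ^ (D - j) * b ^ j := by
          rw [← pow_add]
          congr 1
          omega
        have he2 : K y t ^ j = K y t ^ j₀ * K y t ^ (j - j₀) := by
          rw [← pow_add]
          congr 1
          omega
        rw [hev j, hr]
        simp only [Pi.smul_apply, smul_eq_mul, mul_pow]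
        rw [he1, he2]
        ring
    have h2 := hrel y
    rw [Finset.sum_congr rfl h1, ← Finset.mul_sum] at h2
    rcases mul_eq_zero.mp h2 with h3 | h3
    · exact (mul_ne_zero (mul_ne_zero ha (pow_ne_zero _ hb)) (pow_ne_zero _ hKt)) h3
    · exact hy h3
  obtain ⟨x₁, hx₁⟩ := ht
  exact hx₁ (s5_ident hβ t ⟨x, hev0⟩ x₁)

theorem rel_div_pr [ConnectedSpace X] (hι : Plift A n ι) (hβ : Plift A m β) {h : ℂ → X}
    (hh : ∀ z, A.HolAt h z) {p q r : Fin (n + 1)} {s t : Fin (m + 1)} {D d : ℕ}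
    {R : ℕ → MvPolynomial (Fin 3) ℂ} (hR : ∀ j, (R j).IsHomogeneous d) (hR0 : ∃ j ≤ D, R j ≠ 0)
    (hrel : ∀ x : X, ∑ j ∈ Finset.range (D + 1),
        MvPolynomial.eval ![(ι x).rep p, (ι x).rep q, (ι x).rep r] (R j) *
          ((β x).rep s ^ (D - j) * (β x).rep t ^ j) = 0)
    (ht : ∃ x, (β x).rep t ≠ 0) (hht : ∀ z, (β (h z)).rep t = 0)
    (hs : ∃ z, (β (h z)).rep s ≠ 0) :
    ∃ (d : ℕ) (Q : MvPolynomial (Fin 3) ℂ), Q ≠ 0 ∧ Q.IsHomogeneous d ∧
      ∀ z, MvPolynomial.eval ![(ι (h z)).rep p, (ι (h z)).rep q, (ι (h z)).rep r] Q = 0 := by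
  classical
  have hex : ∃ j, R j ≠ 0 := by
    obtain ⟨j, _, hj⟩ := hR0
    exact ⟨j, hj⟩
  set j₀ := Nat.find hex with hj₀def
  have hj₀ : R j₀ ≠ 0 := Nat.find_spec hex
  have hmin : ∀ j < j₀, R j = 0 := by
    intro j hj
    by_contra hne
    exact Nat.find_min hex hj hne
  have hj₀D : j₀ ≤ D := by
    obtain ⟨j, hjD, hj⟩ := hR0
    exact (Nat.find_min' hex hj).trans hjD
  refine ⟨d, R j₀, hj₀, hR j₀, ?_⟩
  have hprod : ∀ z, MvPolynomial.eval ![(ι (h z)).rep p, (ι (h z)).rep q, (ι (h z)).rep r] (R j₀) *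
      (β (h z)).rep s ^ (D - j₀) = 0 := by
    intro z
    have h1 := s5_div hι hβ hR hmin hrel ht (h z)
    rw [Finset.sum_eq_single j₀] at h1
    · simpa using h1
    · intro j hj hne
      rcases lt_or_ge j j₀ with hlt | hge
      · rw [hmin j hlt]
        simp
      · have hpos : j - j₀ ≠ 0 := by omega
        rw [hht z, zero_pow hpos]
        simp
    · intro hnot
      exact absurd (Finset.mem_range.mpr (Nat.lt_succ_of_le hj₀D)) hnot
  intro z₀
  by_contra hcon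
  obtain ⟨i, G, U, hUo, hxU, hUs, hmkG, hanG⟩ := s5_nhd hι (h z₀)
  have hcont : Continuous h := continuous_iff_continuousAt.mpr fun z => (hh z).1
  have hGc := s5_cont hUo hxU hUs hanG
  have hGev : ∀ z, h z ∈ U →
      (MvPolynomial.eval ![(ι (h z)).rep p, (ι (h z)).rep q, (ι (h z)).rep r] (R j₀) = 0 ↔
        MvPolynomial.eval ![G (h z) p, G (h z) q, G (h z) r] (R j₀) = 0) := by
    intro z hz
    obtain ⟨hne, he⟩ := hmkG _ hz
    obtain ⟨a, ha, hr⟩ := s5_rep he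
    have h1 : ![(ι (h z)).rep p, (ι (h z)).rep q, (ι (h z)).rep r] =
        a • ![G (h z) p, G (h z) q, G (h z) r] := by
      rw [hr]
      simp
    rw [h1, s5_eval (hR j₀), mul_eq_zero]
    simp [pow_ne_zero d ha]
  have hc1 : ContinuousAt (fun z => MvPolynomial.eval ![G (h z) p, G (h z) q, G (h z) r] (R j₀))
      z₀ := by
    have h2 : Continuous fun v : Fin 3 → ℂ => MvPolynomial.eval v (R j₀) :=
      MvPolynomial.continuous_eval (R j₀)
    have hGh : ContinuousAt (fun z => G (h z)) z₀ :=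
      ContinuousAt.comp (g := G) hGc hcont.continuousAt
    have h3 : ContinuousAt (fun z => ![G (h z) p, G (h z) q, G (h z) r]) z₀ := by
      refine continuousAt_pi.mpr ?_
      intro l
      fin_cases l
      · exact (continuousAt_pi.mp hGh p)
      · exact (continuousAt_pi.mp hGh q)
      · exact (continuousAt_pi.mp hGh r)
    exact ContinuousAt.comp (g := fun v : Fin 3 → ℂ => MvPolynomial.eval v (R j₀))
      h2.continuousAt h3
  have hne0 : MvPolynomial.eval ![G (h z₀) p, G (h z₀) q, G (h z₀) r] (R j₀) ≠ 0 :=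
    fun h0 => hcon ((hGev z₀ hxU).mpr h0)
  have hs0 : ∀ᶠ z in 𝓝 z₀, (β (h z)).rep s = 0 := by
    filter_upwards [hc1.eventually_ne hne0, (hUo.preimage hcont).mem_nhds hxU] with z hz hzU
    have h1 : MvPolynomial.eval ![(ι (h z)).rep p, (ι (h z)).rep q, (ι (h z)).rep r] (R j₀) ≠ 0 :=
      fun h0 => hz ((hGev z hzU).mp h0)
    rcases mul_eq_zero.mp (hprod z) with h2 | h2
    · exact absurd h2 h1
    · exact eq_zero_of_pow_eq_zero h2
  obtain ⟨z₁, hz₁⟩ := hs
  exact hz₁ (s5_ident_curve hβ hh s ⟨z₀, hs0⟩ z₁)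



end s5

end Pool.Agent.IS

namespace Pool.Agent.IS

alias rel_div := rel_div_pr

end Pool.Agent.IS
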