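import Pool.Agent.Lib_helper80.IS.Base
import Pool.Agent.Lib_helper80.SL.L.Z2

/-! # IS, block T1: the derivative of a torus-valued map -/

set_option autoImplicit false
set_option linter.unusedVariables false
set_option linter.unusedSectionVars false

open Filter Topology Metric Set
open scoped Manifold ContDiff

namespace Pool.Agent.IS

open Pool.Agent.BR Pool.Agent.MBS Pool.Agent.SL

section plane

variable {E X : Type} [NormedAddCommGroup E] [NormedSpace ℂ E] [FiniteDimensional ℂ E]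
  [MetricSpace X] [ChartedSpace E X] [IsManifold 𝓘(ℂ, E) ω X] {A : Cha E X}

/-- BLOCK T1 -/
theorem exists_prim_pr (hA : ∀ i, ∃ y, A.ch i = chartAt E y) {W : Type} [NormedAddCommGroup W]
    [NormedSpace ℂ W] [FiniteDimensional ℂ W] {Γ : Submodule ℤ W} [DiscreteTopology Γ]
    {φ : X → W ⧸ Γ} (hφ : StrongLang.IsTorusValued E Γ φ) :
    ∃ Φ : A.ι → X → (E →L[ℂ] W), Prim A φ Φ := by
  choose F hF using hφ
  -- lifts in charts are analytic
  have han : ∀ (G : X → W) (i : A.ι) (y : X), y ∈ (A.ch i).source →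
      (∀ᶠ x in 𝓝 y, MDifferentiableAt 𝓘(ℂ, E) 𝓘(ℂ, W) G x) →
      AnalyticAt ℂ (fun ξ => G ((A.ch i).symm ξ)) (A.ch i y) := by
    intro G i y hy hG
    obtain ⟨z, hz⟩ := hA i
    rw [hz] at hy ⊢
    refine z2_an ((chartAt E z).map_source hy) ?_
    rw [(chartAt E z).left_inv hy]
    exact hG
  -- the derivative of any lift
  have key : ∀ x : X, ∀ᶠ y in 𝓝 x, ∀ i : A.ι, y ∈ (A.ch i).source →
      AnalyticAt ℂ (fun ξ => F x ((A.ch i).symm ξ)) (A.ch i y) ∧
      fderiv ℂ (fun ξ => F y ((A.ch i).symm ξ)) (A.ch i y) =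
        fderiv ℂ (fun ξ => F x ((A.ch i).symm ξ)) (A.ch i y) := by
    intro x
    filter_upwards [eventually_eventually_nhds.2 (hF x)] with y hy i hi
    refine ⟨han (F x) i y hi (hy.mono fun _ h => h.1), ?_⟩
    have h5 := z2_const (φ := φ) (F := F y) (G := F x)
      (hF y).self_of_nhds.1.continuousAt hy.self_of_nhds.1.continuousAt
      ((hF y).mono fun _ h => h.2) (hy.mono fun _ h => h.2)
    have hc : Tendsto (A.ch i).symm (𝓝 (A.ch i y)) (𝓝 y) := by
      have := (A.ch i).continuousAt_symm ((A.ch i).map_source hi)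
      rw [ContinuousAt, (A.ch i).left_inv hi] at this
      exact this
    have h6 : (fun ξ => F y ((A.ch i).symm ξ)) =ᶠ[𝓝 (A.ch i y)]
        fun ξ => F x ((A.ch i).symm ξ) + (F y y - F x y) := hc.eventually h5
    rw [h6.fderiv_eq, fderiv_add_const]
  refine ⟨fun i y => fderiv ℂ (fun ξ => F y ((A.ch i).symm ξ)) (A.ch i y), ⟨?_, ?_⟩, ?_⟩
  · intro i x hx
    have h1 : AnalyticAt ℂ (fun ξ => F x ((A.ch i).symm ξ)) (A.ch i x) :=
      ((key x).self_of_nhds i hx).1
    refine h1.fderiv.congr ?_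
    have hc : Tendsto (A.ch i).symm (𝓝 (A.ch i x)) (𝓝 x) := by
      have := (A.ch i).continuousAt_symm ((A.ch i).map_source hx)
      rw [ContinuousAt, (A.ch i).left_inv hx] at this
      exact this
    filter_upwards [hc.eventually (key x),
      (A.ch i).open_target.mem_nhds ((A.ch i).map_source hx)] with ξ h2 h3
    have h4 := (h2 i ((A.ch i).map_target h3)).2
    rw [(A.ch i).right_inv h3] at h4
    show fderiv ℂ (fun ξ => F x ((A.ch i).symm ξ)) ξ =
      fderiv ℂ (fun ξ' => F ((A.ch i).symm ξ) ((A.ch i).symm ξ')) (A.ch i ((A.ch i).symm ξ))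
    rw [(A.ch i).right_inv h3, h4]
  · intro i j x hi hj
    have h1 : AnalyticAt ℂ (fun ξ => F x ((A.ch j).symm ξ)) (A.ch j x) :=
      ((key x).self_of_nhds j hj).1
    have h2 := A.trans i j x hi hj
    have hx : A.ch j ((A.ch i).symm (A.ch i x)) = A.ch j x := by rw [(A.ch i).left_inv hi]
    have h3 : HasFDerivAt (fun ξ => F x ((A.ch j).symm ξ))
        (fderiv ℂ (fun ξ => F x ((A.ch j).symm ξ)) (A.ch j x))
        (A.ch j ((A.ch i).symm (A.ch i x))) := by
      rw [hx]
      exact h1.differentiableAt.hasFDerivAt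
    have h4 : HasFDerivAt (fun ξ => A.ch j ((A.ch i).symm ξ)) (dtr A i j x) (A.ch i x) :=
      h2.differentiableAt.hasFDerivAt
    have h5 := h3.comp (A.ch i x) h4
    have hc : Tendsto (A.ch i).symm (𝓝 (A.ch i x)) (𝓝 x) := by
      have := (A.ch i).continuousAt_symm ((A.ch i).map_source hi)
      rw [ContinuousAt, (A.ch i).left_inv hi] at this
      exact this
    have h6 : (fun ξ => F x ((A.ch i).symm ξ)) =ᶠ[𝓝 (A.ch i x)]
        ((fun ξ => F x ((A.ch j).symm ξ)) ∘ fun ξ => A.ch j ((A.ch i).symm ξ)) := by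
      filter_upwards [hc.eventually ((A.ch j).open_source.mem_nhds hj)] with ξ hξ
      show F x ((A.ch i).symm ξ) = F x ((A.ch j).symm (A.ch j ((A.ch i).symm ξ)))
      rw [(A.ch j).left_inv hξ]
    exact (h5.congr_of_eventuallyEq h6).fderiv
  · intro x
    refine ⟨F x, ?_⟩
    filter_upwards [hF x, key x] with y h1 h2
    exact ⟨h1.2, fun i hi => ⟨(h2 i hi).1, (h2 i hi).2⟩⟩

end plane

end Pool.Agent.IS

namespace Pool.Agent.IS



end Pool.Agent.IS

namespace Pool.Agent.IS

alias exists_prim := exists_prim_pr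

end Pool.Agent.IS
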