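import Pool.Agent.Lib_helper80.IS.Base

/-! # Project IS, block T2 -/

set_option autoImplicit false
set_option linter.unusedVariables false
set_option linter.unusedSectionVars false

open Filter Topology Metric Set
open scoped Manifold ContDiff

namespace Pool.Agent.IS

open Pool.Agent.BR Pool.Agent.MBS Pool.Agent.SL

section pure

variable {E W : Type} [NormedAddCommGroup E] [NormedSpace ℂ E] [FiniteDimensional ℂ E]
  [NormedAddCommGroup W] [NormedSpace ℂ W] [FiniteDimensional ℂ W]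

/-- the derivative of the rank condition -/
theorem t2_step {F : E → W} {ξ : E} {l : W →L[ℂ] ℂ} (hF : AnalyticAt ℂ F ξ)
    (hr : ∀ᶠ ξ in 𝓝 ξ, ∀ u v : E,
      l (fderiv ℂ F ξ u) • fderiv ℂ F ξ v = l (fderiv ℂ F ξ v) • fderiv ℂ F ξ u)
    {v v₀ : E} (hv : fderiv ℂ F ξ v = 0) :
    l (fderiv ℂ F ξ v₀) • fderiv ℂ (fderiv ℂ F) ξ v v₀ =
      l (fderiv ℂ (fderiv ℂ F) ξ v v₀) • fderiv ℂ F ξ v₀ := by
  have hG : HasFDerivAt (fderiv ℂ F) (fderiv ℂ (fderiv ℂ F) ξ) ξ :=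
    hF.fderiv.differentiableAt.hasFDerivAt
  have hsym : fderiv ℂ (fderiv ℂ F) ξ v v₀ = fderiv ℂ (fderiv ℂ F) ξ v₀ v :=
    (ContDiffAt.isSymmSndFDerivAt_of_omega hF.contDiffAt).eq v v₀
  -- the path
  have hpath : HasDerivAt (fun t : ℂ => ξ + t • v₀) v₀ 0 := by
    have h1 : HasDerivAt (fun t : ℂ => t • v₀) ((1 : ℂ) • v₀) 0 :=
      (hasDerivAt_id (0 : ℂ)).smul_const v₀
    rw [one_smul] at h1
    exact h1.const_add ξ
  have h0 : ξ + (0 : ℂ) • v₀ = ξ := by rw [zero_smul, add_zero]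
  have hGp : HasDerivAt (fun t : ℂ => fderiv ℂ F (ξ + t • v₀))
      (fderiv ℂ (fderiv ℂ F) ξ v₀) 0 := by
    have hG' : HasFDerivAt (fderiv ℂ F) (fderiv ℂ (fderiv ℂ F) ξ) (ξ + (0 : ℂ) • v₀) := by
      rw [h0]; exact hG
    exact hG'.comp_hasDerivAt (0 : ℂ) hpath
  have hGu : ∀ u : E, HasDerivAt (fun t : ℂ => fderiv ℂ F (ξ + t • v₀) u)
      (fderiv ℂ (fderiv ℂ F) ξ v₀ u) 0 := by
    intro u
    have h1 := hGp.clm_apply (hasDerivAt_const (0 : ℂ) u)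
    simpa using h1
  have hlu : ∀ u : E, HasDerivAt (fun t : ℂ => l (fderiv ℂ F (ξ + t • v₀) u))
      (l (fderiv ℂ (fderiv ℂ F) ξ v₀ u)) 0 := fun u =>
    l.hasFDerivAt.comp_hasDerivAt (0 : ℂ) (hGu u)
  have hA := (hlu v₀).smul (hGu v)
  have hB := (hlu v).smul (hGu v₀)
  have hcont : ContinuousAt (fun t : ℂ => ξ + t • v₀) 0 := hpath.continuousAt
  have heq : (fun t : ℂ => l (fderiv ℂ F (ξ + t • v₀) v₀) • fderiv ℂ F (ξ + t • v₀) v) =ᶠ[𝓝 0]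
      fun t : ℂ => l (fderiv ℂ F (ξ + t • v₀) v) • fderiv ℂ F (ξ + t • v₀) v₀ := by
    have h1 : Tendsto (fun t : ℂ => ξ + t • v₀) (𝓝 0) (𝓝 ξ) := by
      have := hcont.tendsto
      rwa [h0] at this
    filter_upwards [h1.eventually hr] with t ht
    exact ht v₀ v
  have hu := (hA.congr_of_eventuallyEq heq.symm).unique hB
  simp only [hv, map_zero, zero_smul, smul_zero, add_zero, zero_add] at hu
  rw [hsym]
  exact hu

/-- BLOCK T2. -/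
theorem rank_one_const_pr {F : E → W} {γ : ℂ → E} {z₀ : ℂ} {l : W →L[ℂ] ℂ}
    (hF : AnalyticAt ℂ F (γ z₀)) (hγ : AnalyticAt ℂ γ z₀)
    (hr : ∀ᶠ ξ in 𝓝 (γ z₀), ∀ u v : E,
      l (fderiv ℂ F ξ u) • fderiv ℂ F ξ v = l (fderiv ℂ F ξ v) • fderiv ℂ F ξ u)
    (hl : ∃ v, l (fderiv ℂ F (γ z₀) v) ≠ 0)
    (hc : ∀ᶠ z in 𝓝 z₀, fderiv ℂ F (γ z) (deriv γ z) = 0) :
    ∃ c : W, ∀ᶠ z in 𝓝 z₀, ∀ v, fderiv ℂ F (γ z) v = l (fderiv ℂ F (γ z) v) • c := by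
  obtain ⟨v₀, hv₀⟩ := hl
  have hγc : Tendsto γ (𝓝 z₀) (𝓝 (γ z₀)) := hγ.continuousAt.tendsto
  have hFe : ∀ᶠ z in 𝓝 z₀, AnalyticAt ℂ F (γ z) := hγc.eventually hF.eventually_analyticAt
  have hγe : ∀ᶠ z in 𝓝 z₀, AnalyticAt ℂ γ z := hγ.eventually_analyticAt
  have hre : ∀ᶠ z in 𝓝 z₀, ∀ᶠ ξ in 𝓝 (γ z), ∀ u v : E,
      l (fderiv ℂ F ξ u) • fderiv ℂ F ξ v = l (fderiv ℂ F ξ v) • fderiv ℂ F ξ u :=
    hγc.eventually (eventually_eventually_nhds.2 hr)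
  -- the function `Y`
  have hYan : AnalyticAt ℂ (fun z => fderiv ℂ F (γ z) v₀) z₀ := by
    have h1 : AnalyticAt ℂ (fun z => fderiv ℂ F (γ z)) z₀ := hF.fderiv.comp hγ
    exact ((ContinuousLinearMap.apply ℂ W v₀).analyticAt _).comp h1
  have hlY : ∀ᶠ z in 𝓝 z₀, l (fderiv ℂ F (γ z) v₀) ≠ 0 := by
    have h1 : ContinuousAt (fun z => l (fderiv ℂ F (γ z) v₀)) z₀ :=
      l.continuous.continuousAt.comp hYan.continuousAt
    exact h1.eventually_ne hv₀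
  -- the derivative
  have hder : ∀ᶠ z in 𝓝 z₀, HasDerivAt
      (fun z => (l (fderiv ℂ F (γ z) v₀))⁻¹ • fderiv ℂ F (γ z) v₀) 0 z := by
    filter_upwards [hFe, hγe, hre, hlY, hc] with z h1 h2 h3 h4 h5
    have h6 := t2_step (v₀ := v₀) h1 h3 h5
    have hG : HasFDerivAt (fderiv ℂ F) (fderiv ℂ (fderiv ℂ F) (γ z)) (γ z) :=
      h1.fderiv.differentiableAt.hasFDerivAt
    have hYp : HasDerivAt (fun z => fderiv ℂ F (γ z))
        (fderiv ℂ (fderiv ℂ F) (γ z) (deriv γ z)) z :=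
      hG.comp_hasDerivAt z h2.differentiableAt.hasDerivAt
    have hY : HasDerivAt (fun z => fderiv ℂ F (γ z) v₀)
        (fderiv ℂ (fderiv ℂ F) (γ z) (deriv γ z) v₀) z := by
      have h7 := hYp.clm_apply (hasDerivAt_const z v₀)
      simpa using h7
    have hy : HasDerivAt (fun z => l (fderiv ℂ F (γ z) v₀))
        (l (fderiv ℂ (fderiv ℂ F) (γ z) (deriv γ z) v₀)) z :=
      l.hasFDerivAt.comp_hasDerivAt z hY
    have h8 := (hy.fun_inv h4).fun_smul hY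
    refine h8.congr_deriv ?_
    set Y := fderiv ℂ F (γ z) v₀ with hYdef
    set Y' := fderiv ℂ (fderiv ℂ F) (γ z) (deriv γ z) v₀ with hY'def
    have h9 : Y' = (l Y)⁻¹ • (l Y' • Y) := by
      rw [← h6, smul_smul, inv_mul_cancel₀ h4, one_smul]
    have h10 : (l Y)⁻¹ • Y' = ((l Y)⁻¹ * ((l Y)⁻¹ * l Y')) • Y := by
      conv_lhs => rw [h9]
      rw [smul_smul, smul_smul]
      congr 1
      ring
    rw [h10, ← add_smul]
    have h11 : (l Y)⁻¹ * ((l Y)⁻¹ * l Y') + -l Y' / l Y ^ 2 = 0 := by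
      field_simp
      ring
    rw [h11, zero_smul]
  obtain ⟨ε, hε, hball⟩ := Metric.eventually_nhds_iff_ball.1 hder
  have hconst : ∀ z ∈ ball z₀ ε, (l (fderiv ℂ F (γ z) v₀))⁻¹ • fderiv ℂ F (γ z) v₀ =
      (l (fderiv ℂ F (γ z₀) v₀))⁻¹ • fderiv ℂ F (γ z₀) v₀ := by
    intro z hz
    exact isOpen_ball.is_const_of_deriv_eq_zero (convex_ball z₀ ε).isPreconnected
      (fun w hw => (hball w hw).differentiableAt.differentiableWithinAt)
      (fun w hw => (hball w hw).deriv) hz (mem_ball_self hε)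
  refine ⟨(l (fderiv ℂ F (γ z₀) v₀))⁻¹ • fderiv ℂ F (γ z₀) v₀, ?_⟩
  filter_upwards [ball_mem_nhds z₀ hε, hre, hlY] with z hz h3 h4 v
  rw [← hconst z hz]
  have h12 := h3.self_of_nhds v₀ v
  rw [smul_smul, mul_comm, ← smul_smul, ← h12, smul_smul, inv_mul_cancel₀ h4, one_smul]

end pure



end Pool.Agent.IS

namespace Pool.Agent.IS

alias rank_one_const := rank_one_const_pr

end Pool.Agent.IS
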