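import Pool.Agent.Lib_helper80.IS.Base

/-! # Project IS, block T3 -/

set_option autoImplicit false
set_option linter.unusedVariables false
set_option linter.unusedSectionVars false

open Filter Topology Metric Set
open scoped Manifold ContDiff

namespace Pool.Agent.IS

open Pool.Agent.BR Pool.Agent.MBS Pool.Agent.SL

section torus

variable {E X : Type} [NormedAddCommGroup E] [NormedSpace ℂ E] [FiniteDimensional ℂ E]
  [MetricSpace X] {A : Cha E X} {W : Type} [NormedAddCommGroup W] [NormedSpace ℂ W]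
  [FiniteDimensional ℂ W] {Γ : Submodule ℤ W} {φ : X → W ⧸ Γ} {Φ : A.ι → X → (E →L[ℂ] W)}

/-- BLOCK T3. -/
theorem prim_nz_pr [ConnectedSpace X] (hP : Prim A φ Φ) (hne : ∃ x y, φ x ≠ φ y) :
    NZ (A := A) Φ := by
  by_contra hnz
  have hz : ∀ i, ∀ x ∈ (A.ch i).source, Φ i x = 0 := by
    intro i x hx
    by_contra h
    exact hnz ⟨i, x, hx, h⟩
  have hloc : IsLocallyConstant φ := by
    rw [IsLocallyConstant.iff_eventually_eq]
    intro x
    obtain ⟨F, hF⟩ := hP.prim x
    obtain ⟨i, hi⟩ := A.cover x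
    have hxs : x ∈ (A.ch i).source := A.W_sub i (subset_closure hi)
    -- the good points, in the chart
    have htgt : A.ch i x ∈ (A.ch i).target := (A.ch i).map_source hxs
    have hsymm : Tendsto (A.ch i).symm (𝓝 (A.ch i x)) (𝓝 x) := by
      have := (A.ch i).continuousAt_symm htgt
      have h2 := this.tendsto
      rwa [(A.ch i).left_inv hxs] at h2
    have h1 : ∀ᶠ ξ in 𝓝 (A.ch i x), ξ ∈ (A.ch i).target ∧
        AnalyticAt ℂ (fun ξ => F ((A.ch i).symm ξ)) ξ ∧
        fderiv ℂ (fun ξ => F ((A.ch i).symm ξ)) ξ = 0 := by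
      filter_upwards [(A.ch i).open_target.mem_nhds htgt, hsymm.eventually hF] with ξ h1 h2
      have h3 := (A.ch i).map_target h1
      obtain ⟨h4, h5⟩ := h2.2 i h3
      rw [(A.ch i).right_inv h1] at h4 h5
      exact ⟨h1, h4, by rw [← h5, hz i _ h3]⟩
    obtain ⟨ε, hε, hball⟩ := Metric.eventually_nhds_iff_ball.1 h1
    have hc : ∀ ξ ∈ ball (A.ch i x) ε, F ((A.ch i).symm ξ) = F ((A.ch i).symm (A.ch i x)) := by
      intro ξ hξ
      have := isOpen_ball.is_const_of_fderiv_eq_zero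
        (f := fun ξ => F ((A.ch i).symm ξ)) (𝕜 := ℂ)
        (convex_ball (A.ch i x) ε).isPreconnected
        (fun w hw => (hball w hw).2.1.differentiableAt.differentiableWithinAt)
        (fun w hw => (hball w hw).2.2) hξ (mem_ball_self hε)
      exact this
    have hch : Tendsto (A.ch i) (𝓝 x) (𝓝 (A.ch i x)) := ((A.ch i).continuousAt hxs).tendsto
    filter_upwards [hF, (A.ch i).open_source.mem_nhds hxs, hch (ball_mem_nhds _ hε)] with y h2 h3 h4
    have h5 := hc _ h4
    rw [(A.ch i).left_inv h3, (A.ch i).left_inv hxs] at h5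
    rw [h2.1, h5, hF.self_of_nhds.1]
  obtain ⟨x, y, hxy⟩ := hne
  exact hxy (hloc.apply_eq_of_preconnectedSpace x y)

theorem prim_kill_pr [DiscreteTopology Γ] (hP : Prim A φ Φ) {h : ℂ → X} (hh : ∀ z, A.HolAt h z)
    (hc : ∀ z z', φ (h z) = φ (h z')) :
    ∀ z i, h z ∈ (A.ch i).source → Φ i (h z) (deriv (A.loc i h) z) = 0 := by
  intro z i hi
  obtain ⟨F, hF⟩ := hP.prim (h z)
  obtain ⟨hcont, hloc⟩ := hh z
  have hlan : AnalyticAt ℂ (A.loc i h) z := hloc i hi
  obtain ⟨h1, h2⟩ := hF.self_of_nhds.2 i hi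
  -- a ball without nonzero elements of `Γ`
  obtain ⟨ε, hε, hball⟩ : ∃ ε > 0, ∀ g ∈ Γ, ‖g‖ < ε → g = 0 := by
    have h3 : IsOpen ({0} : Set Γ) := isOpen_discrete _
    obtain ⟨ε, hε, h4⟩ := Metric.isOpen_singleton_iff.1 h3
    refine ⟨ε, hε, fun g hg hn => ?_⟩
    have h5 := h4 ⟨g, hg⟩ (by
      rw [Subtype.dist_eq]
      simpa using hn)
    exact congrArg Subtype.val h5
  set f : ℂ → W := fun w => F ((A.ch i).symm (A.loc i h w)) with hf
  have hfd : HasDerivAt f (Φ i (h z) (deriv (A.loc i h) z)) z := by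
    rw [h2]
    have h6 : HasFDerivAt (fun ξ => F ((A.ch i).symm ξ))
        (fderiv ℂ (fun ξ => F ((A.ch i).symm ξ)) (A.ch i (h z))) (A.loc i h z) :=
      h1.differentiableAt.hasFDerivAt
    exact h6.comp_hasDerivAt z hlan.differentiableAt.hasDerivAt
  have hsrc : ∀ᶠ w in 𝓝 z, h w ∈ (A.ch i).source :=
    hcont ((A.ch i).open_source.mem_nhds hi)
  have hmk : ∀ᶠ w in 𝓝 z, φ (h w) = Submodule.Quotient.mk (f w) := by
    filter_upwards [hcont hF, hsrc] with w h3 h4
    have h3' := (show _ ∧ _ from h3).1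
    rw [h3', hf]
    simp only [Cha.loc]
    rw [(A.ch i).left_inv h4]
  have hfc : ContinuousAt f z := hfd.continuousAt
  have hnear : ∀ᶠ w in 𝓝 z, ‖f w - f z‖ < ε := by
    have := Metric.tendsto_nhds.1 hfc ε hε
    filter_upwards [this] with w hw
    rwa [← dist_eq_norm]
  have hcst : f =ᶠ[𝓝 z] fun _ => f z := by
    filter_upwards [hmk, hnear] with w h3 h4
    have h5 : (Submodule.Quotient.mk (f w) : W ⧸ Γ) = Submodule.Quotient.mk (f z) := by
      rw [← h3, ← hmk.self_of_nhds]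
      exact hc w z
    have h6 : f w - f z ∈ Γ := (Submodule.Quotient.eq Γ).1 h5
    exact sub_eq_zero.1 (hball _ h6 h4)
  exact hfd.unique ((hasDerivAt_const z (f z)).congr_of_eventuallyEq hcst)

end torus




end Pool.Agent.IS

namespace Pool.Agent.IS

alias prim_nz := prim_nz_pr
alias prim_kill := prim_kill_pr

end Pool.Agent.IS
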