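import Pool.Agent.Lib_helper80.IS.Base

/-! # Block V2 of project IS: jacobian nonzero, identity theorem along a curve (helper86) -/

set_option autoImplicit false
set_option linter.unusedSectionVars false

open Filter Topology Metric Set
open scoped Manifold ContDiff

namespace Pool.Agent.IS

open Pool.Agent.BR Pool.Agent.MBS Pool.Agent.SL

section vec

variable {E X : Type} [NormedAddCommGroup E] [NormedSpace ℂ E] [FiniteDimensional ℂ E]
  [MetricSpace X] {A : Cha E X} {n k : ℕ}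

private theorem v2_comp {i j : A.ι} {x : X} (hi : x ∈ (A.ch i).source)
    (hj : x ∈ (A.ch j).source) :
    (dtr A j i x).comp (dtr A i j x) = ContinuousLinearMap.id ℂ E := by
  have h1 : DifferentiableAt ℂ (fun ξ => A.ch j ((A.ch i).symm ξ)) (A.ch i x) :=
    (A.trans i j x hi hj).differentiableAt
  have h2 : DifferentiableAt ℂ (fun ξ => A.ch i ((A.ch j).symm ξ)) (A.ch j x) :=
    (A.trans j i x hj hi).differentiableAt
  have h3 : A.ch j ((A.ch i).symm (A.ch i x)) = A.ch j x := by rw [(A.ch i).left_inv hi]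
  have h4 : HasFDerivAt ((fun ξ => A.ch i ((A.ch j).symm ξ)) ∘ fun ξ => A.ch j ((A.ch i).symm ξ))
      ((dtr A j i x).comp (dtr A i j x)) (A.ch i x) := by
    refine HasFDerivAt.comp (A.ch i x) ?_ h1.hasFDerivAt
    rw [h3]
    exact h2.hasFDerivAt
  have h5 : ((fun ξ => A.ch i ((A.ch j).symm ξ)) ∘ fun ξ => A.ch j ((A.ch i).symm ξ))
      =ᶠ[𝓝 (A.ch i x)] id := by
    have ha : ∀ᶠ ξ in 𝓝 (A.ch i x), ξ ∈ (A.ch i).target :=
      (A.ch i).open_target.mem_nhds ((A.ch i).map_source hi)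
    have hb : ∀ᶠ ξ in 𝓝 (A.ch i x), (A.ch i).symm ξ ∈ (A.ch j).source := by
      have hc : ContinuousAt (A.ch i).symm (A.ch i x) :=
        (A.ch i).continuousAt_symm ((A.ch i).map_source hi)
      refine hc.eventually ?_
      rw [(A.ch i).left_inv hi]
      exact (A.ch j).open_source.mem_nhds hj
    filter_upwards [ha, hb] with ξ h6 h7
    show A.ch i ((A.ch j).symm (A.ch j ((A.ch i).symm ξ))) = ξ
    rw [(A.ch j).left_inv h7, (A.ch i).right_inv h6]
  exact (h4.congr_of_eventuallyEq h5.symm).unique (hasFDerivAt_id _)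

theorem jac_ne_pr {i j : A.ι} {x : X} (hi : x ∈ (A.ch i).source) (hj : x ∈ (A.ch j).source) :
    jac A i j x ≠ 0 := by
  intro h0
  have h1 : LinearMap.det ((dtr A j i x : E →ₗ[ℂ] E) ∘ₗ (dtr A i j x : E →ₗ[ℂ] E)) =
      LinearMap.det (LinearMap.id : E →ₗ[ℂ] E) :=
    congrArg (fun L : E →L[ℂ] E => LinearMap.det (L : E →ₗ[ℂ] E)) (v2_comp hi hj)
  rw [LinearMap.det_comp, LinearMap.det_id] at h1
  unfold jac at h0
  rw [h0, mul_zero] at h1
  exact zero_ne_one h1

theorem va_ident_pr {M : Type} [NormedAddCommGroup M] [NormedSpace ℂ M] {t : A.ι → X → M}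
    (han : ∀ i, ∀ x ∈ (A.ch i).source, AnalyticAt ℂ (fun ξ => t i ((A.ch i).symm ξ)) (A.ch i x))
    (hz : ∀ i j x, x ∈ (A.ch i).source → x ∈ (A.ch j).source → t j x = 0 → t i x = 0)
    {h : ℂ → X} (hh : ∀ z, A.HolAt h z) {z₁ : ℂ}
    (h0 : ∃ᶠ z in 𝓝[≠] z₁, ∀ i, h z ∈ (A.ch i).source → t i (h z) = 0) : VA t h := by
  -- the local statement
  have key : ∀ z, (∃ᶠ w in 𝓝[≠] z, ∀ i, h w ∈ (A.ch i).source → t i (h w) = 0) →
      ∀ᶠ w in 𝓝 z, ∀ i, h w ∈ (A.ch i).source → t i (h w) = 0 := by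
    intro z hq
    obtain ⟨i, hi⟩ := A.cover (h z)
    have hi' : h z ∈ (A.ch i).source := A.W_sub i (subset_closure hi)
    have hs : ∀ᶠ w in 𝓝 z, h w ∈ (A.ch i).source :=
      (hh z).1.eventually ((A.ch i).open_source.mem_nhds hi')
    have hf : AnalyticAt ℂ (fun w => t i (h w)) z := by
      have h1 : AnalyticAt ℂ (fun w => (fun ξ => t i ((A.ch i).symm ξ)) (A.loc i h w)) z := by
        have h2 : AnalyticAt ℂ (fun ξ => t i ((A.ch i).symm ξ)) (A.loc i h z) := han i (h z) hi'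
        exact h2.fun_comp ((hh z).2 i hi')
      refine h1.congr ?_
      filter_upwards [hs] with w hw
      show t i ((A.ch i).symm (A.ch i (h w))) = t i (h w)
      rw [(A.ch i).left_inv hw]
    have hs' : ∀ᶠ w in 𝓝[≠] z, h w ∈ (A.ch i).source := hs.filter_mono nhdsWithin_le_nhds
    rcases hf.eventually_eq_zero_or_eventually_ne_zero with h2 | h2
    · filter_upwards [h2, hs] with w hw hw' j hj
      exact hz j i (h w) hj hw' hw
    · exfalso
      obtain ⟨w, hw1, hw2, hw3⟩ := (hq.and_eventually (h2.and hs')).exists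
      exact hw2 (hw1 i hw3)
  have hopen : IsOpen {z | ∀ᶠ w in 𝓝 z, ∀ i, h w ∈ (A.ch i).source → t i (h w) = 0} :=
    isOpen_setOfPred_eventually_nhds
  have hclosed : IsClosed {z | ∀ᶠ w in 𝓝 z, ∀ i, h w ∈ (A.ch i).source → t i (h w) = 0} := by
    rw [← closure_subset_iff_isClosed]
    intro z hzc
    by_contra hzn
    apply hzn
    refine key z ?_
    have h3 := mem_closure_iff_frequently.1 hzc
    rw [frequently_nhdsWithin_iff]
    refine h3.mono fun w hw => ⟨?_, ?_⟩
    · exact hw.self_of_nhds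
    · rintro rfl
      exact hzn hw
  have huniv := IsClopen.eq_univ ⟨hclosed, hopen⟩ ⟨z₁, key z₁ h0⟩
  intro z i hzi
  have h4 : z ∈ {z | ∀ᶠ w in 𝓝 z, ∀ i, h w ∈ (A.ch i).source → t i (h w) = 0} := by
    rw [huniv]
    exact mem_univ z
  exact (Eventually.self_of_nhds h4) i hzi




end vec

end Pool.Agent.IS

namespace Pool.Agent.IS

alias jac_ne := jac_ne_pr
alias va_ident := va_ident_pr

end Pool.Agent.IS
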