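import Pool.Agent.Lib_helper80.IS.Base
import Pool.Agent.Lib_helper80.IS.L.V2

set_option autoImplicit false
set_option linter.unusedVariables false
set_option linter.unusedSectionVars false

open Filter Topology Metric Set
open scoped Manifold ContDiff

namespace Pool.Agent.IS

open Pool.Agent.BR Pool.Agent.MBS Pool.Agent.SL

section vec

variable {E X : Type} [NormedAddCommGroup E] [NormedSpace ℂ E] [FiniteDimensional ℂ E]
  [MetricSpace X] {A : Cha E X} {n k : ℕ}

omit [FiniteDimensional ℂ E] in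
theorem v6_repr (e : Module.Basis (Fin 2) ℂ E) (v : E) :
    v = e.repr v 0 • e 0 + e.repr v 1 • e 1 := by
  have h := e.sum_repr v
  rw [Fin.sum_univ_two] at h
  exact h.symm

omit [FiniteDimensional ℂ E] in
theorem v6_det (e : Module.Basis (Fin 2) ℂ E) (D : E →ₗ[ℂ] E) :
    LinearMap.det D = e.repr (D (e 0)) 0 * e.repr (D (e 1)) 1 -
      e.repr (D (e 0)) 1 * e.repr (D (e 1)) 0 := by
  rw [← LinearMap.det_toMatrix e D, Matrix.det_fin_two]
  simp only [LinearMap.toMatrix_apply]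
  ring

omit [FiniteDimensional ℂ E] in
theorem v6_wdg (e : Module.Basis (Fin 2) ℂ E) (α β : E →L[ℂ] ℂ) (D : E →L[ℂ] E) :
    wdg e (α.comp D) (β.comp D) = LinearMap.det (D : E →ₗ[ℂ] E) * wdg e α β := by
  rw [v6_det e]
  have h0 := v6_repr e (D (e 0))
  have h1 := v6_repr e (D (e 1))
  simp only [ContinuousLinearMap.coe_coe]
  unfold wdg
  simp only [ContinuousLinearMap.comp_apply]
  have a0 : α (D (e 0)) = e.repr (D (e 0)) 0 * α (e 0) + e.repr (D (e 0)) 1 * α (e 1) := by
    conv_lhs => rw [h0]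
    simp only [map_add, map_smul, smul_eq_mul]
  have a1 : α (D (e 1)) = e.repr (D (e 1)) 0 * α (e 0) + e.repr (D (e 1)) 1 * α (e 1) := by
    conv_lhs => rw [h1]
    simp only [map_add, map_smul, smul_eq_mul]
  have b0 : β (D (e 0)) = e.repr (D (e 0)) 0 * β (e 0) + e.repr (D (e 0)) 1 * β (e 1) := by
    conv_lhs => rw [h0]
    simp only [map_add, map_smul, smul_eq_mul]
  have b1 : β (D (e 1)) = e.repr (D (e 1)) 0 * β (e 0) + e.repr (D (e 1)) 1 * β (e 1) := by
    conv_lhs => rw [h1]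
    simp only [map_add, map_smul, smul_eq_mul]
  rw [a0, a1, b0, b1]
  ring

theorem v6_app {f : E → (E →L[ℂ] ℂ)} {x : E} (hf : AnalyticAt ℂ f x) (v : E) :
    AnalyticAt ℂ (fun ξ => f ξ v) x :=
  ((ContinuousLinearMap.apply ℂ ℂ v).analyticAt (f x)).comp hf

theorem ps_of_forms_pr (e : Module.Basis (Fin 2) ℂ E) {η η' : A.ι → X → (E →L[ℂ] ℂ)}
    (hη : OF A η) (hη' : OF A η') : PS A 1 (fun i x => wdg e (η i x) (η' i x)) := by
  refine ⟨fun i x hx => ?_, fun i j x hi hj => ?_⟩
  · unfold wdg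
    exact ((v6_app (hη.an i x hx) (e 0)).mul (v6_app (hη'.an i x hx) (e 1))).sub
      ((v6_app (hη.an i x hx) (e 1)).mul (v6_app (hη'.an i x hx) (e 0)))
  · rw [pow_one, hη.tr i j x hi hj, hη'.tr i j x hi hj, v6_wdg]
    rfl

theorem v6_zero (e : Module.Basis (Fin 2) ℂ E) {α β : E →L[ℂ] ℂ} {v : E} (hv : v ≠ 0)
    (h1 : α v = 0) (h2 : β v = 0) : wdg e α β = 0 := by
  have h0 := v6_repr e v
  set a := e.repr v 0 with ha
  set b := e.repr v 1 with hb
  rw [h0] at h1 h2
  simp only [map_add, map_smul, smul_eq_mul] at h1 h2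
  unfold wdg
  by_cases hz : a = 0
  · have hb0 : b ≠ 0 := by
      intro hb0
      apply hv
      rw [h0, hz, hb0, zero_smul, zero_smul, add_zero]
    rw [hz, zero_mul, zero_add] at h1 h2
    rw [(mul_eq_zero.mp h1).resolve_left hb0, (mul_eq_zero.mp h2).resolve_left hb0]
    ring
  · apply (mul_right_injective₀ hz)
    simp only [mul_zero]
    linear_combination β (e 1) * h1 - α (e 1) * h2

theorem v6_const {h : ℂ → X} (hh : ∀ z, A.HolAt h z)
    (hd : ∀ z i, h z ∈ (A.ch i).source → deriv (A.loc i h) z = 0) (z z' : ℂ) : h z = h z' := by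
  have hl : IsLocallyConstant h := by
    rw [IsLocallyConstant.iff_eventually_eq]
    intro z
    obtain ⟨i, hi⟩ := A.cover (h z)
    have hs : h z ∈ (A.ch i).source := A.W_sub i (subset_closure hi)
    have h1 : ∀ᶠ w in 𝓝 z, h w ∈ (A.ch i).source :=
      (hh z).1.preimage_mem_nhds ((A.ch i).open_source.mem_nhds hs)
    obtain ⟨r, hr, hb⟩ := Metric.eventually_nhds_iff_ball.mp h1
    filter_upwards [Metric.ball_mem_nhds z hr] with w hw
    have h2 : A.loc i h w = A.loc i h z := by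
      refine IsOpen.is_const_of_deriv_eq_zero Metric.isOpen_ball
        (convex_ball z r).isPreconnected ?_ ?_ hw (Metric.mem_ball_self hr)
      · intro w hw
        exact ((hh w).2 i (hb w hw)).differentiableAt.differentiableWithinAt
      · intro w hw
        exact hd w i (hb w hw)
    exact (A.ch i).injOn (hb w hw) hs h2
  exact hl.apply_eq_of_preconnectedSpace z z'

theorem va_of_forms_pr (e : Module.Basis (Fin 2) ℂ E) {η η' : A.ι → X → (E →L[ℂ] ℂ)}
    (hη : OF A η) (hη' : OF A η') {h : ℂ → X} (hh : ∀ z, A.HolAt h z) (hne : ∃ z z', h z ≠ h z')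
    (h1 : ∀ z i, h z ∈ (A.ch i).source → η i (h z) (deriv (A.loc i h) z) = 0)
    (h2 : ∀ z i, h z ∈ (A.ch i).source → η' i (h z) (deriv (A.loc i h) z) = 0) :
    VA (A := A) (fun i x => wdg e (η i x) (η' i x)) h := by
  have hps := ps_of_forms_pr (A := A) e hη hη'
  have hz : ∀ i j x, x ∈ (A.ch i).source → x ∈ (A.ch j).source →
      wdg e (η j x) (η' j x) = 0 → wdg e (η i x) (η' i x) = 0 := by
    intro i j x hi hj h0
    have h3 := hps.tr i j x hi hj
    rw [h3, h0, mul_zero]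
  obtain ⟨z₁, i, hs, hd⟩ : ∃ z i, h z ∈ (A.ch i).source ∧ deriv (A.loc i h) z ≠ 0 := by
    by_contra hcon
    push Not at hcon
    obtain ⟨z, z', hzz⟩ := hne
    exact hzz (v6_const hh hcon z z')
  refine va_ident (t := fun i x => wdg e (η i x) (η' i x)) (fun i x hx => hps.an i x hx) hz hh
    (z₁ := z₁) ?_
  have h3 : ∀ᶠ w in 𝓝 z₁, h w ∈ (A.ch i).source :=
    (hh z₁).1.preimage_mem_nhds ((A.ch i).open_source.mem_nhds hs)
  have h4 : ∀ᶠ w in 𝓝 z₁, deriv (A.loc i h) w ≠ 0 :=
    ((hh z₁).2 i hs).deriv.continuousAt.eventually_ne hd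
  have h5 : ∀ᶠ w in 𝓝 z₁, ∀ j, h w ∈ (A.ch j).source →
      wdg e (η j (h w)) (η' j (h w)) = 0 := by
    filter_upwards [h3, h4] with w hw hw' j hj
    exact hz j i (h w) hj hw (v6_zero e hw' (h1 w i hw) (h2 w i hw))
  exact (h5.filter_mono nhdsWithin_le_nhds).frequently

end vec




end Pool.Agent.IS

namespace Pool.Agent.IS

alias ps_of_forms := ps_of_forms_pr
alias va_of_forms := va_of_forms_pr

end Pool.Agent.IS
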