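import Pool.Agent.Lib_helper80.IS.Base

/-! # IS, block V7: wedge of a one-form and a d b - b d a -/

set_option autoImplicit false
set_option linter.unusedVariables false
set_option linter.unusedSectionVars false

open Filter Topology Metric Set
open scoped Manifold ContDiff

namespace Pool.Agent.IS

open Pool.Agent.BR Pool.Agent.MBS Pool.Agent.SL

section vec

variable {E X : Type} [NormedAddCommGroup E] [NormedSpace ℂ E] [FiniteDimensional ℂ E]
  [MetricSpace X] {A : Cha E X} {n k : ℕ}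

omit [FiniteDimensional ℂ E] in
/-- the wedge product under a linear substitution -/
theorem v7_det (e : Module.Basis (Fin 2) ℂ E) (D : E →L[ℂ] E) (α β : E →L[ℂ] ℂ) :
    wdg e (α.comp D) (β.comp D) = LinearMap.det (D : E →ₗ[ℂ] E) * wdg e α β := by
  have h0 : D (e 0) = e.repr (D (e 0)) 0 • e 0 + e.repr (D (e 0)) 1 • e 1 := by
    conv_lhs => rw [← e.sum_repr (D (e 0))]
    rw [Fin.sum_univ_two]
  have h1 : D (e 1) = e.repr (D (e 1)) 0 • e 0 + e.repr (D (e 1)) 1 • e 1 := by
    conv_lhs => rw [← e.sum_repr (D (e 1))]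
    rw [Fin.sum_univ_two]
  have hd : LinearMap.det (D : E →ₗ[ℂ] E) = e.repr (D (e 0)) 0 * e.repr (D (e 1)) 1 -
      e.repr (D (e 1)) 0 * e.repr (D (e 0)) 1 := by
    rw [← LinearMap.det_toMatrix e, Matrix.det_fin_two]
    simp only [LinearMap.toMatrix_apply, ContinuousLinearMap.coe_coe]
  rw [hd]
  simp only [wdg, ContinuousLinearMap.comp_apply]
  rw [h0, h1]
  simp only [map_add, map_smul, smul_eq_mul]
  simp only [Finsupp.coe_add, Pi.add_apply, Finsupp.coe_smul, Pi.smul_apply,
    Module.Basis.repr_self, smul_eq_mul]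
  simp
  ring

/-- the chart is a local inverse -/
theorem v7_symm {i : A.ι} {x : X} (hx : x ∈ (A.ch i).source) :
    Tendsto (A.ch i).symm (𝓝 (A.ch i x)) (𝓝 x) := by
  have := (A.ch i).continuousAt_symm ((A.ch i).map_source hx)
  rw [ContinuousAt, (A.ch i).left_inv hx] at this
  exact this

omit [FiniteDimensional ℂ E] in
theorem v7_smul (e : Module.Basis (Fin 2) ℂ E) (c : ℂ) (α β : E →L[ℂ] ℂ) :
    wdg e α (c • β) = c * wdg e α β := by
  simp only [wdg, _root_.smul_apply, smul_eq_mul]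
  ring

theorem ps_of_form_pr (e : Module.Basis (Fin 2) ℂ E) {a : A.ι → X → Fin (n + 1) → ℂ}
    (ha : AF A n k a) {η : A.ι → X → (E →L[ℂ] ℂ)} (hη : OF A η) (p q : Fin (n + 1)) :
    PS A (2 * k + 1) (fun i x => wdg e (η i x) (wr A a p q i x)) := by
  have hco : ∀ (i : A.ι) (x : X), x ∈ (A.ch i).source → ∀ r : Fin (n + 1),
      AnalyticAt ℂ (fun ξ => a i ((A.ch i).symm ξ) r) (A.ch i x) := by
    intro i x hx r
    exact ((ContinuousLinearMap.proj (R := ℂ) (φ := fun _ : Fin (n + 1) => ℂ) r).analyticAt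
      _).comp (ha.an i x hx)
  refine ⟨?_, ?_⟩
  · intro i x hx
    have hη' := hη.an i x hx
    have hap : ∀ v : E, ∀ (L : E → (E →L[ℂ] ℂ)) , AnalyticAt ℂ L (A.ch i x) →
        AnalyticAt ℂ (fun ξ => L ξ v) (A.ch i x) := by
      intro v L hL
      exact ((ContinuousLinearMap.apply ℂ ℂ v).analyticAt _).comp hL
    have hw : AnalyticAt ℂ (fun ξ => a i ((A.ch i).symm ξ) p •
        fderiv ℂ (fun ξ => a i ((A.ch i).symm ξ) q) ξ -
        a i ((A.ch i).symm ξ) q • fderiv ℂ (fun ξ => a i ((A.ch i).symm ξ) p) ξ) (A.ch i x) :=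
      ((hco i x hx p).smul (hco i x hx q).fderiv).sub ((hco i x hx q).smul (hco i x hx p).fderiv)
    have h1 : AnalyticAt ℂ (fun ξ => wdg e (η i ((A.ch i).symm ξ))
        (a i ((A.ch i).symm ξ) p • fderiv ℂ (fun ξ => a i ((A.ch i).symm ξ) q) ξ -
        a i ((A.ch i).symm ξ) q • fderiv ℂ (fun ξ => a i ((A.ch i).symm ξ) p) ξ)) (A.ch i x) :=
      ((hap (e 0) _ hη').mul (hap (e 1) _ hw)).sub ((hap (e 1) _ hη').mul (hap (e 0) _ hw))
    refine h1.congr ?_
    filter_upwards [(A.ch i).open_target.mem_nhds ((A.ch i).map_source hx)] with ξ hξ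
    show wdg e (η i ((A.ch i).symm ξ)) _ = wdg e (η i ((A.ch i).symm ξ))
      (wr A a p q i ((A.ch i).symm ξ))
    rw [wr, (A.ch i).right_inv hξ]
  · intro i j x hi hj
    have hxe : A.ch j ((A.ch i).symm (A.ch i x)) = A.ch j x := by rw [(A.ch i).left_inv hi]
    have hτ : HasFDerivAt (fun ξ => A.ch j ((A.ch i).symm ξ)) (dtr A i j x) (A.ch i x) :=
      (A.trans i j x hi hj).differentiableAt.hasFDerivAt
    -- a j in the chart i
    have hB : ∀ r : Fin (n + 1), HasFDerivAt (fun ξ => a j ((A.ch i).symm ξ) r)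
        ((fderiv ℂ (fun ξ => a j ((A.ch j).symm ξ) r) (A.ch j x)).comp (dtr A i j x))
        (A.ch i x) := by
      intro r
      have h3 : HasFDerivAt (fun ξ => a j ((A.ch j).symm ξ) r)
          (fderiv ℂ (fun ξ => a j ((A.ch j).symm ξ) r) (A.ch j x))
          (A.ch j ((A.ch i).symm (A.ch i x))) := by
        rw [hxe]
        exact (hco j x hj r).differentiableAt.hasFDerivAt
      refine (h3.comp (A.ch i x) hτ).congr_of_eventuallyEq ?_
      filter_upwards [(v7_symm hi).eventually ((A.ch j).open_source.mem_nhds hj)] with ξ hξ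
      show a j ((A.ch i).symm ξ) r = a j ((A.ch j).symm (A.ch j ((A.ch i).symm ξ))) r
      rw [(A.ch j).left_inv hξ]
    have hev : ∀ᶠ ξ in 𝓝 (A.ch i x), a i ((A.ch i).symm ξ) =
        jac A i j ((A.ch i).symm ξ) ^ k • a j ((A.ch i).symm ξ) := by
      filter_upwards [(v7_symm hi).eventually ((A.ch j).open_source.mem_nhds hj),
        (v7_symm hi).eventually ((A.ch i).open_source.mem_nhds hi)] with ξ h1 h2
      exact ha.tr i j _ h2 h1
    -- the factor is differentiable
    obtain ⟨s, hs⟩ := Function.ne_iff.1 (ha.ne j x hj)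
    have hs' : a j ((A.ch i).symm (A.ch i x)) s ≠ 0 := by
      rw [(A.ch i).left_inv hi]
      exact hs
    obtain ⟨c', hc'⟩ : ∃ c' : E →L[ℂ] ℂ, HasFDerivAt
        (fun ξ => jac A i j ((A.ch i).symm ξ) ^ k) c' (A.ch i x) := by
      have h1 : DifferentiableAt ℂ (fun ξ => a i ((A.ch i).symm ξ) s *
          (a j ((A.ch i).symm ξ) s)⁻¹) (A.ch i x) :=
        (hco i x hi s).differentiableAt.mul ((hB s).differentiableAt.inv hs')
      refine ⟨_, h1.hasFDerivAt.congr_of_eventuallyEq ?_⟩
      filter_upwards [hev, (hB s).continuousAt.eventually_ne hs'] with ξ h2 h3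
      rw [h2]
      show _ = jac A i j ((A.ch i).symm ξ) ^ k * a j ((A.ch i).symm ξ) s * _
      rw [mul_assoc, mul_inv_cancel₀ h3, mul_one]
    have hd : ∀ r : Fin (n + 1), fderiv ℂ (fun ξ => a i ((A.ch i).symm ξ) r) (A.ch i x) =
        jac A i j x ^ k • (fderiv ℂ (fun ξ => a j ((A.ch j).symm ξ) r) (A.ch j x)).comp
          (dtr A i j x) + a j x r • c' := by
      intro r
      have h1 := hc'.mul (hB r)
      have h2 := h1.congr_of_eventuallyEq (f₁ := fun ξ => a i ((A.ch i).symm ξ) r) (by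
        filter_upwards [hev] with ξ h3
        rw [h3]
        rfl)
      rw [h2.fderiv, (A.ch i).left_inv hi]
    have hax : ∀ r, a i x r = jac A i j x ^ k * a j x r := by
      intro r
      rw [ha.tr i j x hi hj]
      rfl
    have hwr : wr A a p q i x =
        ((jac A i j x ^ k) ^ 2) • (wr A a p q j x).comp (dtr A i j x) := by
      rw [wr, wr, hd p, hd q, hax p, hax q]
      ext v
      simp only [_root_.sub_apply, _root_.smul_apply,
        _root_.add_apply, ContinuousLinearMap.comp_apply, smul_eq_mul]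
      ring
    show wdg e (η i x) (wr A a p q i x) = jac A i j x ^ (2 * k + 1) *
      wdg e (η j x) (wr A a p q j x)
    rw [hwr, v7_smul, hη.tr i j x hi hj, v7_det]
    show _ * (jac A i j x * _) = _
    ring

theorem nz_of_form_pr (e : Module.Basis (Fin 2) ℂ E) {a : A.ι → X → Fin (n + 1) → ℂ}
    (ha : AF A n k a) {η : A.ι → X → (E →L[ℂ] ℂ)} (hη : OF A η) (hnz : NZ (A := A) η) :
    ∃ p q, NZ (A := A) (fun i x => wdg e (η i x) (wr A a p q i x)) := by
  obtain ⟨i, x, hx, h0⟩ := hnz
  by_contra hcon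
  have hz : ∀ p q, wdg e (η i x) (wr A a p q i x) = 0 := by
    intro p q
    by_contra h1
    exact hcon ⟨p, q, i, x, hx, h1⟩
  set v : E := (η i x (e 1)) • e 0 - (η i x (e 0)) • e 1 with hv
  have hv0 : v ≠ 0 := by
    intro h1
    have h2 : η i x (e 1) = 0 := by
      have := congrArg (fun w => e.repr w 0) h1
      simpa [hv, Finsupp.single_apply] using this
    have h3 : η i x (e 0) = 0 := by
      have := congrArg (fun w => e.repr w 1) h1
      simpa [hv, Finsupp.single_apply] using this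
    apply h0
    apply ContinuousLinearMap.coe_injective
    refine e.ext fun m => ?_
    fin_cases m
    · simpa using h3
    · simpa using h2
  have hwv : ∀ p q, wr A a p q i x v = 0 := by
    intro p q
    have h1 := hz p q
    rw [wdg] at h1
    rw [hv, map_sub, map_smul, map_smul, smul_eq_mul, smul_eq_mul]
    linear_combination (-1 : ℂ) * h1
  have hd : DifferentiableAt ℂ (fun ξ => a i ((A.ch i).symm ξ)) (A.ch i x) :=
    (ha.an i x hx).differentiableAt
  have hdr : ∀ r : Fin (n + 1), fderiv ℂ (fun ξ => a i ((A.ch i).symm ξ)) (A.ch i x) v r =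
      fderiv ℂ (fun ξ => a i ((A.ch i).symm ξ) r) (A.ch i x) v := by
    intro r
    have h1 := (ContinuousLinearMap.proj (R := ℂ) (φ := fun _ : Fin (n + 1) => ℂ)
      r).hasFDerivAt.comp (A.ch i x) hd.hasFDerivAt
    have h2 : HasFDerivAt (fun ξ => a i ((A.ch i).symm ξ) r) _ (A.ch i x) := h1
    rw [h2.fderiv]
    rfl
  obtain ⟨s, hs⟩ := Function.ne_iff.1 (ha.ne i x hx)
  have hs' : a i x s ≠ 0 := hs
  refine hv0 (ha.imm i x hx v
    (fderiv ℂ (fun ξ => a i ((A.ch i).symm ξ) s) (A.ch i x) v / a i x s) ?_)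
  funext r
  rw [hdr r, Pi.smul_apply, smul_eq_mul]
  have h1 := hwv s r
  rw [wr, _root_.sub_apply, _root_.smul_apply,
    _root_.smul_apply, smul_eq_mul, smul_eq_mul] at h1
  field_simp
  linear_combination h1

end vec

end Pool.Agent.IS

namespace Pool.Agent.IS




end Pool.Agent.IS

namespace Pool.Agent.IS

alias ps_of_form := ps_of_form_pr
alias nz_of_form := nz_of_form_pr

end Pool.Agent.IS
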