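import Pool.Agent.Lib_helper80.IS.Base
import Pool.Agent.Lib_helper80.IS.L.V2
import Pool.Agent.Lib_helper80.IS.L.V6
import Pool.Agent.Lib_helper80.IS.L.V7
import Pool.Agent.Lib_helper80.IS.L.T2

/-! Block T4 of project IS (helper69): trichotomy. -/

set_option autoImplicit false
set_option linter.unusedVariables false
set_option linter.unusedSectionVars false

open Filter Topology Metric Set
open scoped Manifold ContDiff

namespace Pool.Agent.IS

open Pool.Agent.BR Pool.Agent.MBS Pool.Agent.SL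

section t4

variable {E X : Type} [NormedAddCommGroup E] [NormedSpace ℂ E] [FiniteDimensional ℂ E]
  [MetricSpace X] {A : Cha E X} {W : Type} [NormedAddCommGroup W] [NormedSpace ℂ W]
  [FiniteDimensional ℂ W] {Γ : Submodule ℤ W} {φ : X → W ⧸ Γ} {Φ : A.ι → X → (E →L[ℂ] W)}

theorem t4_of_comp {V : Type} [NormedAddCommGroup V] [NormedSpace ℂ V] (hΦ : OF A Φ)
    (L : W →L[ℂ] V) : OF A (fun i x => L.comp (Φ i x)) := by
  constructor
  · intro i x hx
    have h1 := hΦ.an i x hx
    have h2 : AnalyticAt ℂ (fun T : E →L[ℂ] W => (ContinuousLinearMap.compL ℂ E W V L) T)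
        (Φ i ((A.ch i).symm (A.ch i x))) :=
      (ContinuousLinearMap.compL ℂ E W V L).analyticAt _
    exact AnalyticAt.comp (g := fun T : E →L[ℂ] W => (ContinuousLinearMap.compL ℂ E W V L) T) h2 h1
  · intro i j x hi hj
    show L.comp (Φ i x) = (L.comp (Φ j x)).comp (dtr A i j x)
    rw [hΦ.tr i j x hi hj, ContinuousLinearMap.comp_assoc]

/-- the first alternative, from one form which vanishes along `h` -/
theorem t4_first (e : Module.Basis (Fin 2) ℂ E) {n k : ℕ}
    {a : A.ι → X → Fin (n + 1) → ℂ} (ha : AF A n k a) {h : ℂ → X}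
    {η : A.ι → X → (E →L[ℂ] ℂ)} (hη : OF A η) (hnz : NZ (A := A) η) (hva : VA (A := A) η h) :
    ∃ w > 0, ∃ t : A.ι → X → ℂ, PS A w t ∧ NZ (A := A) t ∧ VA t h := by
  obtain ⟨p, q, hpq⟩ := nz_of_form e ha hη hnz
  refine ⟨2 * k + 1, by omega, fun i x => wdg e (η i x) (wr A a p q i x),
    ps_of_form e ha hη p q, hpq, ?_⟩
  intro z i hz
  show wdg e (η i (h z)) (wr A a p q i (h z)) = 0
  rw [hva z i hz]
  simp [wdg]

theorem t4_sep {v : W} (hv : v ≠ 0) : ∃ l : W →L[ℂ] ℂ, l v ≠ 0 := by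
  by_contra hcon
  push Not at hcon
  exact hv (SeparatingDual.eq_zero_of_forall_dual_eq_zero (R := ℂ) hcon)

theorem t4_nz {V : Type} [NormedAddCommGroup V] [NormedSpace ℂ V] [FiniteDimensional ℂ V]
    {Θ : A.ι → X → (E →L[ℂ] V)} (hnz : NZ (A := A) Θ) :
    ∃ l : V →L[ℂ] ℂ, NZ (A := A) (fun i x => l.comp (Θ i x)) := by
  obtain ⟨i, x, hx, hne⟩ := hnz
  obtain ⟨v, hv⟩ : ∃ v, Θ i x v ≠ 0 := by
    by_contra hcon
    push Not at hcon
    exact hne (ContinuousLinearMap.ext hcon)
  obtain ⟨l, hl⟩ := t4_sep hv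
  refine ⟨l, i, x, hx, ?_⟩
  intro h0
  apply hl
  have := congrArg (fun T : E →L[ℂ] ℂ => T v) h0
  simpa using this

theorem t4_wdg (e : Module.Basis (Fin 2) ℂ E) {α β : E →L[ℂ] ℂ} (h : wdg e α β = 0) (u v : E) :
    α u * β v = α v * β u := by
  have hu : u = e.repr u 0 • e 0 + e.repr u 1 • e 1 := by
    conv_lhs => rw [← e.sum_repr u]
    rw [Fin.sum_univ_two]
  have hv : v = e.repr v 0 • e 0 + e.repr v 1 • e 1 := by
    conv_lhs => rw [← e.sum_repr v]
    rw [Fin.sum_univ_two]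
  have h1 : α (e 0) * β (e 1) = α (e 1) * β (e 0) := by
    have := h
    unfold wdg at this
    exact sub_eq_zero.mp this
  rw [hu, hv]
  simp only [map_add, map_smul, smul_eq_mul]
  linear_combination (e.repr u 0 * e.repr v 1 - e.repr u 1 * e.repr v 0) * h1

theorem trich_pr [ConnectedSpace X] (e : Module.Basis (Fin 2) ℂ E) {n k : ℕ}
    {a : A.ι → X → Fin (n + 1) → ℂ} (ha : AF A n k a) (hP : Prim A φ Φ) (hnz : NZ (A := A) Φ)
    {h : ℂ → X} (hh : ∀ z, A.HolAt h z) (hne : ∃ z z', h z ≠ h z')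
    (hkill : ∀ z i, h z ∈ (A.ch i).source → Φ i (h z) (deriv (A.loc i h) z) = 0) :
    (∃ w > 0, ∃ t : A.ι → X → ℂ, PS A w t ∧ NZ (A := A) t ∧ VA t h) ∨
      ∃ (l : W →L[ℂ] ℂ) (c : W), l c = 1 ∧ NZ (A := A) (fun i x => l.comp (Φ i x)) ∧
        ∀ i, ∀ x ∈ (A.ch i).source, Φ i x = (l.comp (Φ i x)).smulRight c := by
  by_cases hw : ∃ l l' : W →L[ℂ] ℂ,
      NZ (A := A) (fun i x => wdg e (l.comp (Φ i x)) (l'.comp (Φ i x)))
  · left
    obtain ⟨l, l', hl⟩ := hw
    refine ⟨1, one_pos, fun i x => wdg e (l.comp (Φ i x)) (l'.comp (Φ i x)),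
      ps_of_forms e (t4_of_comp hP.of l) (t4_of_comp hP.of l'), hl, ?_⟩
    refine va_of_forms e (t4_of_comp hP.of l) (t4_of_comp hP.of l') hh hne ?_ ?_
    · intro z i hz
      show l (Φ i (h z) (deriv (A.loc i h) z)) = 0
      rw [hkill z i hz, map_zero]
    · intro z i hz
      show l' (Φ i (h z) (deriv (A.loc i h) z)) = 0
      rw [hkill z i hz, map_zero]
  -- the rank is at most one
  have hrank : ∀ (l : W →L[ℂ] ℂ) i, ∀ x ∈ (A.ch i).source, ∀ u v : E,
      l (Φ i x u) • Φ i x v = l (Φ i x v) • Φ i x u := by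
    intro l i x hx u v
    rw [← sub_eq_zero]
    refine SeparatingDual.eq_zero_of_forall_dual_eq_zero (R := ℂ) ?_
    intro l'
    have h1 : wdg e (l.comp (Φ i x)) (l'.comp (Φ i x)) = 0 := by
      by_contra hc
      exact hw ⟨l, l', i, x, hx, hc⟩
    have h2 := t4_wdg e h1 u v
    simp only [ContinuousLinearMap.comp_apply] at h2
    rw [map_sub, map_smul, map_smul, smul_eq_mul, smul_eq_mul, h2, sub_self]
  obtain ⟨l, hl⟩ := t4_nz hnz
  by_cases hva : VA (A := A) (fun i x => l.comp (Φ i x)) h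
  · left
    exact t4_first e ha (t4_of_comp hP.of l) hl hva
  have hva' : ∃ z₁ i, h z₁ ∈ (A.ch i).source ∧ l.comp (Φ i (h z₁)) ≠ 0 := by
    by_contra hcon
    push Not at hcon
    exact hva hcon
  obtain ⟨z₁, i, hz₁, hlz⟩ := hva'
  obtain ⟨F, hF⟩ := hP.prim (h z₁)
  have hcont : Continuous h := continuous_iff_continuousAt.mpr fun z => (hh z).1
  have hsrc : ∀ᶠ y in 𝓝 (h z₁), y ∈ (A.ch i).source := (A.ch i).open_source.mem_nhds hz₁
  -- the constant vector
  have hc : ∃ c : W, ∀ᶠ z in 𝓝 z₁, ∀ v,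
      fderiv ℂ (fun ξ => F ((A.ch i).symm ξ)) (A.loc i h z) v =
        l (fderiv ℂ (fun ξ => F ((A.ch i).symm ξ)) (A.loc i h z) v) • c := by
    refine rank_one_const (l := l) ?_ ((hh z₁).2 i hz₁) ?_ ?_ ?_
    · exact (hF.self_of_nhds.2 i hz₁).1
    · have hcs : ContinuousAt (A.ch i).symm (A.ch i (h z₁)) :=
        (A.ch i).continuousAt_symm ((A.ch i).map_source hz₁)
      have h1 : ∀ᶠ ξ in 𝓝 (A.ch i (h z₁)), (φ ((A.ch i).symm ξ) =
          Submodule.Quotient.mk (F ((A.ch i).symm ξ)) ∧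
          ∀ j, (A.ch i).symm ξ ∈ (A.ch j).source →
          AnalyticAt ℂ (fun ξ => F ((A.ch j).symm ξ)) (A.ch j ((A.ch i).symm ξ)) ∧
          Φ j ((A.ch i).symm ξ) =
            fderiv ℂ (fun ξ => F ((A.ch j).symm ξ)) (A.ch j ((A.ch i).symm ξ))) ∧
          (A.ch i).symm ξ ∈ (A.ch i).source := by
        refine hcs.eventually (p := fun y => (φ y = Submodule.Quotient.mk (F y) ∧
          ∀ j, y ∈ (A.ch j).source →
          AnalyticAt ℂ (fun ξ => F ((A.ch j).symm ξ)) (A.ch j y) ∧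
          Φ j y = fderiv ℂ (fun ξ => F ((A.ch j).symm ξ)) (A.ch j y)) ∧
          y ∈ (A.ch i).source) ?_
        rw [(A.ch i).left_inv hz₁]
        exact hF.and hsrc
      have h2 : ∀ᶠ ξ in 𝓝 (A.ch i (h z₁)), ξ ∈ (A.ch i).target :=
        (A.ch i).open_target.mem_nhds ((A.ch i).map_source hz₁)
      filter_upwards [h1, h2] with ξ h3 h4 u v
      have h5 := (h3.1.2 i h3.2).2
      rw [(A.ch i).right_inv h4] at h5
      rw [← h5]
      exact hrank l i _ h3.2 u v
    · have h5 := (hF.self_of_nhds.2 i hz₁).2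
      by_contra hcon
      push Not at hcon
      apply hlz
      ext v
      have := hcon v
      show l (Φ i (h z₁) v) = 0
      rw [h5]
      exact this
    · have h1 := hcont.continuousAt.eventually (hF.and hsrc)
      filter_upwards [h1] with z hz
      have h5 := (hz.1.2 i hz.2).2
      have h6 := hkill z i hz.2
      rw [h5] at h6
      exact h6
  obtain ⟨c, hc⟩ := hc
  set L : W →L[ℂ] W := ContinuousLinearMap.id ℂ W - l.smulRight c with hL
  have hLapp : ∀ i x v, (L.comp (Φ i x)) v = Φ i x v - l (Φ i x v) • c := by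
    intro i x v
    simp [hL]
  have hOF : OF A (fun i x => L.comp (Φ i x)) := t4_of_comp hP.of L
  have hvaL : VA (A := A) (fun i x => L.comp (Φ i x)) h := by
    refine va_ident (z₁ := z₁) hOF.an ?_ hh ?_
    · intro i' j' x hi' hj' h0
      have h1 := hOF.tr i' j' x hi' hj'
      have h2 : L.comp (Φ j' x) = 0 := h0
      show L.comp (Φ i' x) = 0
      rw [h1]
      simp only [h2, ContinuousLinearMap.zero_comp]
    · have h1 := hcont.continuousAt.eventually (hF.and hsrc)
      have h2 : ∀ᶠ z in 𝓝 z₁, ∀ j, h z ∈ (A.ch j).source → L.comp (Φ j (h z)) = 0 := by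
        filter_upwards [h1, hc] with z hz hcz j hj
        have h5 := (hz.1.2 i hz.2).2
        have h6 : L.comp (Φ i (h z)) = 0 := by
          ext v
          rw [hLapp, h5]
          have := hcz v
          show _ - _ = (0 : W)
          rw [sub_eq_zero]
          exact this
        have h7 := hOF.tr j i (h z) hj hz.2
        rw [h7]
        simp only [h6, ContinuousLinearMap.zero_comp]
      exact (h2.filter_mono nhdsWithin_le_nhds).frequently
  by_cases hLnz : NZ (A := A) (fun i x => L.comp (Φ i x))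
  · left
    obtain ⟨l₂, hl₂⟩ := t4_nz hLnz
    refine t4_first e ha (t4_of_comp hOF l₂) hl₂ ?_
    intro z j hz
    show l₂.comp (L.comp (Φ j (h z))) = 0
    have h1 : L.comp (Φ j (h z)) = 0 := hvaL z j hz
    rw [h1, ContinuousLinearMap.comp_zero]
  · right
    have hall : ∀ j, ∀ x ∈ (A.ch j).source, ∀ v, Φ j x v = l (Φ j x v) • c := by
      intro j x hx v
      have h1 : L.comp (Φ j x) = 0 := by
        by_contra hcon
        exact hLnz ⟨j, x, hx, hcon⟩
      have h2 := hLapp j x v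
      rw [h1] at h2
      have h3 : Φ j x v - l (Φ j x v) • c = 0 := h2.symm
      exact sub_eq_zero.mp h3
    refine ⟨l, c, ?_, hl, ?_⟩
    · obtain ⟨j, x, hx, hne⟩ := hl
      obtain ⟨v, hv⟩ : ∃ v, l (Φ j x v) ≠ 0 := by
        by_contra hcon
        push Not at hcon
        apply hne
        ext v
        exact hcon v
      have h1 := congrArg l (hall j x hx v)
      rw [map_smul, smul_eq_mul] at h1
      have h2 : l (Φ j x v) * l c = l (Φ j x v) * 1 := by rw [mul_one]; exact h1.symm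
      exact mul_left_cancel₀ hv h2
    · intro j x hx
      ext v
      simp only [ContinuousLinearMap.smulRight_apply, ContinuousLinearMap.comp_apply]
      exact hall j x hx v



end t4

end Pool.Agent.IS

namespace Pool.Agent.IS

alias trich := trich_pr

end Pool.Agent.IS
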