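import Pool.Agent.Lib_helper80.IS.Base

/-! # IS, block T5 -/

set_option autoImplicit false

open Filter Topology Metric Set
open scoped Manifold ContDiff

namespace Pool.Agent.IS

open Pool.Agent.BR Pool.Agent.MBS Pool.Agent.SL

section torus

variable {E X : Type} [NormedAddCommGroup E] [NormedSpace ℂ E] [FiniteDimensional ℂ E]
  [MetricSpace X] {A : Cha E X} {W : Type} [NormedAddCommGroup W] [NormedSpace ℂ W]
  [FiniteDimensional ℂ W] {Γ : Submodule ℤ W} {φ : X → W ⧸ Γ} {Φ : A.ι → X → (E →L[ℂ] W)}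

/-- the group of the `λ` with `λ • c ∈ Γ` -/
def t5_G (Γ : Submodule ℤ W) (c : W) : Submodule ℤ ℂ :=
  Γ.comap ((LinearMap.toSpanSingleton ℂ W c).restrictScalars ℤ)

theorem t5_mem {c : W} {x : ℂ} : x ∈ t5_G Γ c ↔ x • c ∈ Γ := by
  simp [t5_G, Submodule.mem_comap]

theorem t5_discrete [DiscreteTopology Γ] {c : W} (hc : c ≠ 0) : DiscreteTopology (t5_G Γ c) := by
  let f : t5_G Γ c → Γ := fun x => ⟨(x : ℂ) • c, t5_mem.1 x.2⟩
  have hf : Continuous f := by
    refine Continuous.subtype_mk ?_ _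
    exact (continuous_subtype_val).smul continuous_const
  have hi : Function.Injective f := by
    intro x y hxy
    have h1 : (x : ℂ) • c = (y : ℂ) • c := congrArg Subtype.val hxy
    have h2 : ((x : ℂ) - y) • c = 0 := by rw [sub_smul, h1, sub_self]
    rcases smul_eq_zero.1 h2 with h | h
    · exact Subtype.ext (sub_eq_zero.1 h)
    · exact absurd h hc
  exact DiscreteTopology.of_continuous_injective hf hi

/-- the local statement: a lift `F` moves only in the direction `c` -/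
theorem t5_local (hP : Prim A φ Φ) {l : W →L[ℂ] ℂ} {c : W}
    (hrk : ∀ i, ∀ x ∈ (A.ch i).source, Φ i x = (l.comp (Φ i x)).smulRight c) (x : X) :
    ∃ F : X → W, (∀ᶠ y in 𝓝 x, φ y = Submodule.Quotient.mk (F y) ∧
      ∀ i, y ∈ (A.ch i).source → AnalyticAt ℂ (fun ξ => F ((A.ch i).symm ξ)) (A.ch i y) ∧
        Φ i y = fderiv ℂ (fun ξ => F ((A.ch i).symm ξ)) (A.ch i y)) ∧
      ∀ᶠ y in 𝓝 x, F y = F x + (l (F y) - l (F x)) • c := by
  obtain ⟨F, hF⟩ := hP.prim x
  refine ⟨F, hF, ?_⟩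
  obtain ⟨i, hi⟩ := A.cover x
  have hxs : x ∈ (A.ch i).source := A.W_sub i (subset_closure hi)
  have hxt : A.ch i x ∈ (A.ch i).target := (A.ch i).map_source hxs
  -- transport to the chart
  have hsymm : Tendsto (A.ch i).symm (𝓝 (A.ch i x)) (𝓝 x) := by
    have := (A.ch i).continuousAt_symm hxt
    rw [ContinuousAt, (A.ch i).left_inv hxs] at this
    exact this
  have h1 : ∀ᶠ ξ in 𝓝 (A.ch i x), ξ ∈ (A.ch i).target ∧
      AnalyticAt ℂ (fun ξ => F ((A.ch i).symm ξ)) ξ ∧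
      Φ i ((A.ch i).symm ξ) = fderiv ℂ (fun ξ => F ((A.ch i).symm ξ)) ξ := by
    filter_upwards [hsymm.eventually hF, (A.ch i).open_target.mem_nhds hxt] with ξ hξ hξt
    have h2 := hξ.2 i ((A.ch i).map_target hξt)
    rw [(A.ch i).right_inv hξt] at h2
    exact ⟨hξt, h2⟩
  obtain ⟨r, hr, hball⟩ := Metric.eventually_nhds_iff_ball.1 h1
  set g : E → W := fun ξ => F ((A.ch i).symm ξ) - l (F ((A.ch i).symm ξ)) • c with hg
  have hder : ∀ ξ ∈ ball (A.ch i x) r, HasFDerivAt g (0 : E →L[ℂ] W) ξ := by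
    intro ξ hξ
    obtain ⟨ht, han, hfd⟩ := hball ξ hξ
    have hd := han.differentiableAt.hasFDerivAt
    have hd2 : HasFDerivAt (fun ξ => l (F ((A.ch i).symm ξ)))
        (l.comp (fderiv ℂ (fun ξ => F ((A.ch i).symm ξ)) ξ)) ξ := l.hasFDerivAt.comp ξ hd
    have hd3 := hd.sub (hd2.smul_const c)
    have hz : fderiv ℂ (fun ξ => F ((A.ch i).symm ξ)) ξ -
        (l.comp (fderiv ℂ (fun ξ => F ((A.ch i).symm ξ)) ξ)).smulRight c = 0 := by
      rw [← hfd, ← hrk i _ ((A.ch i).map_target ht), sub_self]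
    rw [hz] at hd3
    exact hd3
  have hconst : ∀ ξ ∈ ball (A.ch i x) r, g ξ = g (A.ch i x) := by
    intro ξ hξ
    refine IsOpen.is_const_of_fderiv_eq_zero (𝕜 := ℂ) isOpen_ball
      (convex_ball _ _).isPreconnected ?_ ?_ hξ (mem_ball_self hr)
    · intro η hη
      exact (hder η hη).differentiableAt.differentiableWithinAt
    · intro η hη
      exact (hder η hη).fderiv
  have hcont : Tendsto (A.ch i) (𝓝 x) (𝓝 (A.ch i x)) := (A.ch i).continuousAt hxs
  filter_upwards [hcont.eventually (ball_mem_nhds _ hr), (A.ch i).open_source.mem_nhds hxs]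
    with y hy hys
  have h3 := hconst _ hy
  simp only [hg, (A.ch i).left_inv hys, (A.ch i).left_inv hxs] at h3
  rw [sub_eq_iff_eq_add] at h3
  have h4 : F x + (l (F y) - l (F x)) • c = F x - l (F x) • c + l (F y) • c := by
    rw [sub_smul]
    abel
  rw [h4]
  exact h3

theorem t5_line [ConnectedSpace X] (hP : Prim A φ Φ) {l : W →L[ℂ] ℂ} {c : W}
    (hrk : ∀ i, ∀ x ∈ (A.ch i).source, Φ i x = (l.comp (Φ i x)).smulRight c) (x₀ x : X) :
    ∃ lam : ℂ, φ x = φ x₀ + Submodule.Quotient.mk (lam • c) := by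
  set S : Set X := {x | ∃ lam : ℂ, φ x = φ x₀ + Submodule.Quotient.mk (lam • c)} with hS
  have hloc : ∀ x, ∀ᶠ y in 𝓝 x, ∃ mu : ℂ, φ y = φ x + Submodule.Quotient.mk (mu • c) := by
    intro x
    obtain ⟨F, hF, hF2⟩ := t5_local hP hrk x
    filter_upwards [hF, hF2] with y hy hy2
    refine ⟨l (F y) - l (F x), ?_⟩
    rw [hy.1, hF.self_of_nhds.1, ← Submodule.Quotient.mk_add, ← hy2]
  have hopen : IsOpen S := by
    rw [isOpen_iff_mem_nhds]
    rintro x ⟨lam, hlam⟩
    filter_upwards [hloc x] with y hy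
    obtain ⟨mu, hmu⟩ := hy
    exact ⟨lam + mu, by rw [hmu, hlam, add_smul, Submodule.Quotient.mk_add, add_assoc]⟩
  have hclosed : IsClosed S := by
    rw [← isOpen_compl_iff, isOpen_iff_mem_nhds]
    intro x hx
    filter_upwards [hloc x] with y hy
    rintro ⟨lam, hlam⟩
    obtain ⟨mu, hmu⟩ := hy
    refine hx ⟨lam - mu, ?_⟩
    rw [hmu] at hlam
    rw [sub_smul, Submodule.Quotient.mk_sub, add_sub, ← hlam, add_sub_cancel_right]
  have huniv : S = univ := IsClopen.eq_univ ⟨hclosed, hopen⟩ ⟨x₀, 0, by simp⟩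
  have : x ∈ S := by rw [huniv]; exact mem_univ x
  exact this

theorem to_line_pr [ConnectedSpace X] [DiscreteTopology Γ] (hP : Prim A φ Φ) {l : W →L[ℂ] ℂ} {c : W}
    (hlc : l c = 1) (hrk : ∀ i, ∀ x ∈ (A.ch i).source, Φ i x = (l.comp (Φ i x)).smulRight c)
    {h : ℂ → X} (hc : ∀ z z', φ (h z) = φ (h z')) :
    ∃ (Γ' : Submodule ℤ ℂ) (_ : DiscreteTopology Γ') (f : X → ℂ ⧸ Γ'),
      Prim A f (fun i x => l.comp (Φ i x)) ∧ ∀ z z', f (h z) = f (h z') := by
  have hc0 : c ≠ 0 := by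
    rintro rfl
    simp at hlc
  obtain ⟨x₀⟩ : Nonempty X := inferInstance
  choose lam hlam using t5_line hP hrk x₀
  have hwell : ∀ (x : X) (mu : ℂ), φ x = φ x₀ + Submodule.Quotient.mk (mu • c) →
      (Submodule.Quotient.mk (lam x) : ℂ ⧸ t5_G Γ c) = Submodule.Quotient.mk mu := by
    intro x mu hmu
    rw [Submodule.Quotient.eq, t5_mem, sub_smul, ← Submodule.Quotient.eq]
    have := hlam x
    rw [hmu] at this
    exact (add_left_cancel this).symm
  refine ⟨t5_G Γ c, t5_discrete hc0, fun x => Submodule.Quotient.mk (lam x), ⟨⟨?_, ?_⟩, ?_⟩, ?_⟩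
  · intro i x hx
    have h1 := hP.of.an i x hx
    exact ((ContinuousLinearMap.compL ℂ E W ℂ l).analyticAt _).comp h1
  · intro i j x hi hj
    show l.comp (Φ i x) = (l.comp (Φ j x)).comp (dtr A i j x)
    rw [hP.of.tr i j x hi hj, ContinuousLinearMap.comp_assoc]
  · intro x
    obtain ⟨F, hF, hF2⟩ := t5_local hP hrk x
    refine ⟨fun y => lam x + (l (F y) - l (F x)), ?_⟩
    filter_upwards [hF, hF2] with y hy hy2
    constructor
    · refine hwell y _ ?_
      rw [add_smul, Submodule.Quotient.mk_add, ← add_assoc, ← hlam x, hF.self_of_nhds.1,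
        ← Submodule.Quotient.mk_add, ← hy2, hy.1]
    · intro i hi
      obtain ⟨h1, h2⟩ := hy.2 i hi
      have h3 : AnalyticAt ℂ (fun ξ => l (F ((A.ch i).symm ξ))) (A.ch i y) :=
        (l.analyticAt _).comp h1
      refine ⟨analyticAt_const.add (h3.sub analyticAt_const), ?_⟩
      have hd : HasFDerivAt (fun ξ => lam x + (l (F ((A.ch i).symm ξ)) - l (F x)))
          (l.comp (fderiv ℂ (fun ξ => F ((A.ch i).symm ξ)) (A.ch i y))) (A.ch i y) := by
        have h4 : HasFDerivAt (fun ξ => l (F ((A.ch i).symm ξ)))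
            (l.comp (fderiv ℂ (fun ξ => F ((A.ch i).symm ξ)) (A.ch i y))) (A.ch i y) :=
          l.hasFDerivAt.comp (A.ch i y) h1.differentiableAt.hasFDerivAt
        exact (h4.sub_const (l (F x))).const_add (lam x)
      rw [hd.fderiv, ← h2]
  · intro z z'
    refine hwell _ _ ?_
    rw [hc z z', hlam (h z')]



end torus

end Pool.Agent.IS

namespace Pool.Agent.IS

alias to_line := to_line_pr

end Pool.Agent.IS
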