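import Pool.Agent.Lib_helper80.IS.Base

/-! # Project IS, block T6: the group is a lattice -/

set_option autoImplicit false

open Filter Topology Metric Set
open scoped Manifold ContDiff

namespace Pool.Agent.IS

open Pool.Agent.BR Pool.Agent.MBS Pool.Agent.SL

variable {E X : Type} [NormedAddCommGroup E] [NormedSpace ℂ E] [FiniteDimensional ℂ E]
  [MetricSpace X] {A : Cha E X}

theorem t6_alpha (p : Submodule ℝ ℂ) (hp : p ≠ ⊤) :
    ∃ α : ℂ, α ≠ 0 ∧ ∀ z ∈ p, (α * z).re = 0 := by
  obtain ⟨g, hg, hle⟩ := Submodule.exists_le_ker_of_lt_top p (lt_top_iff_ne_top.2 hp)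
  have hform : ∀ z : ℂ, (((g 1 : ℝ) - (g Complex.I : ℝ) * Complex.I : ℂ) * z).re = g z := by
    intro z
    have hz : z = z.re • (1 : ℂ) + z.im • Complex.I := by
      simp
    have h1 : g z = z.re * g 1 + z.im * g Complex.I := by
      conv_lhs => rw [hz]
      rw [map_add, map_smul, map_smul, smul_eq_mul, smul_eq_mul]
    rw [h1]
    simp [Complex.mul_re, Complex.sub_re, Complex.sub_im]
    ring
  refine ⟨(g 1 : ℝ) - (g Complex.I : ℝ) * Complex.I, ?_, ?_⟩
  · intro h0
    apply hg
    apply LinearMap.ext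
    intro z
    have h1 := hform z
    rw [h0] at h1
    simpa using h1.symm
  · intro z hz
    rw [hform]
    exact hle hz

theorem lattice_of_compact_pr [CompactSpace X] [ConnectedSpace X] {Γ' : Submodule ℤ ℂ}
    [DiscreteTopology Γ'] {f : X → ℂ ⧸ Γ'} {Φ' : A.ι → X → (E →L[ℂ] ℂ)} (hP : Prim A f Φ')
    (hnz : NZ (A := A) Φ') : IsZLattice ℝ Γ' := by
  refine ⟨?_⟩
  by_contra hne
  obtain ⟨α, hα, hα0⟩ := t6_alpha _ hne
  have hαΓ : ∀ z ∈ Γ', (α * z).re = 0 := fun z hz => hα0 z (Submodule.subset_span hz)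
  -- the function
  have hu : ∃ u : X → ℝ, ∀ x z, f x = Submodule.Quotient.mk z → u x = (α * z).re := by
    refine ⟨fun x => (α * (f x).out).re, fun x z hz => ?_⟩
    have h1 : (Submodule.Quotient.mk (f x).out : ℂ ⧸ Γ') = Submodule.Quotient.mk z := by
      rw [← hz]
      exact Quotient.out_eq' _
    have h2 := (Submodule.Quotient.eq Γ').1 h1
    have h3 := hαΓ _ h2
    have h4 : (α * ((f x).out - z)).re = (α * (f x).out).re - (α * z).re := by
      rw [mul_sub, Complex.sub_re]
    rw [h4] at h3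
    linarith
  obtain ⟨u, hu⟩ := hu
  -- local description
  have hloc : ∀ x : X, ∀ i, x ∈ (A.ch i).source → ∃ F : X → ℂ, (∀ᶠ y in 𝓝 x, u y = (α * F y).re) ∧
      (∀ᶠ ξ in 𝓝 (A.ch i x), DifferentiableAt ℂ (fun ξ => F ((A.ch i).symm ξ)) ξ ∧
        u ((A.ch i).symm ξ) = (α * F ((A.ch i).symm ξ)).re) ∧
      Φ' i x = fderiv ℂ (fun ξ => F ((A.ch i).symm ξ)) (A.ch i x) := by
    intro x i hx
    obtain ⟨F, hF⟩ := hP.prim x
    refine ⟨F, ?_, ?_, ?_⟩
    · filter_upwards [hF] with y hy
      exact hu y _ hy.1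
    · have ht : A.ch i x ∈ (A.ch i).target := (A.ch i).map_source hx
      have hs : ContinuousAt (A.ch i).symm (A.ch i x) := (A.ch i).continuousAt_symm ht
      have hs' : Tendsto (A.ch i).symm (𝓝 (A.ch i x)) (𝓝 x) := by
        have := hs.tendsto
        rwa [(A.ch i).left_inv hx] at this
      filter_upwards [hs'.eventually hF, (A.ch i).open_target.mem_nhds ht] with ξ h1 h2
      have h3 := (h1.2 i ((A.ch i).map_target h2)).1
      rw [(A.ch i).right_inv h2] at h3
      exact ⟨h3.differentiableAt, hu _ _ h1.1⟩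
    · exact (hF.self_of_nhds.2 i hx).2
  have hcov : ∀ x : X, ∃ i, x ∈ (A.ch i).source := by
    intro x
    obtain ⟨i, hi⟩ := A.cover x
    exact ⟨i, A.W_sub i (subset_closure hi)⟩
  -- continuity
  have hcont : Continuous u := by
    rw [continuous_iff_continuousAt]
    intro x
    obtain ⟨i, hi⟩ := hcov x
    obtain ⟨F, h1, h2, -⟩ := hloc x i hi
    have h3 : ContinuousAt (fun ξ => F ((A.ch i).symm ξ)) (A.ch i x) :=
      h2.self_of_nhds.1.continuousAt
    have h4 : ContinuousAt (fun y => F ((A.ch i).symm (A.ch i y))) x :=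
      ContinuousAt.comp (g := fun ξ => F ((A.ch i).symm ξ)) (f := A.ch i) h3
        ((A.ch i).continuousAt hi)
    have h5 : ContinuousAt (fun y => (α * F ((A.ch i).symm (A.ch i y))).re) x :=
      Complex.continuous_re.continuousAt.comp (continuousAt_const.mul h4)
    refine h5.congr ?_
    filter_upwards [h1, (A.ch i).open_source.mem_nhds hi] with y hy1 hy2
    rw [(A.ch i).left_inv hy2, hy1]
  obtain ⟨x₀, -, hx₀⟩ := isCompact_univ.exists_isMaxOn (univ_nonempty (α := X)) hcont.continuousOn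
  -- at a maximum point everything is constant
  have hmax : ∀ x, u x = u x₀ → ∀ i, x ∈ (A.ch i).source →
      (∀ᶠ y in 𝓝 x, u y = u x₀) ∧ Φ' i x = 0 := by
    intro x hx i hi
    obtain ⟨F, h1, h2, h3⟩ := hloc x i hi
    set h : E → ℂ := fun ξ => Complex.exp (α * F ((A.ch i).symm ξ)) with hh
    have hd : ∀ᶠ ξ in 𝓝 (A.ch i x), DifferentiableAt ℂ h ξ := by
      filter_upwards [h2] with ξ hξ
      exact (hξ.1.const_mul α).cexp
    have hnorm : ∀ᶠ ξ in 𝓝 (A.ch i x), ‖h ξ‖ = Real.exp (u ((A.ch i).symm ξ)) := by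
      filter_upwards [h2] with ξ hξ
      rw [hh]
      simp only [Complex.norm_exp]
      rw [hξ.2]
    have hlm : IsLocalMax (norm ∘ h) (A.ch i x) := by
      filter_upwards [hnorm] with ξ hξ
      change ‖h ξ‖ ≤ ‖h (A.ch i x)‖
      rw [hξ, hnorm.self_of_nhds, (A.ch i).left_inv hi, hx]
      exact Real.exp_le_exp.2 (hx₀ (mem_univ _))
    have hc := Complex.eventually_eq_of_isLocalMax_norm hd hlm
    constructor
    · have h4 : ∀ᶠ ξ in 𝓝 (A.ch i x), u ((A.ch i).symm ξ) = u x₀ := by
        filter_upwards [hc, hnorm] with ξ e1 e2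
        have e3 : ‖h ξ‖ = ‖h (A.ch i x)‖ := by rw [e1]
        rw [e2, hnorm.self_of_nhds, (A.ch i).left_inv hi, hx] at e3
        exact Real.exp_injective e3
      have h5 := ((A.ch i).continuousAt hi).eventually h4
      filter_upwards [h5, (A.ch i).open_source.mem_nhds hi] with y hy1 hy2
      rwa [(A.ch i).left_inv hy2] at hy1
    · have h6 : HasFDerivAt h (0 : E →L[ℂ] ℂ) (A.ch i x) :=
        (hasFDerivAt_const (h (A.ch i x)) (A.ch i x)).congr_of_eventuallyEq hc
      have h7 := ((h2.self_of_nhds.1.hasFDerivAt.const_mul α).cexp)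
      have h8 := h6.unique h7
      rw [← h3] at h8
      have h9 := h8.symm
      ext v
      have h10 := congrArg (fun L : E →L[ℂ] ℂ => L v) h9
      simpa [Complex.exp_ne_zero, hα] using h10
  have hcl : IsClopen {x | u x = u x₀} := by
    refine ⟨isClosed_eq hcont continuous_const, ?_⟩
    rw [isOpen_iff_mem_nhds]
    intro x hx
    obtain ⟨i, hi⟩ := hcov x
    exact (hmax x hx i hi).1
  have huniv := hcl.eq_univ ⟨x₀, rfl⟩
  obtain ⟨i, x, hx, hxne⟩ := hnz
  have hxu : u x = u x₀ := by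
    have : x ∈ {x | u x = u x₀} := by rw [huniv]; trivial
    exact this
  exact hxne (hmax x hxu i hx).2



end Pool.Agent.IS

namespace Pool.Agent.IS

alias lattice_of_compact := lattice_of_compact_pr

end Pool.Agent.IS
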