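import Pool.Agent.Lib_helper80.IS.Base
import Pool.Agent.Lib_helper80.IS.L.P1
import Pool.Agent.Lib_helper80.IS.L.P3

set_option autoImplicit false
set_option linter.unusedVariables false
set_option linter.unusedSectionVars false

open Filter Topology Metric Set
open scoped Manifold ContDiff

namespace Pool.Agent.IS

open Pool.Agent.BR Pool.Agent.MBS Pool.Agent.SL

/-- the linear map with the coordinates `conj α • v` and `det (α, v)` -/
noncomputable def t7_L (α : Fin 2 → ℂ) : (Fin 2 → ℂ) →ₗ[ℂ] (Fin 2 → ℂ) where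
  toFun v := ![star (α 0) * v 0 + star (α 1) * v 1, α 1 * v 0 - α 0 * v 1]
  map_add' v w := by
    ext i
    fin_cases i <;> simp <;> ring
  map_smul' c v := by
    ext i
    fin_cases i <;> simp <;> ring

theorem t7_L0 (α v : Fin 2 → ℂ) : t7_L α v 0 = star (α 0) * v 0 + star (α 1) * v 1 := rfl

theorem t7_L1 (α v : Fin 2 → ℂ) : t7_L α v 1 = α 1 * v 0 - α 0 * v 1 := rfl

theorem t7_norm {α : Fin 2 → ℂ} (hα : α ≠ 0) : star (α 0) * α 0 + star (α 1) * α 1 ≠ 0 := by
  intro h
  apply hα
  have h1 : star (α 0) * α 0 = ((Complex.normSq (α 0) : ℝ) : ℂ) := Complex.normSq_eq_conj_mul_self.symm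
  have h2 : star (α 1) * α 1 = ((Complex.normSq (α 1) : ℝ) : ℂ) := Complex.normSq_eq_conj_mul_self.symm
  rw [h1, h2] at h
  have h3 : Complex.normSq (α 0) + Complex.normSq (α 1) = 0 := by exact_mod_cast h
  have h4 := Complex.normSq_nonneg (α 0)
  have h5 := Complex.normSq_nonneg (α 1)
  have h6 : Complex.normSq (α 0) = 0 := by linarith
  have h7 : Complex.normSq (α 1) = 0 := by linarith
  ext i
  fin_cases i
  · exact Complex.normSq_eq_zero.mp h6
  · exact Complex.normSq_eq_zero.mp h7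

theorem t7_inj {α : Fin 2 → ℂ} (hα : α ≠ 0) : Function.Injective (t7_L α) := by
  rw [← LinearMap.ker_eq_bot, LinearMap.ker_eq_bot']
  intro v hv
  have h0 : star (α 0) * v 0 + star (α 1) * v 1 = 0 := by rw [← t7_L0, hv]; rfl
  have h1 : α 1 * v 0 - α 0 * v 1 = 0 := by rw [← t7_L1, hv]; rfl
  have hN := t7_norm hα
  ext i
  fin_cases i
  · have : (star (α 0) * α 0 + star (α 1) * α 1) * v 0 = 0 := by
      linear_combination (α 0) * h0 + star (α 1) * h1
    exact (mul_eq_zero.mp this).resolve_left hN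
  · have : (star (α 0) * α 0 + star (α 1) * α 1) * v 1 = 0 := by
      linear_combination (α 1) * h0 - star (α 0) * h1
    exact (mul_eq_zero.mp this).resolve_left hN

/-- the coordinate `1` of the image vanishes only at the class of `α` -/
theorem t7_eq {α v : Fin 2 → ℂ} (hα : α ≠ 0) (hv : v ≠ 0) (h : t7_L α v 1 = 0) :
    Projectivization.mk ℂ v hv = Projectivization.mk ℂ α hα := by
  rw [Projectivization.mk_eq_mk_iff']
  rw [t7_L1] at h
  have hN := t7_norm hα
  refine ⟨(star (α 0) * v 0 + star (α 1) * v 1) / (star (α 0) * α 0 + star (α 1) * α 1), ?_⟩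
  ext i
  rw [Pi.smul_apply, smul_eq_mul, div_mul_eq_mul_div, div_eq_iff hN]
  fin_cases i
  · show (star (α 0) * v 0 + star (α 1) * v 1) * α 0 =
      v 0 * (star (α 0) * α 0 + star (α 1) * α 1)
    linear_combination -(star (α 1)) * h
  · show (star (α 0) * v 0 + star (α 1) * v 1) * α 1 =
      v 1 * (star (α 0) * α 0 + star (α 1) * α 1)
    linear_combination (star (α 0)) * h

section torus

variable {E X : Type} [NormedAddCommGroup E] [NormedSpace ℂ E] [FiniteDimensional ℂ E]
  [MetricSpace X] {A : Cha E X} {W : Type} [NormedAddCommGroup W] [NormedSpace ℂ W]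
  [FiniteDimensional ℂ W] {Γ : Submodule ℤ W} {φ : X → W ⧸ Γ} {Φ : A.ι → X → (E →L[ℂ] W)}

theorem t7_cont {F : X → ℂ} {y : X} {i : A.ι} (hy : y ∈ (A.ch i).source)
    (h : AnalyticAt ℂ (fun ξ => F ((A.ch i).symm ξ)) (A.ch i y)) : ContinuousAt F y := by
  have h1 : ContinuousAt (fun x => F ((A.ch i).symm (A.ch i x))) y :=
    ContinuousAt.comp (f := A.ch i) (x := y) h.continuousAt ((A.ch i).continuousAt hy)
  refine h1.congr ?_
  filter_upwards [(A.ch i).open_source.mem_nhds hy] with x hx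
  rw [(A.ch i).left_inv hx]

theorem exists_beta_pr {Γ' : Submodule ℤ ℂ} [DiscreteTopology Γ'] [IsZLattice ℝ Γ'] {f : X → ℂ ⧸ Γ'}
    {Φ' : A.ι → X → (E →L[ℂ] ℂ)} (hP : Prim A f Φ') (hnz : NZ (A := A) Φ') (x₀ : X) :
    ∃ β : X → PP 1, Plift A 1 β ∧ (∃ x, (β x).rep 1 ≠ 0) ∧
      ∀ x, f x = f x₀ → (β x).rep 1 = 0 ∧ (β x).rep 0 ≠ 0 := by
  obtain ⟨ψ, hψ, hper, hsurj⟩ := exists_elliptic Γ'
  -- a section
  choose sec hsec using fun x => Submodule.Quotient.mk_surjective Γ' (f x)
  have hwd : ∀ x lam, f x = Submodule.Quotient.mk lam → ψ (sec x) = ψ lam := by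
    intro x lam hl
    have h1 : (Submodule.Quotient.mk (sec x) : ℂ ⧸ Γ') = Submodule.Quotient.mk lam := by
      rw [hsec, hl]
    have h2 := (Submodule.Quotient.eq Γ').mp h1
    have h3 := hper _ h2 lam
    rw [add_sub_cancel] at h3
    exact h3
  obtain ⟨α, hαdef⟩ : ∃ α, α = (ψ (sec x₀)).rep := ⟨_, rfl⟩
  have hα : α ≠ 0 := by rw [hαdef]; exact Projectivization.rep_nonzero _
  have hα' : ψ (sec x₀) = Projectivization.mk ℂ α hα := by
    conv_lhs => rw [← Projectivization.mk_rep (ψ (sec x₀))]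
    simp only [hαdef]
  have hL := t7_inj hα
  have hβ1 : ∀ v : Fin 2 → ℂ, ∀ hv : v ≠ 0, ∃ a : ℂ, a ≠ 0 ∧
      (Projectivization.map (t7_L α) hL (Projectivization.mk ℂ v hv)).rep = a • t7_L α v := by
    intro v hv
    rw [Projectivization.map_mk]
    obtain ⟨a, ha⟩ := Projectivization.exists_smul_eq_mk_rep ℂ (t7_L α v)
      (fun h => hv (hL (by rw [h, map_zero])))
    exact ⟨a, a.ne_zero, ha.symm⟩
  refine ⟨fun x => Projectivization.map (t7_L α) hL (ψ (sec x)), ?_, ?_, ?_⟩
  · constructor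
    intro x
    obtain ⟨F, hF⟩ := hP.prim x
    obtain ⟨g, hg⟩ := hψ (F x)
    obtain ⟨i, hi⟩ := A.cover x
    have hxi : x ∈ (A.ch i).source := A.W_sub i (subset_closure hi)
    have hcont : ContinuousAt F x := t7_cont hxi ((hF.self_of_nhds).2 i hxi).1
    refine ⟨fun y => t7_L α (g (F y)), ?_⟩
    filter_upwards [hF, hcont.eventually hg] with y hy hgy
    constructor
    · obtain ⟨h1, h2⟩ := hgy.2
      refine ⟨fun h => h1 (hL (by rw [h, map_zero])), ?_⟩
      rw [hwd y _ hy.1, h2, Projectivization.map_mk]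
    · intro j hj
      have h1 := (hy.2 j hj).1
      have h2 : AnalyticAt ℂ g (F ((A.ch j).symm (A.ch j y))) := by
        rw [(A.ch j).left_inv hj]; exact hgy.1
      have h3 : AnalyticAt ℂ (g ∘ fun ξ => F ((A.ch j).symm ξ)) (A.ch j y) :=
        AnalyticAt.comp (f := fun ξ => F ((A.ch j).symm ξ)) h2 h1
      exact AnalyticAt.comp (g := LinearMap.toContinuousLinearMap (t7_L α))
        (f := g ∘ fun ξ => F ((A.ch j).symm ξ))
        ((LinearMap.toContinuousLinearMap (t7_L α)).analyticAt _) h3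
  · by_contra hcon
    push Not at hcon
    -- ψ is constant on the values
    have hc : ∀ x, ψ (sec x) = Projectivization.mk ℂ α hα := by
      intro x
      have h1 := hcon x
      rw [← Projectivization.mk_rep (ψ (sec x))] at h1
      obtain ⟨a, ha, hr⟩ := hβ1 _ (Projectivization.rep_nonzero (ψ (sec x)))
      rw [hr, Pi.smul_apply, smul_eq_mul] at h1
      have h2 := (mul_eq_zero.mp h1).resolve_left ha
      rw [← t7_eq hα (Projectivization.rep_nonzero (ψ (sec x))) h2, Projectivization.mk_rep]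
    obtain ⟨i, x₁, hx₁, hne⟩ := hnz
    obtain ⟨F, hF⟩ := hP.prim x₁
    obtain ⟨v, hv⟩ : ∃ v, Φ' i x₁ v ≠ 0 := by
      by_contra h
      push Not at h
      exact hne (ContinuousLinearMap.ext h)
    have hF1 := (hF.self_of_nhds).2 i hx₁
    obtain ⟨G, hG⟩ : ∃ G : ℂ → ℂ, G = fun t : ℂ => F ((A.ch i).symm (A.ch i x₁ + t • v)) := ⟨_, rfl⟩
    have hin : AnalyticAt ℂ (fun t : ℂ => A.ch i x₁ + t • v) 0 := by
      exact (analyticAt_const.add (analyticAt_id.smul analyticAt_const))
    have h0 : A.ch i x₁ + (0 : ℂ) • v = A.ch i x₁ := by rw [zero_smul, add_zero]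
    have hGan : AnalyticAt ℂ G 0 := by
      rw [hG]
      have h1 : AnalyticAt ℂ (fun ξ => F ((A.ch i).symm ξ)) (A.ch i x₁ + (0 : ℂ) • v) := by
        rw [h0]; exact hF1.1
      exact AnalyticAt.comp (g := fun ξ => F ((A.ch i).symm ξ))
        (f := fun t : ℂ => A.ch i x₁ + t • v) h1 hin
    have hder : deriv G 0 ≠ 0 := by
      have h1 : HasFDerivAt (fun ξ => F ((A.ch i).symm ξ)) (Φ' i x₁) (A.ch i x₁ + (0 : ℂ) • v) := by
        rw [h0, hF1.2]
        exact hF1.1.differentiableAt.hasFDerivAt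
      have h2 : HasDerivAt (fun t : ℂ => A.ch i x₁ + t • v) v 0 := by
        have := ((hasDerivAt_id (0 : ℂ)).smul_const v).const_add (A.ch i x₁)
        simpa using this
      have h3 := h1.comp_hasDerivAt (0 : ℂ) h2
      have h4 : deriv G 0 = Φ' i x₁ v := by
        rw [hG]; exact h3.deriv
      rw [h4]; exact hv
    have hmap : Filter.map G (𝓝 0) = 𝓝 (G 0) := by
      have hs : HasStrictDerivAt G (deriv G 0) 0 := hGan.hasStrictDerivAt
      exact hs.map_nhds_eq hder
    have hnear : ∀ᶠ t in 𝓝 (0 : ℂ), ψ (G t) = Projectivization.mk ℂ α hα := by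
      have hc1 : ContinuousAt (fun t : ℂ => (A.ch i).symm (A.ch i x₁ + t • v)) 0 := by
        refine ContinuousAt.comp (f := fun t : ℂ => A.ch i x₁ + t • v) (x := (0 : ℂ)) ?_
          hin.continuousAt
        show ContinuousAt (A.ch i).symm (A.ch i x₁ + (0 : ℂ) • v)
        rw [h0]
        exact (A.ch i).continuousAt_symm ((A.ch i).map_source hx₁)
      have hc2 : Tendsto (fun t : ℂ => (A.ch i).symm (A.ch i x₁ + t • v)) (𝓝 0) (𝓝 x₁) := by
        have := hc1.tendsto
        simp only [zero_smul, add_zero, (A.ch i).left_inv hx₁] at this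
        exact this
      filter_upwards [hc2.eventually hF] with t ht
      rw [hG]
      show ψ (F ((A.ch i).symm (A.ch i x₁ + t • v))) = _
      rw [← hwd _ _ ht.1]
      exact hc _
    have hnear2 : ∀ᶠ z in 𝓝 (G 0), ψ z = Projectivization.mk ℂ α hα := by
      rw [← hmap, Filter.eventually_map]
      exact hnear
    have hconst : HolP (fun _ : ℂ => Projectivization.mk ℂ α hα) := by
      intro z
      exact ⟨fun _ => α, Filter.Eventually.of_forall fun w => ⟨analyticAt_const, hα, rfl⟩⟩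
    have hall := proj_ident (H₁ := ψ) (H₂ := fun _ => Projectivization.mk ℂ α hα)
      isOpen_univ isPreconnected_univ (fun z _ => hψ z) (fun z _ => hconst z)
      (Set.mem_univ (G 0)) hnear2
    have hA : ∀ p : PP 1, p = Projectivization.mk ℂ α hα := by
      intro p
      obtain ⟨z, rfl⟩ := hsurj p
      exact hall z (Set.mem_univ _)
    have e1 : (![1, 0] : Fin 2 → ℂ) ≠ 0 := by
      intro h
      have := congrFun h 0
      simp at this
    have e2 : (![0, 1] : Fin 2 → ℂ) ≠ 0 := by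
      intro h
      have := congrFun h 1
      simp at this
    have h12 : Projectivization.mk ℂ (![1, 0] : Fin 2 → ℂ) e1 =
        Projectivization.mk ℂ (![0, 1] : Fin 2 → ℂ) e2 := (hA _).trans (hA _).symm
    rw [Projectivization.mk_eq_mk_iff'] at h12
    obtain ⟨a, ha⟩ := h12
    have := congrFun ha 0
    simp at this
  · intro x hx
    have h1 : ψ (sec x) = Projectivization.mk ℂ α hα := by
      rw [hwd x (sec x₀) (by rw [hx, hsec]), hα']
    obtain ⟨a, ha, hr⟩ := hβ1 α hα
    show (Projectivization.map (t7_L α) hL (ψ (sec x))).rep 1 = 0 ∧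
      (Projectivization.map (t7_L α) hL (ψ (sec x))).rep 0 ≠ 0
    rw [h1, hr, Pi.smul_apply, Pi.smul_apply, t7_L0, t7_L1]
    constructor
    · rw [smul_eq_mul]; ring
    · exact smul_ne_zero ha (t7_norm hα)

end torus



end Pool.Agent.IS

namespace Pool.Agent.IS

alias exists_beta := exists_beta_pr

end Pool.Agent.IS
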