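import Pool.Agent.Lib_helper80.IS.Base

set_option autoImplicit false
set_option linter.unusedVariables false
set_option linter.unusedSectionVars false

open Filter Topology Metric Set

namespace Pool.Agent.IS

open Pool.Agent.BR Pool.Agent.MBS Pool.Agent.SL

section

variable {E X : Type} [NormedAddCommGroup E] [NormedSpace ℂ E] [FiniteDimensional ℂ E]
  [MetricSpace X] {A : Cha E X} {n k : ℕ}

/-- analyticity in one chart gives analyticity in the other charts -/
theorem v1_an {M : Type} [NormedAddCommGroup M] [NormedSpace ℂ M] {G : X → M} {i j : A.ι} {x : X}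
    (hi : x ∈ (A.ch i).source) (hj : x ∈ (A.ch j).source)
    (hG : AnalyticAt ℂ (fun ξ => G ((A.ch i).symm ξ)) (A.ch i x)) :
    AnalyticAt ℂ (fun ξ => G ((A.ch j).symm ξ)) (A.ch j x) := by
  have ht := A.trans j i x hj hi
  have hs : (A.ch j).symm (A.ch j x) = x := (A.ch j).left_inv hj
  have hG' : AnalyticAt ℂ (fun ξ => G ((A.ch i).symm ξ)) (A.ch i ((A.ch j).symm (A.ch j x))) := by
    rw [hs]; exact hG
  have hc := AnalyticAt.fun_comp (g := fun ξ => G ((A.ch i).symm ξ))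
    (f := fun ξ => A.ch i ((A.ch j).symm ξ)) hG' ht
  refine hc.congr ?_
  have hcont : ContinuousAt (A.ch j).symm (A.ch j x) :=
    (A.ch j).continuousAt_symm ((A.ch j).map_source hj)
  have hmem : ∀ᶠ ξ in 𝓝 (A.ch j x), (A.ch j).symm ξ ∈ (A.ch i).source := by
    apply hcont
    rw [hs]
    exact (A.ch i).open_source.mem_nhds hi
  filter_upwards [hmem] with ξ hξ
  simp only [(A.ch i).left_inv hξ]

theorem vs_map_pr {a : A.ι → X → Fin (n + 1) → ℂ} (ha : VS A n a) :
    ∃ ι : X → PP n, Plift A n ι ∧ ∀ i, ∀ x ∈ (A.ch i).source, ∃ h : a i x ≠ 0,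
      ι x = Projectivization.mk ℂ (a i x) h := by
  have hcov : ∀ x : X, ∃ i, x ∈ (A.ch i).source := fun x =>
    (A.cover x).imp fun i hi => A.W_sub i (subset_closure hi)
  choose i₀ hi₀ using hcov
  have key : ∀ i, ∀ x ∈ (A.ch i).source, ∃ h : a i x ≠ 0,
      (Projectivization.mk ℂ (a (i₀ x) x) (ha.ne _ x (hi₀ x)) : PP n) =
        Projectivization.mk ℂ (a i x) h := by
    intro i x hx
    refine ⟨ha.ne i x hx, ?_⟩
    obtain ⟨g, hg, h⟩ := ha.tr (i₀ x) i x (hi₀ x) hx
    rw [Projectivization.mk_eq_mk_iff']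
    exact ⟨g, h.symm⟩
  refine ⟨fun x => Projectivization.mk ℂ (a (i₀ x) x) (ha.ne _ x (hi₀ x)), ⟨?_⟩, key⟩
  intro x
  refine ⟨a (i₀ x), ?_⟩
  filter_upwards [(A.ch (i₀ x)).open_source.mem_nhds (hi₀ x)] with x' hx'
  exact ⟨key (i₀ x) x' hx', fun j hj => v1_an hx' hj (ha.an (i₀ x) x' hx')⟩

end



end Pool.Agent.IS

namespace Pool.Agent.IS

alias vs_map := vs_map_pr

end Pool.Agent.IS
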