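import Pool.Agent.Lib_helper80.IS.Base

/-! # Project IS, block V3: sections from forms -/

set_option autoImplicit false
set_option linter.unusedSectionVars false

open Filter Topology Metric Set

namespace Pool.Agent.IS

open Pool.Agent.BR Pool.Agent.MBS Pool.Agent.SL

section vec

variable {E X : Type} [NormedAddCommGroup E] [NormedSpace ℂ E] [FiniteDimensional ℂ E]
  [MetricSpace X] {A : Cha E X} {n k : ℕ}

omit [FiniteDimensional ℂ E] in
theorem v3_indep (e : Module.Basis (Fin 2) ℂ E) : LinearIndependent ℂ ![e 0, e 1] := by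
  have h : (![e 0, e 1] : Fin 2 → E) = e := by
    funext i
    fin_cases i <;> rfl
  rw [h]
  exact e.linearIndependent

omit [FiniteDimensional ℂ E] in
/-- the section in the chart -/
theorem v3_an {L : ℕ} (e : Module.Basis (Fin 2) ℂ E) (F : A.Frm L k) (i : A.ι) {ξ : E}
    (hξ : ξ ∈ (A.ch i).target) :
    HasFDerivAt (fun η => F.T i η (e 0) (e 1))
      ((fderiv ℂ (fun p : E × E × E => F.T i p.1 p.2.1 p.2.2) (ξ, e 0, e 1)).comp
        (ContinuousLinearMap.inl ℂ E (E × E))) ξ ∧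
      AnalyticAt ℂ (fun η => F.T i η (e 0) (e 1)) ξ := by
  have h1 := (F.tf i).hol ξ hξ (e 0) (e 1)
  have h2 : AnalyticAt ℂ (fun η : E => (η, e 0, e 1)) ξ :=
    analyticAt_id.prod (analyticAt_const.prod analyticAt_const)
  have h3 : HasFDerivAt (fun η : E => (η, e 0, e 1)) (ContinuousLinearMap.inl ℂ E (E × E)) ξ := by
    have := (hasFDerivAt_id (𝕜 := ℂ) ξ).prodMk (hasFDerivAt_const (𝕜 := ℂ) (e 0, e 1) ξ)
    exact this
  constructor
  · exact HasFDerivAt.comp ξ (h1.differentiableAt.hasFDerivAt) h3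
  · exact AnalyticAt.comp (g := fun p : E × E × E => F.T i p.1 p.2.1 p.2.2)
      (f := fun η : E => (η, e 0, e 1)) (x := ξ) h1 h2

theorem exists_af_pr [Nonempty X] (e : Module.Basis (Fin 2) ℂ E) {L : ℕ} (F : A.Frm L k) :
    ∃ (n : ℕ) (a : A.ι → X → Fin (n + 1) → ℂ), AF A n k a := by
  have hL : L ≠ 0 := by
    rintro rfl
    obtain ⟨x⟩ := ‹Nonempty X›
    obtain ⟨i, hi⟩ := A.cover x
    have hx : x ∈ (A.ch i).source := A.W_sub i (subset_closure hi)
    exact (F.tf i).ne _ ((A.ch i).map_source hx) _ _ (v3_indep e) (Subsingleton.elim _ _)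
  obtain ⟨n, rfl⟩ := Nat.exists_eq_succ_of_ne_zero hL
  let φ : EuclideanSpace ℂ (Fin (n + 1)) ≃L[ℂ] (Fin (n + 1) → ℂ) :=
    EuclideanSpace.equiv (Fin (n + 1)) ℂ
  let g : A.ι → E → (Fin (n + 1) → ℂ) := fun i ξ => φ (F.T i ξ (e 0) (e 1))
  have hg : ∀ i, ∀ x ∈ (A.ch i).source,
      (fun ξ => g i (A.ch i ((A.ch i).symm ξ))) =ᶠ[𝓝 (A.ch i x)] g i := by
    intro i x hx
    filter_upwards [(A.ch i).open_target.mem_nhds ((A.ch i).map_source hx)] with ξ hξ
    rw [(A.ch i).right_inv hξ]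
  have hd : ∀ i, ∀ x ∈ (A.ch i).source, HasFDerivAt (g i)
      ((φ : EuclideanSpace ℂ (Fin (n + 1)) →L[ℂ] (Fin (n + 1) → ℂ)).comp
        ((fderiv ℂ (fun p : E × E × E => F.T i p.1 p.2.1 p.2.2) (A.ch i x, e 0, e 1)).comp
          (ContinuousLinearMap.inl ℂ E (E × E)))) (A.ch i x) := by
    intro i x hx
    exact (φ : EuclideanSpace ℂ (Fin (n + 1)) →L[ℂ] (Fin (n + 1) → ℂ)).hasFDerivAt.comp _
      (v3_an e F i ((A.ch i).map_source hx)).1
  refine ⟨n, fun i x => g i (A.ch i x), ⟨?_, ?_, ?_, ?_⟩⟩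
  · intro i x hx
    refine AnalyticAt.congr ?_ (hg i x hx).symm
    exact (φ : EuclideanSpace ℂ (Fin (n + 1)) →L[ℂ] (Fin (n + 1) → ℂ)).analyticAt _ |>.comp
      (v3_an e F i ((A.ch i).map_source hx)).2
  · intro i j x hi hj
    set D := dtr A i j x with hD
    have h1 := F.compat i j x hi hj (e 0) (e 1)
    have h2 : ∀ v : E, D v = e.repr (D v) 0 • e 0 + e.repr (D v) 1 • e 1 := by
      intro v
      have := e.sum_repr (D v)
      rw [Fin.sum_univ_two] at this
      exact this.symm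
    have h3 : jac A i j x = e.repr (D (e 0)) 0 * e.repr (D (e 1)) 1 -
        e.repr (D (e 0)) 1 * e.repr (D (e 1)) 0 := by
      have h4 := LinearMap.det_toMatrix e (D : E →ₗ[ℂ] E)
      rw [Matrix.det_fin_two] at h4
      simp only [LinearMap.toMatrix_apply] at h4
      unfold jac
      rw [← hD, ← h4]
      simp only [ContinuousLinearMap.coe_coe]
      ring
    have h5 := (F.tf j).equi (A.ch j x) ((A.ch j).map_source hj) (e.repr (D (e 0)) 0)
      (e.repr (D (e 0)) 1) (e.repr (D (e 1)) 0) (e.repr (D (e 1)) 1) (e 0) (e 1)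
    rw [← h2, ← h2, ← h3] at h5
    show φ (F.T i (A.ch i x) (e 0) (e 1)) = jac A i j x ^ k • φ (F.T j (A.ch j x) (e 0) (e 1))
    rw [h1, ← map_smul, ← h5]
    rfl
  · intro i x hx h0
    have h1 : F.T i (A.ch i x) (e 0) (e 1) = 0 := φ.injective (h0.trans (map_zero φ).symm)
    exact (F.tf i).ne _ ((A.ch i).map_source hx) _ _ (v3_indep e) h1
  · intro i x hx ξ m h
    rw [(hg i x hx).fderiv_eq, (hd i x hx).fderiv] at h
    have h1 : fderiv ℂ (fun p : E × E × E => F.T i p.1 p.2.1 p.2.2) (A.ch i x, e 0, e 1)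
        (ξ, 0, 0) = m • F.T i (A.ch i x) (e 0) (e 1) := by
      apply φ.injective
      rw [map_smul]
      exact h
    exact ((F.tf i).imm _ ((A.ch i).map_source hx) _ _ (v3_indep e) _ _ _ _ h1).1

end vec

end Pool.Agent.IS

namespace Pool.Agent.IS

alias exists_af := exists_af_pr

end Pool.Agent.IS
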