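import Pool.Agent.Lib_helper80.IS.Base
import Pool.Agent.Lib_helper80.IS.L.V2

/-! # IS, block V4 -/

set_option autoImplicit false

open Filter Topology Metric Set
open scoped Manifold ContDiff

namespace Pool.Agent.IS

open Pool.Agent.BR Pool.Agent.MBS Pool.Agent.SL

variable {E X : Type} [NormedAddCommGroup E] [NormedSpace ℂ E] [FiniteDimensional ℂ E]
  [MetricSpace X] {A : Cha E X} {n k : ℕ}

theorem af_vs_pr {a : A.ι → X → Fin (n + 1) → ℂ} (ha : AF A n k a) : VS A n a := by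
  refine ⟨ha.an, ha.ne, fun i j x hi hj => ⟨jac A i j x ^ k, ?_, ha.tr i j x hi hj⟩⟩
  intro h0
  have := ha.tr i j x hi hj
  rw [h0, zero_smul] at this
  exact ha.ne i x hi this

/-- near a point of both sources the two expressions agree -/
theorem v4_ev {M : Type} {a : X → M} {i j : A.ι} {x : X} (hi : x ∈ (A.ch i).source)
    (hj : x ∈ (A.ch j).source) :
    (fun ξ => a ((A.ch i).symm (A.ch i ((A.ch j).symm ξ)))) =ᶠ[𝓝 (A.ch j x)]
      fun ξ => a ((A.ch j).symm ξ) := by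
  have hc : ContinuousAt (A.ch j).symm (A.ch j x) :=
    (A.ch j).continuousAt_symm ((A.ch j).map_source hj)
  have h0 : (A.ch j).symm (A.ch j x) ∈ (A.ch i).source := by
    rw [(A.ch j).left_inv hj]
    exact hi
  filter_upwards [hc.eventually ((A.ch i).open_source.mem_nhds h0)] with ξ hξ
  rw [(A.ch i).left_inv hξ]

theorem v4_an {a : A.ι → X → Fin (n + 1) → ℂ} (ha : AF A n k a) {i j : A.ι} {x : X}
    (hi : x ∈ (A.ch i).source) (hj : x ∈ (A.ch j).source) :
    AnalyticAt ℂ (fun ξ => a i ((A.ch j).symm ξ)) (A.ch j x) := by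
  have h1 : AnalyticAt ℂ (fun ξ => A.ch i ((A.ch j).symm ξ)) (A.ch j x) := A.trans j i x hj hi
  have h2 : AnalyticAt ℂ (fun ξ => a i ((A.ch i).symm ξ)) (A.ch i ((A.ch j).symm (A.ch j x))) := by
    rw [(A.ch j).left_inv hj]
    exact ha.an i x hi
  exact (AnalyticAt.comp (f := fun ξ => A.ch i ((A.ch j).symm ξ)) h2 h1).congr (v4_ev hi hj)

theorem v4_fd {a : A.ι → X → Fin (n + 1) → ℂ} (ha : AF A n k a) {i j : A.ι} {x : X}
    (hi : x ∈ (A.ch i).source) (hj : x ∈ (A.ch j).source) (ξ : E) :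
    fderiv ℂ (fun ξ => a i ((A.ch j).symm ξ)) (A.ch j x) ξ =
      fderiv ℂ (fun ξ => a i ((A.ch i).symm ξ)) (A.ch i x) (dtr A j i x ξ) := by
  have h1 : DifferentiableAt ℂ (fun ξ => A.ch i ((A.ch j).symm ξ)) (A.ch j x) :=
    (A.trans j i x hj hi).differentiableAt
  have h2 : DifferentiableAt ℂ (fun ξ => a i ((A.ch i).symm ξ))
      (A.ch i ((A.ch j).symm (A.ch j x))) := by
    rw [(A.ch j).left_inv hj]
    exact (ha.an i x hi).differentiableAt
  rw [← (v4_ev (a := a i) hi hj).fderiv_eq]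
  have h3 := fderiv_comp (f := fun ξ => A.ch i ((A.ch j).symm ξ)) (A.ch j x) h2 h1
  have h4 : fderiv ℂ (fun ξ => a i ((A.ch i).symm (A.ch i ((A.ch j).symm ξ)))) (A.ch j x) =
      (fderiv ℂ (fun ξ => a i ((A.ch i).symm ξ)) (A.ch i x)).comp (dtr A j i x) := by
    refine Eq.trans h3 ?_
    rw [(A.ch j).left_inv hj]
    rfl
  rw [h4]
  rfl

theorem af_imm_pr {a : A.ι → X → Fin (n + 1) → ℂ} (ha : AF A n k a) {ι : X → PP n}
    (hι : ∀ i, ∀ x ∈ (A.ch i).source, ∃ h : a i x ≠ 0, ι x = Projectivization.mk ℂ (a i x) h) :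
    PImm A n ι := by
  refine ⟨fun x => ?_⟩
  obtain ⟨i, hi⟩ := A.cover x
  have hx : x ∈ (A.ch i).source := A.W_sub i (subset_closure hi)
  refine ⟨a i, ?_, ?_⟩
  · filter_upwards [(A.ch i).open_source.mem_nhds hx] with x' hx'
    exact ⟨hι i x' hx', fun j hj => v4_an ha hx' hj⟩
  · intro j hj ξ m h
    rw [v4_fd ha hx hj] at h
    have h1 : dtr A j i x ξ = 0 := ha.imm i x hx _ m h
    have h2 : jac A j i x ≠ 0 := jac_ne hj hx
    have h4 : IsUnit (LinearMap.det (dtr A j i x : E →ₗ[ℂ] E)) := isUnit_iff_ne_zero.2 h2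
    have h5 := ((Module.End.isUnit_iff _).1 ((LinearMap.isUnit_iff_isUnit_det _).2 h4)).1
    apply h5
    rw [map_zero]
    exact h1




end Pool.Agent.IS

namespace Pool.Agent.IS

alias af_vs := af_vs_pr
alias af_imm := af_imm_pr

end Pool.Agent.IS
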