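import Pool.Agent.Lib_helper80.IS.Base
import Pool.Agent.Lib_helper80.IS.L.S4
import Pool.Agent.Lib_helper80.IS.L.S5
import Pool.Agent.Lib_helper80.IS.L.V1
import Pool.Agent.Lib_helper80.IS.L.V2
import Pool.Agent.Lib_helper80.IS.L.V4

/-! # IS, block V5 -/

set_option autoImplicit false

open Filter Topology Metric Set
open scoped Manifold ContDiff

namespace Pool.Agent.IS

open Pool.Agent.BR Pool.Agent.MBS Pool.Agent.SL

section vec

variable {E X : Type} [NormedAddCommGroup E] [NormedSpace ℂ E] [FiniteDimensional ℂ E]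
  [MetricSpace X] {A : Cha E X} {n k : ℕ}

/-- the vector of sections of the power `k * w` -/
def v5_b (w k : ℕ) (a : A.ι → X → Fin (n + 1) → ℂ) (t : A.ι → X → ℂ) (i : A.ι) (x : X) :
    Fin (n + 1 + 1) → ℂ :=
  Fin.snoc (α := fun _ => ℂ) (fun p => a i x p ^ w) (t i x ^ k)

theorem v5_castSucc (w k : ℕ) (a : A.ι → X → Fin (n + 1) → ℂ) (t : A.ι → X → ℂ) (i : A.ι) (x : X)
    (p : Fin (n + 1)) : v5_b w k a t i x (Fin.castSucc p) = a i x p ^ w := by
  simp [v5_b]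

theorem v5_last (w k : ℕ) (a : A.ι → X → Fin (n + 1) → ℂ) (t : A.ι → X → ℂ) (i : A.ι) (x : X) :
    v5_b w k a t i x (Fin.last (n + 1)) = t i x ^ k := by
  simp [v5_b]

theorem v5_vs {a : A.ι → X → Fin (n + 1) → ℂ} (ha : AF A n k a)
    {w : ℕ} {t : A.ι → X → ℂ} (ht : PS A w t) :
    VS A (n + 1) (v5_b w k a t) where
  an := by
    intro i x hx
    rw [analyticAt_pi_iff]
    intro p
    have h1 := (analyticAt_pi_iff).1 (ha.an i x hx)
    have h2 := ht.an i x hx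
    refine Fin.lastCases ?_ (fun q => ?_) p
    · simp only [v5_last]
      exact h2.pow k
    · simp only [v5_castSucc]
      exact (h1 q).pow w
  ne := by
    intro i x hx h0
    apply ha.ne i x hx
    funext p
    have := congrFun h0 (Fin.castSucc p)
    rw [v5_castSucc] at this
    simpa using eq_zero_of_pow_eq_zero this
  tr := by
    intro i j x hi hj
    refine ⟨jac A i j x ^ (k * w), pow_ne_zero _ (jac_ne hi hj), ?_⟩
    funext p
    refine Fin.lastCases ?_ (fun q => ?_) p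
    · rw [Pi.smul_apply, v5_last, v5_last, ht.tr i j x hi hj, smul_eq_mul, mul_pow, ← pow_mul,
        Nat.mul_comm w k]
    · rw [Pi.smul_apply, v5_castSucc, v5_castSucc, ha.tr i j x hi hj, Pi.smul_apply, smul_eq_mul,
        smul_eq_mul, mul_pow, ← pow_mul]

theorem v5_rep {m : ℕ} {v : Fin (m + 1) → ℂ} (hv : v ≠ 0) (p : Fin (m + 1)) :
    (Projectivization.mk ℂ v hv).rep p = 0 ↔ v p = 0 := by
  obtain ⟨u, hu⟩ := Projectivization.exists_smul_eq_mk_rep ℂ v hv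
  rw [← hu]
  have : (u • v) p = (u : ℂ) * v p := rfl
  rw [this, mul_eq_zero]
  constructor
  · rintro (h | h)
    · exact absurd h u.ne_zero
    · exact h
  · intro h
    exact Or.inr h

theorem rel3_of_ps_pr [CompactSpace X] [ConnectedSpace X] (e : Module.Basis (Fin 2) ℂ E) (hk : 0 < k)
    {a : A.ι → X → Fin (n + 1) → ℂ} (ha : AF A n k a) {ι : X → PP n}
    (hι : ∀ i, ∀ x ∈ (A.ch i).source, ∃ h : a i x ≠ 0, ι x = Projectivization.mk ℂ (a i x) h)
    {w : ℕ} (hw : 0 < w) {t : A.ι → X → ℂ} (ht : PS A w t) (hnz : NZ (A := A) t) {h : ℂ → X}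
    (hh : ∀ z, A.HolAt h z) (hva : VA t h) : Rel3 (fun z => ι (h z)) := by
  have hch : ∀ x : X, ∃ i, x ∈ (A.ch i).source := by
    intro x
    obtain ⟨i, hi⟩ := A.cover x
    exact ⟨i, A.W_sub i (subset_closure hi)⟩
  -- the map `ι`
  obtain ⟨ι', hι1, hι2⟩ := vs_map (af_vs ha)
  have hιι : ι' = ι := by
    funext x
    obtain ⟨i, hi⟩ := hch x
    obtain ⟨g1, h1⟩ := hι i x hi
    obtain ⟨g2, h2⟩ := hι2 i x hi
    rw [h1, h2]
  subst hιι
  obtain ⟨β, hβ1, hβ2⟩ := vs_map (v5_vs ha ht)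
  -- the index `s`
  obtain ⟨i₀, hi₀⟩ := hch (h 0)
  obtain ⟨p₀, hp₀⟩ : ∃ p, a i₀ (h 0) p ≠ 0 := by
    by_contra hcon
    push Not at hcon
    exact ha.ne i₀ (h 0) hi₀ (funext hcon)
  have hs : ∃ z, (β (h z)).rep (Fin.castSucc p₀) ≠ 0 := by
    refine ⟨0, ?_⟩
    obtain ⟨g, hg⟩ := hβ2 i₀ (h 0) hi₀
    rw [hg, Ne, v5_rep, v5_castSucc]
    exact pow_ne_zero _ hp₀
  have ht' : ∃ x, (β x).rep (Fin.last (n + 1)) ≠ 0 := by
    obtain ⟨i, x, hx, hx0⟩ := hnz
    refine ⟨x, ?_⟩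
    obtain ⟨g, hg⟩ := hβ2 i x hx
    rw [hg, Ne, v5_rep, v5_last]
    exact pow_ne_zero _ hx0
  have hht : ∀ z, (β (h z)).rep (Fin.last (n + 1)) = 0 := by
    intro z
    obtain ⟨i, hi⟩ := hch (h z)
    obtain ⟨g, hg⟩ := hβ2 i (h z) hi
    rw [hg, v5_rep, v5_last, hva z i hi]
    exact zero_pow hk.ne'
  intro p q r
  obtain ⟨D, d, R, hR, hR0, hrel⟩ := siegel e hι1 hβ1 p q r (Fin.castSucc p₀) (Fin.last (n + 1))
  exact rel_div hι1 hβ1 hh hR hR0 hrel ht' hht hs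



end vec

end Pool.Agent.IS

namespace Pool.Agent.IS

alias rel3_of_ps := rel3_of_ps_pr

end Pool.Agent.IS
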