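import Pool.Agent.Lib_helper80.IS.Base

set_option autoImplicit false
set_option linter.unusedVariables false
set_option linter.unusedSectionVars false

open Filter Topology Metric Set
open scoped Manifold ContDiff

namespace Pool.Agent.IS

open Pool.Agent.BR Pool.Agent.MBS Pool.Agent.SL

section pure

variable {E : Type} [NormedAddCommGroup E] [NormedSpace ℂ E]

theorem v8_repr (e : Module.Basis (Fin 2) ℂ E) (v : E) :
    v = e.repr v 0 • e 0 + e.repr v 1 • e 1 := by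
  have h := e.sum_repr v
  rw [Fin.sum_univ_two] at h
  exact h.symm

theorem v8_map (e : Module.Basis (Fin 2) ℂ E) (T : E →L[ℂ] E) (v : E) :
    T v = e.repr v 0 • T (e 0) + e.repr v 1 • T (e 1) := by
  conv_lhs => rw [v8_repr e v]
  rw [map_add, map_smul, map_smul]

theorem v8_det (e : Module.Basis (Fin 2) ℂ E) (D : E →L[ℂ] E) :
    LinearMap.det (D : E →ₗ[ℂ] E) = e.repr (D (e 0)) 0 * e.repr (D (e 1)) 1 -
      e.repr (D (e 0)) 1 * e.repr (D (e 1)) 0 := by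
  rw [← LinearMap.det_toMatrix e (D : E →ₗ[ℂ] E), Matrix.det_fin_two]
  simp only [LinearMap.toMatrix_apply, ContinuousLinearMap.coe_coe]
  ring

end pure

section plane

variable {E X : Type} [NormedAddCommGroup E] [NormedSpace ℂ E] [FiniteDimensional ℂ E]
  [MetricSpace X] [ChartedSpace E X] [IsManifold 𝓘(ℂ, E) ω X] {A : Cha E X}

/-- the value of the form in the chart at `y` -/
noncomputable def v8_t (e : Module.Basis (Fin 2) ℂ E) (τ : BR.TangentPairs E X → ℂ) (y : X)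
    (ξ u v : E) : ℂ := frm_T (fun _ : Fin 1 => τ) y ξ u v 0

theorem v8_val (e : Module.Basis (Fin 2) ℂ E) (τ : BR.TangentPairs E X → ℂ) (y : X) {x : X}
    (hx : x ∈ (chartAt E y).source) (u v : E) :
    v8_t e τ y (chartAt E y x) u v =
      τ ⟨x, (tangentCoordChange 𝓘(ℂ, E) y x x u, tangentCoordChange 𝓘(ℂ, E) y x x v)⟩ := by
  simp only [v8_t, frm_T]
  rw [frm_symm y ((chartAt E y).map_source hx), (chartAt E y).left_inv hx]

theorem v8_equi (e : Module.Basis (Fin 2) ℂ E) {w : ℕ} {τ : BR.TangentPairs E X → ℂ}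
    (hτ : BR.IsPlaneForm E X w τ) (x : X) (T : E →L[ℂ] E) (u v : E) :
    τ ⟨x, (T u, T v)⟩ = (e.repr u 0 * e.repr v 1 - e.repr u 1 * e.repr v 0) ^ w *
      τ ⟨x, (T (e 0), T (e 1))⟩ := by
  have h1 := congrArg₂ (fun p q : E => τ ⟨x, (p, q)⟩) (v8_map e T u) (v8_map e T v)
  exact h1.trans (hτ.equi x _ _ _ _ (T (e 0)) (T (e 1)))

theorem v8_an (e : Module.Basis (Fin 2) ℂ E) {w : ℕ} {τ : BR.TangentPairs E X → ℂ}
    (hτ : BR.IsPlaneForm E X w τ) (y : X) {x : X} (hx : x ∈ (chartAt E y).source) :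
    AnalyticAt ℂ (fun ξ => v8_t e τ y (chartAt E y ((chartAt E y).symm ξ)) (e 0) (e 1))
      (chartAt E y x) := by
  have h1 := frm_T_an (τ := fun _ : Fin 1 => τ) (fun _ => hτ.hol) y
    (q := (chartAt E y x, (e 0, e 1))) ((chartAt E y).map_source hx)
  have h2 : AnalyticAt ℂ (fun ξ : E => (ξ, (e 0, e 1))) (chartAt E y x) :=
    analyticAt_id.prod analyticAt_const
  have h3 : AnalyticAt ℂ (fun ξ : E => frm_T (fun _ : Fin 1 => τ) y ξ (e 0) (e 1))
      (chartAt E y x) :=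
    AnalyticAt.fun_comp (g := fun q : E × (E × E) => frm_T (fun _ : Fin 1 => τ) y q.1 q.2.1 q.2.2)
      (f := fun ξ : E => (ξ, (e 0, e 1))) h1 h2
  have h4 : AnalyticAt ℂ (fun ξ : E => v8_t e τ y ξ (e 0) (e 1)) (chartAt E y x) :=
    ((EuclideanSpace.proj (0 : Fin 1) : EuclideanSpace ℂ (Fin 1) →L[ℂ] ℂ).analyticAt _).comp h3
  refine h4.congr ?_
  filter_upwards [(chartAt E y).open_target.mem_nhds ((chartAt E y).map_source hx)] with ξ hξ
  rw [(chartAt E y).right_inv hξ]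

theorem v8_tr (e : Module.Basis (Fin 2) ℂ E) {w : ℕ} {τ : BR.TangentPairs E X → ℂ}
    (hτ : BR.IsPlaneForm E X w τ) (y y' : X) {x : X} (hx : x ∈ (chartAt E y).source)
    (hx' : x ∈ (chartAt E y').source) :
    v8_t e τ y (chartAt E y x) (e 0) (e 1) =
      LinearMap.det (fderiv ℂ (fun ξ => chartAt E y' ((chartAt E y).symm ξ))
        (chartAt E y x) : E →ₗ[ℂ] E) ^ w * v8_t e τ y' (chartAt E y' x) (e 0) (e 1) := by
  have hc := congrArg (fun T : EuclideanSpace ℂ (Fin 1) => T 0)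
    (frm_compat (fun _ : Fin 1 => τ) y y' x hx hx' (e 0) (e 1))
  have hc' : v8_t e τ y (chartAt E y x) (e 0) (e 1) = v8_t e τ y' (chartAt E y' x)
      (fderiv ℂ (fun ξ => chartAt E y' ((chartAt E y).symm ξ)) (chartAt E y x) (e 0))
      (fderiv ℂ (fun ξ => chartAt E y' ((chartAt E y).symm ξ)) (chartAt E y x) (e 1)) := hc
  rw [hc', v8_det e, v8_val e τ y' hx', v8_val e τ y' hx']
  exact v8_equi e hτ x (tangentCoordChange 𝓘(ℂ, E) y' x x) _ _

theorem v8_inv (y : X) {x : X} (hx : x ∈ (chartAt E y).source) (w : E) :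
    tangentCoordChange 𝓘(ℂ, E) y x x (tangentCoordChange 𝓘(ℂ, E) x y x w) = w := by
  have h2 : tangentCoordChange 𝓘(ℂ, E) y x x
      (tangentCoordChange 𝓘(ℂ, E) x y x w) = tangentCoordChange 𝓘(ℂ, E) x x x w := by
    refine tangentCoordChange_comp ?_
    simp only [extChartAt_source]
    exact ⟨⟨mem_chart_source E _, hx⟩, mem_chart_source E _⟩
  rw [h2, tangentCoordChange_self]
  simp only [extChartAt_source]
  exact mem_chart_source E _

theorem v8_ne (e : Module.Basis (Fin 2) ℂ E) {w : ℕ} {τ : BR.TangentPairs E X → ℂ}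
    (hτ : BR.IsPlaneForm E X w τ) (y : X) {x : X} (hx : x ∈ (chartAt E y).source) (u v : E)
    (h : v8_t e τ y (chartAt E y x) (e 0) (e 1) = 0) : τ ⟨x, (u, v)⟩ = 0 := by
  rw [v8_val e τ y hx] at h
  have h3 := v8_equi e hτ x (tangentCoordChange 𝓘(ℂ, E) y x x)
    (tangentCoordChange 𝓘(ℂ, E) x y x u) (tangentCoordChange 𝓘(ℂ, E) x y x v)
  have h4 := congrArg₂ (fun p q : E => τ ⟨x, (p, q)⟩) (v8_inv y hx u) (v8_inv y hx v)
  have h5 : τ ⟨x, (u, v)⟩ = _ := h4.symm.trans h3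
  rw [h5, h, mul_zero]

theorem ps_of_planeForm_pr (hA : ∀ i, ∃ y, A.ch i = chartAt E y) (e : Module.Basis (Fin 2) ℂ E)
    {w : ℕ} {τ : BrodyRigid.TangentPairs E X → ℂ} (hτ : BrodyRigid.IsPlaneForm E X w τ) :
    ∃ t : A.ι → X → ℂ, PS A w t ∧
      (∀ x u v, τ (BrodyRigid.pair x u v) ≠ 0 → ∀ i, x ∈ (A.ch i).source → t i x ≠ 0) ∧
      ∀ x, (∀ u v, τ (BrodyRigid.pair x u v) = 0) → ∀ i, x ∈ (A.ch i).source → t i x = 0 := by
  have hτ' : BR.IsPlaneForm E X w τ := (BrodyRigid.isPlaneForm_iff w τ).1 hτ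
  choose y hy using hA
  refine ⟨fun i x => v8_t e τ (y i) (A.ch i x) (e 0) (e 1), ⟨?_, ?_⟩, ?_, ?_⟩
  · intro i x hx
    show AnalyticAt ℂ (fun ξ => v8_t e τ (y i) (A.ch i ((A.ch i).symm ξ)) (e 0) (e 1)) (A.ch i x)
    rw [hy i] at hx ⊢
    exact v8_an e hτ' (y i) hx
  · intro i j x hi hj
    unfold jac dtr
    rw [hy i] at hi ⊢
    rw [hy j] at hj ⊢
    exact v8_tr e hτ' (y i) (y j) hi hj
  · intro x u v huv i hi h0
    have h1 : v8_t e τ (y i) (A.ch i x) (e 0) (e 1) = 0 := h0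
    rw [hy i] at hi h1
    exact huv (v8_ne e hτ' (y i) hi u v h1)
  · intro x hx i hi
    show v8_t e τ (y i) (A.ch i x) (e 0) (e 1) = 0
    rw [hy i] at hi ⊢
    exact (v8_val e (τ : BR.TangentPairs E X → ℂ) (y i) hi (e 0) (e 1)).trans (hx _ _)

end plane



end Pool.Agent.IS

namespace Pool.Agent.IS

alias ps_of_planeForm := ps_of_planeForm_pr

end Pool.Agent.IS
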