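import Pool.Agent.Lib_helper80.IS.Base
import Pool.Agent.Lib_helper80.IS.Notions

/-! # Brody curves in algebraic curves (MP_45e720_ag): block X1 -/

set_option autoImplicit false

open Filter Topology Metric Set
open scoped Manifold ContDiff

namespace Pool.Agent.IS

open Pool.Agent.BR Pool.Agent.MBS Pool.Agent.SL

open Polynomial in
/-- a polynomial of degree at most `m` is the dehomogenization of a product of `m` linear forms -/
theorem x1_fac {m : ℕ} (hm : 1 ≤ m) : ∀ p : ℂ[X], p.natDegree ≤ m →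
    ∃ a b : Fin m → ℂ, p = ∏ i, (C (a i) * X + C (b i)) := by
  induction m, hm using Nat.le_induction with
  | base =>
    intro p hp
    refine ⟨fun _ => p.coeff 1, fun _ => p.coeff 0, ?_⟩
    simpa using Polynomial.eq_X_add_C_of_natDegree_le_one hp
  | succ m hm ih =>
    intro p hp
    by_cases h : p.natDegree ≤ m
    · obtain ⟨a, b, hab⟩ := ih p h
      refine ⟨Fin.cons 0 a, Fin.cons 1 b, ?_⟩
      rw [Fin.prod_univ_succ]
      simpa using hab
    · have h1 : p.natDegree = m + 1 := by omega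
      have h0 : p.degree ≠ 0 := by
        intro h2
        have := natDegree_eq_of_degree_eq_some (n := 0) (by simpa using h2)
        omega
      obtain ⟨r, hr⟩ := IsAlgClosed.exists_root p h0
      obtain ⟨q, hq⟩ := Polynomial.dvd_iff_isRoot.2 hr
      have hq0 : q ≠ 0 := by
        rintro rfl
        rw [hq] at h1
        simp at h1
      have hqd : q.natDegree ≤ m := by
        have h2 := congrArg natDegree hq
        rw [natDegree_mul (X_sub_C_ne_zero r) hq0, natDegree_X_sub_C] at h2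
        omega
      obtain ⟨a, b, hab⟩ := ih q hqd
      refine ⟨Fin.cons 1 a, Fin.cons (-r) b, ?_⟩
      rw [Fin.prod_univ_succ]
      simp only [Fin.cons_zero, Fin.cons_succ, ← hab]
      rw [hq]
      simp [sub_eq_add_neg]

open Polynomial in
/-- the resultant of linear polynomials -/
theorem x1_lin {R : Type} [CommRing R] (a b a' b' : R) :
    resultant (C a * X + C b) (C a' * X + C b') 1 1 = a * b' - b * a' := by
  have e0 : (0 : Fin (1 + 1)) = Fin.castAdd 1 (0 : Fin 1) := rfl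
  have e1 : (1 : Fin (1 + 1)) = Fin.natAdd 1 (0 : Fin 1) := rfl
  rw [resultant]
  have h : (sylvester (C a * X + C b) (C a' * X + C b') 1 1) = !![b', b; a', a] := by
    ext i j
    fin_cases i <;> fin_cases j
    · change sylvester (C a * X + C b) (C a' * X + C b') 1 1 0 (Fin.castAdd 1 (0 : Fin 1)) = b'
      rw [sylvester, Matrix.of_apply, Fin.addCases_left]
      simp [coeff_X]
    · change sylvester (C a * X + C b) (C a' * X + C b') 1 1 0 (Fin.natAdd 1 (0 : Fin 1)) = b
      rw [sylvester, Matrix.of_apply, Fin.addCases_right]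
      simp [coeff_X]
    · change sylvester (C a * X + C b) (C a' * X + C b') 1 1 1 (Fin.castAdd 1 (0 : Fin 1)) = a'
      rw [sylvester, Matrix.of_apply, Fin.addCases_left]
      simp [coeff_C]
    · change sylvester (C a * X + C b) (C a' * X + C b') 1 1 1 (Fin.natAdd 1 (0 : Fin 1)) = a
      rw [sylvester, Matrix.of_apply, Fin.addCases_right]
      simp [coeff_C]
  rw [h, Matrix.det_fin_two_of]
  ring

open Polynomial in
/-- the resultant of products of linear polynomials with nonzero leading coefficients -/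
theorem x1_prod_ne {R : Type} [CommRing R] [IsDomain R] {m m' : ℕ} (a b : Fin m → R)
    (a' b' : Fin m' → R) (ha : ∀ i, a i ≠ 0) (ha' : ∀ i, a' i ≠ 0) :
    resultant (∏ i, (C (a i) * X + C (b i))) (∏ i, (C (a' i) * X + C (b' i))) m m' =
      ∏ i, ∏ j, (a i * b' j - b i * a' j) := by
  have hd : ∀ {c d : R}, c ≠ 0 → (C c * X + C d).natDegree = 1 := fun h =>
    natDegree_linear h
  have hl : ∀ {c d : R}, c ≠ 0 → (C c * X + C d).leadingCoeff = c := fun h =>
    leadingCoeff_linear h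
  have hne : ∀ {c d : R}, c ≠ 0 → (C c * X + C d) ≠ 0 := fun {c d} h h0 => by
    have := hl (d := d) h
    rw [h0, leadingCoeff_zero] at this
    exact h this.symm
  have hD : ∀ {k : ℕ} (c d : Fin k → R), (∀ i, c i ≠ 0) →
      (∏ i, (C (c i) * X + C (d i))).natDegree = k := by
    intro k c d hc
    rw [natDegree_prod _ _ (fun i _ => hne (hc i))]
    simp [hd (hc _)]
  have h1 := resultant_prod_left Finset.univ (fun i => C (a i) * X + C (b i))
    (∏ i, (C (a' i) * X + C (b' i))) m'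
    (Finset.prod_ne_zero_iff.2 fun i _ => by rw [hl (ha i)]; exact ha i)
    (by rw [hD a' b' ha'])
  rw [hD a b ha] at h1
  rw [h1]
  refine Finset.prod_congr rfl fun i _ => ?_
  rw [hd (ha i)]
  have h2 := resultant_prod_right Finset.univ (C (a i) * X + C (b i))
    (fun j => C (a' j) * X + C (b' j)) 1 (by rw [hd (ha i)])
    (Finset.prod_ne_zero_iff.2 fun i _ => by rw [hl (ha' i)]; exact ha' i)
  rw [hD a' b' ha'] at h2
  rw [h2]
  refine Finset.prod_congr rfl fun j _ => ?_
  rw [hd (ha' j)]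
  exact x1_lin _ _ _ _

open Polynomial in
/-- the resultant of products of linear polynomials -/
theorem x1_prod {m m' : ℕ} (a b : Fin m → ℂ) (a' b' : Fin m' → ℂ) :
    resultant (∏ i, (C (a i) * X + C (b i))) (∏ i, (C (a' i) * X + C (b' i))) m m' =
      ∏ i, ∏ j, (a i * b' j - b i * a' j) := by
  let σ : Type := (Fin m ⊕ Fin m) ⊕ (Fin m' ⊕ Fin m')
  let v : σ → ℂ := Sum.elim (Sum.elim a b) (Sum.elim a' b')
  obtain ⟨φ, hv⟩ : ∃ φ : MvPolynomial σ ℤ →+* ℂ, ∀ t, φ (MvPolynomial.X t) = v t :=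
    ⟨(MvPolynomial.aeval v).toRingHom, fun t => MvPolynomial.aeval_X v t⟩
  have h := x1_prod_ne (R := MvPolynomial σ ℤ) (fun i => MvPolynomial.X (Sum.inl (Sum.inl i)))
    (fun i => MvPolynomial.X (Sum.inl (Sum.inr i))) (fun i => MvPolynomial.X (Sum.inr (Sum.inl i)))
    (fun i => MvPolynomial.X (Sum.inr (Sum.inr i))) (fun i => MvPolynomial.X_ne_zero _)
    (fun i => MvPolynomial.X_ne_zero _)
  have h2 := congrArg φ h
  rw [← resultant_map_map] at h2
  have h3 : ∀ {k : ℕ} (c d : Fin k → MvPolynomial σ ℤ),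
      (∏ i, (C (c i) * X + C (d i))).map φ = ∏ i, (C (φ (c i)) * X + C (φ (d i))) := by
    intro k c d
    rw [Polynomial.map_prod]
    simp
  rw [h3, h3] at h2
  have e1 : (∏ i, (C (φ (MvPolynomial.X (Sum.inl (Sum.inl i)))) * X +
      C (φ (MvPolynomial.X (Sum.inl (Sum.inr i)))))) = ∏ i, (C (a i) * X + C (b i)) :=
    Finset.prod_congr rfl fun i _ => by rw [hv, hv]; rfl
  have e2 : (∏ i, (C (φ (MvPolynomial.X (Sum.inr (Sum.inl i)))) * X +
      C (φ (MvPolynomial.X (Sum.inr (Sum.inr i)))))) = ∏ i, (C (a' i) * X + C (b' i)) :=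
    Finset.prod_congr rfl fun i _ => by rw [hv, hv]; rfl
  rw [e1, e2] at h2
  rw [h2, map_prod]
  refine Finset.prod_congr rfl fun i _ => ?_
  rw [map_prod]
  refine Finset.prod_congr rfl fun j _ => ?_
  rw [map_sub, map_mul, map_mul, hv, hv, hv, hv]
  rfl

section

variable {E : Type} [NormedAddCommGroup E] [NormedSpace ℂ E]

/-- the form `s` is a product of linear forms -/
def x1_Fac (e : Module.Basis (Fin 2) ℂ E) {m : ℕ} (s : E → ℂ) (a b : Fin m → ℂ) : Prop :=
  ∀ x y : ℂ, s (x • e 0 + y • e 1) = ∏ i, (a i * x + b i * y)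

/-- the interpolation polynomial -/
noncomputable def x1_Q (e : Module.Basis (Fin 2) ℂ E) (m : ℕ) (s : E → ℂ) : Polynomial ℂ :=
  Lagrange.interpolate (Finset.range (m + 1)) (fun j : ℕ => (j : ℂ))
    (fun j : ℕ => s ((j : ℂ) • e 0 + e 1))

open Polynomial in
theorem x1_Q_eq (e : Module.Basis (Fin 2) ℂ E) {m : ℕ} {s : E → ℂ} {a b : Fin m → ℂ}
    (h : x1_Fac e s a b) : x1_Q e m s = ∏ i, (C (a i) * X + C (b i)) := by
  symm
  refine Lagrange.eq_interpolate_of_eval_eq _ ?_ ?_ ?_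
  · intro i _ j _ hij
    exact Nat.cast_injective (R := ℂ) hij
  · rw [Finset.card_range]
    have h1 : (∏ i, (C (a i) * X + C (b i))).degree ≤ ((m : ℕ) : WithBot ℕ) := by
      refine (degree_prod_le _ _).trans ?_
      refine (Finset.sum_le_sum (fun i _ => degree_linear_le)).trans ?_
      simp
    exact h1.trans_lt (by exact_mod_cast Nat.lt_succ_self m)
  · intro j _
    rw [eval_prod]
    have := h (j : ℂ) 1
    rw [one_smul] at this
    rw [this]
    simp

open Polynomial in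
theorem x1_exists_fac (e : Module.Basis (Fin 2) ℂ E) {m : ℕ} (hm : 0 < m) {s : E → ℂ}
    (hs : SS.IsSymForm m s) : ∃ a b : Fin m → ℂ, x1_Fac e s a b := by
  obtain ⟨P, hP⟩ := hs
  classical
  let c : Finset (Fin m) → ℂ := fun S => P (S.piecewise (fun _ => e 0) (fun _ => e 1))
  let p : ℂ[X] := ∑ S : Finset (Fin m), C (c S) * X ^ S.card
  have hpd : p.natDegree ≤ m := by
    refine natDegree_sum_le_of_forall_le _ _ fun S _ => ?_
    refine (natDegree_C_mul_X_pow_le _ _).trans ?_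
    simpa using Finset.card_le_univ S
  obtain ⟨a, b, hab⟩ := x1_fac hm p hpd
  refine ⟨a, b, ?_⟩
  have hsx : ∀ x y : ℂ, s (x • e 0 + y • e 1) =
      ∑ S : Finset (Fin m), x ^ S.card * y ^ (m - S.card) * c S := by
    intro x y
    rw [hP]
    have h1 := P.map_add_univ (fun _ => x • e 0) (fun _ => y • e 1)
    have h2 : ((fun _ => x • e 0 : Fin m → E) + fun _ => y • e 1) =
      fun _ => x • e 0 + y • e 1 := rfl
    rw [h2] at h1
    rw [h1]
    refine Finset.sum_congr rfl fun S _ => ?_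
    have h3 : (S.piecewise (fun _ => x • e 0) (fun _ => y • e 1) : Fin m → E) =
        fun i => (S.piecewise (fun _ => x) (fun _ => y) : Fin m → ℂ) i •
          (S.piecewise (fun _ => e 0) (fun _ => e 1) : Fin m → E) i := by
      funext i
      by_cases hi : i ∈ S <;> simp [Finset.piecewise, hi]
    rw [h3, P.map_smul_univ, smul_eq_mul]
    congr 1
    rw [Finset.prod_piecewise]
    simp [Finset.card_sdiff, Finset.card_univ]
  have hy : ∀ x y : ℂ, y ≠ 0 → s (x • e 0 + y • e 1) = ∏ i, (a i * x + b i * y) := by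
    intro x y hy
    have h1 : s (x • e 0 + y • e 1) = y ^ m * p.eval (x / y) := by
      rw [hsx]
      simp only [p, eval_finsetSum, eval_mul, eval_C, eval_pow, eval_X, Finset.mul_sum]
      refine Finset.sum_congr rfl fun S _ => ?_
      have hS : S.card ≤ m := by simpa using Finset.card_le_univ S
      have h4 : y ^ m = y ^ (m - S.card) * y ^ S.card := by
        rw [← pow_add]; congr 1; omega
      rw [h4, div_pow]
      field_simp
    rw [h1, hab, eval_prod]
    have h5 : y ^ m = ∏ _i : Fin m, y := by simp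
    rw [h5, ← Finset.prod_mul_distrib]
    refine Finset.prod_congr rfl fun i _ => ?_
    simp only [eval_add, eval_mul, eval_C, eval_X]
    field_simp
  intro x y
  have hc1 : Continuous fun y : ℂ => s (x • e 0 + y • e 1) := by
    have h6 : (fun y : ℂ => s (x • e 0 + y • e 1)) = fun y => P fun _ => x • e 0 + y • e 1 := by
      funext y; exact hP _
    rw [h6]
    exact P.cont.comp (by fun_prop)
  have hc2 : Continuous fun y : ℂ => ∏ i, (a i * x + b i * y) := by fun_prop
  have h7 := Continuous.ext_on (dense_compl_singleton (0 : ℂ)) hc1 hc2 (fun y hy0 => hy x y hy0)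
  exact congrFun h7 y

/-- the resultant -/
noncomputable def x1_R (e : Module.Basis (Fin 2) ℂ E) (m m' : ℕ) (s s' : E → ℂ) : ℂ :=
  Polynomial.resultant (x1_Q e m s) (x1_Q e m' s') m m'

theorem x1_R_eq (e : Module.Basis (Fin 2) ℂ E) {m m' : ℕ} {s s' : E → ℂ} {a b : Fin m → ℂ}
    {a' b' : Fin m' → ℂ} (h : x1_Fac e s a b) (h' : x1_Fac e s' a' b') :
    x1_R e m m' s s' = ∏ i, ∏ j, (a i * b' j - b i * a' j) := by
  rw [x1_R, x1_Q_eq e h, x1_Q_eq e h', x1_prod]

/-- two linear forms with determinant zero have a common zero -/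
theorem x1_two (a b a' b' : ℂ) : a * b' - b * a' = 0 ↔
    ∃ x y : ℂ, ¬ (x = 0 ∧ y = 0) ∧ a * x + b * y = 0 ∧ a' * x + b' * y = 0 := by
  constructor
  · intro h
    by_cases h1 : a = 0 ∧ b = 0
    · by_cases h2 : a' = 0 ∧ b' = 0
      · exact ⟨1, 0, by simp, by simp [h1.1], by simp [h2.1]⟩
      · refine ⟨b', -a', ?_, by simp [h1.1, h1.2], by ring⟩
        rintro ⟨h3, h4⟩
        exact h2 ⟨neg_eq_zero.1 h4, h3⟩
    · refine ⟨b, -a, ?_, by ring, by linear_combination -h⟩
      rintro ⟨h3, h4⟩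
      exact h1 ⟨neg_eq_zero.1 h4, h3⟩
  · rintro ⟨x, y, h0, h1, h2⟩
    by_cases hx : x = 0
    · have hy : y ≠ 0 := fun hy => h0 ⟨hx, hy⟩
      subst hx
      have h3 : b = 0 := by simpa [hy] using h1
      have h4 : b' = 0 := by simpa [hy] using h2
      simp [h3, h4]
    · have h3 : x * (a * b' - b * a') = 0 := by linear_combination b' * h1 - b * h2
      exact (mul_eq_zero.1 h3).resolve_left hx

theorem x1_zero (e : Module.Basis (Fin 2) ℂ E) {m m' : ℕ} {s s' : E → ℂ} {a b : Fin m → ℂ}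
    {a' b' : Fin m' → ℂ} (h : x1_Fac e s a b) (h' : x1_Fac e s' a' b') :
    x1_R e m m' s s' = 0 ↔ ∃ v, v ≠ 0 ∧ s v = 0 ∧ s' v = 0 := by
  rw [x1_R_eq e h h', Finset.prod_eq_zero_iff]
  constructor
  · rintro ⟨i, -, hi⟩
    obtain ⟨j, -, hj⟩ := Finset.prod_eq_zero_iff.1 hi
    obtain ⟨x, y, h0, h1, h2⟩ := (x1_two _ _ _ _).1 hj
    refine ⟨x • e 0 + y • e 1, ?_, ?_, ?_⟩
    · intro h3
      apply h0
      have h4 := e.linearIndependent
      rw [Fintype.linearIndependent_iff] at h4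
      have h5 := h4 ![x, y] (by simpa [Fin.sum_univ_two] using h3)
      exact ⟨by simpa using h5 0, by simpa using h5 1⟩
    · rw [h]; exact Finset.prod_eq_zero (Finset.mem_univ i) h1
    · rw [h']; exact Finset.prod_eq_zero (Finset.mem_univ j) h2
  · rintro ⟨v, hv, h1, h2⟩
    have hvr : v = (e.repr v 0) • e 0 + (e.repr v 1) • e 1 := by
      conv_lhs => rw [← e.sum_repr v]
      rw [Fin.sum_univ_two]
    rw [hvr, h, Finset.prod_eq_zero_iff] at h1
    rw [hvr, h', Finset.prod_eq_zero_iff] at h2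
    obtain ⟨i, -, hi⟩ := h1
    obtain ⟨j, -, hj⟩ := h2
    refine ⟨i, Finset.mem_univ i, Finset.prod_eq_zero (Finset.mem_univ j) ?_⟩
    refine (x1_two _ _ _ _).2 ⟨_, _, ?_, hi, hj⟩
    rintro ⟨h3, h4⟩
    apply hv
    rw [hvr, h3, h4]
    simp

theorem x1_det (e : Module.Basis (Fin 2) ℂ E) (D : E →L[ℂ] E) :
    LinearMap.det (D : E →ₗ[ℂ] E) =
      e.repr (D (e 0)) 0 * e.repr (D (e 1)) 1 - e.repr (D (e 1)) 0 * e.repr (D (e 0)) 1 := by
  rw [← LinearMap.det_toMatrix e, Matrix.det_fin_two]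
  simp [LinearMap.toMatrix_apply]

theorem x1_fac_comp (e : Module.Basis (Fin 2) ℂ E) {m : ℕ} {s : E → ℂ} {a b : Fin m → ℂ}
    (h : x1_Fac e s a b) (D : E →L[ℂ] E) :
    x1_Fac e (fun v => s (D v))
      (fun i => a i * e.repr (D (e 0)) 0 + b i * e.repr (D (e 0)) 1)
      (fun i => a i * e.repr (D (e 1)) 0 + b i * e.repr (D (e 1)) 1) := by
  intro x y
  have h0 : D (e 0) = (e.repr (D (e 0)) 0) • e 0 + (e.repr (D (e 0)) 1) • e 1 := by
    conv_lhs => rw [← e.sum_repr (D (e 0))]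
    rw [Fin.sum_univ_two]
  have h1 : D (e 1) = (e.repr (D (e 1)) 0) • e 0 + (e.repr (D (e 1)) 1) • e 1 := by
    conv_lhs => rw [← e.sum_repr (D (e 1))]
    rw [Fin.sum_univ_two]
  have h2 : D (x • e 0 + y • e 1) =
      (e.repr (D (e 0)) 0 * x + e.repr (D (e 1)) 0 * y) • e 0 +
        (e.repr (D (e 0)) 1 * x + e.repr (D (e 1)) 1 * y) • e 1 := by
    rw [map_add, map_smul, map_smul]
    conv_lhs => rw [h0, h1]
    module
  change s (D (x • e 0 + y • e 1)) = _
  rw [h2, h]
  refine Finset.prod_congr rfl fun i _ => ?_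
  ring

theorem x1_an (e : Module.Basis (Fin 2) ℂ E) {m m' : ℕ} (S S' : E → E → ℂ) (ξ₀ : E)
    (hS : ∀ v, AnalyticAt ℂ (fun ξ => S ξ v) ξ₀) (hS' : ∀ v, AnalyticAt ℂ (fun ξ => S' ξ v) ξ₀) :
    AnalyticAt ℂ (fun ξ => x1_R e m m' (S ξ) (S' ξ)) ξ₀ := by
  have hc : ∀ (m : ℕ) (S : E → E → ℂ), (∀ v, AnalyticAt ℂ (fun ξ => S ξ v) ξ₀) →
      ∀ k, AnalyticAt ℂ (fun ξ => (x1_Q e m (S ξ)).coeff k) ξ₀ := by
    intro m S hS k
    simp only [x1_Q, Lagrange.interpolate_apply, Polynomial.finsetSum_coeff,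
      Polynomial.coeff_C_mul]
    exact Finset.analyticAt_fun_sum _ fun j _ => (hS _).mul analyticAt_const
  simp only [x1_R, Polynomial.resultant, Matrix.det_apply]
  refine Finset.analyticAt_fun_sum _ fun σ _ => ?_
  have h1 : AnalyticAt ℂ (fun ξ => ∏ i, Polynomial.sylvester (x1_Q e m (S ξ)) (x1_Q e m' (S' ξ))
      m m' (σ i) i) ξ₀ := by
    refine Finset.analyticAt_fun_prod _ fun i _ => ?_
    simp only [Polynomial.sylvester, Matrix.of_apply]
    generalize σ i = k
    refine Fin.addCases (fun j => ?_) (fun j => ?_) i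
    · simp only [Fin.addCases_left]
      split_ifs
      · exact hc _ _ hS' _
      · exact analyticAt_const
    · simp only [Fin.addCases_right]
      split_ifs
      · exact hc _ _ hS _
      · exact analyticAt_const
  rcases Int.units_eq_one_or (Equiv.Perm.sign σ) with h2 | h2
  · simp only [h2, one_smul]
    exact h1
  · simp only [h2, Units.neg_smul, one_smul]
    exact h1.neg

theorem exists_res_pr [FiniteDimensional ℂ E] (e : Module.Basis (Fin 2) ℂ E) {m m' : ℕ} (hm : 0 < m) (hm' : 0 < m') :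
    ∃ R : (E → ℂ) → (E → ℂ) → ℂ,
      (∀ s s' : E → ℂ, SS.IsSymForm m s → SS.IsSymForm m' s' →
        (R s s' = 0 ↔ ∃ v, v ≠ 0 ∧ s v = 0 ∧ s' v = 0) ∧
        ∀ D : E →L[ℂ] E, R (fun v => s (D v)) (fun v => s' (D v)) =
          LinearMap.det (D : E →ₗ[ℂ] E) ^ (m * m') * R s s') ∧
      ∀ (S S' : E → E → ℂ) (ξ₀ : E), (∀ v, AnalyticAt ℂ (fun ξ => S ξ v) ξ₀) →
        (∀ v, AnalyticAt ℂ (fun ξ => S' ξ v) ξ₀) →
          AnalyticAt ℂ (fun ξ => R (S ξ) (S' ξ)) ξ₀ := by
  refine ⟨x1_R e m m', fun s s' hs hs' => ?_, fun S S' ξ₀ hS hS' => x1_an e S S' ξ₀ hS hS'⟩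
  obtain ⟨a, b, h⟩ := x1_exists_fac e hm hs
  obtain ⟨a', b', h'⟩ := x1_exists_fac e hm' hs'
  refine ⟨x1_zero e h h', fun D => ?_⟩
  rw [x1_R_eq e (x1_fac_comp e h D) (x1_fac_comp e h' D), x1_R_eq e h h', x1_det e D]
  have h1 : ∀ i : Fin m, ∀ j : Fin m',
      (a i * e.repr (D (e 0)) 0 + b i * e.repr (D (e 0)) 1) *
          (a' j * e.repr (D (e 1)) 0 + b' j * e.repr (D (e 1)) 1) -
        (a i * e.repr (D (e 1)) 0 + b i * e.repr (D (e 1)) 1) *
          (a' j * e.repr (D (e 0)) 0 + b' j * e.repr (D (e 0)) 1) =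
      (e.repr (D (e 0)) 0 * e.repr (D (e 1)) 1 - e.repr (D (e 1)) 0 * e.repr (D (e 0)) 1) *
        (a i * b' j - b i * a' j) := fun i j => by ring
  simp only [h1, Finset.prod_mul_distrib, Finset.prod_const, Finset.card_univ, Fintype.card_fin]
  rw [← pow_mul, mul_comm m' m]

end



end Pool.Agent.IS

namespace Pool.Agent.IS

alias exists_res := exists_res_pr

end Pool.Agent.IS
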