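import Pool.Agent.Lib_helper80.IS.Base
import Pool.Agent.Lib_helper80.IS.Notions

/-! # Brody curves in algebraic curves (MP_45e720_ag): block X2 -/

set_option autoImplicit false
set_option linter.unusedSectionVars false

open Filter Topology Metric Set
open scoped Manifold ContDiff

namespace Pool.Agent.IS

open Pool.Agent.BR Pool.Agent.MBS Pool.Agent.SL

section man

variable {E X : Type} [NormedAddCommGroup E] [NormedSpace ℂ E] [FiniteDimensional ℂ E]
  [MetricSpace X] [ChartedSpace E X] [IsManifold 𝓘(ℂ, E) ω X] {A : Cha E X}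

/-- the derivative of the change from the chart at `y` to the chart at `y'` -/
noncomputable def x2_D (y y' x : X) : E →L[ℂ] E :=
  fderiv ℂ (fun ξ => chartAt E y' ((chartAt E y).symm ξ)) (chartAt E y x)

theorem x2_has {y y' x : X} (hy : x ∈ (chartAt E y).source) (hy' : x ∈ (chartAt E y').source) :
    HasFDerivAt (fun ξ => chartAt E y' ((chartAt E y).symm ξ)) (x2_D (E := E) y y' x)
      (chartAt E y x) :=
  (SS.in2_trans hy hy').differentiableAt.hasFDerivAt

/-- the cocycle relation -/
theorem x2_comp {y y' y'' x : X} (hy : x ∈ (chartAt E y).source)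
    (hy' : x ∈ (chartAt E y').source) (hy'' : x ∈ (chartAt E y'').source) :
    x2_D (E := E) y y'' x = (x2_D (E := E) y' y'' x).comp (x2_D (E := E) y y' x) := by
  have h1 := x2_has (E := E) hy hy'
  have h2 := x2_has (E := E) hy' hy''
  have h3 : HasFDerivAt (fun ξ => chartAt E y'' ((chartAt E y').symm ξ))
      (x2_D (E := E) y' y'' x) ((fun ξ => chartAt E y' ((chartAt E y).symm ξ))
        (chartAt E y x)) := by
    have h4 : (fun ξ => chartAt E y' ((chartAt E y).symm ξ)) (chartAt E y x) =
        chartAt E y' x := by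
      show chartAt E y' ((chartAt E y).symm (chartAt E y x)) = _
      rw [(chartAt E y).left_inv hy]
    rw [h4]
    exact h2
  have h5 := h3.comp (chartAt E y x) h1
  refine ((x2_has (E := E) hy hy'').unique ?_)
  refine h5.congr_of_eventuallyEq ?_
  have h6 : ∀ᶠ ξ in 𝓝 (chartAt E y x), ξ ∈ (chartAt E y).target ∧
      (chartAt E y).symm ξ ∈ (chartAt E y').source := by
    have h7 : ContinuousAt (chartAt E y).symm (chartAt E y x) :=
      (chartAt E y).continuousAt_symm ((chartAt E y).map_source hy)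
    have h8 : (chartAt E y').source ∈ 𝓝 ((chartAt E y).symm (chartAt E y x)) := by
      rw [(chartAt E y).left_inv hy]
      exact (chartAt E y').open_source.mem_nhds hy'
    exact (((chartAt E y).open_target.eventually_mem ((chartAt E y).map_source hy))).and
      (h7.preimage_mem_nhds h8)
  filter_upwards [h6] with ξ hξ
  show chartAt E y'' ((chartAt E y).symm ξ) =
    chartAt E y'' ((chartAt E y').symm (chartAt E y' ((chartAt E y).symm ξ)))
  rw [(chartAt E y').left_inv hξ.2]

theorem x2_self {y x : X} (hy : x ∈ (chartAt E y).source) :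
    x2_D (E := E) y y x = ContinuousLinearMap.id ℂ E := by
  refine (x2_has (E := E) hy hy).unique ?_
  refine (hasFDerivAt_id (𝕜 := ℂ) (chartAt E y x)).congr_of_eventuallyEq ?_
  filter_upwards [(chartAt E y).open_target.mem_nhds ((chartAt E y).map_source hy)] with ξ hξ
  exact (chartAt E y).right_inv hξ

/-- change of charts along a curve -/
theorem x2_chain {f : ℂ → X} {y y' : X} {z : ℂ} (hc : ContinuousAt f z)
    (hy : f z ∈ (chartAt E y).source) (hy' : f z ∈ (chartAt E y').source)
    (hd : DifferentiableAt ℂ (fun z => chartAt E y (f z)) z) :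
    HasDerivAt (fun z => chartAt E y' (f z))
      (x2_D (E := E) y y' (f z) (deriv (fun z => chartAt E y (f z)) z)) z := by
  have h2 := (x2_has (E := E) hy hy').comp_hasDerivAt z hd.hasDerivAt
  refine h2.congr_of_eventuallyEq ?_
  have h3 : ∀ᶠ z' in 𝓝 z, f z' ∈ (chartAt E y).source :=
    hc.eventually ((chartAt E y).open_source.mem_nhds hy)
  filter_upwards [h3] with z' hz'
  show chartAt E y' (f z') = chartAt E y' ((chartAt E y).symm (chartAt E y (f z')))
  rw [(chartAt E y).left_inv hz']

theorem x2_mf {f : ℂ → X} {z : ℂ} (hc : ContinuousAt f z)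
    (hd : DifferentiableAt ℂ (fun z' => chartAt E (f z) (f z')) z) :
    (mfderiv 𝓘(ℂ, ℂ) 𝓘(ℂ, E) f z (1 : ℂ) : E) = deriv (fun z' => chartAt E (f z) (f z')) z := by
  have h3 : writtenInExtChartAt 𝓘(ℂ, ℂ) 𝓘(ℂ, E) z f = fun z' => chartAt E (f z) (f z') := by
    funext r
    simp [writtenInExtChartAt, extChartAt, chartAt_self_eq]
  have hm : MDifferentiableAt 𝓘(ℂ, ℂ) 𝓘(ℂ, E) f z := by
    rw [mdifferentiableAt_iff]
    refine ⟨hc, ?_⟩
    rw [h3]
    simpa [chartAt_self_eq] using hd.differentiableWithinAt (s := univ)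
  have h4 : mfderiv 𝓘(ℂ, ℂ) 𝓘(ℂ, E) f z = fderiv ℂ (fun z' => chartAt E (f z) (f z')) z := by
    rw [hm.mfderiv, h3]
    simp [fderivWithin_univ, chartAt_self_eq]
    try rfl
  rw [h4]
  rfl

theorem sd_charts_pr (hA : ∀ i, ∃ y, A.ch i = chartAt E y) :
    ∃ T : A.ι → X → (E →L[ℂ] E),
      (∀ i, ∀ x ∈ (A.ch i).source, Function.Bijective (T i x)) ∧
      (∀ i j x, x ∈ (A.ch i).source → x ∈ (A.ch j).source → ∀ v,
        T i x v = T j x (dtr A i j x v)) ∧
      (∀ h : ℂ → X, (∀ z, A.HolAt h z) → ∀ z i, h z ∈ (A.ch i).source →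
        (⟨h z, T i (h z) (deriv (A.loc i h) z)⟩ : TangentBundle 𝓘(ℂ, E) X) =
          BrodyRigid.velocity (E := E) h z) ∧
      ∀ (m : ℕ) (σ : TangentBundle 𝓘(ℂ, E) X → ℂ), SS.IsSymDiff E X m σ →
        ∀ i, ∀ x ∈ (A.ch i).source, ∀ v : E, AnalyticAt ℂ
          (fun ξ => σ ⟨(A.ch i).symm ξ, T i ((A.ch i).symm ξ) v⟩) (A.ch i x) := by
  choose y hy using hA
  refine ⟨fun i x => x2_D (E := E) (y i) x x, ?_, ?_, ?_, ?_⟩
  · intro i x hx
    rw [hy i] at hx
    have hx' := mem_chart_source E x
    have h1 := x2_comp (E := E) hx hx' hx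
    have h2 := x2_comp (E := E) hx' hx hx'
    rw [x2_self hx] at h1
    rw [x2_self hx'] at h2
    constructor
    · intro v w hvw
      have h3 : ∀ v, x2_D (E := E) x (y i) x (x2_D (E := E) (y i) x x v) = v := fun v =>
        (DFunLike.congr_fun h1 v).symm
      rw [← h3 v, ← h3 w]
      exact congrArg _ hvw
    · intro v
      exact ⟨x2_D (E := E) x (y i) x v, (DFunLike.congr_fun h2 v).symm⟩
  · intro i j x hi hj v
    rw [hy i] at hi
    rw [hy j] at hj
    have hx' := mem_chart_source E x
    have h1 := x2_comp (E := E) hi hj hx'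
    have h2 : dtr A i j x = x2_D (E := E) (y i) (y j) x := by
      rw [dtr, hy i, hy j]
      rfl
    rw [h2]
    exact DFunLike.congr_fun h1 v
  · intro h hh z i hi
    have hloc : A.loc i h = fun z => chartAt E (y i) (h z) := by
      funext z
      rw [Cha.loc, hy i]
    have h1 := ((hh z).2 i hi).differentiableAt
    rw [hy i] at hi
    rw [hloc] at h1 ⊢
    have hx := mem_chart_source E (h z)
    have h2 := x2_chain (hh z).1 hi hx h1
    have h3 := x2_mf (E := E) (hh z).1 h2.differentiableAt
    rw [h2.deriv] at h3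
    rw [← h3]
    rfl
  · intro m σ hσ i x hx v
    obtain ⟨S, S1, S2, S3, S4⟩ := SS.symDiff_chart hσ
    have hx0 : x ∈ (chartAt E (y i)).source := by
      rw [← hy i]
      exact hx
    have hx' : A.ch i x ∈ (chartAt E (y i)).target := by
      rw [hy i]
      exact (chartAt E (y i)).map_source hx0
    have h1 : AnalyticAt ℂ (fun ξ => S (y i) ξ v) (A.ch i x) := by
      have h2 := S1 (y i) _ hx' v
      exact h2.comp (f := fun ξ : E => (ξ, v)) (analyticAt_id.prod analyticAt_const)
    refine h1.congr ?_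
    have h3 : ∀ᶠ ξ in 𝓝 (A.ch i x), ξ ∈ (chartAt E (y i)).target :=
      (chartAt E (y i)).open_target.mem_nhds hx'
    filter_upwards [h3] with ξ hξ
    have h4 : (A.ch i).symm ξ = (chartAt E (y i)).symm ξ := by rw [hy i]
    rw [h4]
    set x₁ := (chartAt E (y i)).symm ξ with hx₁
    have h5 : x₁ ∈ (chartAt E (y i)).source := (chartAt E (y i)).map_target hξ
    have h6 : chartAt E (y i) x₁ = ξ := (chartAt E (y i)).right_inv hξ
    have h7 := S3 (y i) x₁ x₁ h5 (mem_chart_source E x₁) v
    rw [S4, h6] at h7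
    rw [h7, x2_D, h6]

end man



end Pool.Agent.IS

namespace Pool.Agent.IS

alias sd_charts := sd_charts_pr

end Pool.Agent.IS
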