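import Pool.Agent.Lib_helper80.IS.Base
import Pool.Agent.Lib_helper80.IS.Notions
import Pool.Agent.Lib_helper80.IS.L.V2
import Pool.Agent.Lib_helper80.IS.L.X1
import Pool.Agent.Lib_helper80.IS.L.X2

/-! # Block X3: the resultant of two symmetric differentials -/

set_option autoImplicit false

open Filter Topology Metric Set
open scoped Manifold ContDiff

namespace Pool.Agent.IS

open Pool.Agent.BR Pool.Agent.MBS Pool.Agent.SL

section aux

variable {E X : Type} [NormedAddCommGroup E] [NormedSpace ℂ E] [MetricSpace X] {A : Cha E X}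

private theorem x3_const {h : ℂ → X} (hh : ∀ z, A.HolAt h z)
    (h0 : ∀ z i, h z ∈ (A.ch i).source → deriv (A.loc i h) z = 0) (z z' : ℂ) : h z = h z' := by
  have hc : IsLocallyConstant h := by
    rw [IsLocallyConstant.iff_eventually_eq]
    intro z₀
    obtain ⟨i, hi⟩ := A.cover (h z₀)
    have hi' : h z₀ ∈ (A.ch i).source := A.W_sub i (subset_closure hi)
    have h1 : ∀ᶠ w in 𝓝 z₀, h w ∈ (A.ch i).source :=
      (hh z₀).1.tendsto.eventually_mem ((A.ch i).open_source.mem_nhds hi')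
    obtain ⟨ε, hε, hball⟩ := Metric.eventually_nhds_iff_ball.mp h1
    filter_upwards [Metric.ball_mem_nhds z₀ hε] with w hw
    have h2 : A.loc i h w = A.loc i h z₀ := by
      refine Metric.isOpen_ball.is_const_of_deriv_eq_zero
        (convex_ball z₀ ε).isPreconnected ?_ ?_ hw (Metric.mem_ball_self hε)
      · intro y hy
        exact ((hh y).2 i (hball y hy)).differentiableAt.differentiableWithinAt
      · intro y hy
        exact h0 y i (hball y hy)
    exact (A.ch i).injOn (hball w hw) hi' h2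
  exact hc.apply_eq_of_preconnectedSpace z z'

end aux

section man

variable {E X : Type} [NormedAddCommGroup E] [NormedSpace ℂ E] [FiniteDimensional ℂ E]
  [MetricSpace X] [ChartedSpace E X] [IsManifold 𝓘(ℂ, E) ω X] {A : Cha E X}

private theorem x3_symForm {m : ℕ} {p : E → ℂ} (hp : SS.IsSymForm m p) (D : E →L[ℂ] E) :
    SS.IsSymForm m fun v => p (D v) := by
  obtain ⟨P, hP⟩ := hp
  refine ⟨P.compContinuousLinearMap fun _ => D, fun w => ?_⟩
  show p (D w) = _
  rw [hP, ContinuousMultilinearMap.compContinuousLinearMap_apply]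

theorem ps_of_symdiffs_pr (hA : ∀ i, ∃ y, A.ch i = chartAt E y) (e : Module.Basis (Fin 2) ℂ E)
    {m m' : ℕ} (hm : 0 < m) (hm' : 0 < m') {σ σ' : TangentBundle 𝓘(ℂ, E) X → ℂ}
    (hσ : SS.IsSymDiff E X m σ) (hσ' : SS.IsSymDiff E X m' σ') :
    ∃ t : A.ι → X → ℂ, PS A (m * m') t ∧
      (∀ x, (∀ v : E, v ≠ 0 → σ ⟨x, v⟩ = 0 → σ' ⟨x, v⟩ ≠ 0) →
        ∀ i, x ∈ (A.ch i).source → t i x ≠ 0) ∧
      ∀ h : ℂ → X, (∀ z, A.HolAt h z) → (∃ z z', h z ≠ h z') →
        BrodyRigid.Annihilated (E := E) h → VA t h := by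
  obtain ⟨T, hT1, hT2, hT3, hT4⟩ := sd_charts hA
  obtain ⟨R, hR1, hR2⟩ := exists_res e hm hm'
  have hs : ∀ i x, SS.IsSymForm m fun v => σ ⟨x, T i x v⟩ := fun i x =>
    x3_symForm (hσ.fib x) (T i x)
  have hs' : ∀ i x, SS.IsSymForm m' fun v => σ' ⟨x, T i x v⟩ := fun i x =>
    x3_symForm (hσ'.fib x) (T i x)
  have hPS : PS A (m * m')
      (fun i x => R (fun v => σ ⟨x, T i x v⟩) (fun v => σ' ⟨x, T i x v⟩)) := by
    refine ⟨fun i x hx => ?_, fun i j x hi hj => ?_⟩
    · exact hR2 (fun ξ v => σ ⟨(A.ch i).symm ξ, T i ((A.ch i).symm ξ) v⟩)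
        (fun ξ v => σ' ⟨(A.ch i).symm ξ, T i ((A.ch i).symm ξ) v⟩) (A.ch i x)
        (fun v => hT4 m σ hσ i x hx v) (fun v => hT4 m' σ' hσ' i x hx v)
    · have h1 := (hR1 _ _ (hs j x) (hs' j x)).2 (dtr A i j x)
      have e1 : (fun v => σ ⟨x, T i x v⟩) = fun v => σ ⟨x, T j x (dtr A i j x v)⟩ := by
        funext v
        rw [hT2 i j x hi hj v]
      have e2 : (fun v => σ' ⟨x, T i x v⟩) = fun v => σ' ⟨x, T j x (dtr A i j x v)⟩ := by
        funext v
        rw [hT2 i j x hi hj v]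
      rw [e1, e2]
      exact h1
  refine ⟨_, hPS, fun x hx i hi h0 => ?_, fun h hh hne hann => ?_⟩
  · obtain ⟨v, hv, h1, h2⟩ := (hR1 _ _ (hs i x) (hs' i x)).1.mp h0
    have h3 : T i x v ≠ 0 := by
      intro hc
      apply hv
      apply (hT1 i x hi).1
      rw [hc, map_zero]
    exact hx _ h3 h1 h2
  · -- a point with nonzero velocity
    have hex : ∃ z i, h z ∈ (A.ch i).source ∧ deriv (A.loc i h) z ≠ 0 := by
      by_contra hcon
      push Not at hcon
      obtain ⟨z, z', hzz⟩ := hne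
      exact hzz (x3_const hh (fun z i hi => hcon z i hi) z z')
    obtain ⟨z₁, i, hi, hd⟩ := hex
    have hkey : ∀ z i, h z ∈ (A.ch i).source → deriv (A.loc i h) z ≠ 0 →
        R (fun v => σ ⟨h z, T i (h z) v⟩) (fun v => σ' ⟨h z, T i (h z) v⟩) = 0 := by
      intro z i hi hd
      refine (hR1 _ _ (hs i (h z)) (hs' i (h z))).1.mpr ⟨deriv (A.loc i h) z, hd, ?_, ?_⟩
      · have h1 := hann m hm σ hσ z
        rw [← hT3 h hh z i hi] at h1
        exact h1
      · have h1 := hann m' hm' σ' hσ' z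
        rw [← hT3 h hh z i hi] at h1
        exact h1
    refine va_ident hPS.an (fun i j x hi hj h0 => ?_) hh (z₁ := z₁) ?_
    · rw [hPS.tr i j x hi hj, h0, mul_zero]
    · refine Filter.Eventually.frequently ?_
      have h1 : ∀ᶠ w in 𝓝 z₁, h w ∈ (A.ch i).source :=
        (hh z₁).1.tendsto.eventually_mem ((A.ch i).open_source.mem_nhds hi)
      have h2 : ∀ᶠ w in 𝓝 z₁, deriv (A.loc i h) w ≠ 0 :=
        ((hh z₁).2 i hi).deriv.continuousAt.eventually_ne hd
      filter_upwards [h1.filter_mono nhdsWithin_le_nhds, h2.filter_mono nhdsWithin_le_nhds]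
        with w hw1 hw2 j hj
      have h3 := hkey w i hw1 hw2
      have h4 := hPS.tr j i (h w) hj hw1
      refine h4.trans ?_
      refine (congrArg (fun y => jac A j i (h w) ^ (m * m') * y) h3).trans ?_
      exact mul_zero _



end man

end Pool.Agent.IS

namespace Pool.Agent.IS

alias ps_of_symdiffs := ps_of_symdiffs_pr

end Pool.Agent.IS
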