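import Pool.Agent.Lib_helper80.IS.Base
import Pool.Agent.Lib_helper80.IS.Notions

/-! # IS, block E1 -/

set_option autoImplicit false
set_option linter.unusedSectionVars false

open Filter Topology Metric Set
open scoped Manifold ContDiff

namespace Pool.Agent.IS

open Pool.Agent.BR Pool.Agent.MBS Pool.Agent.SL

section etale

variable {E X X' : Type} [NormedAddCommGroup E] [NormedSpace ℂ E] [FiniteDimensional ℂ E]
  [TopologicalSpace X] [ChartedSpace E X] [IsManifold 𝓘(ℂ, E) ω X]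
  [TopologicalSpace X'] [ChartedSpace E X'] [IsManifold 𝓘(ℂ, E) ω X']

/-- `π` in the charts at `x` and at `y` -/
noncomputable def e1_phi (π : X' → X) (x : X') (y : X) (ξ : E) : E :=
  chartAt E y (π ((chartAt E x).symm ξ))

theorem e1_diff {π : X' → X} (hπ : MDifferentiable 𝓘(ℂ, E) 𝓘(ℂ, E) π) (x : X') (y : X) {ξ : E}
    (hξ : ξ ∈ (chartAt E x).target) (hy : π ((chartAt E x).symm ξ) ∈ (chartAt E y).source) :
    DifferentiableAt ℂ (e1_phi (E := E) π x y) ξ := by
  have h1 : MDifferentiableAt 𝓘(ℂ, E) 𝓘(ℂ, E) (chartAt E x).symm ξ :=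
    mdifferentiableAt_atlas_symm (chart_mem_atlas _ _) hξ
  have h2 : MDifferentiableAt 𝓘(ℂ, E) 𝓘(ℂ, E) π ((chartAt E x).symm ξ) := hπ _
  have h3 : MDifferentiableAt 𝓘(ℂ, E) 𝓘(ℂ, E) (chartAt E y) (π ((chartAt E x).symm ξ)) :=
    mdifferentiableAt_atlas (chart_mem_atlas _ _) hy
  have h4 : MDifferentiableAt 𝓘(ℂ, E) 𝓘(ℂ, E) (fun ξ => chartAt E y (π ((chartAt E x).symm ξ))) ξ :=
    (h3.comp ξ (h2.comp ξ h1))
  exact h4.differentiableAt

theorem e1_open {π : X' → X} (hπ : Continuous π) (x : X') (y : X) :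
    IsOpen ((chartAt E x).target ∩ (fun ξ => π ((chartAt E x).symm ξ)) ⁻¹' (chartAt E y).source) := by
  have hc : ContinuousOn (fun ξ => π ((chartAt E x).symm ξ)) (chartAt E x).target :=
    hπ.comp_continuousOn (chartAt E x).continuousOn_symm
  exact hc.isOpen_inter_preimage (chartAt E x).open_target (chartAt E y).open_source

theorem e1_an {π : X' → X} (hπ : MDifferentiable 𝓘(ℂ, E) 𝓘(ℂ, E) π) (x : X') (y : X) {ξ : E}
    (hξ : ξ ∈ (chartAt E x).target) (hy : π ((chartAt E x).symm ξ) ∈ (chartAt E y).source) :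
    AnalyticAt ℂ (e1_phi (E := E) π x y) ξ := by
  have : CompleteSpace E := FiniteDimensional.complete ℂ E
  refine SS.osgood (e1_open hπ.continuous x y) (fun ζ hζ => ?_) (fun ζ hζ v => ?_) ξ ⟨hξ, hy⟩
  · exact (e1_diff hπ x y hζ.1 hζ.2).continuousAt.continuousWithinAt
  · exact SS.in1_line (e1_diff hπ x y hζ.1 hζ.2) v

/-- the derivative of `π` at `x` -/
noncomputable def e1_D (π : X' → X) (x : X') : E →L[ℂ] E :=
  fderiv ℂ (e1_phi (E := E) π x (π x)) (chartAt E x x)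

theorem e1_deriv {π : X' → X} (hπ : MDifferentiable 𝓘(ℂ, E) 𝓘(ℂ, E) π) (x : X') (v : E) :
    (SS.dirDeriv π x v : E) = e1_D π x v := by
  unfold SS.dirDeriv e1_D
  rw [(hπ x).mfderiv]
  simp only [writtenInExtChartAt, extChartAt, mfld_simps]
  rw [fderivWithin_univ]
  rfl

/-- the chain rule for the change of charts -/
theorem e1_K {π : X' → X} (hπ : MDifferentiable 𝓘(ℂ, E) 𝓘(ℂ, E) π) (y' : X') (y : X) {ξ : E}
    (hξ : ξ ∈ (chartAt E y').target) (hy : π ((chartAt E y').symm ξ) ∈ (chartAt E y).source)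
    (u : E) :
    tangentCoordChange 𝓘(ℂ, E) (π ((chartAt E y').symm ξ)) y (π ((chartAt E y').symm ξ))
      (e1_D π ((chartAt E y').symm ξ) (tangentCoordChange 𝓘(ℂ, E) y' ((chartAt E y').symm ξ)
        ((chartAt E y').symm ξ) u)) = fderiv ℂ (e1_phi (E := E) π y' y) ξ u := by
  set x := (chartAt E y').symm ξ with hx
  have hx' : x ∈ (chartAt E y').source := (chartAt E y').map_target hξ
  have hxx : x ∈ (chartAt E x).source := mem_chart_source E x
  have hπx : π x ∈ (chartAt E (π x)).source := mem_chart_source E (π x)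
  have hξx : chartAt E y' x = ξ := (chartAt E y').right_inv hξ
  -- the three factors
  have d1 : DifferentiableAt ℂ (fun η => chartAt E x ((chartAt E y').symm η)) ξ := by
    have := (SS.in2_trans (E := E) hx' hxx).differentiableAt
    rwa [hξx] at this
  have d2 : DifferentiableAt ℂ (e1_phi (E := E) π x (π x)) (chartAt E x x) := by
    refine e1_diff hπ x (π x) ((chartAt E x).map_source hxx) ?_
    rw [(chartAt E x).left_inv hxx]
    exact hπx
  have d3 : DifferentiableAt ℂ (fun η => chartAt E y ((chartAt E (π x)).symm η))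
      (chartAt E (π x) (π x)) := (SS.in2_trans (E := E) hπx hy).differentiableAt
  have e2 : e1_phi (E := E) π x (π x) (chartAt E x x) = chartAt E (π x) (π x) := by
    unfold e1_phi
    rw [(chartAt E x).left_inv hxx]
  have h1 : HasFDerivAt (fun η => chartAt E x ((chartAt E y').symm η))
      (fderiv ℂ (fun η => chartAt E x ((chartAt E y').symm η)) ξ) ξ := d1.hasFDerivAt
  have hη : chartAt E x ((chartAt E y').symm ξ) = chartAt E x x := rfl
  have h2 : HasFDerivAt (e1_phi (E := E) π x (π x)) (e1_D π x)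
      (chartAt E x ((chartAt E y').symm ξ)) := d2.hasFDerivAt
  have h3 : HasFDerivAt (fun η => chartAt E y ((chartAt E (π x)).symm η))
      (fderiv ℂ (fun η => chartAt E y ((chartAt E (π x)).symm η)) (chartAt E (π x) (π x)))
      (e1_phi (E := E) π x (π x) (chartAt E x ((chartAt E y').symm ξ))) := by
    rw [hη, e2]
    exact d3.hasFDerivAt
  have h4 := h3.comp ξ (h2.comp ξ h1)
  have h5 : e1_phi (E := E) π y' y =ᶠ[𝓝 ξ]
      ((fun η => chartAt E y ((chartAt E (π x)).symm η)) ∘ (e1_phi (E := E) π x (π x) ∘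
        (fun η => chartAt E x ((chartAt E y').symm η)))) := by
    have c1 : ContinuousAt (chartAt E y').symm ξ := (chartAt E y').continuousAt_symm hξ
    have c2 : ContinuousAt (fun η => π ((chartAt E y').symm η)) ξ :=
      hπ.continuous.continuousAt.comp c1
    have n1 := c1.preimage_mem_nhds ((chartAt E x).open_source.mem_nhds hxx)
    have n2 := c2.preimage_mem_nhds ((chartAt E (π x)).open_source.mem_nhds hπx)
    filter_upwards [n1, n2] with η hη1 hη2
    have hη1' : (chartAt E y').symm η ∈ (chartAt E x).source := hη1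
    have hη2' : π ((chartAt E y').symm η) ∈ (chartAt E (π x)).source := hη2
    simp only [Function.comp_apply, e1_phi]
    rw [(chartAt E x).left_inv hη1', (chartAt E (π x)).left_inv hη2']
  rw [h5.fderiv_eq, h4.fderiv, ContinuousLinearMap.comp_apply, ContinuousLinearMap.comp_apply]
  have t1 := SS.in2_tcc (E := E) (y := y') (y' := x) (x := x) u
  have t3 := fun w => SS.in2_tcc (E := E) (y := π x) (y' := y) (x := π x) w
  rw [hξx] at t1
  rw [t1, t3]

/-- the map of the pairs in the charts -/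
noncomputable def e1_Phi (φ : E → E) (q : E × (E × E)) : E × (E × E) :=
  (φ q.1, (fderiv ℂ φ q.1 q.2.1, fderiv ℂ φ q.1 q.2.2))

theorem e1_Phi_deriv {φ : E → E} {q : E × (E × E)} (hφ : AnalyticAt ℂ φ q.1) :
    HasFDerivAt (e1_Phi φ) (fderiv ℂ (e1_Phi φ) q) q ∧
      (∀ w, (fderiv ℂ (e1_Phi φ) q w).1 = fderiv ℂ φ q.1 w.1) ∧
      ∀ u v, fderiv ℂ (e1_Phi φ) q (0, (u, v)) = (0, (fderiv ℂ φ q.1 u, fderiv ℂ φ q.1 v)) := by
  have : CompleteSpace E := FiniteDimensional.complete ℂ E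
  have h1 : HasFDerivAt (fun q : E × (E × E) => q.1) (ContinuousLinearMap.fst ℂ E (E × E)) q :=
    hasFDerivAt_fst
  have h2 : HasFDerivAt (fun q : E × (E × E) => q.2) (ContinuousLinearMap.snd ℂ E (E × E)) q :=
    hasFDerivAt_snd
  have h21 : HasFDerivAt (fun q : E × (E × E) => q.2.1)
      ((ContinuousLinearMap.fst ℂ E E).comp (ContinuousLinearMap.snd ℂ E (E × E))) q :=
    (ContinuousLinearMap.fst ℂ E E).hasFDerivAt.comp q h2
  have h22 : HasFDerivAt (fun q : E × (E × E) => q.2.2)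
      ((ContinuousLinearMap.snd ℂ E E).comp (ContinuousLinearMap.snd ℂ E (E × E))) q :=
    (ContinuousLinearMap.snd ℂ E E).hasFDerivAt.comp q h2
  have h3 : HasFDerivAt (fun q : E × (E × E) => φ q.1)
      ((fderiv ℂ φ q.1).comp (ContinuousLinearMap.fst ℂ E (E × E))) q :=
    hφ.differentiableAt.hasFDerivAt.comp q h1
  have h4 : HasFDerivAt (fun q : E × (E × E) => fderiv ℂ φ q.1)
      ((fderiv ℂ (fderiv ℂ φ) q.1).comp (ContinuousLinearMap.fst ℂ E (E × E))) q :=
    HasFDerivAt.comp (g := fderiv ℂ φ) q hφ.fderiv.differentiableAt.hasFDerivAt h1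
  have h5 := h4.clm_apply h21
  have h6 := h4.clm_apply h22
  have h7 := h3.prodMk (h5.prodMk h6)
  have h8 : HasFDerivAt (e1_Phi φ) _ q := h7
  refine ⟨h8.differentiableAt.hasFDerivAt, ?_, ?_⟩
  · intro w
    rw [h8.fderiv]
    rfl
  · intro u v
    rw [h8.fderiv]
    simp

theorem e1_conv {F : Type} [NormedAddCommGroup F] [NormedSpace ℂ F] {f : ModelProd E (E × E) → F}
    {p : ModelProd E (E × E)} (h : DifferentiableAt ℂ (fun q : E × (E × E) => f q) p) :
    MDifferentiableAt (𝓘(ℂ, E).prod 𝓘(ℂ, E × E)) 𝓘(ℂ, F) f p := by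
  rw [mdifferentiableAt_iff]
  refine ⟨h.continuousAt, ?_⟩
  simp only [writtenInExtChartAt, extChartAt, OpenPartialHomeomorph.extend, chartAt_self_eq,
    mfld_simps]
  rw [Prod.map_id, range_id, differentiableWithinAt_univ]
  exact h

/-- the map of the pairs of tangent vectors -/
noncomputable def e1_Pi (π : X' → X) (p : BR.TangentPairs E X') : BR.TangentPairs E X :=
  (⟨π p.proj, (e1_D (E := E) π p.proj p.2.1, e1_D (E := E) π p.proj p.2.2)⟩ :
    BR.TangentPairs E X)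

theorem e1_square {π : X' → X} (hπ : MDifferentiable 𝓘(ℂ, E) 𝓘(ℂ, E) π) (x₀ : X')
    {q : E × (E × E)} (hq : q.1 ∈ (chartAt E x₀).target)
    (hs : π ((chartAt E x₀).symm q.1) ∈ (chartAt E (π x₀)).source) :
    e1_Pi (E := E) π ((frm_chart (E := E) x₀).symm q) =
      (frm_chart (E := E) (π x₀)).symm (e1_Phi (e1_phi (E := E) π x₀ (π x₀)) q) := by
  obtain ⟨ξ, u, v⟩ := q
  have h1 : e1_Pi (E := E) π ((frm_chart (E := E) x₀).symm (ξ, (u, v))) ∈
      (frm_chart (E := E) (π x₀)).source := by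
    rw [frm_source, frm_symm x₀ hq]
    exact hs
  have h2 : frm_chart (E := E) (π x₀) (e1_Pi (E := E) π ((frm_chart (E := E) x₀).symm (ξ, (u, v)))) =
      e1_Phi (e1_phi (E := E) π x₀ (π x₀)) (ξ, (u, v)) := by
    rw [frm_symm x₀ hq]
    unfold e1_Pi e1_Phi
    rw [frm_apply]
    have k1 := e1_K hπ x₀ (π x₀) hq hs u
    have k2 := e1_K hπ x₀ (π x₀) hq hs v
    exact Prod.ext rfl (Prod.ext k1 k2)
  rw [← h2]
  exact ((frm_chart (E := E) (π x₀)).left_inv h1).symm

theorem e1_ev {π : X' → X} (hπ : MDifferentiable 𝓘(ℂ, E) 𝓘(ℂ, E) π) (x₀ : X')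
    {q : E × (E × E)} (hq : q.1 = chartAt E x₀ x₀) :
    ∀ᶠ q' in 𝓝 q, q'.1 ∈ (chartAt E x₀).target ∧
      π ((chartAt E x₀).symm q'.1) ∈ (chartAt E (π x₀)).source := by
  have h1 := e1_open (E := E) hπ.continuous x₀ (π x₀)
  have h2 : q.1 ∈ ((chartAt E x₀).target ∩
      (fun ξ => π ((chartAt E x₀).symm ξ)) ⁻¹' (chartAt E (π x₀)).source) := by
    rw [hq]
    refine ⟨(chartAt E x₀).map_source (mem_chart_source E x₀), ?_⟩
    show π ((chartAt E x₀).symm (chartAt E x₀ x₀)) ∈ (chartAt E (π x₀)).source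
    rw [(chartAt E x₀).left_inv (mem_chart_source E x₀)]
    exact mem_chart_source E (π x₀)
  exact continuous_fst.continuousAt.preimage_mem_nhds (h1.mem_nhds h2)

theorem e1_comp_diff {π : X' → X} (hπ : MDifferentiable 𝓘(ℂ, E) 𝓘(ℂ, E) π) (x₀ : X')
    {τ : BR.TangentPairs E X → ℂ}
    (hτ : MDifferentiable (𝓘(ℂ, E).prod 𝓘(ℂ, E × E)) 𝓘(ℂ, ℂ) τ)
    {q : E × (E × E)} (hq : q.1 = chartAt E x₀ x₀) :
    AnalyticAt ℂ (e1_phi (E := E) π x₀ (π x₀)) q.1 ∧
    HasFDerivAt (fun q : E × (E × E) => τ ((frm_chart (E := E) (π x₀)).symm q))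
      (fderiv ℂ (fun q : E × (E × E) => τ ((frm_chart (E := E) (π x₀)).symm q))
        (e1_Phi (e1_phi (E := E) π x₀ (π x₀)) q)) (e1_Phi (e1_phi (E := E) π x₀ (π x₀)) q) := by
  obtain ⟨h1, h2⟩ := (e1_ev hπ x₀ hq).self_of_nhds
  refine ⟨e1_an hπ x₀ (π x₀) h1 h2, ?_⟩
  refine DifferentiableAt.hasFDerivAt ?_
  refine frm_diff hτ (π x₀) ?_
  exact (chartAt E (π x₀)).map_source h2

theorem e1_fst (x₀ : X') (p : BR.TangentPairs E X') :
    (frm_chart (E := E) x₀ p).1 = chartAt E x₀ p.proj := by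
  obtain ⟨x, u, v⟩ := p
  exact congrArg Prod.fst (frm_apply (E := E) x₀ x u v)

theorem e1_hol {π : X' → X} (hπ : MDifferentiable 𝓘(ℂ, E) 𝓘(ℂ, E) π)
    {τ : BR.TangentPairs E X → ℂ}
    (hτ : MDifferentiable (𝓘(ℂ, E).prod 𝓘(ℂ, E × E)) 𝓘(ℂ, ℂ) τ) :
    MDifferentiable (𝓘(ℂ, E).prod 𝓘(ℂ, E × E)) 𝓘(ℂ, ℂ)
      (fun p : BR.TangentPairs E X' => τ (e1_Pi π p)) := by
  intro p
  set x₀ := p.proj with hx₀
  set Φ := e1_Phi (e1_phi (E := E) π x₀ (π x₀)) with hΦ
  have hps : p ∈ (frm_chart (E := E) x₀).source := by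
    rw [frm_source]
    exact mem_chart_source E x₀
  set q₀ : E × (E × E) := frm_chart (E := E) x₀ p with hq₀
  have hq1 : q₀.1 = chartAt E x₀ x₀ := by
    rw [hq₀, e1_fst]
  obtain ⟨han, hd⟩ := e1_comp_diff hπ x₀ hτ hq1
  have h1 : DifferentiableAt ℂ (fun q : E × (E × E) =>
      τ ((frm_chart (E := E) (π x₀)).symm (Φ q))) q₀ :=
    (hd.comp q₀ (e1_Phi_deriv han).1).differentiableAt
  have h2 : MDifferentiableAt (𝓘(ℂ, E).prod 𝓘(ℂ, E × E)) 𝓘(ℂ, ℂ)
      (fun q : ModelProd E (E × E) => τ ((frm_chart (E := E) (π x₀)).symm (Φ q)))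
      (frm_chart (E := E) x₀ p) := e1_conv h1
  have h3 : MDifferentiableAt (𝓘(ℂ, E).prod 𝓘(ℂ, E × E)) (𝓘(ℂ, E).prod 𝓘(ℂ, E × E))
      (frm_chart (E := E) x₀) p := mdifferentiableAt_atlas (chart_mem_atlas _ _) hps
  have h4 : MDifferentiableAt (𝓘(ℂ, E).prod 𝓘(ℂ, E × E)) 𝓘(ℂ, ℂ)
      (fun p' => τ ((frm_chart (E := E) (π x₀)).symm (Φ (frm_chart (E := E) x₀ p')))) p :=
    h2.comp (f := fun p' => frm_chart (E := E) x₀ p') p h3
  refine h4.congr_of_eventuallyEq ?_
  have h5 : ContinuousAt (frm_chart (E := E) x₀) p := (frm_chart (E := E) x₀).continuousAt hps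
  have h6 : ∀ᶠ p' in 𝓝 p, (frm_chart (E := E) x₀ p').1 ∈ (chartAt E x₀).target ∧
      π ((chartAt E x₀).symm (frm_chart (E := E) x₀ p').1) ∈ (chartAt E (π x₀)).source :=
    h5.tendsto.eventually (e1_ev hπ x₀ hq1)
  filter_upwards [h6, (frm_chart (E := E) x₀).open_source.mem_nhds hps] with p' hp' hps'
  have h7 := e1_square hπ x₀ (q := frm_chart (E := E) x₀ p') hp'.1 hp'.2
  show τ (e1_Pi π p') = τ ((frm_chart (E := E) (π x₀)).symm (Φ (frm_chart (E := E) x₀ p')))
  rw [hΦ, ← h7, (frm_chart (E := E) x₀).left_inv hps']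

theorem e1_tcc_self (x : X) (u : E) : tangentCoordChange 𝓘(ℂ, E) x x x u = u := by
  refine tangentCoordChange_self ?_
  simp only [extChartAt_source]
  exact mem_chart_source E x

theorem e1_main {π : X' → X} (hπ : MDifferentiable 𝓘(ℂ, E) 𝓘(ℂ, E) π)
    (hi : ∀ (x' : X') (v : E), (SS.dirDeriv π x' v : E) = 0 → v = 0)
    (hX : BR.PlaneAmple E X) : BR.PlaneAmple E X' := by
  obtain ⟨k, L, τ, hk, hτ, h⟩ := hX
  have hD : ∀ (x : X') (w : E), e1_D (E := E) π x w = 0 → w = 0 := by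
    intro x w hw
    refine hi x w ?_
    rw [e1_deriv hπ]
    exact hw
  refine ⟨k, L, fun i p => τ i (e1_Pi π p), hk, fun i => ⟨e1_hol hπ (hτ i).hol, ?_⟩, ?_⟩
  · intro x a b c d u v
    have h1 : e1_Pi (E := E) π (⟨x, (a • u + b • v, c • u + d • v)⟩ : BR.TangentPairs E X') =
        (⟨π x, (a • e1_D (E := E) π x u + b • e1_D (E := E) π x v,
          c • e1_D (E := E) π x u + d • e1_D (E := E) π x v)⟩ : BR.TangentPairs E X) := by
      show (⟨π x, (e1_D (E := E) π x (a • u + b • v), e1_D (E := E) π x (c • u + d • v))⟩ :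
        BR.TangentPairs E X) = _
      rw [map_add, map_add, map_smul, map_smul, map_smul, map_smul]
    show τ i (e1_Pi (E := E) π (⟨x, (a • u + b • v, c • u + d • v)⟩ : BR.TangentPairs E X')) = _
    rw [h1]
    exact (hτ i).equi (π x) a b c d _ _
  · intro x u v huv
    obtain ⟨h1, h2⟩ := h (π x) _ _ (frm_li (hD x) huv)
    refine ⟨h1, ?_⟩
    intro ξ' u' v' m hm
    set φ := e1_phi (E := E) π x (π x) with hφ
    set p : BR.TangentPairs E X' := ⟨x, (u, v)⟩ with hp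
    have hq : frm_chart (E := E) x p = (chartAt E x x, (u, v)) := by
      rw [hp, frm_apply, e1_tcc_self, e1_tcc_self]
    set q₀ : E × (E × E) := (chartAt E x x, (u, v)) with hq₀
    have hΦq : e1_Phi φ q₀ = (chartAt E (π x) (π x), (e1_D (E := E) π x u, e1_D (E := E) π x v)) := by
      have : φ (chartAt E x x) = chartAt E (π x) (π x) := by
        rw [hφ]
        unfold e1_phi
        rw [(chartAt E x).left_inv (mem_chart_source E x)]
      exact Prod.ext this rfl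
    have hq' : frm_chart (E := E) (π x) (e1_Pi π p) = e1_Phi φ q₀ := by
      rw [hΦq]
      show frm_chart (E := E) (π x) (⟨π x, (e1_D (E := E) π x u, e1_D (E := E) π x v)⟩ :
        BR.TangentPairs E X) = _
      rw [frm_apply, e1_tcc_self, e1_tcc_self]
    have key : ∀ i (w : E × (E × E)),
        (mfderiv (𝓘(ℂ, E).prod 𝓘(ℂ, E × E)) 𝓘(ℂ, ℂ) (fun p => τ i (e1_Pi π p)) p w : ℂ) =
        (mfderiv (𝓘(ℂ, E).prod 𝓘(ℂ, E × E)) 𝓘(ℂ, ℂ) (τ i) (e1_Pi π p)
          (fderiv ℂ (e1_Phi φ) q₀ w) : ℂ) := by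
      intro i w
      have hdif := (hτ i).hol
      rw [frm_mfderiv (e1_hol hπ hdif) p w, frm_mfderiv hdif (e1_Pi π p)]
      show fderiv ℂ (fun q : E × (E × E) => τ i (e1_Pi π ((frm_chart (E := E) x).symm q)))
        (frm_chart (E := E) x p) w =
        fderiv ℂ (fun q : E × (E × E) => τ i ((frm_chart (E := E) (π x)).symm q))
          (frm_chart (E := E) (π x) (e1_Pi π p)) (fderiv ℂ (e1_Phi φ) q₀ w)
      rw [hq, hq']
      obtain ⟨han, hd⟩ := e1_comp_diff hπ x hdif (q := q₀) rfl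
      have h3 := (hd.comp q₀ (e1_Phi_deriv han).1).fderiv
      have h4 : (fun q : E × (E × E) => τ i (e1_Pi π ((frm_chart (E := E) x).symm q))) =ᶠ[𝓝 q₀]
          (fun q : E × (E × E) => τ i ((frm_chart (E := E) (π x)).symm q)) ∘ e1_Phi φ := by
        filter_upwards [e1_ev hπ x (q := q₀) rfl] with q' hq1
        show τ i (e1_Pi π ((frm_chart (E := E) x).symm q')) =
          τ i ((frm_chart (E := E) (π x)).symm (e1_Phi φ q'))
        rw [e1_square hπ x hq1.1 hq1.2]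
      rw [h4.fderiv_eq, h3]
      rfl
    have han : AnalyticAt ℂ φ q₀.1 := by
      obtain ⟨g1, g2⟩ := (e1_ev hπ x (q := q₀) rfl).self_of_nhds
      exact e1_an hπ x (π x) g1 g2
    obtain ⟨-, hf1, hf2⟩ := e1_Phi_deriv han
    have hDφ : fderiv ℂ φ q₀.1 = e1_D (E := E) π x := rfl
    have h5 := h2 (fderiv ℂ (e1_Phi φ) q₀ (ξ', (u', v'))).1
      (fderiv ℂ (e1_Phi φ) q₀ (ξ', (u', v'))).2.1 (fderiv ℂ (e1_Phi φ) q₀ (ξ', (u', v'))).2.2 m
      (fun i => by
        have h6 := key i (ξ', (u', v'))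
        rw [hm i] at h6
        exact h6.symm)
    obtain ⟨h6, h7, h8⟩ := h5
    have h9 : ξ' = 0 := by
      refine hD x ξ' ?_
      rw [← hDφ, ← h6, hf1]
    subst h9
    rw [hf2] at h7 h8
    exact ⟨rfl, frm_span (hD x) h7, frm_span (hD x) h8⟩

theorem etale_planeAmple_pr {π : X' → X} (hπ : MDifferentiable 𝓘(ℂ, E) 𝓘(ℂ, E) π)
    (hi : ∀ (x' : X') (v : E), (SS.dirDeriv π x' v : E) = 0 → v = 0)
    (hX : BrodyRigid.PlaneAmple E X) : BrodyRigid.PlaneAmple E X' :=
  BrodyRigid.planeAmple_iff.2 (e1_main hπ hi (BrodyRigid.planeAmple_iff.1 hX))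



end etale

end Pool.Agent.IS

namespace Pool.Agent.IS

alias etale_planeAmple := etale_planeAmple_pr

end Pool.Agent.IS
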