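import Pool.Agent.Lib_helper80.IS.Base

/-! # Block R9: uniform lifts (MP_45e720_ag) -/

set_option autoImplicit false
set_option linter.unusedVariables false
set_option linter.unusedSectionVars false

open Filter Topology Metric Set
open scoped Manifold ContDiff

namespace Pool.Agent.IS

open Pool.Agent.BR Pool.Agent.MBS Pool.Agent.SL

section lift

variable {E X : Type} [NormedAddCommGroup E] [NormedSpace ℂ E] [FiniteDimensional ℂ E]
  [MetricSpace X] {A : Cha E X} {n : ℕ} {ι : X → PP n}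

private theorem r9_cont {x : X} {G : X → Fin (n + 1) → ℂ}
    (hG : ∀ i, x ∈ (A.ch i).source → AnalyticAt ℂ (fun ξ => G ((A.ch i).symm ξ)) (A.ch i x)) :
    ContinuousAt G x := by
  obtain ⟨i, hi⟩ := A.cover x
  have hs : x ∈ (A.ch i).source := A.W_sub i (subset_closure hi)
  have h1 : ContinuousAt (fun ξ => G ((A.ch i).symm ξ)) (A.ch i x) := (hG i hs).continuousAt
  have h2 : ContinuousAt (A.ch i) x := (A.ch i).continuousAt hs
  have h3 : ContinuousAt (fun y => G ((A.ch i).symm (A.ch i y))) x :=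
    ContinuousAt.comp (f := A.ch i) (g := fun ξ => G ((A.ch i).symm ξ)) h1 h2
  refine h3.congr ?_
  filter_upwards [(A.ch i).open_source.mem_nhds hs] with y hy
  rw [(A.ch i).left_inv hy]

private theorem r9_comp {h : ℂ → X} {z : ℂ} (hh : A.HolAt h z) {G : X → Fin (n + 1) → ℂ}
    (hG : ∀ i, h z ∈ (A.ch i).source →
      AnalyticAt ℂ (fun ξ => G ((A.ch i).symm ξ)) (A.ch i (h z))) :
    AnalyticAt ℂ (fun w => G (h w)) z := by
  obtain ⟨i, hi⟩ := A.cover (h z)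
  have hs : h z ∈ (A.ch i).source := A.W_sub i (subset_closure hi)
  have h1 := hG i hs
  have h2 : AnalyticAt ℂ (A.loc i h) z := hh.2 i hs
  have h3 : AnalyticAt ℂ (fun w => G ((A.ch i).symm (A.loc i h w))) z :=
    AnalyticAt.comp (g := fun ξ => G ((A.ch i).symm ξ)) (f := A.loc i h) h1 h2
  refine h3.congr ?_
  have h4 : ∀ᶠ w in 𝓝 z, h w ∈ (A.ch i).source :=
    hh.1.eventually ((A.ch i).open_source.mem_nhds hs)
  filter_upwards [h4] with w hw
  show G ((A.ch i).symm (A.ch i (h w))) = G (h w)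
  rw [(A.ch i).left_inv hw]

private theorem r9_local (hι : Plift A n ι) (x : X) :
    ∃ (r C : ℝ) (G : X → Fin (n + 1) → ℂ) (p : Fin (n + 1)), 0 < r ∧ 0 ≤ C ∧ ∀ x' ∈ ball x r,
      (∃ h : G x' ≠ 0, ι x' = Projectivization.mk ℂ (G x') h) ∧
      (∀ i, x' ∈ (A.ch i).source →
        AnalyticAt ℂ (fun ξ => G ((A.ch i).symm ξ)) (A.ch i x')) ∧
      G x' p ≠ 0 ∧ ‖(G x' p)⁻¹ • G x'‖ ≤ C := by
  obtain ⟨G, hG⟩ := hι.lift x
  have hx := hG.self_of_nhds
  obtain ⟨⟨h0, -⟩, hxa⟩ := hx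
  obtain ⟨p, hp⟩ : ∃ p, G x p ≠ 0 := by
    by_contra hcon
    push Not at hcon
    exact h0 (funext hcon)
  have hc : ContinuousAt G x := r9_cont hxa
  have hcp : ContinuousAt (fun y => G y p) x := (continuous_apply p).continuousAt.comp hc
  have h1 : ∀ᶠ y in 𝓝 x, G y p ≠ 0 := hcp.eventually_ne hp
  have h2 : ContinuousAt (fun y => (G y p)⁻¹ • G y) x := (hcp.inv₀ hp).smul hc
  have h3 : ∀ᶠ y in 𝓝 x, ‖(G y p)⁻¹ • G y‖ < ‖(G x p)⁻¹ • G x‖ + 1 :=
    h2.norm.eventually_lt_const (by linarith)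
  obtain ⟨r, hr, hb⟩ := Metric.eventually_nhds_iff_ball.1 (hG.and (h1.and h3))
  refine ⟨r, ‖(G x p)⁻¹ • G x‖ + 1, G, p, hr, by positivity, fun y hy => ?_⟩
  obtain ⟨⟨ha, hb'⟩, hc', hd⟩ := hb y hy
  exact ⟨ha, hb', hc', hd.le⟩

/-- BLOCK R9. -/
theorem unif_lift_pr [CompactSpace X] (hι : Plift A n ι) {h : ℂ → X} (hh : ∀ z, A.HolAt h z)
    (hu : ∀ ε > 0, ∃ δ > 0, ∀ z z' : ℂ, ‖z - z'‖ < δ → dist (h z) (h z') < ε) :
    UnifLift (fun z => ι (h z)) := by
  classical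
  choose r C G p hr hC hb using r9_local (A := A) hι
  obtain ⟨t, ht⟩ := (isCompact_univ (X := X)).elim_finite_subcover (fun x => ball x (r x))
    (fun x => isOpen_ball) (fun x _ => mem_iUnion.2 ⟨x, mem_ball_self (hr x)⟩)
  have hcov : (univ : Set X) ⊆ ⋃ i : t, ball (i : X) (r i) := by
    intro y hy
    obtain ⟨x, hx⟩ := mem_iUnion.1 (ht hy)
    obtain ⟨hxt, hx'⟩ := mem_iUnion.1 hx
    exact mem_iUnion.2 ⟨⟨x, hxt⟩, hx'⟩
  obtain ⟨lam, hlam, hleb⟩ := lebesgue_number_lemma_of_metric (isCompact_univ (X := X))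
    (c := fun i : t => ball (i : X) (r i)) (fun i => isOpen_ball) hcov
  obtain ⟨δ, hδ, hd⟩ := hu lam hlam
  refine ⟨δ, ∑ x ∈ t, C x, hδ, fun z₀ => ?_⟩
  obtain ⟨⟨x, hxt⟩, hx⟩ := hleb (h z₀) (mem_univ _)
  have hmem : ∀ z ∈ ball z₀ δ, h z ∈ ball x (r x) := by
    intro z hz
    refine hx ?_
    rw [mem_ball]
    exact hd z z₀ (by rw [← dist_eq_norm]; exact hz)
  refine ⟨fun z => (G x (h z) (p x))⁻¹ • G x (h z), p x, fun z hz => ?_, fun z hz => ?_⟩
  · obtain ⟨-, ha, hp, -⟩ := hb x (h z) (hmem z hz)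
    have h1 : AnalyticAt ℂ (fun w => G x (h w)) z := r9_comp (hh z) ha
    have h2 : AnalyticAt ℂ (fun w => G x (h w) (p x)) z :=
      (ContinuousLinearMap.proj (R := ℂ) (φ := fun _ : Fin (n + 1) => ℂ) (p x)).analyticAt _ |>.comp h1
    have h3 : AnalyticAt ℂ (fun w => (G x (h w) (p x))⁻¹ • G x (h w)) z := (h2.inv hp).smul h1
    exact h3.differentiableAt.differentiableWithinAt
  · obtain ⟨⟨hne, heq⟩, -, hp, hn⟩ := hb x (h z) (hmem z hz)
    have hne' : (G x (h z) (p x))⁻¹ • G x (h z) ≠ 0 := smul_ne_zero (inv_ne_zero hp) hne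
    refine ⟨?_, ?_, hne', ?_⟩
    · simp [hp]
    · exact hn.trans (Finset.single_le_sum (f := C) (fun y _ => hC y) hxt)
    · show ι (h z) = _
      rw [heq, Projectivization.mk_eq_mk_iff']
      exact ⟨G x (h z) (p x), by rw [smul_smul, mul_inv_cancel₀ hp, one_smul]⟩

end lift



end Pool.Agent.IS

namespace Pool.Agent.IS

alias unif_lift := unif_lift_pr

end Pool.Agent.IS
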